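import Pool.Agent.FPZ.Defs

set_option autoImplicit false

/-!
# FPZ targets 3: swap trick, uniqueness, automorphisms, intertwining

Every target has its complete proof in the docstring.
-/

open scoped Classical
open MeasureTheory

noncomputable section

namespace Pool.Agent.FPZ

/-! ## Algebra of isometries between projections -/

/-- PRM. The permutation unitary. PROOF. `q s = v s star (v s)`, `e = 1 - ∑ q s`, `U = e + ∑ s, v (π s) star (v s)`; direct computation with `star (v s) v s' = 0` or `p` (`v s p = v s` because `v s (1 - p) = 0`). -/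
def T_PRM : Prop := ∀ (A S : Type) [CStarAlgebra A] [Fintype S] (p : A) (v : S → A) (π : S ≃ S), IsStarProjection p →
  (∀ s, star (v s) * v s = p) → (∀ s s', s ≠ s' → star (v s) * v s' = 0) →
  ∃ U : A, star U * U = 1 ∧ U * star U = 1 ∧ U * (1 - ∑ s, v s * star (v s)) = 1 - ∑ s, v s * star (v s) ∧ (1 - ∑ s, v s * star (v s)) * U = 1 - ∑ s, v s * star (v s) ∧
    ∀ c : S → ℂ, U * (∑ s, c s • (v s * star (v s))) * star U = ∑ s, c s • (v (π s) * star (v (π s)))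

/-- DGN. Norm of a diagonal element. PROOF. `X = ∑ c s • q s`, `star X * X = ∑ ‖c s‖² • q s ≤ ε² ∑ q s ≤ ε²`; or orthogonality of the `q s` and `‖X‖ ^ (2 ^ k)`. -/
def T_DGN : Prop := ∀ (A S : Type) [CStarAlgebra A] [Fintype S] (p : A) (v : S → A) (c : S → ℂ) (ε : ℝ), IsStarProjection p → 0 ≤ ε →
  (∀ s, star (v s) * v s = p) → (∀ s s', s ≠ s' → star (v s) * v s' = 0) → (∀ s, ‖c s‖ ≤ ε) → ‖∑ s, c s • (v s * star (v s))‖ ≤ ε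

/-- OSM. Norm of a sum with orthogonal supports. PROOF. `X = ∑ V i c i star (V i)`, `star X * X = ∑ V i star (c i) e (c i) star (V i) ≤ ε² ∑ V i star (V i) ≤ ε²` (`V i e = V i`; the `V i star (V i)` are orthogonal projections). -/
def T_OSM : Prop := ∀ (A : Type) [CStarAlgebra A] (e : A) (m : ℕ) (V c : ℕ → A) (ε : ℝ), IsStarProjection e → 0 ≤ ε →
  (∀ i < m, star (V i) * V i = e) → (∀ i < m, ∀ j < m, i ≠ j → star (V i) * V j = 0) → (∀ i < m, ‖c i‖ ≤ ε) →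
  ‖∑ i ∈ Finset.range m, V i * c i * star (V i)‖ ≤ ε

/-- CHN. The chain of swaps (may use T_OSM). PROOF. `r = V i star (V i)`, `U i = V i + star (V i) + 1 - e - r` is a selfadjoint unitary (`V e = V`, `e V = 0`, `V V = V e V = 0`). For `a = e a e` and `D e = e D = 0`: `U a U = V a star V`; `U r = star V`, `U (1 - e - r) = 1 - e - r`, so
`U D U = star V D V + star V D (1-e-r) + (1-e-r) D V + (1-e-r) D (1-e-r)`, and with `D V ≈ V a'`, `star V D ≈ a' star V` (errors `θ`, `a' = a g (i+1)`): `star V D V ≈ a'`, the two middle terms are small, the last one is `≈ D - V a' star V`. Altogether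
`U i (a g i + D g) U i = a g (i+1) + D g + V i (a g i - a g (i+1)) star (V i) + (error ≤ 10 θ)`. `U i` commutes with `V j c star (V j)` for `j < i` (`U i V j = V j`). So after `m` steps, `U = U (m-1) ⋯ U 0`, the result is `a g m + D g + ∑_{j<m} V j (a g j - a g (j+1)) star (V j)` up to
`10 m θ`, and the sum has norm `≤ δ` by T_OSM. -/
def T_CHN : Prop := ∀ (A X : Type) [CStarAlgebra A] (e : A) (m : ℕ) (V : ℕ → A) (D : X → A) (a : X → ℕ → A) (δ θ : ℝ), IsStarProjection e → 0 ≤ δ → 0 ≤ θ →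
  (∀ i < m, star (V i) * V i = e) → (∀ i < m, ∀ j < m, i ≠ j → star (V i) * V j = 0) → (∀ i < m, e * V i = 0) →
  (∀ g, D g * e = 0 ∧ e * D g = 0) → (∀ g i, e * a g i = a g i ∧ a g i * e = a g i) →
  (∀ g, ∀ i < m, ‖D g * V i - V i * a g (i + 1)‖ ≤ θ ∧ ‖star (V i) * D g - a g (i + 1) * star (V i)‖ ≤ θ) →
  (∀ g, ∀ i < m, ‖a g i - a g (i + 1)‖ ≤ δ) →
  ∃ U : A, star U * U = 1 ∧ U * star U = 1 ∧ ∀ g, ‖U * (a g 0 + D g) * star U - (a g m + D g)‖ ≤ δ + 10 * m * θ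

/-- VCO. Construction of the isometry `V` (may use T_PLE). PROOF. `V₀ = ∑ s j * l j * e`; `star V₀ V₀ = ∑ e l j e l j e = e + ∑ e l j (e l j - l j e) e`, `‖l j‖ ≤ 1`, so `‖star V₀ V₀ - e‖ ≤ N δ`; T_PLE gives `x`, `V = V₀ x = V₀ x e`, `‖x - 1‖ ≤ 2 N δ`, `c j = l j e x`.
`D V₀ - V₀ e G e = M V₀ + ∑ s j l j (1 - e) G e + ∑ s j (γ j - G) l j e` (`s j = s j e`, `l j e G e = l j G e - l j (1-e) G e`). Norms: `θ ‖V₀‖`; `‖(1-e) G e‖ ≤ δ` (`‖∑ s j l j Y‖² = ‖Y* ∑ l j e l j Y‖ ≤ ‖Y‖²`); `‖∑ e star ((γ j - G) l j) e ((γ j - G) l j) e‖ ≤ θ²`. So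
`‖D V₀ - V₀ e G e‖ ≤ 3 θ + δ`. Finally `D V - V e G e = (D V₀ - V₀ e G e) x + V₀ (e G e x - x e G e)`, `‖e G e x - x e G e‖ ≤ 4 N δ ‖G‖`, `‖V₀‖ ≤ 5/4`, `‖x‖ ≤ 3/2`. -/
def T_VCO : Prop := ∀ (A X : Type) [CStarAlgebra A] (e : A) (N : ℕ) (s l : Fin N → A) (G D : X → A) (γ : X → Fin N → ℂ) (δ θ : ℝ), IsStarProjection e → 0 ≤ δ → 0 ≤ θ →
  N * δ ≤ 1 / 4 → (∀ j, star (s j) * s j = e) → (∀ i j, i ≠ j → star (s i) * s j = 0) → (∀ j, star (l j) = l j) → ∑ j, l j * l j = 1 →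
  (∀ j, ‖l j * e - e * l j‖ ≤ δ) → (∀ x, ‖G x * e - e * G x‖ ≤ δ) → (∀ x j, l j * G x = G x * l j) →
  (∀ x, ‖∑ j, star ((G x - γ x j • 1) * l j) * ((G x - γ x j • 1) * l j)‖ ≤ θ ^ 2) →
  (∀ x, ∃ M : A, ‖M‖ ≤ θ ∧ ∀ j, D x * s j = γ x j • s j + M * s j) →
  ∃ (V : A) (c : Fin N → A), star V * V = e ∧ V = ∑ j, s j * c j ∧ V * e = V ∧
    ∀ x, ‖D x * V - V * (e * G x * e)‖ ≤ 5 * θ + 5 * (N * ‖G x‖ + 1) * δ

/-- QCO. PROOF. `a Q - Q a = (a Q - D) - (Q a - D)`, `‖Q a - D‖ = ‖star a Q - star D‖`. `a - ((1-Q) a (1-Q) + D) = (a Q - D) + (Q a - D) (1 - Q)` (`D (1 - Q) = 0`). -/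
def T_QCO : Prop := ∀ (A : Type) [CStarAlgebra A] (Q a D : A) (ε : ℝ), IsStarProjection Q → Q * D = D → D * Q = D → ‖a * Q - D‖ ≤ ε → ‖star a * Q - star D‖ ≤ ε →
  ‖a * (1 - Q) - (1 - Q) * a‖ ≤ 2 * ε ∧ ‖a - ((1 - Q) * a * (1 - Q) + D)‖ ≤ 2 * ε

/-! ## Assembly -/

/-- GRS. Groups of slots. PROOF. `T i j = {⟨k j, a⟩ | (i N + j) (K + 1) ≤ a < (i N + j + 1) (K + 1)}`. -/
def T_GRS : Prop := ∀ (K m N : ℕ) (n : Fin K → ℕ) (k : Fin N → Fin K), (∀ a, m * N * (K + 1) ≤ n a) →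
  ∃ T : Fin m → Fin N → Finset (Σ a : Fin K, Fin (n a)), (∀ i j, (T i j).card = K + 1) ∧ (∀ i j, ∀ s ∈ T i j, s.1 = k j) ∧
    ∀ i j i' j', (i, j) ≠ (i', j') → Disjoint (T i j) (T i' j')

/-- HTP. Discretisation of a homotopy. PROOF. `H : [0,1] × Z → Z` is uniformly continuous, `fi i = H (i / m)`. -/
def T_HTP : Prop := ∀ (Z : Type) [MetricSpace Z] [CompactSpace Z] (f : C(Z, Z)) (F : Finset C(Z, ℂ)) (ε : ℝ), 0 < ε → ContinuousMap.Homotopic (ContinuousMap.id Z) f →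
  ∃ (m : ℕ) (fi : ℕ → C(Z, Z)), fi 0 = ContinuousMap.id Z ∧ fi m = f ∧ ∀ g ∈ F, ∀ i < m, ∀ z, ‖g (fi i z) - g (fi (i + 1) z)‖ ≤ ε

/-- SYS. The cell system (uses T_HAL, T_CEL, T_DEN, T_CPJ, T_CUT, T_CMP, T_TSB). PROOF. Let `δ` be the minimum of `δ₁`, the `δ₀` of T_HAL and a modulus of uniform continuity of the `h ∈ H` for `ε₃`. T_CEL gives the cells. All cells have positive measure. Take `η = (φ p).re` smaller than the `η₀` of T_HAL and than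
`μ (O k) / (L (K + 1) + 2)` for all `k` (T_DEN); `n k` = the largest natural number with `n k * η < μ (O k)`. T_CPJ gives `v`, T_CUT the estimate. `φ (1 - ∑ q s) = 1 - η ∑ n k ≤ K η`, so for `T.card ≥ K + 1` T_CMP applies to the projections `1 - ∑ q s` and `∑_{s ∈ T} q s`.
A cell meets `ball y δ₁` (positive measure), so `dist (z k) y < 2 δ₁`. -/
def T_SYS : Prop := ∀ (Z A : Type) [MetricSpace Z] [CompactSpace Z] [ConnectedSpace Z] [MeasurableSpace Z] [BorelSpace Z] [CStarAlgebra A] (μ : Measure Z) [IsProbabilityMeasure μ] [μ.IsOpenPosMeasure] (t : ℝ)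
  (φ : A →L[ℂ] ℂ) (ι : C(Z, ℂ) →⋆ₐ[ℂ] A) (κ : ℕ → ℂ × ℂ →⋆ₐ[ℂ] A), FS μ t φ ι κ → Irrational t →
  ∀ (f : C(Z, Z)) (H : Finset C(Z, ℂ)) (ε₃ δ₁ ρ : ℝ) (L : ℕ), Measure.map f μ = μ → 0 < ε₃ → 0 < δ₁ → 0 < ρ →
  ∃ (K : ℕ) (z : Fin K → Z) (n : Fin K → ℕ) (p : A) (v : (Σ k : Fin K, Fin (n k)) → A) (π : (Σ k : Fin K, Fin (n k)) ≃ (Σ k : Fin K, Fin (n k))),
    IsStarProjection p ∧ (∀ s, star (v s) * v s = p) ∧ (∀ s s', s ≠ s' → star (v s) * v s' = 0) ∧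
    (∀ h ∈ H, ‖ι h * (∑ s, v s * star (v s)) - ∑ s, h (z s.1) • (v s * star (v s))‖ ≤ ε₃) ∧
    (∀ T : Finset (Σ k : Fin K, Fin (n k)), K + 1 ≤ T.card → Sub (1 - ∑ s, v s * star (v s)) (∑ s ∈ T, v s * star (v s))) ∧
    (∀ k, L * (K + 1) ≤ n k) ∧ (∀ s, dist (f (z s.1)) (z (π s).1) < ρ) ∧ ∀ y : Z, ∃ k, dist (z k) y < 2 * δ₁

/-- UNI. Uniqueness (uses T_SYS, T_HTP, T_NET, T_GRS, T_VCO, T_CHN, T_PRM, T_DGN, T_QCO). PROOF. W.l.o.g. `F` is closed under `star`, `‖g‖ ≤ C`. T_HTP with `ε/10`: `m`, `fi`. Let `F'` = all `g` and `g.comp (fi i)`; T_NET for `F` with `θ₀ = ε / (1000 (m+1))`: `r, N, y, lam`. `H` = all `g`, `g.comp (fi i)` and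
`toC (lam j ∘ fi i)` and `g.comp f`. T_SYS with `δ₁ = r / 4`, `ρ` a modulus for `g ∈ F` and `ε/10`, `L = m N`, `ε₃ = θ₀ / (1000 (N + 1) (C + 1))`. `q s`, `e = 1 - ∑ q s`, `D g = ∑ g (z s) • q s`. By T_QCO (for `h` and `star h`): `‖ι h e - e ι h‖ ≤ 2 ε₃`, `ι h ≈ e ι h e + ∑ h (z s) q s`.
(i) T_PRM: `U₁` moves `ι (g.comp f) ≈ e ι (g f) e + ∑ g (f (z s)) q s` to `e ι (g f) e + ∑ g (f (z s)) q (π s) ≈ e ι (g f) e + D g` (T_DGN, error `ε/10`). (ii) T_GRS with `k j` a cell with `dist (z (k j)) (y j) < r / 2`; `Sub e (∑_{T i j} q s)` gives `s i j`; `star (s i j) s i' j' = 0` for different pairs and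
`e s i j = 0`, since the ranges are below different `∑_{T i j} q s`. For every `i < m`: T_VCO with `l j = ι (toC (lam j ∘ fi (i+1)))`, `G g = ι (g.comp (fi (i+1)))`, `γ g j = g (y j)`, `M = ∑_j ∑_{s ∈ T i j} (g (z s) - g (y j)) q s`; the function `∑_j lam_j² |g - g (y j)|²` is `≤ θ₀²`.
The `V i` have orthogonal ranges, `e V i = 0`. The estimate for `star (V i) * D g` is the adjoint of the one for `star g`. (iii) T_CHN with `a g i = e ι (g.comp (fi i)) e` gives `U₂` with `U₂ (e ι g e + D g) star U₂ ≈ e ι (g f) e + D g`. `w = star U₂ * U₁`. -/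
def T_UNI : Prop := ∀ (Z A : Type) [MetricSpace Z] [CompactSpace Z] [ConnectedSpace Z] [MeasurableSpace Z] [BorelSpace Z] [CStarAlgebra A] (μ : Measure Z) [IsProbabilityMeasure μ] [μ.IsOpenPosMeasure] (t : ℝ)
  (φ : A →L[ℂ] ℂ) (ι : C(Z, ℂ) →⋆ₐ[ℂ] A) (κ : ℕ → ℂ × ℂ →⋆ₐ[ℂ] A), FS μ t φ ι κ → Irrational t →
  ∀ (f : C(Z, Z)), Measure.map f μ = μ → ContinuousMap.Homotopic (ContinuousMap.id Z) f → ∀ (F : Finset C(Z, ℂ)) (ε : ℝ), 0 < ε →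
  ∃ w : A, star w * w = 1 ∧ w * star w = 1 ∧ ∀ g ∈ F, ‖w * ι (g.comp f) * star w - ι g‖ ≤ ε

/-! ## Automorphisms and embeddings -/

/-- RST. Restriction to the algebra generated by `C(Z)` and the `κ i`, `i ≥ n`. PROOF. Codomain restriction; all conditions are inherited (`cal` in the subalgebra maps onto `cal` in `A`). -/
def T_RST : Prop := ∀ (Z A : Type) [TopologicalSpace Z] [CompactSpace Z] [MeasurableSpace Z] [CStarAlgebra A] (μ : Measure Z) (t : ℝ)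
  (φ : A →L[ℂ] ℂ) (ι : C(Z, ℂ) →⋆ₐ[ℂ] A) (κ : ℕ → ℂ × ℂ →⋆ₐ[ℂ] A) (n : ℕ), FS μ t φ ι κ →
  ∃ (ι' : C(Z, ℂ) →⋆ₐ[ℂ] (GA ι κ {j | n ≤ j} : StarSubalgebra ℂ A)) (κ' : ℕ → ℂ × ℂ →⋆ₐ[ℂ] (GA ι κ {j | n ≤ j} : StarSubalgebra ℂ A)),
    (∀ g, ((ι' g : (GA ι κ {j | n ≤ j} : StarSubalgebra ℂ A)) : A) = ι g) ∧ (∀ i x, ((κ' i x : (GA ι κ {j | n ≤ j} : StarSubalgebra ℂ A)) : A) = κ (n + i) x) ∧
    FS μ t (res φ (GA ι κ {j | n ≤ j})) ι' κ'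

/-- AUT. The inner automorphism of one block (uses T_ISO, T_FRG). PROOF. T_ISO with `I = Bool`, `C true = GA ι κ {j | n ≤ j}`, `C false = EA κ {j | j < n}`, `ι` = inclusions, `ι' true x = w x star w`, `ι' false` = inclusion. The range of `ι' true` is again `GA` (`w` is in it), so freeness of the images is T_FRG;
`φ (w x star w) = φ x`. The same for `star w` gives the inverse (equal to the identity on generators). -/
def T_AUT : Prop := ∀ (Z A : Type) [TopologicalSpace Z] [CompactSpace Z] [MeasurableSpace Z] [CStarAlgebra A] (μ : Measure Z) (t : ℝ)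
  (φ : A →L[ℂ] ℂ) (ι : C(Z, ℂ) →⋆ₐ[ℂ] A) (κ : ℕ → ℂ × ℂ →⋆ₐ[ℂ] A) (n : ℕ) (w : A), FS μ t φ ι κ → w ∈ GA ι κ {j | n ≤ j} → star w * w = 1 → w * star w = 1 →
  ∃ ψ : A ≃⋆ₐ[ℂ] A, (∀ g, ψ (ι g) = w * ι g * star w) ∧ ∀ i < n, ∀ x, ψ (κ i x) = κ i x

/-- EXT. The embedding induced by a measure preserving map (uses T_ISO). PROOF. T_ISO with `I = Option ℕ`, `C none = C(Z, ℂ)`, `C (some i) = ℂ × ℂ`, `ι' none g = ι' (g.comp F)`; subsets of free sets are free; `integral_map`. -/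
def T_EXT : Prop := ∀ (Z Z' A A' : Type) [TopologicalSpace Z] [CompactSpace Z] [MeasurableSpace Z] [BorelSpace Z] [TopologicalSpace Z'] [CompactSpace Z'] [MeasurableSpace Z'] [BorelSpace Z']
  [CStarAlgebra A] [CStarAlgebra A'] (μ : Measure Z) (μ' : Measure Z') (t : ℝ)
  (φ : A →L[ℂ] ℂ) (ι : C(Z, ℂ) →⋆ₐ[ℂ] A) (κ : ℕ → ℂ × ℂ →⋆ₐ[ℂ] A) (φ' : A' →L[ℂ] ℂ) (ι' : C(Z', ℂ) →⋆ₐ[ℂ] A') (κ' : ℕ → ℂ × ℂ →⋆ₐ[ℂ] A') (F : C(Z', Z)),
  FS μ t φ ι κ → FS μ' t φ' ι' κ' → Measure.map F μ' = μ →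
  ∃ α : A →⋆ₐ[ℂ] A', (∀ g, α (ι g) = ι' (g.comp F)) ∧ (∀ i x, α (κ i x) = κ' i x) ∧ Isometry α

/-- APG. Approximation on generators suffices. PROOF. The set of all `a` such that for every `ε > 0` there are finite `T₀ ⊆ T`, `δ > 0` with: `‖θ b - b‖ ≤ δ` on `T₀` implies `‖θ a - a‖ ≤ ε`, for all star homomorphisms `θ` (which are contractive), is a closed star subalgebra containing `T`. -/
def T_APG : Prop := ∀ (A : Type) [CStarAlgebra A] (T : Set A), cal T = ⊤ → ∀ (E : Finset A) (ε : ℝ), 0 < ε →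
  ∃ (T₀ : Finset A) (δ : ℝ), (T₀ : Set A) ⊆ T ∧ 0 < δ ∧ ∀ θ : A →⋆ₐ[ℂ] A, (∀ b ∈ T₀, ‖θ b - b‖ ≤ δ) → ∀ a ∈ E, ‖θ a - a‖ ≤ ε

/-- SEP. PROOF. `C(Z, ℂ)` is separable (`Z` compact metric), `ℂ × ℂ` is separable, countable unions, adjoin and closure. -/
def T_SEP : Prop := ∀ (Z A : Type) [MetricSpace Z] [CompactSpace Z] [CStarAlgebra A] (ι : C(Z, ℂ) →⋆ₐ[ℂ] A) (κ : ℕ → ℂ × ℂ →⋆ₐ[ℂ] A),
  cal (Set.range ι ∪ ⋃ i, Set.range (κ i)) = ⊤ → ∃ d : ℕ → A, DenseRange d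

/-- INT. Approximate intertwining. PROOF. Call `σ : A → A'` admissible if `σ = χ ∘ α ∘ ψ` with automorphisms `χ, ψ`, and similarly `χ ∘ β ∘ ψ : A' → A`. For an admissible `σ = χ α ψ`, finite `E`, `ε > 0` there is an admissible `ρ` with `‖ρ (σ a) - a‖ ≤ ε` on `E`: take `ψ₀` from the first hypothesis for `ψ E`, `ρ = ψ⁻¹ ψ₀ β χ⁻¹`.
The same with the roles exchanged. Recursively choose admissible `σ₁, ρ₁, σ₂, ρ₂, ..` and finite sets `E_k`, `E'_k` (increasing, `d i ∈ E_k` for `i ≤ k`, `d' i ∈ E'_k`, `σ_k E_k ⊆ E'_k`, `ρ_k E'_k ⊆ E_(k+1)`) with `‖ρ_k σ_k a - a‖ ≤ 2⁻ᵏ` on `E_k`, `‖σ_(k+1) ρ_k b - b‖ ≤ 2⁻ᵏ` on `E'_k`. Then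
`‖σ_(k+1) a - σ_k a‖ ≤ ‖a - ρ_k σ_k a‖ + ‖σ_(k+1) ρ_k (σ_k a) - σ_k a‖ ≤ 2 · 2⁻ᵏ` on `E_k`. So `σ_k` converges pointwise on a dense set, hence everywhere (isometries), to an isometric star homomorphism `σ`; similarly `ρ`; `ρ σ = 1`, `σ ρ = 1`. -/
def T_INT : Prop := ∀ (A A' : Type) [CStarAlgebra A] [CStarAlgebra A'] (d : ℕ → A) (d' : ℕ → A') (α : A →⋆ₐ[ℂ] A') (β : A' →⋆ₐ[ℂ] A), DenseRange d → DenseRange d' → Isometry α → Isometry β →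
  (∀ (E : Finset A) (ε : ℝ), 0 < ε → ∃ ψ : A ≃⋆ₐ[ℂ] A, ∀ a ∈ E, ‖ψ (β (α a)) - a‖ ≤ ε) →
  (∀ (E : Finset A') (ε : ℝ), 0 < ε → ∃ ψ : A' ≃⋆ₐ[ℂ] A', ∀ a ∈ E, ‖ψ (α (β a)) - a‖ ≤ ε) →
  Nonempty (A ≃⋆ₐ[ℂ] A')

/-- APX. One half of the hypotheses of T_INT (uses T_APG, T_UNI, T_RST, T_AUT). PROOF. Let `θ = β ∘ α`-type map with `θ (ι g) = ι (g.comp f)`, `θ (κ i x) = κ i x`. T_APG for the generating set `range ι ∪ ⋃ range (κ i)`: finitely many `g`'s and `κ i x` with `i < n`. T_RST and T_UNI give a unitary `w ∈ GA ι κ {j | n ≤ j}` with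
`w ι (g.comp f) star w ≈ ι g`; T_AUT gives `ψ`, and `ψ ∘ θ` is close to the identity on the generators. -/
def T_APX : Prop := ∀ (Z A : Type) [MetricSpace Z] [CompactSpace Z] [ConnectedSpace Z] [MeasurableSpace Z] [BorelSpace Z] [CStarAlgebra A] (μ : Measure Z) [IsProbabilityMeasure μ] [μ.IsOpenPosMeasure] (t : ℝ)
  (φ : A →L[ℂ] ℂ) (ι : C(Z, ℂ) →⋆ₐ[ℂ] A) (κ : ℕ → ℂ × ℂ →⋆ₐ[ℂ] A), FS μ t φ ι κ → Irrational t →
  ∀ (f : C(Z, Z)) (θ : A →⋆ₐ[ℂ] A), Measure.map f μ = μ → ContinuousMap.Homotopic (ContinuousMap.id Z) f → (∀ g, θ (ι g) = ι (g.comp f)) → (∀ i x, θ (κ i x) = κ i x) →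
  ∀ (E : Finset A) (ε : ℝ), 0 < ε → ∃ ψ : A ≃⋆ₐ[ℂ] A, ∀ a ∈ E, ‖ψ (θ a) - a‖ ≤ ε

/-- MNT. The general theorem (uses T_EXT, T_APX, T_SEP, T_INT). -/
def T_MNT : Prop := ∀ (Z Z' A A' : Type) [MetricSpace Z] [CompactSpace Z] [ConnectedSpace Z] [MeasurableSpace Z] [BorelSpace Z] [MetricSpace Z'] [CompactSpace Z'] [ConnectedSpace Z'] [MeasurableSpace Z'] [BorelSpace Z']
  [CStarAlgebra A] [CStarAlgebra A'] (μ : Measure Z) (μ' : Measure Z') [IsProbabilityMeasure μ] [μ.IsOpenPosMeasure] [IsProbabilityMeasure μ'] [μ'.IsOpenPosMeasure] (t : ℝ)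
  (φ : A →L[ℂ] ℂ) (ι : C(Z, ℂ) →⋆ₐ[ℂ] A) (κ : ℕ → ℂ × ℂ →⋆ₐ[ℂ] A) (φ' : A' →L[ℂ] ℂ) (ι' : C(Z', ℂ) →⋆ₐ[ℂ] A') (κ' : ℕ → ℂ × ℂ →⋆ₐ[ℂ] A') (F : C(Z', Z)) (G : C(Z, Z')),
  FS μ t φ ι κ → FS μ' t φ' ι' κ' → Irrational t → Measure.map F μ' = μ → Measure.map G μ = μ' →
  ContinuousMap.Homotopic (ContinuousMap.id Z) (F.comp G) → ContinuousMap.Homotopic (ContinuousMap.id Z') (G.comp F) → Nonempty (A ≃⋆ₐ[ℂ] A')

end Pool.Agent.FPZ
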