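import Pool.Agent.FPZ.Targets1
import Pool.Agent.FPZ.Targets3

set_option autoImplicit false

/-!
# FPZ (MP_32d866_an): the inner automorphism of one block (target AUT)
-/

open scoped Classical
open MeasureTheory

noncomputable section

namespace Pool.Agent.FPZ

namespace AUT_

variable {A : Type} [CStarAlgebra A]

/-- Conjugation by a unitary. -/
def conj (v : A) (h1 : star v * v = 1) (h2 : v * star v = 1) : A →⋆ₐ[ℂ] A where
  toFun x := v * x * star v
  map_one' := by rw [mul_one, h2]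
  map_mul' x y := by
    calc v * (x * y) * star v = v * x * 1 * y * star v := by noncomm_ring
      _ = v * x * (star v * v) * y * star v := by rw [h1]
      _ = v * x * star v * (v * y * star v) := by noncomm_ring
  map_zero' := by rw [mul_zero, zero_mul]
  map_add' x y := by rw [mul_add, add_mul]
  commutes' c := by
    rw [Algebra.algebraMap_eq_smul_one, mul_smul_comm, smul_mul_assoc, mul_one, h2]
  map_star' x := by
    rw [star_mul, star_mul, star_star, mul_assoc]

theorem conj_apply (v : A) (h1 : star v * v = 1) (h2 : v * star v = 1) (x : A) :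
    conj v h1 h2 x = v * x * star v := rfl

theorem cal_mono {S T : Set A} (h : S ⊆ T) : cal S ≤ cal T :=
  StarSubalgebra.topologicalClosure_mono (StarAlgebra.adjoin_le (h.trans (StarAlgebra.subset_adjoin ℂ T)))

theorem subset_cal (T : Set A) : T ⊆ (cal T : Set A) := fun _ hx =>
  StarSubalgebra.le_topologicalClosure _ (StarAlgebra.subset_adjoin ℂ T hx)

theorem free_mono {I R : Type} [Monoid R] {f : R → ℂ} {S T : I → Set R} (h : ∀ i, S i ⊆ T i)
    (hT : Free f T) : Free f S := fun l h1 h2 h3 =>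
  hT l h1 h2 fun x hx => ⟨h _ (h3 x hx).1, (h3 x hx).2⟩

/-- A continuous star homomorphism that is the identity on a generating set is the identity. -/
theorem eq_id (T : Set A) (hT : cal T = ⊤) (θ : A →⋆ₐ[ℂ] A) (hc : Continuous θ)
    (h : ∀ x ∈ T, θ x = x) (x : A) : θ x = x := by
  have h1 : StarAlgebra.adjoin ℂ T ≤ StarAlgHom.equalizer θ (StarAlgHom.id ℂ A) := by
    refine StarAlgebra.adjoin_le fun y hy => ?_
    exact (StarAlgHom.mem_equalizer _ _ _).2 (h y hy)
  have h2 : IsClosed ((StarAlgHom.equalizer θ (StarAlgHom.id ℂ A) : StarSubalgebra ℂ A) : Set A) := by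
    have : ((StarAlgHom.equalizer θ (StarAlgHom.id ℂ A) : StarSubalgebra ℂ A) : Set A) =
        {y | θ y = y} := by
      ext y
      exact StarAlgHom.mem_equalizer _ _ _
    rw [this]
    exact isClosed_eq hc continuous_id
  have h3 : cal T ≤ StarAlgHom.equalizer θ (StarAlgHom.id ℂ A) :=
    StarSubalgebra.topologicalClosure_minimal h1 h2
  have h4 : x ∈ cal T := by rw [hT]; trivial
  exact (StarAlgHom.mem_equalizer _ _ _).1 (h3 h4)

/-- The endomorphism. -/
theorem endo (h_ISO : T_ISO) (φ : A →L[ℂ] ℂ) (ts : TS φ) (S : Bool → StarSubalgebra ℂ A)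
    (hfree : Free φ (fun b => (S b : Set A))) (hgen : cal (⋃ b, (S b : Set A)) = ⊤)
    (w : A) (hw : w ∈ S true) (h1 : star w * w = 1) (h2 : w * star w = 1) :
    ∃ Θ : A →⋆ₐ[ℂ] A, (∀ x ∈ S true, Θ x = w * x * star w) ∧ (∀ x ∈ S false, Θ x = x) ∧
      Isometry Θ := by
  let v : Bool → A := fun b => bif b then w else 1
  have hv1 : ∀ b, star (v b) * v b = 1 := by
    intro b
    cases b
    · simp [v]
    · exact h1
  have hv2 : ∀ b, v b * star (v b) = 1 := by
    intro b
    cases b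
    · simp [v]
    · exact h2
  have hvm : ∀ b, v b ∈ S b := by
    intro b
    cases b
    · exact one_mem _
    · exact hw
  let ι' : ∀ b, S b →⋆ₐ[ℂ] A := fun b => (conj (v b) (hv1 b) (hv2 b)).comp (S b).subtype
  have hι' : ∀ b (x : S b), ι' b x = v b * (x : A) * star (v b) := fun b x => rfl
  obtain ⟨Θ, hΘ1, _, hΘ3⟩ := h_ISO Bool A A (fun b => S b) φ φ (fun b => (S b).subtype) ι' ts ts
    (by
      refine free_mono (fun b => ?_) hfree
      rintro _ ⟨x, rfl⟩
      exact x.2)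
    (by
      refine free_mono (fun b => ?_) hfree
      rintro _ ⟨x, rfl⟩
      rw [hι']
      exact mul_mem (mul_mem (hvm b) x.2) (star_mem (hvm b)))
    (by
      intro b x
      rw [hι', ts.tr (v b * (x : A)) (star (v b)), ← mul_assoc, hv1, one_mul]
      rfl)
    (by
      rw [← hgen]
      congr 1
      refine Set.iUnion_congr fun b => ?_
      ext y
      constructor
      · rintro ⟨x, rfl⟩
        exact x.2
      · intro hy
        exact ⟨⟨y, hy⟩, rfl⟩)
  refine ⟨Θ, fun x hx => ?_, fun x hx => ?_, hΘ3⟩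
  · exact hΘ1 true ⟨x, hx⟩
  · have := hΘ1 false ⟨x, hx⟩
    rw [hι'] at this
    have h3 : v false = 1 := rfl
    rw [h3, star_one, mul_one, one_mul] at this
    exact this

/-- The automorphism. -/
theorem auto (h_ISO : T_ISO) (φ : A →L[ℂ] ℂ) (ts : TS φ) (S : Bool → StarSubalgebra ℂ A)
    (hfree : Free φ (fun b => (S b : Set A))) (hgen : cal (⋃ b, (S b : Set A)) = ⊤)
    (w : A) (hw : w ∈ S true) (h1 : star w * w = 1) (h2 : w * star w = 1) :
    ∃ ψ : A ≃⋆ₐ[ℂ] A, (∀ x ∈ S true, ψ x = w * x * star w) ∧ (∀ x ∈ S false, ψ x = x) := by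
  obtain ⟨Θ, a1, a2, a3⟩ := endo h_ISO φ ts S hfree hgen w hw h1 h2
  obtain ⟨Θ', b1, b2, b3⟩ := endo h_ISO φ ts S hfree hgen (star w) (star_mem hw)
    (by rw [star_star]; exact h2) (by rw [star_star]; exact h1)
  rw [star_star] at b1
  have key : ∀ (θ θ' : A →⋆ₐ[ℂ] A), Isometry θ → Isometry θ' →
      (∀ b, ∀ x ∈ S b, θ' (θ x) = x) → ∀ x, θ' (θ x) = x := by
    intro θ θ' c1 c2 c3 x
    refine eq_id (⋃ b, (S b : Set A)) hgen (θ'.comp θ) ?_ ?_ x
    · exact c2.continuous.comp c1.continuous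
    · intro y hy
      obtain ⟨b, hb⟩ := Set.mem_iUnion.1 hy
      exact c3 b y hb
  have k1 : ∀ x, Θ' (Θ x) = x := by
    refine key Θ Θ' a3 b3 ?_
    intro b x hx
    cases b
    · rw [a2 x hx, b2 x hx]
    · rw [a1 x hx, b1 _ (mul_mem (mul_mem hw hx) (star_mem hw))]
      calc star w * (w * x * star w) * w = (star w * w) * x * (star w * w) := by noncomm_ring
        _ = x := by rw [h1, one_mul, mul_one]
  have k2 : ∀ x, Θ (Θ' x) = x := by
    refine key Θ' Θ b3 a3 ?_
    intro b x hx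
    cases b
    · rw [b2 x hx, a2 x hx]
    · rw [b1 x hx, a1 _ (mul_mem (mul_mem (star_mem hw) hx) hw)]
      calc w * (star w * x * w) * star w = (w * star w) * x * (w * star w) := by noncomm_ring
        _ = x := by rw [h2, one_mul, mul_one]
  refine ⟨StarAlgEquiv.ofStarAlgHom Θ Θ' ?_ ?_, a1, a2⟩
  · ext x
    exact k1 x
  · ext x
    exact k2 x

end AUT_

open AUT_ in
theorem p_AUT (h_ISO : T_ISO) (h_FRG : T_FRG) : T_AUT := by
  intro Z A _ _ _ _ μ t φ ι κ n w hFS hw h1 h2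
  let J : Set ℕ := {j | n ≤ j}
  let S : Bool → StarSubalgebra ℂ A := fun b => bif b then GA ι κ J else EA κ Jᶜ
  have hfree : Free φ (fun b => (S b : Set A)) := by
    refine free_mono (fun b => ?_) (h_FRG Z A μ t φ ι κ J hFS)
    cases b
    · exact subset_rfl
    · exact subset_rfl
  have hG : ∀ x ∈ Set.range ι ∪ ⋃ i ∈ J, Set.range (κ i), x ∈ S true := fun x hx =>
    subset_cal _ hx
  have hE : ∀ x ∈ ⋃ i ∈ Jᶜ, Set.range (κ i), x ∈ S false := fun x hx => subset_cal _ hx
  have hι : ∀ g, ι g ∈ S true := fun g => hG _ (Or.inl ⟨g, rfl⟩)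
  have hκ : ∀ i < n, ∀ x, κ i x ∈ S false := by
    intro i hi x
    refine hE _ (Set.mem_iUnion₂.2 ⟨i, ?_, ⟨x, rfl⟩⟩)
    exact not_le.2 hi
  have hκ' : ∀ i, n ≤ i → ∀ x, κ i x ∈ S true := by
    intro i hi x
    exact hG _ (Or.inr (Set.mem_iUnion₂.2 ⟨i, hi, ⟨x, rfl⟩⟩))
  have hgen : cal (⋃ b, (S b : Set A)) = ⊤ := by
    refine top_le_iff.1 ?_
    rw [← hFS.gen]
    refine cal_mono ?_
    rintro x (⟨g, rfl⟩ | hx)
    · exact Set.mem_iUnion.2 ⟨true, hι g⟩
    · obtain ⟨i, ⟨y, rfl⟩⟩ := Set.mem_iUnion.1 hx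
      rcases lt_or_ge i n with hi | hi
      · exact Set.mem_iUnion.2 ⟨false, hκ i hi y⟩
      · exact Set.mem_iUnion.2 ⟨true, hκ' i hi y⟩
  obtain ⟨ψ, p1, p2⟩ := auto h_ISO φ hFS.ts S hfree hgen w hw h1 h2
  exact ⟨ψ, fun g => p1 _ (hι g), fun i hi x => p2 _ (hκ i hi x)⟩

end Pool.Agent.FPZ
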