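import Pool.Agent.FPZ.Targets2

set_option autoImplicit false

open scoped Classical
open MeasureTheory

noncomputable section

namespace Pool.Agent.FPZ

namespace POL_

theorem spec {A : Type} [CStarAlgebra A] (P b y : A) (hP : IsStarProjection P)
    (hy : y * b = P) :
    ∃ ε : ℝ, 0 < ε ∧ ∀ r ∈ spectrum ℝ (star b * b + (1 - P)), ε ≤ r := by
  let _ := CStarAlgebra.spectralOrder A
  let _ := CStarAlgebra.spectralOrderedRing A
  set k : A := star b * b with hk
  set h : A := k + (1 - P) with hh
  have hPs : star P = P := hP.isSelfAdjoint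
  have hPP : P * P = P := hP.isIdempotentElem
  have hkS : IsSelfAdjoint k := IsSelfAdjoint.star_mul_self b
  have hQ0 : 0 ≤ 1 - P := by
    have : 1 - P = star (1 - P) * (1 - P) := by
      rw [star_sub, star_one, hPs]
      noncomm_ring [hPP]
    rw [this]
    exact star_mul_self_nonneg _
  have hk0 : 0 ≤ k := star_mul_self_nonneg b
  set M : ℝ := max 1 (‖y‖ ^ 2) with hM
  have hM1 : 1 ≤ M := le_max_left _ _
  have hM0 : 0 < M := by linarith
  have h1 : P ≤ (‖y‖ ^ 2) • k := by
    have e1 : P = star b * (star y * y) * b := by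
      calc P = star P * P := by rw [hPs, hPP]
        _ = star (y * b) * (y * b) := by rw [hy]
        _ = star b * (star y * y) * b := by rw [star_mul]; noncomm_ring
    have e2 : star y * y ≤ algebraMap ℝ A (‖y‖ ^ 2) := by
      have := CStarAlgebra.star_mul_le_algebraMap_norm_sq (a := y)
      exact this
    have e3 := star_left_conjugate_le_conjugate e2 b
    rw [← e1] at e3
    refine e3.trans (le_of_eq ?_)
    rw [Algebra.algebraMap_eq_smul_one, hk]
    simp
  have h2 : (‖y‖ ^ 2) • k ≤ M • k := smul_le_smul_of_nonneg_right (le_max_right _ _) hk0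
  have h3 : (1 : A) ≤ M • h := by
    have e1 : M • h - 1 = (M • k - P) + (M - 1) • (1 - P) := by
      rw [hh, smul_add, sub_smul, one_smul]
      abel
    have e2 : 0 ≤ M • h - 1 := by
      rw [e1]
      refine add_nonneg (sub_nonneg.2 (h1.trans h2)) (smul_nonneg (by linarith) hQ0)
    exact sub_nonneg.1 e2
  have h4 : algebraMap ℝ A M⁻¹ ≤ h := by
    have e1 := smul_le_smul_of_nonneg_left h3 (inv_nonneg.2 hM0.le)
    rw [smul_smul, inv_mul_cancel₀ hM0.ne', one_smul] at e1
    rwa [Algebra.algebraMap_eq_smul_one]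
  have hhS : IsSelfAdjoint h := by
    refine hkS.add ?_
    rw [IsSelfAdjoint, star_sub, star_one, hPs]
  refine ⟨M⁻¹, inv_pos.2 hM0, ?_⟩
  exact (algebraMap_le_iff_le_spectrum (r := M⁻¹) (a := h) (ha := hhS)).1 h4

end POL_

/-- Polar part of a bounded below element. -/
theorem p_POL : T_POL := by
  intro A _ D P c y hD hP hPD hcD hy
  set b : A := c * P with hb
  have hPs : star P = P := hP.isSelfAdjoint
  have hPP : P * P = P := hP.isIdempotentElem
  have hbP : b * P = b := by rw [hb, mul_assoc, hPP]
  obtain ⟨ε, hε, hsp⟩ := POL_.spec P b y hP hy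
  set k : A := star b * b with hk
  set h : A := k + (1 - P) with hh
  have hkP : k * P = k := by rw [hk, mul_assoc, hbP]
  have hPk : P * k = k := by
    have : star (b * P) = P * star b := by rw [star_mul, hPs]
    rw [hk, ← mul_assoc, ← this, hbP]
  have hhS : IsSelfAdjoint h := by
    refine (IsSelfAdjoint.star_mul_self b).add ?_
    rw [IsSelfAdjoint, star_sub, star_one, hPs]
  have hcom : Commute h P := by
    rw [Commute, SemiconjBy, hh, add_mul, mul_add, hkP, hPk, sub_mul, mul_sub, one_mul, mul_one]
  have hbD : b ∈ D := mul_mem hcD hPD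
  have hhD : h ∈ D := by
    exact add_mem (mul_mem (star_mem hbD) hbD) (sub_mem (one_mem D) hPD)
  set f : ℝ → ℝ := fun r => (Real.sqrt r)⁻¹ with hf
  set x : A := cfc f h with hx
  have hcont : ContinuousOn f (spectrum ℝ h) := by
    refine ContinuousOn.inv₀ Real.continuous_sqrt.continuousOn ?_
    intro r hr
    exact (Real.sqrt_pos.2 (hε.trans_le (hsp r hr))).ne'
  have hxh : x * h * x = 1 := by
    have e1 : h = cfc (fun r : ℝ => r) h := (cfc_id' ℝ h hhS).symm
    have e2 : x * h = cfc (fun r : ℝ => f r * r) h := by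
      conv_lhs => rw [hx]
      nth_rewrite 2 [e1]
      exact (cfc_mul f (fun r : ℝ => r) h hcont continuousOn_id).symm
    rw [e2, hx, ← cfc_mul (fun r : ℝ => f r * r) f h (hcont.mul continuousOn_id) hcont]
    rw [← cfc_one ℝ h hhS]
    refine cfc_congr fun r hr => ?_
    have h0 : 0 < r := hε.trans_le (hsp r hr)
    have h1 : 0 < Real.sqrt r := Real.sqrt_pos.2 h0
    have h2 : Real.sqrt r * Real.sqrt r = r := Real.mul_self_sqrt h0.le
    simp only [hf, Pi.one_apply]
    field_simp
    nlinarith
  have hxP : x * P = P * x := (hhS.commute_cfc hcom f).eq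
  have hxS : star x = x := (cfc_predicate f h : IsSelfAdjoint _)
  have hxD : x ∈ D := by
    have : IsClosed (D : Set A) := hD
    exact cfc_mem (𝕜' := ℂ) (s := D) f hhD
  refine ⟨x, hxD, ?_⟩
  have hPh : P * h = k := by
    rw [hh, mul_add, hPk, mul_sub, mul_one, hPP, sub_self, add_zero]
  calc star (b * x) * (b * x) = x * k * x := by
        rw [star_mul, hxS, hk]; noncomm_ring
    _ = x * (P * h) * x := by rw [hPh]
    _ = P * (x * h * x) := by
        rw [← mul_assoc x P h, hxP]; noncomm_ring
    _ = P := by rw [hxh, mul_one]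

end Pool.Agent.FPZ
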