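import Pool.Agent.FPZ.Targets1

set_option autoImplicit false

open scoped Classical
open MeasureTheory

noncomputable section

namespace Pool.Agent.FPZ

theorem TSB_mulp {A : Type} [CStarAlgebra A] (p v : A) (hp : IsStarProjection p)
    (hv : star v * v = p) : v * p = v := by
  have hpp : p * p = p := hp.isIdempotentElem
  have hps : star p = p := hp.isSelfAdjoint
  have h : star (v * p - v) * (v * p - v) = 0 := by
    rw [star_sub, star_mul, hps, sub_mul, mul_sub, mul_sub]
    have h1 : p * star v * (v * p) = p := by
      rw [mul_assoc, ← mul_assoc (star v), hv, hpp, hpp]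
    have h2 : p * star v * v = p := by
      rw [mul_assoc, hv, hpp]
    have h3 : star v * (v * p) = p := by
      rw [← mul_assoc, hv, hpp]
    rw [h1, h2, h3, hv]
    simp
  have h0 := CStarRing.star_mul_self_eq_zero_iff (v * p - v)
  exact sub_eq_zero.mp (h0.mp h)

theorem TSB_pr {A : Type} [CStarAlgebra A] (p v : A) (hp : IsStarProjection p)
    (hv : star v * v = p) : IsStarProjection (v * star v) := by
  refine ⟨?_, ?_⟩
  · show v * star v * (v * star v) = v * star v
    rw [mul_assoc, ← mul_assoc (star v), hv, ← mul_assoc, TSB_mulp p v hp hv]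
  · show star (v * star v) = v * star v
    rw [star_mul, star_star]

theorem TSB_pos {A : Type} [CStarAlgebra A] (φ : A →L[ℂ] ℂ) (h : TS φ) (p : A)
    (hp : IsStarProjection p) : 0 ≤ (φ p).re ∧ (φ p).im = 0 := by
  have hpp : p * p = p := hp.isIdempotentElem
  have hps : star p = p := hp.isSelfAdjoint
  have := h.pos p
  rw [hps, hpp] at this
  exact this

theorem p_TSB : T_TSB := by
  intro A _ φ h
  refine ⟨?_, ?_, ?_, ?_, ?_⟩
  · intro p hp
    have hpp : p * p = p := hp.isIdempotentElem
    have hps : star p = p := hp.isSelfAdjoint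
    obtain ⟨h1, h2⟩ := TSB_pos φ h p hp
    refine ⟨h1, ?_, h2, ?_⟩
    · have hq : IsStarProjection (1 - p) := hp.one_sub
      obtain ⟨h3, -⟩ := TSB_pos φ h (1 - p) hq
      rw [map_sub, h.one, Complex.sub_re, Complex.one_re] at h3
      linarith
    · intro h3
      apply h.fth
      rw [hps, hpp]
      exact Complex.ext h3 h2
  · intro a
    unfold n2
    rw [star_star, h.tr]
  · intro a ha
    unfold n2 at ha
    have h1 := h.pos a
    have h2 : (φ (star a * a)).re = 0 := le_antisymm (Real.sqrt_eq_zero'.mp ha) h1.1
    exact h.fth a (Complex.ext h2 h1.2)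
  · intro p v hp hv
    refine ⟨TSB_pr p v hp hv, ?_⟩
    rw [h.tr, hv]
  · rintro p q hp hq ⟨v, hv, hqv⟩
    have hqq : q * q = q := hq.isIdempotentElem
    have hqs : star q = q := hq.isSelfAdjoint
    have he := TSB_pr p v hp hv
    have hee : v * star v * (v * star v) = v * star v := he.isIdempotentElem
    have hes : star (v * star v) = v * star v := he.isSelfAdjoint
    have h1 : q * (v * star v) = v * star v := by
      rw [← mul_assoc, hqv]
    have h2 : v * star v * q = v * star v := by
      have := congrArg star h1
      rwa [star_mul, hes, hqs] at this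
    have hr : IsStarProjection (q - v * star v) := by
      refine ⟨?_, ?_⟩
      · show (q - v * star v) * (q - v * star v) = q - v * star v
        rw [sub_mul, mul_sub, mul_sub, hqq, h1, h2, hee]
        simp
      · show star (q - v * star v) = q - v * star v
        rw [star_sub, hes, hqs]
    obtain ⟨h3, -⟩ := TSB_pos φ h _ hr
    rw [map_sub, Complex.sub_re] at h3
    have h4 : φ (v * star v) = φ p := by
      rw [h.tr, hv]
    rw [h4] at h3
    linarith

end Pool.Agent.FPZ
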