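import Pool.Agent.FPZ.Defs

set_option autoImplicit false

/-!
# FPZ targets 1: freeness, states, norms

Every target has its complete proof in the docstring.
-/

open scoped Classical
open MeasureTheory

noncomputable section

namespace Pool.Agent.FPZ

/-! ## Freeness (algebra) -/

/-- SPN. Reduced words and `1` span the generated algebra. PROOF. The span `W` of `1` and the reduced words contains `1` and is closed
under left multiplication by `a ∈ S i`: for a reduced word with list `l`, if `l` does not start with index `i` write `a = f a • 1 + (a - f a • 1)`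
and prepend `(i, a - f a • 1)`; if `l = (i, b) :: l'` write `a b = f (a b) • 1 + c`, `c ∈ S i` centered, so the product is
`f (a b) • (product of l') + (product of (i, c) :: l')` (and the product of `l' = []` is `1`). So
`W` contains `⨆ i, S i` (e.g. `Algebra.adjoin` of the union, the set of `x` with `x W ⊆ W` is a subalgebra). -/
def T_SPN : Prop := ∀ (I R : Type) [Ring R] [Algebra ℂ R] (f : R →ₗ[ℂ] ℂ) (S : I → Subalgebra ℂ R), f 1 = 1 →
  ∀ x ∈ (⨆ i, S i : Subalgebra ℂ R), x ∈ Submodule.span ℂ (insert 1 (RW f (fun i => (S i : Set R))))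

/-- UNQ. PROOF. T_SPN; `f` and `f'` vanish on reduced words (the centered elements of `S i` are the same for both). -/
def T_UNQ : Prop := ∀ (I R : Type) [Ring R] [Algebra ℂ R] (f f' : R →ₗ[ℂ] ℂ) (S : I → Subalgebra ℂ R), f 1 = 1 → f' 1 = 1 →
  (∀ i, ∀ a ∈ S i, f a = f' a) → Free f (fun i => (S i : Set R)) → Free f' (fun i => (S i : Set R)) →
  ∀ x ∈ (⨆ i, S i : Subalgebra ℂ R), f x = f' x

/-- TRC. Trace property (may use T_SPN). PROOF. Pair lemma: for letter lists `a = (i_1,a_1)..(i_m,a_m)`, `b = (k_1,b_1)..(k_n,b_n)`, both reduced, centered (possibly empty):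
`f (a_m ⋯ a_1 b_1 ⋯ b_n) = ∏ f (a_r b_r)` if `m = n` and `i_r = k_r` for all `r`, else `0`. Induction on `m`: if `m = 0` or `n = 0` or `i_1 ≠ k_1` this is freeness; if `i_1 = k_1`,
`a_1 b_1 = f (a_1 b_1) • 1 + c` with `c ∈ S i_1` centered and `a_m ⋯ a_2 c b_2 ⋯ b_n` is reduced. For reduced words `x = a_m ⋯ a_1`, `y = b_1 ⋯ b_n` the pair lemma applied to `(x, y)` and to
`(y, x)` (lists reversed) gives `f (x y) = ∏ f (a_r b_r)`, `f (y x) = ∏ f (b_r a_r)` under the same condition. Bilinearity and T_SPN. -/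
def T_TRC : Prop := ∀ (I R : Type) [Ring R] [Algebra ℂ R] (f : R →ₗ[ℂ] ℂ) (S : I → Subalgebra ℂ R), f 1 = 1 →
  Free f (fun i => (S i : Set R)) → (∀ i, ∀ a ∈ S i, ∀ b ∈ S i, f (a * b) = f (b * a)) →
  ∀ x ∈ (⨆ i, S i : Subalgebra ℂ R), ∀ y ∈ (⨆ i, S i : Subalgebra ℂ R), f (x * y) = f (y * x)

/-- GRP. Grouping in two blocks (may use T_SPN). PROOF. Let `S_J = ⨆ i ∈ J, S i` etc. By T_SPN (for the family restricted to `J`) a centered element of `S_J` lies in the span of the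
reduced words with all letters in `J` (the coefficient of `1` is `f x = 0`). By induction the product of an alternating list of such elements lies in the span of the reduced words of the whole
family whose first letter has index in the first block (`Submodule.span_mul_span`; concatenation of a reduced word in `J` with a reduced word starting outside `J` is reduced), and `f` vanishes
there. -/
def T_GRP : Prop := ∀ (I R : Type) [Ring R] [Algebra ℂ R] (f : R →ₗ[ℂ] ℂ) (S : I → Subalgebra ℂ R) (J : Set I), f 1 = 1 →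
  Free f (fun i => (S i : Set R)) →
  Free f (fun b : Bool => bif b then ((⨆ i ∈ J, S i : Subalgebra ℂ R) : Set R) else ((⨆ i ∈ Jᶜ, S i : Subalgebra ℂ R) : Set R))

/-- ASC. Associativity. PROOF. Group the maximal runs of letters with index `some i`: by induction on the list of a reduced centered word over `Option I` (all suffixes), there is an alternating centered list over
`Bool` with the same product, such that its first letter is: the same letter if the first index is `none`; and if the first index is `some i`, it is `(false, w)` with `w` a reduced word of the `U`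
starting with index `i` (so `f w = 0`). Prepending `x ∈ U i` to a list that starts with `(false, w)`, `w` starting with index `i' ≠ i`, replaces `w` by `x w`. -/
def T_ASC : Prop := ∀ (I R : Type) [Ring R] [Algebra ℂ R] (f : R →ₗ[ℂ] ℂ) (T₁ T₂ : Subalgebra ℂ R) (U : I → Subalgebra ℂ R), f 1 = 1 →
  Free f (fun b : Bool => bif b then (T₁ : Set R) else (T₂ : Set R)) → (∀ i, U i ≤ T₂) → Free f (fun i => (U i : Set R)) →
  Free f (fun o : Option I => o.elim (T₁ : Set R) (fun i => (U i : Set R)))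

/-! ## States and norms -/

/-- STB. Basic facts on states. PROOF. Positivity for `a + c b` gives the hermitian property and Cauchy-Schwarz. `‖a‖ ^ 2 - star a * a = star c * c` (`c = cfc sqrt`, or the order of `A` given by
`CStarAlgebra.spectralOrder`), so `φ (star b * (‖a‖ ^ 2 - star a * a) * b) ≥ 0`. The rest is immediate (`φ 1 = 1`). -/
def T_STB : Prop := ∀ (A : Type) [CStarAlgebra A] (φ : A →L[ℂ] ℂ), St φ →
  (∀ a, φ (star a) = star (φ a)) ∧ (∀ a b, ‖φ (star a * b)‖ ≤ n2 φ a * n2 φ b) ∧ (∀ a, ‖φ a‖ ≤ n2 φ a) ∧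
  (∀ a, n2 φ a ≤ ‖a‖) ∧ (∀ a b, n2 φ (a * b) ≤ ‖a‖ * n2 φ b) ∧ (∀ a b, n2 φ (a + b) ≤ n2 φ a + n2 φ b) ∧
  (∀ a, n2 φ a ^ 2 = (φ (star a * a)).re) ∧ (∀ (c : ℂ) (a : A), n2 φ (c • a) = ‖c‖ * n2 φ a) ∧
  (∀ a b, φ (star a * b) = 0 → n2 φ (a + b) ^ 2 = n2 φ a ^ 2 + n2 φ b ^ 2) ∧ (∀ a, 0 ≤ n2 φ a) ∧ Continuous (n2 φ)

/-- TSB. Facts on faithful traces and projections. PROOF. `0 ≤ φ p = φ (star p * p)`; `φ (1 - p) ≥ 0`; if `φ p = 0` then `p = 0`. `n2 (star a) = n2 a` by the trace property. If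
`star v * v = p` and `q * v = v` then `φ p = φ (v * star v)` and `φ (q - v * star v) = φ (star (q - v v*) (q - v v*)) ≥ 0` (`v v*` is a projection below `q`). -/
def T_TSB : Prop := ∀ (A : Type) [CStarAlgebra A] (φ : A →L[ℂ] ℂ), TS φ →
  (∀ p, IsStarProjection p → 0 ≤ (φ p).re ∧ (φ p).re ≤ 1 ∧ (φ p).im = 0 ∧ ((φ p).re = 0 → p = 0)) ∧
  (∀ a, n2 φ (star a) = n2 φ a) ∧ (∀ a, n2 φ a = 0 → a = 0) ∧
  (∀ p v, IsStarProjection p → star v * v = p → IsStarProjection (v * star v) ∧ φ (v * star v) = φ p) ∧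
  (∀ p q, IsStarProjection p → IsStarProjection q → Sub p q → (φ p).re ≤ (φ q).re)

/-- CLO. Freeness passes to closures. PROOF. A centered `x` in the closure of `S i` is a limit of centered `x_n ∈ S i` (`x_n - φ x_n • 1`); the product of a list of fixed length is continuous. -/
def T_CLO : Prop := ∀ (I A : Type) [CStarAlgebra A] (φ : A →L[ℂ] ℂ) (S : I → StarSubalgebra ℂ A), φ 1 = 1 →
  Free φ (fun i => (S i : Set A)) → Free φ (fun i => ((S i).topologicalClosure : Set A))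

/-- NRT. The norm from the `2`-norm. PROOF. By continuity the hypothesis holds for `ξ ∈ D.topologicalClosure`. Let `h = star z * z`; suppose `M ^ 2 < c < ‖h‖`, `g x = max 0 (x - c)`,
`ξ = cfc g h ∈ D.topologicalClosure` (selfadjoint). Then `n2 (z ξ) ^ 2 = φ (ξ h ξ) ≥ c φ (ξ ^ 2)` (`x g(x)^2 ≥ c g(x)^2`; positivity of `φ` on `cfc` of nonnegative functions), so
`(c - M ^ 2) φ (ξ ^ 2) ≤ 0`, `ξ = 0` by faithfulness, but `‖h‖ ∈ spectrum ℝ h` and `g ‖h‖ > 0`. -/
def T_NRT : Prop := ∀ (A : Type) [CStarAlgebra A] (φ : A →L[ℂ] ℂ) (D : StarSubalgebra ℂ A) (z : A) (M : ℝ), TS φ → z ∈ D → 0 ≤ M →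
  (∀ ξ ∈ D, n2 φ (z * ξ) ≤ M * n2 φ ξ) → ‖z‖ ≤ M

/-- NRM. The norm is determined by the moments. PROOF. Suppose `‖a‖ < ‖a'‖` (the other case is symmetric); `h = star a * a`, `h' = star a' * a'`, `‖h‖ < c < ‖h'‖`, `g x = min 1 (max 0 (x - c))`.
Then `x ^ n ≥ c ^ n g(x)` for `x ≥ 0`, so `c ^ n φ' (cfc g h') ≤ φ' (h' ^ n) = φ (h ^ n) ≤ ‖h‖ ^ n` for all `n`, with `φ' (cfc g h') > 0` by faithfulness (`cfc g h' ≠ 0`), contradiction as `n → ∞`. -/
def T_NRM : Prop := ∀ (A A' : Type) [CStarAlgebra A] [CStarAlgebra A'] (φ : A →L[ℂ] ℂ) (φ' : A' →L[ℂ] ℂ) (a : A) (a' : A'), TS φ → TS φ' →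
  (∀ n : ℕ, φ ((star a * a) ^ n) = φ' ((star a' * a') ^ n)) → ‖a‖ = ‖a'‖

/-- ISO. Extension of maps on free pieces (uses T_UNQ, T_NRM; `Free` for the images). PROOF. In the C*-algebra `A × A'` let `G i = {(ι i c, ι' i c)}` (a subalgebra) and let `G` be the star subalgebra generated. The functionals
`f (x, x') = φ x`, `f' (x, x') = φ' x'` agree on all `G i` and both make the family `G i` free, so `φ x = φ' x'` for all `(x, x') ∈ G` (T_UNQ). Applied to the powers of `star y * y`, `y ∈ G`, T_NRM gives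
`‖x‖ = ‖x'‖` for `(x, x') ∈ G`, hence for `(x, x')` in the closure of `G`. The first projection of the closure of `G` is isometric, its range is closed, contains all `ι i c`, so it is `A`.
Let `Θ x` be the unique `x'` with `(x, x')` in the closure. -/
def T_ISO : Prop := ∀ (I A A' : Type) [CStarAlgebra A] [CStarAlgebra A'] (C : I → Type) [∀ i, Ring (C i)] [∀ i, StarRing (C i)] [∀ i, Algebra ℂ (C i)]
  (φ : A →L[ℂ] ℂ) (φ' : A' →L[ℂ] ℂ) (ι : ∀ i, C i →⋆ₐ[ℂ] A) (ι' : ∀ i, C i →⋆ₐ[ℂ] A'), TS φ → TS φ' →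
  Free φ (fun i => Set.range (ι i)) → Free φ' (fun i => Set.range (ι' i)) → (∀ i c, φ (ι i c) = φ' (ι' i c)) →
  cal (⋃ i, Set.range (ι i)) = ⊤ →
  ∃ Θ : A →⋆ₐ[ℂ] A', (∀ i c, Θ (ι i c) = ι' i c) ∧ (∀ a, φ' (Θ a) = φ a) ∧ Isometry Θ

/-- RTS. A reduced free product of tracial pieces has a faithful trace (uses T_TRC, T_STB). PROOF. T_TRC gives the trace property on the algebra generated by the `S i` (the supremum of the `S i` as subalgebras is closed under
`star`), `φ` is continuous. If `φ (star a * a) = 0` then for all `b`: `φ (star b * (star a * a) * b) = φ (star a * (a * b * star b))` is `0` by Cauchy-Schwarz, so `a = 0` by `gns`. -/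
def T_RTS : Prop := ∀ (I A : Type) [CStarAlgebra A] (φ : A →L[ℂ] ℂ) (S : I → StarSubalgebra ℂ A), RFP φ S →
  (∀ i, ∀ a ∈ S i, ∀ b ∈ S i, φ (a * b) = φ (b * a)) → TS φ

/-- ZFS. From the literal definition to the working structure (uses T_RTS, T_ASC). PROOF. T_RTS for `B` (pieces commutative), then for `A` (`C(Z)` commutative, `ψ` tracial). Freeness over `Option ℕ`: T_ASC with
`T₁ = ι.range`, `T₂ = j.range`, `U i = (j ∘ κ i).range`; the family `U` is free because `φ (j b) = ψ b`. Generation: the closure contains `range ι` and, since `j` is continuous, `j` of the closure of the algebra generated by the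
ranges of the `κ i`. -/
def T_ZFS : Prop := ∀ (Z A B : Type) [TopologicalSpace Z] [CompactSpace Z] [MeasurableSpace Z] [CStarAlgebra A] [CStarAlgebra B] (μ : Measure Z) (t : ℝ)
  (ψ : B →L[ℂ] ℂ) (κ : ℕ → ℂ × ℂ →⋆ₐ[ℂ] B) (φ : A →L[ℂ] ℂ) (ι : C(Z, ℂ) →⋆ₐ[ℂ] A) (j : B →⋆ₐ[ℂ] A),
  IsB t ψ κ → IsZB μ ψ φ ι j → FS μ t φ ι (fun i => j.comp (κ i))

/-- FRG. Freeness of the blocks (uses T_GRP, T_CLO). PROOF. T_GRP for the family over `Option ℕ` (`range ι`, `range (κ i)` are subalgebras) with the set `{none} ∪ some '' J`, then T_CLO. (`⨆` of star subalgebras versus subalgebras: the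
supremum of the subalgebras is closed under `star`, `StarAlgebra.adjoin_toSubalgebra`.) -/
def T_FRG : Prop := ∀ (Z A : Type) [TopologicalSpace Z] [CompactSpace Z] [MeasurableSpace Z] [CStarAlgebra A] (μ : Measure Z) (t : ℝ)
  (φ : A →L[ℂ] ℂ) (ι : C(Z, ℂ) →⋆ₐ[ℂ] A) (κ : ℕ → ℂ × ℂ →⋆ₐ[ℂ] A) (J : Set ℕ), FS μ t φ ι κ →
  Free φ (fun b : Bool => bif b then (GA ι κ J : Set A) else (EA κ Jᶜ : Set A))

/-- FRE. The same for the `EA` blocks: disjoint sets of indices (uses T_FRG). PROOF. Subsets of free sets are free; `EA κ J ≤ GA ι κ J`, `EA κ J' ≤ EA κ Jᶜ` (`cal` is monotone). -/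
def T_FRE : Prop := ∀ (Z A : Type) [TopologicalSpace Z] [CompactSpace Z] [MeasurableSpace Z] [CStarAlgebra A] (μ : Measure Z) (t : ℝ)
  (φ : A →L[ℂ] ℂ) (ι : C(Z, ℂ) →⋆ₐ[ℂ] A) (κ : ℕ → ℂ × ℂ →⋆ₐ[ℂ] A) (J J' : Set ℕ), FS μ t φ ι κ → Disjoint J J' →
  Free φ (fun b : Bool => bif b then (EA κ J : Set A) else (EA κ J' : Set A))

/-- ORT. Orthogonality of words (uses T_STB for `φ (star a) = star (φ a)`; no spanning needed). `U = span (1, words starting in S (!b))`, `V = span (words starting in S b)`. PROOF. By (semi)linearity take words. `star` of a reduced word is the reversed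
reduced word of the adjoints. (1) `u = 1`: `φ v = 0`. `u` a word starting in `S (!b)`: `star u * v` is a reduced word. (2) `star u * a * u'` is a reduced word (`a` centered in `S b`, `u`, `u'` are `1` or start in `S (!b)`).
(3) clear. (4) `v = c v'`, `c ∈ S b`, `v'` a word starting in `S (!b)` or `1`: `a c = φ (a c) • 1 + (centered element of S b)`. -/
def T_ORT : Prop := ∀ (A : Type) [CStarAlgebra A] (φ : A →L[ℂ] ℂ) (S : Bool → StarSubalgebra ℂ A) (b : Bool) (U V : Submodule ℂ A), St φ →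
  Free φ (fun i => (S i : Set A)) → U = Submodule.span ℂ (insert 1 (RWi φ (fun i => (S i : Set A)) (!b))) →
  V = Submodule.span ℂ (RWi φ (fun i => (S i : Set A)) b) →
  (∀ u ∈ U, ∀ v ∈ V, φ (star u * v) = 0) ∧
  (∀ a ∈ S b, φ a = 0 → ∀ u ∈ U, ∀ u' ∈ U, φ (star u * a * u') = 0) ∧
  (∀ a ∈ S b, φ a = 0 → ∀ u ∈ U, a * u ∈ V) ∧ (∀ a ∈ S b, ∀ v ∈ V, a * v ∈ U ⊔ V)

/-- SRD. The key norm estimate (uses T_ORT, T_STB, T_TSB, T_SPN, T_NRT). PROOF. `N = n2 φ`, `M = max ‖x‖ ‖y‖`. Let `W = U ⊔ V` be the span of `1` and all reduced words (independent of `b`; it is `S true ⊔ S false` by T_SPN). For `l ∈ S b` centered, `N l ≤ s`, `ξ ∈ W`: write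
`ξ = u + v`, `u ∈ U b`, `v ∈ V b`, and `l ξ = α + β`, `α ∈ U b`, `β ∈ V b`. (i) `N (l u) = N l * N u` (T_ORT (2) for `star l * l - φ (star l * l) • 1`). (ii) `N β ≤ N (l ξ) ≤ ‖l‖ N ξ` (orthogonality). (iii) `N α ≤ N l * N ξ`: `N α ^ 2 = φ (star α * l ξ) =
φ (star (star l * α) * ξ) ≤ N (star l * α) N ξ = N l N α N ξ` (T_ORT (2) again, `N (star l) = N l`). For an alternating product `w = l_1 ⋯ l_m` (letters alternately from `x, y`) claim `N (w ξ) ≤ (s ^ m + m M s ^ (m - 1)) N ξ`, `ξ ∈ W`: `w ξ = l_1 ⋯ l_(m-1) (α + β)`;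
the letters `l_(m-1), .., l_1` act on `β ∈ V` by (i) as pure creations, total factor `≤ s ^ (m - 1) M`; for `α` use induction and `N α ≤ s N ξ`. T_NRT with `D` the star subalgebra generated (its elements are in `W`) gives `‖(x y) ^ n‖ ≤ s ^ (2 n) + 2 n M s ^ (2 n - 1)`. -/
def T_SRD : Prop := ∀ (A : Type) [CStarAlgebra A] (φ : A →L[ℂ] ℂ) (S : Bool → StarSubalgebra ℂ A) (x y : A) (s M : ℝ), TS φ →
  Free φ (fun i => (S i : Set A)) → x ∈ S true → y ∈ S false → φ x = 0 → φ y = 0 → n2 φ x ≤ s → n2 φ y ≤ s → 0 ≤ s → s ≤ 1 → ‖x‖ ≤ M → ‖y‖ ≤ M →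
  ∀ n : ℕ, ‖(x * y) ^ n‖ ≤ s ^ (2 * n) + 2 * n * M * s ^ (2 * n - 1)

/-- SRI. (uses T_SRD, T_TSB.) PROOF. If `n2 x = 0` or `n2 y = 0` then `x y = 0`. Otherwise replace `x, y` by `c x, c⁻¹ y` with `n2 (c x) = n2 (c⁻¹ y) = s < 1`; by T_SRD `‖(x y) ^ n‖ → 0`, so `‖(x y) ^ n‖ < 1` for some `n ≥ 1`, `1 - (x y) ^ n` is invertible and
`1 - (x y) ^ n = (1 - x y) (1 + .. )` with commuting factors. -/
def T_SRI : Prop := ∀ (A : Type) [CStarAlgebra A] (φ : A →L[ℂ] ℂ) (S : Bool → StarSubalgebra ℂ A) (x y : A), TS φ →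
  Free φ (fun i => (S i : Set A)) → x ∈ S true → y ∈ S false → φ x = 0 → φ y = 0 → n2 φ x * n2 φ y < 1 → IsUnit (1 - x * y)

end Pool.Agent.FPZ
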