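import Pool.Agent.FPZ.Targets3

set_option autoImplicit false

/-!
# FPZ (MP_32d866_an), target DGN: the norm of a diagonal element (helper80)
-/

open scoped Classical
open MeasureTheory

noncomputable section

namespace Pool.Agent.FPZ

namespace DGN_

/-- `v p = v` when `star v * v = p` is a projection -/
theorem mul_proj {A : Type} [CStarAlgebra A] {p v : A} (hp : IsStarProjection p)
    (h : star v * v = p) : v * p = v := by
  have h1 : star (v - v * p) * (v - v * p) = 0 := by
    have hpp : p * p = p := hp.isIdempotentElem.eq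
    have hps : star p = p := hp.isSelfAdjoint.star_eq
    have : star (v - v * p) * (v - v * p)
        = star v * v - star v * v * p - star p * (star v * v) + star p * (star v * v) * p := by
      rw [star_sub, star_mul]
      noncomm_ring
    rw [this, h, hps, hpp, hpp]
    noncomm_ring
  have h2 : v - v * p = 0 := (CStarRing.star_mul_self_eq_zero_iff _).1 h1
  exact (sub_eq_zero.1 h2).symm

/-- the range projections -/
theorem range_proj {A : Type} [CStarAlgebra A] {p v : A} (hp : IsStarProjection p)
    (h : star v * v = p) : IsStarProjection (v * star v) := by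
  refine ⟨?_, ?_⟩
  · change v * star v * (v * star v) = v * star v
    have : v * star v * (v * star v) = v * (star v * v) * star v := by noncomm_ring
    rw [this, h, mul_proj hp h]
  · change star (v * star v) = v * star v
    rw [star_mul, star_star]

theorem range_orth {A : Type} [CStarAlgebra A] {v w : A} (h : star v * w = 0) :
    v * star v * (w * star w) = 0 := by
  have : v * star v * (w * star w) = v * (star v * w) * star w := by noncomm_ring
  rw [this, h, mul_zero, zero_mul]

/-- a finite sum of orthogonal projections is a projection -/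
theorem sum_proj {A S : Type} [CStarAlgebra A] [Fintype S] (q : S → A)
    (hq : ∀ s, IsStarProjection (q s)) (ho : ∀ s s', s ≠ s' → q s * q s' = 0) :
    IsStarProjection (∑ s, q s) := by
  refine ⟨?_, ?_⟩
  · change (∑ s, q s) * (∑ s, q s) = ∑ s, q s
    rw [Finset.sum_mul_sum]
    refine Finset.sum_congr rfl fun s _ => ?_
    rw [Finset.sum_eq_single s]
    · exact (hq s).isIdempotentElem.eq
    · intro b _ hb
      exact ho s b (Ne.symm hb)
    · intro h
      exact absurd (Finset.mem_univ s) h
  · change star (∑ s, q s) = ∑ s, q s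
    rw [star_sum]
    exact Finset.sum_congr rfl fun s _ => (hq s).isSelfAdjoint.star_eq

/-- the norm of a diagonal element, for orthogonal projections -/
theorem norm_diag {A S : Type} [CStarAlgebra A] [Fintype S] (q : S → A) (c : S → ℂ) (ε : ℝ)
    (hε : 0 ≤ ε) (hq : ∀ s, IsStarProjection (q s)) (ho : ∀ s s', s ≠ s' → q s * q s' = 0)
    (hc : ∀ s, ‖c s‖ ≤ ε) : ‖∑ s, c s • q s‖ ≤ ε := by
  letI := CStarAlgebra.spectralOrder A
  haveI := CStarAlgebra.spectralOrderedRing A
  have hXX : star (∑ s, c s • q s) * (∑ s, c s • q s) = ∑ s, (‖c s‖ ^ 2 : ℝ) • q s := by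
    rw [star_sum, Finset.sum_mul_sum]
    refine Finset.sum_congr rfl fun s _ => ?_
    rw [Finset.sum_eq_single s]
    · rw [star_smul, smul_mul_smul_comm, (hq s).isSelfAdjoint.star_eq,
        (hq s).isIdempotentElem.eq]
      have : star (c s) * c s = ((‖c s‖ ^ 2 : ℝ) : ℂ) := by
        rw [Complex.star_def, Complex.conj_mul', Complex.ofReal_pow]
      rw [this]
      exact Complex.coe_smul (‖c s‖ ^ 2) (q s)
    · intro b _ hb
      rw [star_smul, smul_mul_smul_comm, (hq s).isSelfAdjoint.star_eq, ho s b (Ne.symm hb),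
        smul_zero]
    · intro h
      exact absurd (Finset.mem_univ s) h
  have hQ : IsStarProjection (∑ s, q s) := sum_proj q hq ho
  have hle : (∑ s, (‖c s‖ ^ 2 : ℝ) • q s) ≤ algebraMap ℝ A (ε ^ 2) := by
    have h1 : (∑ s, (‖c s‖ ^ 2 : ℝ) • q s) ≤ (ε ^ 2 : ℝ) • ∑ s, q s := by
      rw [Finset.smul_sum]
      refine Finset.sum_le_sum fun s _ => ?_
      have h2 : 0 ≤ (ε ^ 2 - ‖c s‖ ^ 2 : ℝ) • q s := by
        refine smul_nonneg ?_ (hq s).nonneg
        have := pow_le_pow_left₀ (norm_nonneg (c s)) (hc s) 2
        linarith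
      rw [sub_smul] at h2
      exact sub_nonneg.1 h2
    have h3 : (ε ^ 2 : ℝ) • ∑ s, q s ≤ (ε ^ 2 : ℝ) • (1 : A) := by
      have h4 : 0 ≤ (ε ^ 2 : ℝ) • ((1 : A) - ∑ s, q s) :=
        smul_nonneg (sq_nonneg ε) hQ.one_sub.nonneg
      rw [smul_sub] at h4
      exact sub_nonneg.1 h4
    rw [Algebra.algebraMap_eq_smul_one]
    exact h1.trans h3
  have hn : ‖star (∑ s, c s • q s) * (∑ s, c s • q s)‖ ≤ ε ^ 2 := by
    rw [CStarAlgebra.norm_le_iff_le_algebraMap _ (sq_nonneg ε) (star_mul_self_nonneg _), hXX]
    exact hle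
  rw [CStarRing.norm_star_mul_self] at hn
  nlinarith [norm_nonneg (∑ s, c s • q s)]

end DGN_

theorem p_DGN : T_DGN := by
  intro A S _ _ p v c ε hp hε h1 h2 hc
  exact DGN_.norm_diag (fun s => v s * star (v s)) c ε hε
    (fun s => DGN_.range_proj hp (h1 s)) (fun s s' h => DGN_.range_orth (h2 s s' h)) hc

end Pool.Agent.FPZ
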