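import Pool.Agent.FPZ.Defs

set_option autoImplicit false

/-!
# FPZ targets 2: comparison of projections, cells, cut-down

Every target has its complete proof in the docstring. For a projection `p`: `IsStarProjection p`.
-/

open scoped Classical
open MeasureTheory

noncomputable section

namespace Pool.Agent.FPZ

/-! ## General C*-algebra facts -/

/-- POL. PROOF. From `y c P = P`: `P = P c* y* y c P ≤ ‖y‖² P c* c P`. So `h = star (c P) (c P) + (1 - P)` is `≥ min 1 ‖y‖⁻²` (if `P ≠ 0`), invertible, positive, commutes with `P`. `x = h ^ (-1/2)` (continuous functional calculus, in `D` because `D` is closed)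
commutes with `P`, and `star (c P x) (c P x) = x P h x = P`. (Alternatively: polynomial/`cfc` of `h`; use `CStarAlgebra.spectralOrder` for the order.) -/
def T_POL : Prop := ∀ (A : Type) [CStarAlgebra A] (D : StarSubalgebra ℂ A) (P c y : A), IsClosed (D : Set A) → IsStarProjection P → P ∈ D → c ∈ D →
  y * (c * P) = P → ∃ x ∈ D, star (c * P * x) * (c * P * x) = P

/-- PLE. Making an approximate isometry exact. PROOF. `h = star c * c + (1 - e)`, `‖h - 1‖ ≤ δ`, `x = h ^ (-1/2)`, `‖x - 1‖ ≤ 2 δ` (spectrum of `h` in `[1 - δ, 1 + δ]`, `|s^(-1/2) - 1| ≤ 2 δ` there), `h` and `x` commute with `e` (`c = c e`). `V = c x = c e x`. -/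
def T_PLE : Prop := ∀ (A : Type) [CStarAlgebra A] (e c : A) (δ : ℝ), IsStarProjection e → c * e = c → ‖star c * c - e‖ ≤ δ → δ ≤ 1 / 4 →
  ∃ x : A, ‖x - 1‖ ≤ 2 * δ ∧ x * e = e * x ∧ star (c * x) * (c * x) = e ∧ c * x * e = c * x

/-- CLS. Close projections are unitarily equivalent. PROOF. `z = Q P + (1 - Q) (1 - P)`, `z - 1 = (2 Q - 1) (P - Q)`, so `z` is invertible in `D` (closed); `z P = Q P = Q z`, `star z * z` commutes with `P`; `u = z (star z z)^(-1/2)`. -/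
def T_CLS : Prop := ∀ (A : Type) [CStarAlgebra A] (D : StarSubalgebra ℂ A) (P Q : A), IsClosed (D : Set A) → IsStarProjection P → IsStarProjection Q → P ∈ D → Q ∈ D →
  ‖P - Q‖ < 1 → ∃ u ∈ D, star u * u = 1 ∧ u * star u = 1 ∧ u * P = Q * u

/-- PRT. Approximation of projections. PROOF. `a = (d + star d) / 2`, `‖P - a‖ < 1 / 8`. The spectrum of `a` is within `1 / 8` of `{0, 1}` (for real `r` at distance `> 1 / 8` from `0, 1`: `P - r` has the inverse `P / (1 - r) - (1 - P) / r` of norm `< 8`, so `a - r` is invertible).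
`P' = cfc g a` with `g = 0` on `(-∞, 1/4]`, `g = 1` on `[3/4, ∞)`, linear between; `‖P' - a‖ ≤ 1 / 8`, so `‖P - P'‖ ≤ 1/4 < 1`. -/
def T_PRT : Prop := ∀ (A : Type) [CStarAlgebra A] (D : StarSubalgebra ℂ A) (P d : A), IsClosed (D : Set A) → IsStarProjection P → d ∈ D → ‖P - d‖ < 1 / 8 →
  ∃ P' ∈ D, IsStarProjection P' ∧ ‖P - P'‖ < 1

/-- DIR. PROOF. `StarAlgebra.adjoin` of a monotone union is the union of the `adjoin`s (directed), and closure. -/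
def T_DIR : Prop := ∀ (A : Type) [CStarAlgebra A] (T : ℕ → Set A), Monotone T → ∀ a ∈ cal (⋃ n, T n), ∀ ε : ℝ, 0 < ε →
  ∃ n, ∃ d ∈ cal (T n), ‖a - d‖ < ε

/-- UAP. An approximate unitary is close to a unitary. PROOF. `w` is invertible (`star w * w` and `w * star w` are), `u = w (star w * w)^(-1/2)` is unitary, `‖u - w‖ ≤ ‖w‖ ‖(star w w)^(-1/2) - 1‖`. -/
def T_UAP : Prop := ∀ (A : Type) [CStarAlgebra A] (w : A) (δ : ℝ), ‖star w * w - 1‖ ≤ δ → ‖w * star w - 1‖ ≤ δ → δ ≤ 1 / 4 →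
  ∃ u : A, star u * u = 1 ∧ u * star u = 1 ∧ ‖u - w‖ ≤ 4 * δ

/-- SUT. `Sub` is transitive; equality of traces for equivalent projections. PROOF. If `star v * v = p`, `q * v = v`, `star w * w = q`, `r * w = w` then `star (w v) (w v) = star v * q * v = p`, `r w v = w v`. -/
def T_SUT : Prop := ∀ (A : Type) [CStarAlgebra A] (p q r : A), IsStarProjection p → IsStarProjection q → Sub p q → Sub q r → Sub p r

/-! ## Comparison in free products -/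

/-- COM. Comparison without spectral computations (uses T_SRI, T_STB). PROOF. `lam = (φ R).re < 1`, `k = (1 - lam)⁻¹ (R - lam)`, `T = 1 - k (1 - f)`. `φ k = 0`, `φ (1 - f) = 0`, `n2 k ^ 2 = lam / (1 - lam)`, `n2 (1 - f) ^ 2 = φ (f f) - 1`, the product is `< 1` since
`φ (f f) < 1 / lam` (`lam > 0`; if `lam = 0` the product is `0`). T_SRI: `T` is invertible. `R k = R`, so `R T = R - R (1 - f) = R f`, `R = R f T⁻¹`, and `y = star (T⁻¹)` satisfies `y f R = R`. -/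
def T_COM : Prop := ∀ (A : Type) [CStarAlgebra A] (φ : A →L[ℂ] ℂ) (X Y : StarSubalgebra ℂ A) (R f : A), TS φ →
  Free φ (fun b : Bool => bif b then (X : Set A) else (Y : Set A)) → IsStarProjection R → R ∈ X → f ∈ Y → star f = f → φ f = 1 →
  (φ R).re < 1 → (φ (f * f)).re * (φ R).re < 1 → ∃ y : A, y * (f * R) = R

/-- SQP. Free projections (uses T_COM, T_POL). PROOF. `f = (φ Q)⁻¹ Q`; `v = f R x = Q (..)`. -/
def T_SQP : Prop := ∀ (A : Type) [CStarAlgebra A] (φ : A →L[ℂ] ℂ) (X Y D : StarSubalgebra ℂ A) (R Q : A), TS φ →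
  Free φ (fun b : Bool => bif b then (X : Set A) else (Y : Set A)) → IsClosed (D : Set A) → IsStarProjection R → IsStarProjection Q → R ∈ X → Q ∈ Y → R ∈ D → Q ∈ D →
  (φ R).re < (φ Q).re → ∃ v ∈ D, star v * v = R ∧ Q * v = v

/-- DEN. Dense traces (uses T_FRE, T_SQP, T_DIR, T_PRT, T_CLS, T_TSB). PROOF. Let `K` be the set of `x` such that for all `n` there is a projection `R ∈ EA κ {j | n ≤ j}` with `(φ R).re = x`. `1 ∈ K`, `t ∈ K` (`R = κ n (1, 0)`), `x ∈ K → 1 - x ∈ K`, `x, y ∈ K`, `x < y` → `y - x ∈ K`: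
given `n` and `R₁ ∈ EA {j | n ≤ j}` with trace `x`, by T_DIR, T_PRT, T_CLS there are `m ≥ n` and a projection `R₁' ∈ EA {j | n ≤ j ∧ j < m}` unitarily equivalent to `R₁`, so of trace `x`; take `R₂ ∈ EA {j | m ≤ j}` with trace `y`; T_SQP gives `v ∈ EA {j | n ≤ j}`,
`star v * v = R₁'`, `R₂ v = v`; then `R₂ - v star v` is a projection of trace `y - x`. Since `t` is irrational `K` has arbitrarily small positive elements: otherwise `m₀ = inf > 0`, take `x ∈ K`, `m₀ ≤ x < 3/2 m₀`; for `y ∈ K` the remainder `r` of `y` modulo `x` is in `K`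
(or `0`) and `x - r ∈ K` if `r > 0`, `x - r ≤ x - m₀ < m₀`: contradiction; so all elements of `K` are multiples of `x`, in particular `1` and `t`. If `x ∈ K` is small all `k x ≤ 1` are in `K` (`1 - k x ∈ K`). -/
def T_DEN : Prop := ∀ (Z A : Type) [TopologicalSpace Z] [CompactSpace Z] [MeasurableSpace Z] [CStarAlgebra A] (μ : Measure Z) (t : ℝ)
  (φ : A →L[ℂ] ℂ) (ι : C(Z, ℂ) →⋆ₐ[ℂ] A) (κ : ℕ → ℂ × ℂ →⋆ₐ[ℂ] A), FS μ t φ ι κ → Irrational t →
  ∀ (n : ℕ) (s₁ s₂ : ℝ), 0 ≤ s₁ → s₁ < s₂ → s₂ ≤ 1 → ∃ R ∈ EA κ {j | n ≤ j}, IsStarProjection R ∧ s₁ < (φ R).re ∧ (φ R).re < s₂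

/-- CMP. Comparison of arbitrary projections (uses T_FRG, T_SQP, T_DEN, T_DIR, T_PRT, T_CLS, T_SUT). PROOF. `GA ι κ univ = ⊤`, so `P ~ P'`, `Q ~ Q'` (unitarily equivalent) with `P', Q' ∈ GA {j | j < m}`; `R ∈ EA {j | m ≤ j}` with trace strictly between; `P'` and `R` are free, `R` and `Q'` are free:
`Sub P P'`, `Sub P' R`, `Sub R Q'`, `Sub Q' Q`. -/
def T_CMP : Prop := ∀ (Z A : Type) [TopologicalSpace Z] [CompactSpace Z] [MeasurableSpace Z] [CStarAlgebra A] (μ : Measure Z) (t : ℝ)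
  (φ : A →L[ℂ] ℂ) (ι : C(Z, ℂ) →⋆ₐ[ℂ] A) (κ : ℕ → ℂ × ℂ →⋆ₐ[ℂ] A), FS μ t φ ι κ → Irrational t →
  ∀ P Q : A, IsStarProjection P → IsStarProjection Q → (φ P).re < (φ Q).re → Sub P Q

/-- CMG. Comparison of a projection with a function (uses T_FRG, T_COM, T_POL, T_DEN, T_CMP). PROOF. Take `R ∈ EA κ univ` with `(φ P).re < (φ R).re < ∫ g`; `R` is free from `range ι`. `f = (∫ g)⁻¹ ι g`, `φ (f f) = ∫ g² / (∫ g)² ≤ 1 / ∫ g < 1 / φ R`. T_COM, T_POL: `v = ι g * x₁`,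
`star v * v = R`. T_CMP: `star w * w = P`, `R w = w`. `v w`. -/
def T_CMG : Prop := ∀ (Z A : Type) [TopologicalSpace Z] [CompactSpace Z] [MeasurableSpace Z] [BorelSpace Z] [CStarAlgebra A] (μ : Measure Z) [IsProbabilityMeasure μ] (t : ℝ)
  (φ : A →L[ℂ] ℂ) (ι : C(Z, ℂ) →⋆ₐ[ℂ] A) (κ : ℕ → ℂ × ℂ →⋆ₐ[ℂ] A), FS μ t φ ι κ → Irrational t →
  ∀ (P : A) (g : C(Z, ℝ)), IsStarProjection P → (∀ z, 0 ≤ g z ∧ g z ≤ 1) → (φ P).re < ∫ z, g z ∂μ →
  ∃ x : A, star (ι (toC g) * x) * (ι (toC g) * x) = P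

/-- DIV. Orthogonal copies (uses T_CMP, T_TSB). PROOF. Induction on `n`: `(φ p).re < 1 - (n : ℝ) (φ p).re = φ (1 - ∑ u i star (u i))`, so `Sub p (1 - ∑ ..)`. -/
def T_DIV : Prop := ∀ (Z A : Type) [TopologicalSpace Z] [CompactSpace Z] [MeasurableSpace Z] [CStarAlgebra A] (μ : Measure Z) (t : ℝ)
  (φ : A →L[ℂ] ℂ) (ι : C(Z, ℂ) →⋆ₐ[ℂ] A) (κ : ℕ → ℂ × ℂ →⋆ₐ[ℂ] A), FS μ t φ ι κ → Irrational t →
  ∀ (p : A) (n : ℕ), IsStarProjection p → n * (φ p).re < 1 → ∃ u : Fin n → A, (∀ i, star (u i) * u i = p) ∧ ∀ i j, i ≠ j → star (u i) * u j = 0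

/-! ## Cells -/

/-- CEL. PROOF. For every `x` there is `r ∈ (δ/4, δ/2)` with `μ (sphere x r) = 0` (the spheres are disjoint, only countably many have positive measure). Finitely many balls `B_1, .., B_m` cover `Z`; `O_k = B_k \ ⋃_{j<k} closedBall_j`, open, disjoint,
complement of the union in the union of the spheres. Drop the empty ones. -/
def T_CEL : Prop := ∀ (Z : Type) [MetricSpace Z] [CompactSpace Z] [MeasurableSpace Z] [BorelSpace Z] (μ : Measure Z) [IsProbabilityMeasure μ] (δ : ℝ), 0 < δ →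
  ∃ (K : ℕ) (O : Fin K → Set Z) (z : Fin K → Z), (∀ k, IsOpen (O k)) ∧ (∀ k k', k ≠ k' → Disjoint (O k) (O k')) ∧ (∀ k, z k ∈ O k) ∧
    (∀ k, ∀ x ∈ O k, ∀ y ∈ O k, dist x y < δ) ∧ ∑ k, (μ (O k)).toReal = 1

/-- GFN. PROOF. `d z = infDist z Oᶜ` (if `Oᶜ` is empty take `g = g' = 1`), `g_n = min 1 (n * max 0 (d - 1/n))`, `g'_n = min 1 (n d)`; `∫ g_n → μ O` (dominated convergence). -/
def T_GFN : Prop := ∀ (Z : Type) [MetricSpace Z] [CompactSpace Z] [MeasurableSpace Z] [BorelSpace Z] (μ : Measure Z) [IsProbabilityMeasure μ] (O : Set Z) (s : ℝ),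
  IsOpen O → s < (μ O).toReal → ∃ g g' : C(Z, ℝ), (∀ z, 0 ≤ g z ∧ g z ≤ 1) ∧ (∀ z, 0 ≤ g' z ∧ g' z ≤ 1) ∧ (∀ z, g' z * g z = g z) ∧ (∀ z, z ∉ O → g' z = 0) ∧
    s < ∫ z, g z ∂μ

/-- CPJ. Projections in the cells (uses T_DIV, T_CMG, T_GFN). PROOF. For each `k`: T_DIV gives `u j` (`j < n k`, `n k * φ p < μ (O k) ≤ 1`), `P = ∑ u j star (u j)` is a projection of trace `n k * φ p`; T_GFN with `s = n k * φ p`; T_CMG: `w = ι g x`, `star w * w = P`.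
`v k j = w u j`, `ι g' w = w`. -/
def T_CPJ : Prop := ∀ (Z A : Type) [MetricSpace Z] [CompactSpace Z] [MeasurableSpace Z] [BorelSpace Z] [CStarAlgebra A] (μ : Measure Z) [IsProbabilityMeasure μ] (t : ℝ)
  (φ : A →L[ℂ] ℂ) (ι : C(Z, ℂ) →⋆ₐ[ℂ] A) (κ : ℕ → ℂ × ℂ →⋆ₐ[ℂ] A), FS μ t φ ι κ → Irrational t →
  ∀ (K : ℕ) (O : Fin K → Set Z) (n : Fin K → ℕ) (p : A), (∀ k, IsOpen (O k)) → (∀ k k', k ≠ k' → Disjoint (O k) (O k')) → IsStarProjection p →
  (∀ k, n k * (φ p).re < (μ (O k)).toReal) →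
  ∃ (v : (Σ k : Fin K, Fin (n k)) → A) (g' : Fin K → C(Z, ℝ)), (∀ s, star (v s) * v s = p) ∧ (∀ s s', s ≠ s' → star (v s) * v s' = 0) ∧
    (∀ k z, 0 ≤ g' k z ∧ g' k z ≤ 1) ∧ (∀ k z, z ∉ O k → g' k z = 0) ∧ ∀ s, ι (toC (g' s.1)) * v s = v s

/-- CUT. The cut-down estimate. PROOF. `q s = v s star (v s)` are orthogonal projections. Let `m = ∑ k, (h - h (z k)) g' k ∈ C(Z)`: the `g' k` have disjoint supports (the `O k` are disjoint), so `|m| ≤ ε`. `ι h q s - h (z k) q s = ι ((h - h (z k)) g' k) q s = ι m q s`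
(for `k' ≠ k`, `ι (g' k') q s = ι (g' k' * g' k) q s = 0`). So the difference is `ι m Q`, `Q = ∑ q s` a projection. -/
def T_CUT : Prop := ∀ (Z A : Type) [MetricSpace Z] [CompactSpace Z] [CStarAlgebra A] (ι : C(Z, ℂ) →⋆ₐ[ℂ] A)
  (K : ℕ) (O : Fin K → Set Z) (z : Fin K → Z) (n : Fin K → ℕ) (p : A) (v : (Σ k : Fin K, Fin (n k)) → A) (g' : Fin K → C(Z, ℝ)) (h : C(Z, ℂ)) (ε : ℝ),
  (∀ k k', k ≠ k' → Disjoint (O k) (O k')) → IsStarProjection p → (∀ s, star (v s) * v s = p) → (∀ s s', s ≠ s' → star (v s) * v s' = 0) →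
  (∀ k z, 0 ≤ g' k z ∧ g' k z ≤ 1) → (∀ k z, z ∉ O k → g' k z = 0) → (∀ s, ι (toC (g' s.1)) * v s = v s) →
  0 ≤ ε → (∀ k, ∀ x ∈ O k, ‖h x - h (z k)‖ ≤ ε) →
  ‖ι h * (∑ s, v s * star (v s)) - ∑ s, h (z s.1) • (v s * star (v s))‖ ≤ ε

/-- HAL. Hall matching of slots. PROOF. `f` is uniformly continuous, `δ₀ ≤ ρ/8` with `dist x y < δ₀ → dist (f x) (f y) < ρ/8`. `m₀ > 0` a lower bound of the measures of the balls of radius `ρ/8` (compactness, full support). Given the cells, `η₀ = m₀ / K`. For `𝒦 ⊆ Fin K` nonempty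
put `S = ⋃_{k ∈ 𝒦} O k`, `S' = {x | dist to S < ρ/2}`, `N = {k' | ∃ k ∈ 𝒦, dist (f (z k')) (z k) < ρ}`. Every `O k'` meeting `f⁻¹ S'` has `k' ∈ N`, so `∑_{k' ∈ N} μ (O k') ≥ μ (f⁻¹ S') = μ S'`. If `S' = Z` then `N` = all (up to cells of measure zero, none:
full support) and Hall's condition is trivial. Otherwise by connectedness some `x₀` has `infDist x₀ S = ρ/4`, the ball of radius `ρ/8` around it is in `S' \ S`, `μ S' ≥ μ S + m₀`, and
`∑_{N} n k' ≥ ∑_N (μ (O k') / η - 1) ≥ (μ S + m₀) / η - K ≥ ∑_{𝒦} n k` as `K η ≤ m₀`. Hall's theorem (`Finset.all_card_le_biUnion_card_iff_exists_injective`) for target slots and the source slots within `ρ`; an injective self-map of a finite set is bijective. -/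
def T_HAL : Prop := ∀ (Z : Type) [MetricSpace Z] [CompactSpace Z] [ConnectedSpace Z] [MeasurableSpace Z] [BorelSpace Z] (μ : Measure Z) [IsProbabilityMeasure μ] [μ.IsOpenPosMeasure]
  (f : C(Z, Z)) (ρ : ℝ), Measure.map f μ = μ → 0 < ρ →
  ∃ δ₀ : ℝ, 0 < δ₀ ∧ ∀ (K : ℕ) (O : Fin K → Set Z) (z : Fin K → Z), (∀ k, IsOpen (O k)) → (∀ k k', k ≠ k' → Disjoint (O k) (O k')) → (∀ k, z k ∈ O k) →
    (∀ k, ∀ x ∈ O k, ∀ y ∈ O k, dist x y < δ₀) → ∑ k, (μ (O k)).toReal = 1 →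
    ∃ η₀ : ℝ, 0 < η₀ ∧ ∀ (η : ℝ) (n : Fin K → ℕ), 0 < η → η < η₀ → (∀ k, n k * η < (μ (O k)).toReal ∧ (μ (O k)).toReal ≤ (n k + 1) * η) →
      ∃ π : (Σ k : Fin K, Fin (n k)) ≃ (Σ k : Fin K, Fin (n k)), ∀ s, dist (f (z s.1)) (z (π s).1) < ρ

/-- NET. PROOF. Uniform continuity gives `r`; a finite cover by balls `ball (y j) r`, `ψ j z = max 0 (r - dist z (y j))`, `lam j = sqrt (ψ j / ∑ ψ)`. -/
def T_NET : Prop := ∀ (Z : Type) [MetricSpace Z] [CompactSpace Z] (F : Finset C(Z, ℂ)) (ε : ℝ), 0 < ε →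
  ∃ r : ℝ, 0 < r ∧ (∀ g ∈ F, ∀ x y : Z, dist x y < r → ‖g x - g y‖ ≤ ε) ∧
    ∃ (N : ℕ) (y : Fin N → Z) (lam : Fin N → C(Z, ℝ)), (∀ j z, 0 ≤ lam j z) ∧ (∀ z, ∑ j, lam j z ^ 2 = 1) ∧ ∀ j z, lam j z ≠ 0 → dist z (y j) < r

end Pool.Agent.FPZ
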