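import Pool.Agent.FPZ.Targets1
import Pool.Agent.FPZ.Targets3

set_option autoImplicit false

/-!
# FPZ: the embedding induced by a measure preserving map (target EXT)
-/

open scoped Classical
open MeasureTheory

noncomputable section

namespace Pool.Agent.FPZ

namespace EXT_

/-- The family of algebras: continuous functions, then copies of the diagonal algebra. -/
def Fam (Z : Type) [TopologicalSpace Z] : Option ℕ → Type
  | none => C(Z, ℂ)
  | some _ => ℂ × ℂ

instance famRing (Z : Type) [TopologicalSpace Z] : ∀ i : Option ℕ, Ring (Fam Z i)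
  | none => inferInstanceAs (Ring C(Z, ℂ))
  | some _ => inferInstanceAs (Ring (ℂ × ℂ))

instance famStar (Z : Type) [TopologicalSpace Z] : ∀ i : Option ℕ, StarRing (Fam Z i)
  | none => inferInstanceAs (StarRing C(Z, ℂ))
  | some _ => inferInstanceAs (StarRing (ℂ × ℂ))

instance famAlg (Z : Type) [TopologicalSpace Z] : ∀ i : Option ℕ, Algebra ℂ (Fam Z i)
  | none => inferInstanceAs (Algebra ℂ C(Z, ℂ))
  | some _ => inferInstanceAs (Algebra ℂ (ℂ × ℂ))

/-- The family of embeddings. -/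
def emb {Z A : Type} [TopologicalSpace Z] [CStarAlgebra A] (ι : C(Z, ℂ) →⋆ₐ[ℂ] A)
    (κ : ℕ → ℂ × ℂ →⋆ₐ[ℂ] A) : ∀ i : Option ℕ, Fam Z i →⋆ₐ[ℂ] A
  | none => ι
  | some i => κ i

lemma range_emb {Z A : Type} [TopologicalSpace Z] [CStarAlgebra A] (ι : C(Z, ℂ) →⋆ₐ[ℂ] A)
    (κ : ℕ → ℂ × ℂ →⋆ₐ[ℂ] A) :
    (fun i => Set.range (emb ι κ i)) =
      fun o : Option ℕ => o.elim (Set.range ι) (fun i => Set.range (κ i)) := by
  funext o
  cases o <;> rfl

lemma free_mono {I R : Type} [Monoid R] (f : R → ℂ) (S T : I → Set R) (h : ∀ i, S i ⊆ T i)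
    (hT : Free f T) : Free f S := by
  intro l hl hc hx
  exact hT l hl hc fun x hxl => ⟨h _ (hx x hxl).1, (hx x hxl).2⟩

end EXT_

open EXT_ in
theorem p_EXT (h_ISO : T_ISO) : T_EXT := by
  intro Z Z' A A' _ _ _ _ _ _ _ _ _ _ μ μ' t φ ι κ φ' ι' κ' F h h' hF
  set ι₂ : C(Z, ℂ) →⋆ₐ[ℂ] A' := ι'.comp (ContinuousMap.compStarAlgHom' ℂ ℂ F) with hι₂
  have hι₂' : ∀ g, ι₂ g = ι' (g.comp F) := fun g => rfl
  obtain ⟨Θ, h1, -, h3⟩ := h_ISO (Option ℕ) A A' (Fam Z) φ φ' (emb ι κ) (emb ι₂ κ') h.ts h'.ts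
    (by rw [range_emb]; exact h.free)
    (by
      rw [range_emb]
      refine free_mono _ _ _ ?_ h'.free
      intro o
      cases o with
      | none =>
        rintro _ ⟨g, rfl⟩
        exact ⟨g.comp F, rfl⟩
      | some i => exact subset_rfl)
    (by
      have h5 : ∀ g : C(Z, ℂ), φ (ι g) = φ' (ι₂ g) := fun g => by
        rw [hι₂', h.valZ, h'.valZ, ← hF]
        exact integral_map F.continuous.measurable.aemeasurable
          g.continuous.aestronglyMeasurable
      have h6 : ∀ (i : ℕ) (x : ℂ × ℂ), φ (κ i x) = φ' (κ' i x) := fun i x => by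
        rw [h.valP, h'.valP]
      intro o
      cases o with
      | none => exact h5
      | some i => exact h6 i)
    (by
      have h4 : (⋃ i, Set.range (emb ι κ i)) = Set.range ι ∪ ⋃ i, Set.range (κ i) := by
        rw [Set.iUnion_option]
        rfl
      rw [h4]
      exact h.gen)
  refine ⟨Θ, fun g => ?_, fun i x => ?_, h3⟩
  · exact h1 none g
  · exact h1 (some i) x

end Pool.Agent.FPZ
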