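import Pool.Agent.FPZ.Targets3

/-!
# FPZ: restriction to the algebra generated by a block
-/

set_option autoImplicit false

open scoped Classical
open MeasureTheory

noncomputable section

namespace Pool.Agent.FPZ

/-- the closed star algebra generated inside a closed star subalgebra -/
theorem RST_gen {A : Type} [CStarAlgebra A] (T : Set A)
    (T' : Set (cal T : StarSubalgebra ℂ A))
    (hT : (fun d : (cal T : StarSubalgebra ℂ A) => (d : A)) '' T' = T) :
    (cal T' : StarSubalgebra ℂ (cal T : StarSubalgebra ℂ A)) = ⊤ := by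
  refine eq_top_iff.2 ?_
  intro d _
  change d ∈ closure ((StarAlgebra.adjoin ℂ T' : StarSubalgebra ℂ (cal T : StarSubalgebra ℂ A)) :
    Set (cal T : StarSubalgebra ℂ A))
  have hi : Topology.IsInducing (fun d : (cal T : StarSubalgebra ℂ A) => (d : A)) :=
    Topology.IsInducing.subtypeVal
  rw [hi.closure_eq_preimage_closure_image]
  change (d : A) ∈ closure _
  have h1 : (fun d : (cal T : StarSubalgebra ℂ A) => (d : A)) ''
      ((StarAlgebra.adjoin ℂ T' : StarSubalgebra ℂ (cal T : StarSubalgebra ℂ A)) :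
        Set (cal T : StarSubalgebra ℂ A)) =
      ((StarAlgebra.adjoin ℂ T : StarSubalgebra ℂ A) : Set A) := by
    have h2 := StarAlgHom.map_adjoin (cal T : StarSubalgebra ℂ A).subtype T'
    have h3 : (fun d => (cal T : StarSubalgebra ℂ A).subtype d) '' T' = T := hT
    rw [show ((cal T : StarSubalgebra ℂ A).subtype) '' T' = T from h3] at h2
    rw [← h2]
    rfl
  rw [h1]
  exact d.2

theorem RST_free {A : Type} [CStarAlgebra A] (φ : A →L[ℂ] ℂ) (D : StarSubalgebra ℂ A) {I J : Type}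
    (S : I → Set A) (S' : J → Set D) (g : J → I) (hg : Function.Injective g)
    (hS : ∀ j, ∀ x ∈ S' j, (x : A) ∈ S (g j)) (h : Free φ S) : Free (res φ D) S' := by
  intro l hl hc hx
  have h1 := h (l.map fun x => (g x.1, (x.2 : A))) (by simpa using hl) ?_ ?_
  · rw [List.map_map] at h1
    have h2 : (l.map (Prod.snd ∘ fun x : J × D => (g x.1, (x.2 : A)))).prod =
        (((l.map Prod.snd).prod : D) : A) := by
      clear hl hc hx h1
      induction l with
      | nil => simp
      | cons a l ih =>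
        simp only [List.map_cons, List.prod_cons, Function.comp_apply]
        rw [show (List.map (Prod.snd ∘ fun x : J × D => (g x.1, (x.2 : A))) l).prod =
          (((l.map Prod.snd).prod : D) : A) from ih]
        rfl
    rw [h2] at h1
    exact h1
  · rw [List.isChain_map]
    exact hc.imp fun a b hab hh => hab (hg hh)
  · intro x hx'
    obtain ⟨y, hy, rfl⟩ := List.mem_map.1 hx'
    exact ⟨hS _ _ (hx y hy).1, (hx y hy).2⟩

theorem RST_ts {A : Type} [CStarAlgebra A] (φ : A →L[ℂ] ℂ) (D : StarSubalgebra ℂ A)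
    [IsClosed (D : Set A)] (h : TS φ) : TS (res φ D) := by
  refine { one := h.one, pos := fun a => h.pos (a : A), tr := fun a b => h.tr (a : A) b, fth := ?_ }
  intro a ha
  exact Subtype.ext (h.fth (a : A) ha)

theorem p_RST : T_RST := by
  intro Z A _ _ _ _ μ t φ ι κ n hFS
  have hι : ∀ g, ι g ∈ (GA ι κ {j | n ≤ j} : StarSubalgebra ℂ A) := fun g =>
    StarSubalgebra.le_topologicalClosure _ (StarAlgebra.subset_adjoin ℂ _ (Or.inl ⟨g, rfl⟩))
  have hκ : ∀ i x, κ (n + i) x ∈ (GA ι κ {j | n ≤ j} : StarSubalgebra ℂ A) := fun i x =>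
    StarSubalgebra.le_topologicalClosure _ (StarAlgebra.subset_adjoin ℂ _
      (Or.inr (Set.mem_iUnion₂.2 ⟨n + i, Nat.le_add_right n i, x, rfl⟩)))
  refine ⟨StarAlgHom.codRestrict ι _ hι, fun i => StarAlgHom.codRestrict (κ (n + i)) _ (hκ i),
    fun g => rfl, fun i x => rfl, ?_⟩
  refine ⟨RST_ts φ _ hFS.ts, fun g => hFS.valZ g, fun i x => hFS.valP _ x, ?_, ?_⟩
  · refine RST_free φ _ (fun o : Option ℕ => o.elim (Set.range ι) (fun i => Set.range (κ i))) _
      (fun o => o.map (n + ·)) (Option.map_injective (add_right_injective n)) ?_ hFS.free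
    rintro (_ | i) x hx
    · obtain ⟨g, rfl⟩ := hx
      exact ⟨g, rfl⟩
    · obtain ⟨g, rfl⟩ := hx
      exact ⟨g, rfl⟩
  · refine RST_gen (Set.range ι ∪ ⋃ i ∈ {j | n ≤ j}, Set.range (κ i)) _ ?_
    ext a
    constructor
    · rintro ⟨d, hd, rfl⟩
      rcases hd with ⟨g, rfl⟩ | hd
      · exact Or.inl ⟨g, rfl⟩
      · obtain ⟨i, x, rfl⟩ := Set.mem_iUnion.1 hd
        exact Or.inr (Set.mem_iUnion₂.2 ⟨n + i, Nat.le_add_right n i, x, rfl⟩)
    · rintro (⟨g, rfl⟩ | ha)
      · exact ⟨_, Or.inl ⟨g, rfl⟩, rfl⟩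
      · obtain ⟨i, hi, x, rfl⟩ := Set.mem_iUnion₂.1 ha
        obtain ⟨j, rfl⟩ := Nat.exists_eq_add_of_le (show n ≤ i from hi)
        exact ⟨_, Or.inr (Set.mem_iUnion.2 ⟨j, x, rfl⟩), rfl⟩

end Pool.Agent.FPZ
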