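import Pool.Agent.FPZ.Targets3

/-!
# FPZ-HTP: discretisation of a homotopy
-/

set_option autoImplicit false

open scoped unitInterval

namespace Pool.Agent.FPZ

namespace HTP_

lemma modulus {Z : Type} [MetricSpace Z] [CompactSpace Z] (H : C(I × Z, Z)) (F : Finset C(Z, ℂ))
    {ε : ℝ} (hε : 0 < ε) : ∃ δ : ℝ, 0 < δ ∧ ∀ g ∈ F, ∀ (s s' : I) (z : Z), dist s s' < δ →
      ‖g (H (s, z)) - g (H (s', z))‖ ≤ ε := by
  classical
  induction F using Finset.induction_on with
  | empty => exact ⟨1, one_pos, by simp⟩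
  | insert a F ha ih =>
    obtain ⟨δ, hδ, h⟩ := ih
    have hc : Continuous fun p : I × Z => a (H p) := a.continuous.comp H.continuous
    have hu := CompactSpace.uniformContinuous_of_continuous hc
    rw [Metric.uniformContinuous_iff] at hu
    obtain ⟨δ', hδ', h'⟩ := hu ε hε
    refine ⟨min δ δ', lt_min hδ hδ', ?_⟩
    intro g hg s s' z hs
    rcases Finset.mem_insert.1 hg with rfl | hg
    · have h1 : dist ((s, z) : I × Z) (s', z) < δ' := by
        rw [Prod.dist_eq, dist_self]
        exact max_lt (lt_of_lt_of_le hs (min_le_right _ _)) hδ'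
      have h2 := h' h1
      rw [dist_eq_norm] at h2
      exact h2.le
    · exact h g hg s s' z (lt_of_lt_of_le hs (min_le_left _ _))

end HTP_

open HTP_ in
/-- discretisation of a homotopy -/
theorem p_HTP : T_HTP := by
  intro Z _ _ f F ε hε hH
  obtain ⟨H⟩ := hH
  obtain ⟨δ, hδ, hmod⟩ := modulus H.toContinuousMap F hε
  obtain ⟨n, hn⟩ := exists_nat_one_div_lt hδ
  have hm0 : (0 : ℝ) < (n : ℝ) + 1 := by positivity
  let c : ℕ → I := fun i => Set.projIcc 0 1 zero_le_one ((i : ℝ) / ((n : ℝ) + 1))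
  refine ⟨n + 1, fun i => ⟨fun z => H (c i, z), by fun_prop⟩, ?_, ?_, ?_⟩
  · ext z
    have h0 : c 0 = 0 := by
      apply Subtype.ext
      simp [c, Set.coe_projIcc]
    simp [h0]
  · ext z
    have h1 : c (n + 1) = 1 := by
      apply Subtype.ext
      simp only [c, Set.coe_projIcc]
      push_cast
      rw [div_self hm0.ne']
      simp
    simp [h1]
  · intro g hg i hi z
    have hd : dist (c i) (c (i + 1)) < δ := by
      have h1 : dist (c i) (c (i + 1)) ≤ dist ((i : ℝ) / ((n : ℝ) + 1)) (((i + 1 : ℕ) : ℝ) / ((n : ℝ) + 1)) := by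
        have := (LipschitzWith.projIcc (zero_le_one (α := ℝ))).dist_le_mul ((i : ℝ) / ((n : ℝ) + 1))
          (((i + 1 : ℕ) : ℝ) / ((n : ℝ) + 1))
        rw [NNReal.coe_one, one_mul] at this
        exact this
      have h2 : dist ((i : ℝ) / ((n : ℝ) + 1)) (((i + 1 : ℕ) : ℝ) / ((n : ℝ) + 1)) = 1 / ((n : ℝ) + 1) := by
        rw [Real.dist_eq, ← sub_div]
        push_cast
        rw [show (i : ℝ) - ((i : ℝ) + 1) = -1 by ring, abs_div, abs_neg, abs_one, abs_of_pos hm0]
      rw [h2] at h1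
      exact lt_of_le_of_lt h1 hn
    exact hmod g hg (c i) (c (i + 1)) z hd

end Pool.Agent.FPZ
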