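import Pool.Agent.FPZ.Targets4

set_option autoImplicit false

/-!
# FPZ, target CIR: arc length parametrisation of the circle
-/

open scoped Classical unitInterval
open MeasureTheory

noncomputable section

namespace Pool.Agent.FPZ

namespace CIR_

theorem cont : Continuous (fun s : I => cpt s) := by
  unfold cpt
  apply Continuous.subtype_mk
  fun_prop

theorem surj (z : S1) : ∃ s : I, cpt s = z := by
  have hz : ‖(z : ℂ)‖ = 1 := by
    have := z.2
    rwa [mem_sphere_zero_iff_norm] at this
  set t : ℝ := Complex.arg (z : ℂ) / (2 * Real.pi) with ht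
  refine ⟨⟨Int.fract t, Int.fract_nonneg t, (Int.fract_lt_one t).le⟩, ?_⟩
  apply Subtype.ext
  show Complex.exp (2 * Real.pi * ((Int.fract t : ℝ) : ℂ) * Complex.I) = (z : ℂ)
  have h1 : (2 : ℂ) * Real.pi * ((Int.fract t : ℝ) : ℂ) * Complex.I =
      (Complex.arg (z : ℂ) : ℂ) * Complex.I - (⌊t⌋ : ℂ) * (2 * Real.pi * Complex.I) := by
    have h2 : Int.fract t = t - ⌊t⌋ := rfl
    have h3 : (2 * Real.pi) * t = Complex.arg (z : ℂ) := by
      rw [ht]
      field_simp
    rw [h2, ← h3]
    push_cast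
    ring
  rw [h1, Complex.exp_sub, Complex.exp_int_mul_two_pi_mul_I, div_one]
  have h4 := Complex.norm_mul_exp_arg_mul_I (z : ℂ)
  rw [hz, Complex.ofReal_one, one_mul] at h4
  exact h4

/-- the image of a subset of the circle -/
theorem image_eq (S : Set S1) : (Subtype.val '' S : Set ℂ) =
    (fun s : ℝ => Complex.exp (2 * Real.pi * s * Complex.I)) ''
      (Subtype.val '' ((fun s : I => cpt s) ⁻¹' S)) := by
  ext w
  constructor
  · rintro ⟨z, hz, rfl⟩
    obtain ⟨s, hs⟩ := surj z
    refine ⟨s, ⟨s, ?_, rfl⟩, ?_⟩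
    · show cpt s ∈ S
      rw [hs]
      exact hz
    · rw [← hs]
      rfl
  · rintro ⟨_, ⟨s, hs, rfl⟩, rfl⟩
    exact ⟨cpt s, hs, rfl⟩

end CIR_

theorem p_CIR (h_HSC : T_HSC) : T_CIR := by
  have hI : MeasurableEmbedding (Subtype.val : I → ℝ) :=
    MeasurableEmbedding.subtype_coe measurableSet_Icc
  have hK : MeasurableEmbedding (Subtype.val : S1 → ℂ) :=
    MeasurableEmbedding.subtype_coe Metric.isClosed_sphere.measurableSet
  have key : ∀ S : Set S1, MeasurableSet S →
      (Measure.hausdorffMeasure 1 : Measure ℂ) (Subtype.val '' S) =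
        ENNReal.ofReal (2 * Real.pi) * (volume : Measure I) ((fun s : I => cpt s) ⁻¹' S) := by
    intro S hS
    rw [CIR_.image_eq S, h_HSC]
    · congr 1
      exact (hI.comap_apply volume _).symm
    · exact hI.measurableSet_image.2 (CIR_.cont.measurable hS)
    · rintro _ ⟨s, -, rfl⟩
      exact s.2
  have htot : (Measure.hausdorffMeasure 1 : Measure ℂ) (Metric.sphere (0 : ℂ) 1) =
      ENNReal.ofReal (2 * Real.pi) := by
    have h1 := key Set.univ MeasurableSet.univ
    rw [Set.image_univ, Subtype.range_coe_subtype] at h1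
    have h2 : {x : ℂ | x ∈ Metric.sphere (0 : ℂ) 1} = Metric.sphere (0 : ℂ) 1 := rfl
    rw [h2, Set.preimage_univ, measure_univ, mul_one] at h1
    exact h1
  have hpos : ENNReal.ofReal (2 * Real.pi) ≠ 0 := by
    rw [Ne, ENNReal.ofReal_eq_zero, not_le]
    positivity
  show Measure.map (fun s : I => cpt s) (volume : Measure I) = nH (Metric.sphere (0 : ℂ) 1)
  ext S hS
  rw [Measure.map_apply CIR_.cont.measurable hS]
  unfold nH
  rw [Measure.smul_apply, hK.comap_apply, key S hS, htot, smul_eq_mul, ← mul_assoc,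
    ENNReal.inv_mul_cancel hpos ENNReal.ofReal_ne_top, one_mul]

end Pool.Agent.FPZ
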