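import Pool.Agent.FPZ.Targets2
import Pool.Agent.FPZ.Targets3

set_option autoImplicit false

/-!
# FPZ: target VCO (construction of the isometry)
-/

open scoped Classical
open MeasureTheory

noncomputable section

namespace Pool.Agent.FPZ

namespace VCO_

variable {A : Type} [CStarAlgebra A]

theorem norm_e {e : A} (he : IsStarProjection e) : ‖e‖ ≤ 1 := by
  have h1 : star e * e = e := by rw [he.isSelfAdjoint.star_eq, he.isIdempotentElem.eq]
  have h2 : ‖e‖ = ‖e‖ * ‖e‖ := by
    conv_lhs => rw [← h1]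
    exact CStarRing.norm_star_mul_self
  by_contra h
  push Not at h
  nlinarith

theorem ord {e : A} (he : IsStarProjection e) {N : ℕ} (a : Fin N → A) :
    ‖∑ j, star (a j) * e * a j‖ ≤ ‖∑ j, star (a j) * a j‖ := by
  let _ := CStarAlgebra.spectralOrder A
  let _ := CStarAlgebra.spectralOrderedRing A
  have hs : star e = e := he.isSelfAdjoint.star_eq
  have hi : e * e = e := he.isIdempotentElem.eq
  have h0 : 0 ≤ ∑ j, star (a j) * e * a j := by
    refine Finset.sum_nonneg (fun j _ => ?_)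
    have : star (a j) * e * a j = star (e * a j) * (e * a j) := by
      rw [star_mul, hs]
      calc star (a j) * e * a j = star (a j) * (e * e) * a j := by rw [hi]
        _ = star (a j) * e * (e * a j) := by noncomm_ring
    rw [this]
    exact star_mul_self_nonneg _
  have h1 : ∑ j, star (a j) * e * a j ≤ ∑ j, star (a j) * a j := by
    refine Finset.sum_le_sum (fun j _ => ?_)
    rw [← sub_nonneg]
    have : star (a j) * a j - star (a j) * e * a j = star ((1 - e) * a j) * ((1 - e) * a j) := by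
      rw [star_mul, star_sub, star_one, hs]
      have h2 : (1 - e) * (1 - e) = 1 - e := by
        have : (1 - e) * (1 - e) = 1 - e - e + e * e := by noncomm_ring
        rw [this, hi]; abel
      calc star (a j) * a j - star (a j) * e * a j = star (a j) * (1 - e) * a j := by noncomm_ring
        _ = star (a j) * ((1 - e) * (1 - e)) * a j := by rw [h2]
        _ = star (a j) * (1 - e) * ((1 - e) * a j) := by noncomm_ring
    rw [this]
    exact star_mul_self_nonneg _
  exact CStarAlgebra.norm_le_norm_of_nonneg_of_le h0 h1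

theorem sq {e : A} {N : ℕ} (s Y : Fin N → A)
    (h1 : ∀ j, star (s j) * s j = e) (h2 : ∀ i j, i ≠ j → star (s i) * s j = 0) :
    star (∑ j, s j * Y j) * (∑ j, s j * Y j) = ∑ j, star (Y j) * e * Y j := by
  rw [star_sum, Finset.sum_mul]
  refine Finset.sum_congr rfl (fun i _ => ?_)
  rw [Finset.mul_sum, Finset.sum_eq_single i]
  · rw [star_mul]
    calc star (Y i) * star (s i) * (s i * Y i) = star (Y i) * (star (s i) * s i) * Y i := by noncomm_ring
      _ = star (Y i) * e * Y i := by rw [h1]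
  · intro j _ hj
    rw [star_mul]
    calc star (Y i) * star (s i) * (s j * Y j) = star (Y i) * (star (s i) * s j) * Y j := by noncomm_ring
      _ = 0 := by rw [h2 i j (Ne.symm hj)]; simp
  · intro h
    exact absurd (Finset.mem_univ i) h

theorem nrm {e : A} (he : IsStarProjection e) {N : ℕ} (s Y : Fin N → A)
    (h1 : ∀ j, star (s j) * s j = e) (h2 : ∀ i j, i ≠ j → star (s i) * s j = 0) :
    ‖∑ j, s j * Y j‖ ^ 2 ≤ ‖∑ j, star (Y j) * Y j‖ := by
  have h3 : ‖∑ j, s j * Y j‖ ^ 2 = ‖∑ j, star (Y j) * e * Y j‖ := by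
    rw [← sq s Y h1 h2, pow_two]
    exact CStarRing.norm_star_mul_self.symm
  rw [h3]
  exact ord he Y

theorem se {e s : A} (he : IsStarProjection e) (h1 : star s * s = e) : s * e = s := by
  have hs : star e = e := he.isSelfAdjoint.star_eq
  have hi : e * e = e := he.isIdempotentElem.eq
  have h2 : star (s * e - s) * (s * e - s) = 0 := by
    rw [star_sub, star_mul, hs]
    calc (e * star s - star s) * (s * e - s) = e * (star s * s) * e - e * (star s * s) - (star s * s) * e + star s * s := by noncomm_ring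
      _ = 0 := by rw [h1, hi, hi]; abel
  have h3 := CStarRing.star_mul_self_eq_zero_iff (s * e - s) |>.mp h2
  exact sub_eq_zero.mp h3

end VCO_

open VCO_ in
theorem p_VCO (h_PLE : T_PLE) : T_VCO := by
  intro A X _ e N s l G D γ δ θ he hδ hθ hN hs1 hs2 hl hl1 hle hGe hlG hγ hM
  have hes : star e = e := he.isSelfAdjoint.star_eq
  have hei : e * e = e := he.isIdempotentElem.eq
  have hen : ‖e‖ ≤ 1 := norm_e he
  have hse : ∀ j, s j * e = s j := fun j => se he (hs1 j)
  set V₀ : A := ∑ j, s j * (l j * e) with hV₀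
  -- norms of `l j`
  have hln : ∀ j, ‖l j‖ ≤ 1 := by
    intro j
    let _ := CStarAlgebra.spectralOrder A
    let _ := CStarAlgebra.spectralOrderedRing A
    have h1 : ‖l j‖ ^ 2 = ‖l j * l j‖ := by
      rw [pow_two]
      have := CStarRing.norm_star_mul_self (x := l j)
      rw [hl j] at this
      exact this.symm
    have h2 : ∀ i, 0 ≤ l i * l i := by
      intro i
      have := star_mul_self_nonneg (l i)
      rwa [hl i] at this
    have h3 : l j * l j ≤ 1 := by
      rw [← hl1]
      exact Finset.single_le_sum (fun i _ => h2 i) (Finset.mem_univ j)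
    have h4 : ‖l j * l j‖ ≤ ‖(1 : A)‖ := CStarAlgebra.norm_le_norm_of_nonneg_of_le (h2 j) h3
    have h5 : ‖(1 : A)‖ ≤ 1 := norm_e (A := A) (e := 1) (IsStarProjection.one A)
    nlinarith [norm_nonneg (l j)]
  -- `star V₀ * V₀`
  have hVV : star V₀ * V₀ = ∑ j, e * l j * e * (l j * e) := by
    rw [hV₀, sq s (fun j => l j * e) hs1 hs2]
    refine Finset.sum_congr rfl (fun j _ => ?_)
    rw [star_mul, hes, hl j]
  have hV₀e : V₀ * e = V₀ := by
    rw [hV₀, Finset.sum_mul]
    refine Finset.sum_congr rfl (fun j _ => ?_)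
    rw [mul_assoc, mul_assoc, hei]
  have hVVe : ‖star V₀ * V₀ - e‖ ≤ N * δ := by
    have h1 : star V₀ * V₀ - e = ∑ j, e * l j * ((e * l j - l j * e) * e) := by
      have h2 : e = ∑ j, e * (l j * l j) * e := by
        rw [← Finset.sum_mul, ← Finset.mul_sum, hl1, mul_one, hei]
      conv_lhs => rw [hVV]
      conv_lhs => rhs; rw [h2]
      rw [← Finset.sum_sub_distrib]
      refine Finset.sum_congr rfl (fun j _ => ?_)
      have : e * l j * ((e * l j - l j * e) * e) = e * l j * e * (l j * e) - e * (l j * l j) * (e * e) := by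
        noncomm_ring
      rw [this, hei]
    rw [h1]
    refine (norm_sum_le _ _).trans ?_
    have h3 : ∀ j ∈ (Finset.univ : Finset (Fin N)), ‖e * l j * ((e * l j - l j * e) * e)‖ ≤ δ := by
      intro j _
      have h4 : ‖e * l j - l j * e‖ ≤ δ := by rw [norm_sub_rev]; exact hle j
      calc ‖e * l j * ((e * l j - l j * e) * e)‖ ≤ ‖e * l j‖ * ‖(e * l j - l j * e) * e‖ := norm_mul_le _ _
        _ ≤ (‖e‖ * ‖l j‖) * (‖e * l j - l j * e‖ * ‖e‖) := by
            gcongr
            · exact norm_mul_le _ _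
            · exact norm_mul_le _ _
        _ ≤ (1 * 1) * (δ * 1) := by
            gcongr
            exact hln j
        _ = δ := by ring
    refine (Finset.sum_le_card_nsmul _ _ _ h3).trans ?_
    simp
  obtain ⟨x, hx1, hxe, hxV, hVe⟩ := h_PLE A e V₀ (N * δ) he hV₀e hVVe hN
  have hV₀n : ‖V₀‖ ≤ 5 / 4 := by
    have h1 : ‖V₀‖ ^ 2 = ‖star V₀ * V₀‖ := by
      rw [pow_two]; exact CStarRing.norm_star_mul_self.symm
    have h2 : ‖star V₀ * V₀‖ ≤ ‖star V₀ * V₀ - e‖ + ‖e‖ := by
      have := norm_add_le (star V₀ * V₀ - e) e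
      simpa using this
    nlinarith [norm_nonneg V₀]
  have hxn : ‖x‖ ≤ 3 / 2 := by
    have h5 : ‖(1 : A)‖ ≤ 1 := norm_e (A := A) (e := 1) (IsStarProjection.one A)
    have h2 : ‖x‖ ≤ ‖x - 1‖ + ‖(1 : A)‖ := by
      have := norm_add_le (x - 1) 1
      simpa using this
    linarith
  refine ⟨V₀ * x, fun j => l j * e * x, hxV, ?_, hVe, ?_⟩
  · rw [hV₀, Finset.sum_mul]
    refine Finset.sum_congr rfl (fun j _ => ?_)
    rw [mul_assoc]
  intro y
  obtain ⟨M, hMn, hMj⟩ := hM y
  set g := G y with hg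
  -- decomposition
  have hdec : D y * V₀ - V₀ * (e * g * e) = M * V₀ + ∑ j, s j * (-((g - γ y j • 1) * l j * e)) + ∑ j, s j * (l j * ((g * e - e * g) * e)) := by
    have h1 : D y * V₀ = M * V₀ + ∑ j, γ y j • (s j * (l j * e)) := by
      rw [hV₀, Finset.mul_sum, Finset.mul_sum, ← Finset.sum_add_distrib]
      refine Finset.sum_congr rfl (fun j _ => ?_)
      rw [← mul_assoc, hMj j, add_mul, smul_mul_assoc, add_comm, mul_assoc M]
    have h2 : V₀ * (e * g * e) = ∑ j, s j * (l j * (e * g * e)) := by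
      rw [hV₀, Finset.sum_mul]
      refine Finset.sum_congr rfl (fun j _ => ?_)
      calc s j * (l j * e) * (e * g * e) = s j * (l j * ((e * e) * g * e)) := by noncomm_ring
        _ = _ := by rw [hei]
    rw [h1, h2, add_assoc, add_sub_assoc, ← Finset.sum_sub_distrib, ← Finset.sum_add_distrib]
    congr 1
    refine Finset.sum_congr rfl (fun j _ => ?_)
    rw [← mul_add, ← mul_smul_comm, ← mul_sub]
    congr 1
    have h3 : (g - γ y j • 1) * l j * e = l j * g * e - γ y j • (l j * e) := by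
      rw [sub_mul, sub_mul, ← hlG y j, smul_mul_assoc, one_mul, smul_mul_assoc]
    have h4 : l j * ((g * e - e * g) * e) = l j * g * (e * e) - l j * (e * g * e) := by noncomm_ring
    rw [h3, h4, hei]
    abel
  -- second term
  have hT2 : ‖∑ j, s j * (-((g - γ y j • 1) * l j * e))‖ ≤ θ := by
    have h1 := nrm he s (fun j => -((g - γ y j • 1) * l j * e)) hs1 hs2
    have h2 : ∑ j, star (-((g - γ y j • 1) * l j * e)) * (-((g - γ y j • 1) * l j * e)) =
        e * (∑ j, star ((g - γ y j • 1) * l j) * ((g - γ y j • 1) * l j)) * e := by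
      rw [Finset.mul_sum, Finset.sum_mul]
      refine Finset.sum_congr rfl (fun j _ => ?_)
      rw [star_neg, star_mul _ e, hes, neg_mul_neg]
      simp only [mul_assoc]
    have h3 : ‖e * (∑ j, star ((g - γ y j • 1) * l j) * ((g - γ y j • 1) * l j)) * e‖ ≤ θ ^ 2 := by
      calc _ ≤ ‖e * (∑ j, star ((g - γ y j • 1) * l j) * ((g - γ y j • 1) * l j))‖ * ‖e‖ := norm_mul_le _ _
        _ ≤ (‖e‖ * ‖∑ j, star ((g - γ y j • 1) * l j) * ((g - γ y j • 1) * l j)‖) * ‖e‖ := by
            gcongr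
            exact norm_mul_le _ _
        _ ≤ (1 * θ ^ 2) * 1 := by
            gcongr
            exact hγ y
        _ = θ ^ 2 := by ring
    have h4 : ‖∑ j, s j * (-((g - γ y j • 1) * l j * e))‖ ^ 2 ≤ θ ^ 2 := by
      refine h1.trans ?_
      rw [h2]
      exact h3
    exact (pow_le_pow_iff_left₀ (norm_nonneg _) hθ two_ne_zero).mp h4
  -- third term
  have hT3 : ‖∑ j, s j * (l j * ((g * e - e * g) * e))‖ ≤ δ := by
    have h1 := nrm he s (fun j => l j * ((g * e - e * g) * e)) hs1 hs2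
    have h2 : ∑ j, star (l j * ((g * e - e * g) * e)) * (l j * ((g * e - e * g) * e)) =
        star ((g * e - e * g) * e) * ((g * e - e * g) * e) := by
      have h5 : star ((g * e - e * g) * e) * ((g * e - e * g) * e) = star ((g * e - e * g) * e) * (∑ j, l j * l j) * ((g * e - e * g) * e) := by
        rw [hl1, mul_one]
      rw [h5, Finset.mul_sum, Finset.sum_mul]
      refine Finset.sum_congr rfl (fun j _ => ?_)
      rw [star_mul (l j), hl j]
      simp only [mul_assoc]
    have h3 : ‖(g * e - e * g) * e‖ ≤ δ := by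
      calc ‖(g * e - e * g) * e‖ ≤ ‖g * e - e * g‖ * ‖e‖ := norm_mul_le _ _
        _ ≤ δ * 1 := by
            gcongr
            exact hGe y
        _ = δ := by ring
    have h4 : ‖∑ j, s j * (l j * ((g * e - e * g) * e))‖ ^ 2 ≤ δ ^ 2 := by
      refine h1.trans ?_
      rw [h2, CStarRing.norm_star_mul_self, ← pow_two]
      gcongr
    exact (pow_le_pow_iff_left₀ (norm_nonneg _) hδ two_ne_zero).mp h4
  have hB : ‖D y * V₀ - V₀ * (e * g * e)‖ ≤ 5 / 4 * θ + θ + δ := by
    rw [hdec]
    have h1 : ‖M * V₀‖ ≤ 5 / 4 * θ := by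
      calc ‖M * V₀‖ ≤ ‖M‖ * ‖V₀‖ := norm_mul_le _ _
        _ ≤ θ * (5 / 4) := by gcongr
        _ = _ := by ring
    refine (norm_add_le _ _).trans ?_
    refine add_le_add ?_ hT3
    refine (norm_add_le _ _).trans ?_
    exact add_le_add h1 hT2
  have hfin : D y * (V₀ * x) - V₀ * x * (e * g * e) = (D y * V₀ - V₀ * (e * g * e)) * x + V₀ * ((e * g * e) * (x - 1) - (x - 1) * (e * g * e)) := by
    noncomm_ring
  rw [hfin]
  have hgn : ‖e * g * e‖ ≤ ‖g‖ := by
    calc ‖e * g * e‖ ≤ ‖e * g‖ * ‖e‖ := norm_mul_le _ _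
      _ ≤ (‖e‖ * ‖g‖) * ‖e‖ := by
          gcongr
          exact norm_mul_le _ _
      _ ≤ (1 * ‖g‖) * 1 := by gcongr
      _ = ‖g‖ := by ring
  have hC : ‖(e * g * e) * (x - 1) - (x - 1) * (e * g * e)‖ ≤ 4 * (N * δ) * ‖g‖ := by
    calc _ ≤ ‖(e * g * e) * (x - 1)‖ + ‖(x - 1) * (e * g * e)‖ := norm_sub_le _ _
      _ ≤ ‖e * g * e‖ * ‖x - 1‖ + ‖x - 1‖ * ‖e * g * e‖ := add_le_add (norm_mul_le _ _) (norm_mul_le _ _)
      _ ≤ ‖g‖ * (2 * (N * δ)) + (2 * (N * δ)) * ‖g‖ := by gcongr
      _ = _ := by ring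
  have hNδ : 0 ≤ (N : ℝ) * δ := by positivity
  calc _ ≤ ‖(D y * V₀ - V₀ * (e * g * e)) * x‖ + ‖V₀ * ((e * g * e) * (x - 1) - (x - 1) * (e * g * e))‖ := norm_add_le _ _
    _ ≤ ‖D y * V₀ - V₀ * (e * g * e)‖ * ‖x‖ + ‖V₀‖ * ‖(e * g * e) * (x - 1) - (x - 1) * (e * g * e)‖ :=
        add_le_add (norm_mul_le _ _) (norm_mul_le _ _)
    _ ≤ (5 / 4 * θ + θ + δ) * (3 / 2) + (5 / 4) * (4 * (N * δ) * ‖g‖) := by gcongr
    _ ≤ 5 * θ + 5 * (N * ‖g‖ + 1) * δ := by
        nlinarith [norm_nonneg g]

end Pool.Agent.FPZ
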