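import Pool.Agent.FPZ.Targets2

set_option autoImplicit false

/-!
# FPZ (MP_32d866_an): close projections are unitarily equivalent (target CLS)
-/

open scoped Classical
open MeasureTheory

noncomputable section

namespace Pool.Agent.FPZ

namespace CLS_

variable {A : Type} [CStarAlgebra A]

theorem two_sub_mem {Q : A} (hQ : IsStarProjection Q) : (2 * Q - 1) ∈ unitary A := by
  have h1 : Q * Q = Q := hQ.isIdempotentElem.eq
  have h2 : star Q = Q := hQ.isSelfAdjoint.star_eq
  have h3 : star (2 * Q - 1) = 2 * Q - 1 := by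
    have : star (2 * Q : A) = 2 * Q := by
      rw [two_mul, star_add, h2]
    rw [star_sub, star_one, this]
  have h4 : (2 * Q - 1) * (2 * Q - 1) = 1 := by
    have : (2 * Q - 1) * (2 * Q - 1) = 4 * (Q * Q) - 4 * Q + 1 := by noncomm_ring
    rw [this, h1]; noncomm_ring
  rw [Unitary.mem_iff, h3]
  exact ⟨h4, h4⟩

theorem main (P Q : A) (hP : IsStarProjection P) (hQ : IsStarProjection Q)
    (hPQ : ‖P - Q‖ < 1) : ∃ u : A, star u * u = 1 ∧ u * star u = 1 ∧ u * P = Q * u := by
  have hP1 : P * P = P := hP.isIdempotentElem.eq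
  have hP2 : star P = P := hP.isSelfAdjoint.star_eq
  have hQ1 : Q * Q = Q := hQ.isIdempotentElem.eq
  have hQ2 : star Q = Q := hQ.isSelfAdjoint.star_eq
  set z : A := Q * P + (1 - Q) * (1 - P) with hz
  have hz1 : 1 - z = (2 * Q - 1) * (-(P - Q)) := by
    have : (2 * Q - 1) * (-(P - Q)) = -(2 * (Q * P)) + 2 * (Q * Q) + P - Q := by noncomm_ring
    rw [this, hQ1, hz]; noncomm_ring
  have hzn : ‖1 - z‖ < 1 := by
    rw [hz1, CStarRing.norm_mem_unitary_mul _ (two_sub_mem hQ), norm_neg]
    exact hPQ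
  have hzu : IsUnit z := by
    have := isUnit_one_sub_of_norm_lt_one hzn
    rwa [sub_sub_cancel] at this
  have hzP : z * P = Q * P := by
    rw [hz, add_mul, mul_assoc, hP1, mul_assoc, sub_mul 1 P P, one_mul, hP1, sub_self, mul_zero,
      add_zero]
  have hQz : Q * z = Q * P := by
    have h0 : Q * (1 - Q) = 0 := by rw [mul_sub, mul_one, hQ1, sub_self]
    rw [hz, mul_add, ← mul_assoc, hQ1, ← mul_assoc, h0, zero_mul, add_zero]
  have hzz : z * P = Q * z := by rw [hzP, hQz]
  have hzs : P * star z = star z * Q := by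
    have := congrArg star hzz
    rw [star_mul, star_mul, hP2, hQ2] at this
    exact this
  set h : A := star z * z with hh
  have hcomm : Commute h P := by
    show star z * z * P = P * (star z * z)
    rw [mul_assoc, hzz, ← mul_assoc, ← hzs, mul_assoc]
  have hsa : IsSelfAdjoint h := IsSelfAdjoint.star_mul_self z
  have hunit : IsUnit h := hzu.star.mul hzu
  have hpos : ∀ x ∈ spectrum ℝ h, 0 < x := by
    intro x hx
    have h0 : 0 ≤ x := spectrum_star_mul_self_nonneg x hx
    rcases h0.lt_or_eq with h1 | h1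
    · exact h1
    · exfalso
      rw [← h1] at hx
      exact spectrum.zero_notMem ℝ hunit hx
  set s : A := cfc (fun x : ℝ => (Real.sqrt x)⁻¹) h with hs
  have hcont : ContinuousOn (fun x : ℝ => (Real.sqrt x)⁻¹) (spectrum ℝ h) := by
    apply ContinuousOn.inv₀ Real.continuous_sqrt.continuousOn
    intro x hx
    exact (Real.sqrt_pos.mpr (hpos x hx)).ne'
  have hssa : IsSelfAdjoint s := cfc_predicate _ _
  have hsP : Commute s P := hcomm.cfc_real _
  have hshs : s * h * s = 1 := by
    have e1 : s * h = cfc (fun x : ℝ => (Real.sqrt x)⁻¹ * x) h := by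
      rw [cfc_mul (fun x : ℝ => (Real.sqrt x)⁻¹) (fun x => x) h hcont continuousOn_id,
        cfc_id' ℝ h]
    rw [e1, hs, ← cfc_mul (fun x : ℝ => (Real.sqrt x)⁻¹ * x) (fun x : ℝ => (Real.sqrt x)⁻¹) h
      (hcont.mul continuousOn_id) hcont]
    rw [cfc_congr (g := fun _ => (1 : ℝ))]
    · exact cfc_const_one ℝ h
    · intro x hx
      have hx0 := hpos x hx
      have h2 : Real.sqrt x ≠ 0 := (Real.sqrt_pos.mpr hx0).ne'
      have h3 : Real.sqrt x * Real.sqrt x = x := Real.mul_self_sqrt hx0.le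
      show (Real.sqrt x)⁻¹ * x * (Real.sqrt x)⁻¹ = 1
      field_simp
      rw [pow_two, h3]
  have hsu : IsUnit s := by
    have h1 : s * (h * s) = 1 := by rw [← mul_assoc]; exact hshs
    have h2 : (s * h) * s = 1 := hshs
    exact isUnit_iff_exists.mpr ⟨h * s, h1, by
      calc h * s * s = ((s * h) * s) * (h * s * s) := by rw [h2, one_mul]
        _ = (s * h) * ((s * (h * s)) * s) := by noncomm_ring
        _ = (s * h) * s := by rw [h1, one_mul]
        _ = 1 := h2⟩
  set u : A := z * s with hu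
  have huu : star u * u = 1 := by
    rw [hu, star_mul, hssa.star_eq]
    calc s * star z * (z * s) = s * (star z * z) * s := by noncomm_ring
      _ = 1 := hshs
  have huunit : IsUnit u := hzu.mul hsu
  have huu' : u * star u = 1 := by
    obtain ⟨w, hw⟩ := huunit
    have h1 : star u = ↑w⁻¹ := by
      rw [← hw] at huu ⊢
      exact eq_comm.mp (Units.inv_eq_of_mul_eq_one_left huu)
    rw [h1, ← hw]
    simp
  refine ⟨u, huu, huu', ?_⟩
  calc z * s * P = z * (s * P) := by rw [mul_assoc]
    _ = z * (P * s) := by rw [hsP.eq]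
    _ = z * P * s := by rw [mul_assoc]
    _ = Q * z * s := by rw [hzz]
    _ = Q * (z * s) := by rw [mul_assoc]

end CLS_

theorem p_CLS : T_CLS := by
  intro A _ D P Q hD hP hQ hPD hQD hPQ
  have : IsClosed (D : Set A) := hD
  have hP' : IsStarProjection (⟨P, hPD⟩ : D) :=
    ⟨Subtype.ext hP.isIdempotentElem.eq, Subtype.ext hP.isSelfAdjoint.star_eq⟩
  have hQ' : IsStarProjection (⟨Q, hQD⟩ : D) :=
    ⟨Subtype.ext hQ.isIdempotentElem.eq, Subtype.ext hQ.isSelfAdjoint.star_eq⟩
  obtain ⟨u, h1, h2, h3⟩ := CLS_.main (⟨P, hPD⟩ : D) ⟨Q, hQD⟩ hP' hQ' (by simpa using hPQ)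
  exact ⟨u, u.2, congrArg Subtype.val h1, congrArg Subtype.val h2, congrArg Subtype.val h3⟩

end Pool.Agent.FPZ
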