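import Pool.Agent.FPZ.Targets1

set_option autoImplicit false

/-!
# FPZ, target STB: basic facts on states
-/

noncomputable section

namespace Pool.Agent.FPZ

namespace STB_

variable {A : Type} [CStarAlgebra A] {φ : A →L[ℂ] ℂ}

theorem expand (φ : A →L[ℂ] ℂ) (a b : A) : φ (star (a + b) * (a + b)) =
    φ (star a * a) + (φ (star a * b) + φ (star b * a)) + φ (star b * b) := by
  rw [star_add, add_mul, mul_add, mul_add, map_add, map_add, map_add]
  ring

theorem smul_right (φ : A →L[ℂ] ℂ) (c : ℂ) (a b : A) : φ (star a * (c • b)) = c * φ (star a * b) := by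
  rw [mul_smul_comm, map_smul, smul_eq_mul]

theorem smul_left (φ : A →L[ℂ] ℂ) (c : ℂ) (a b : A) :
    φ (star (c • a) * b) = star c * φ (star a * b) := by
  rw [star_smul, smul_mul_assoc, map_smul, smul_eq_mul]

/-- The form is hermitian. -/
theorem herm (h : St φ) (a b : A) : φ (star b * a) = star (φ (star a * b)) := by
  have h1 := (h.pos (a + b)).2
  have ha := (h.pos a).2
  have hb := (h.pos b).2
  rw [expand] at h1
  simp only [Complex.add_im] at h1
  have h2 := (h.pos (a + Complex.I • b)).2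
  have hib := (h.pos (Complex.I • b)).2
  rw [expand, smul_right, smul_left] at h2
  simp only [Complex.add_im, Complex.mul_im, Complex.star_def, Complex.conj_I, Complex.I_re,
    Complex.I_im, Complex.neg_re, Complex.neg_im] at h2
  apply Complex.ext
  · rw [Complex.star_def, Complex.conj_re]
    linarith
  · rw [Complex.star_def, Complex.conj_im]
    linarith

theorem hsq (h : St φ) (a : A) : n2 φ a ^ 2 = (φ (star a * a)).re :=
  Real.sq_sqrt (h.pos a).1

theorem n2_nonneg (a : A) : 0 ≤ n2 φ a := Real.sqrt_nonneg _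

/-- The square of the sum. -/
theorem sq_add (h : St φ) (a b : A) :
    n2 φ (a + b) ^ 2 = n2 φ a ^ 2 + 2 * (φ (star a * b)).re + n2 φ b ^ 2 := by
  rw [hsq h, hsq h, hsq h, expand, herm h a b]
  simp only [Complex.add_re, Complex.star_def, Complex.conj_re]
  ring

theorem n2_smul (h : St φ) (c : ℂ) (a : A) : n2 φ (c • a) = ‖c‖ * n2 φ a := by
  have h1 : n2 φ (c • a) ^ 2 = (‖c‖ * n2 φ a) ^ 2 := by
    rw [hsq h, smul_right, smul_left, mul_pow, hsq h, ← mul_assoc]
    have : c * star c = ((‖c‖ ^ 2 : ℝ) : ℂ) := by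
      rw [Complex.star_def, Complex.mul_conj, Complex.normSq_eq_norm_sq]
    rw [this, Complex.re_ofReal_mul]
  exact (pow_left_inj₀ (n2_nonneg _) (mul_nonneg (norm_nonneg _) (n2_nonneg _)) two_ne_zero).1 h1

/-- Cauchy-Schwarz. -/
theorem cs (h : St φ) (a b : A) : ‖φ (star a * b)‖ ≤ n2 φ a * n2 φ b := by
  set B := φ (star a * b) with hB
  have key : ∀ c : ℂ, 0 ≤ n2 φ a ^ 2 + 2 * (c * B).re + ‖c‖ ^ 2 * n2 φ b ^ 2 := by
    intro c
    have h1 := sq_add h a (c • b)
    rw [smul_right, n2_smul h, mul_pow] at h1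
    rw [← h1]
    positivity
  have hBB : star B * B = ((‖B‖ ^ 2 : ℝ) : ℂ) := by
    rw [Complex.star_def, mul_comm, Complex.mul_conj, Complex.normSq_eq_norm_sq]
  have key2 : ∀ s : ℝ, 0 ≤ n2 φ a ^ 2 - 2 * s * ‖B‖ ^ 2 + s ^ 2 * ‖B‖ ^ 2 * n2 φ b ^ 2 := by
    intro s
    have h1 := key (-(s : ℂ) * star B)
    have e1 : -(s : ℂ) * star B * B = ((-(s * ‖B‖ ^ 2) : ℝ) : ℂ) := by
      rw [mul_assoc, hBB]
      push_cast
      ring
    have e2 : ‖-(s : ℂ) * star B‖ ^ 2 = s ^ 2 * ‖B‖ ^ 2 := by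
      rw [norm_mul, norm_neg, norm_star, Complex.norm_real, mul_pow, Real.norm_eq_abs, sq_abs]
    rw [e1, e2, Complex.ofReal_re] at h1
    linarith
  have hle : ‖B‖ ^ 2 ≤ (n2 φ a * n2 φ b) ^ 2 := by
    rcases eq_or_lt_of_le (sq_nonneg (n2 φ b)) with h0 | h0
    · have hB0 : ‖B‖ ^ 2 ≤ 0 := by
        by_contra hpos
        push Not at hpos
        have h1 := key2 ((n2 φ a ^ 2 + 1) / (2 * ‖B‖ ^ 2))
        rw [← h0, mul_zero, add_zero] at h1
        have h3 : ∀ X Y : ℝ, Y ≠ 0 → 2 * (X / (2 * Y)) * Y = X := by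
          intro X Y hY
          field_simp
        have h2 := h3 (n2 φ a ^ 2 + 1) (‖B‖ ^ 2) hpos.ne'
        linarith
      have : 0 ≤ (n2 φ a * n2 φ b) ^ 2 := sq_nonneg _
      linarith
    · have h1 := key2 (1 / n2 φ b ^ 2)
      have h2 : (1 / n2 φ b ^ 2) ^ 2 * ‖B‖ ^ 2 * n2 φ b ^ 2 = (1 / n2 φ b ^ 2) * ‖B‖ ^ 2 := by
        field_simp
      rw [h2] at h1
      have h3 : (1 / n2 φ b ^ 2) * ‖B‖ ^ 2 ≤ n2 φ a ^ 2 := by linarith
      rw [one_div, inv_mul_eq_div, div_le_iff₀ h0] at h3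
      rw [mul_pow]
      exact h3
  exact (pow_le_pow_iff_left₀ (norm_nonneg _) (mul_nonneg (n2_nonneg _) (n2_nonneg _))
    two_ne_zero).1 hle

theorem n2_one (h : St φ) : n2 φ (1 : A) = 1 := by
  unfold n2
  rw [star_one, mul_one, h.one, Complex.one_re, Real.sqrt_one]

/-- Positivity of compressions. -/
theorem comp_nonneg (h : St φ) (b : A) (a : A) :
    0 ≤ (φ (star b * (algebraMap ℝ A (‖a‖ ^ 2) - star a * a) * b)).re := by
  let _ := CStarAlgebra.spectralOrder A
  let _ := CStarAlgebra.spectralOrderedRing A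
  have h1 : (0 : A) ≤ algebraMap ℝ A (‖a‖ ^ 2) - star a * a :=
    sub_nonneg.2 CStarAlgebra.star_mul_le_algebraMap_norm_sq
  rw [StarOrderedRing.nonneg_iff] at h1
  refine AddSubmonoid.closure_induction
    (motive := fun x _ => 0 ≤ (φ (star b * x * b)).re) ?_ ?_ ?_ h1
  · rintro _ ⟨s, rfl⟩
    have e : star b * (star s * s) * b = star (s * b) * (s * b) := by
      rw [star_mul]
      simp only [mul_assoc]
    show 0 ≤ (φ (star b * (star s * s) * b)).re
    rw [e]
    exact (h.pos _).1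
  · simp
  · intro x y _ _ hx hy
    rw [mul_add, add_mul, map_add, Complex.add_re]
    linarith

theorem n2_mul_le (h : St φ) (a b : A) : n2 φ (a * b) ≤ ‖a‖ * n2 φ b := by
  have h1 := comp_nonneg h b a
  rw [mul_sub, sub_mul, map_sub, Complex.sub_re] at h1
  have e1 : star b * (star a * a) * b = star (a * b) * (a * b) := by
    rw [star_mul]
    simp only [mul_assoc]
  have e2 : star b * algebraMap ℝ A (‖a‖ ^ 2) * b = ((‖a‖ ^ 2 : ℝ) : ℂ) • (star b * b) := by
    rw [Algebra.algebraMap_eq_smul_one, mul_smul_comm, mul_one, smul_mul_assoc]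
    exact (Complex.coe_smul (‖a‖ ^ 2) (star b * b)).symm
  rw [e1, e2, map_smul, smul_eq_mul, Complex.re_ofReal_mul, ← hsq h, ← hsq h] at h1
  have h2 : n2 φ (a * b) ^ 2 ≤ (‖a‖ * n2 φ b) ^ 2 := by
    rw [mul_pow]
    linarith
  exact (pow_le_pow_iff_left₀ (n2_nonneg _) (mul_nonneg (norm_nonneg _) (n2_nonneg _))
    two_ne_zero).1 h2

end STB_

open STB_ in
theorem p_STB : T_STB := by
  intro A _ φ h
  refine ⟨?_, cs h, ?_, ?_, n2_mul_le h, ?_, hsq h, n2_smul h, ?_, n2_nonneg, ?_⟩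
  · intro a
    have := herm h 1 a
    rw [mul_one, star_one, one_mul] at this
    exact this
  · intro a
    have := cs h 1 a
    rw [star_one, one_mul, n2_one h, one_mul] at this
    exact this
  · intro a
    have := n2_mul_le h a 1
    rw [mul_one, n2_one h, mul_one] at this
    exact this
  · intro a b
    have h1 := sq_add h a b
    have h2 := cs h a b
    have h3 : (φ (star a * b)).re ≤ ‖φ (star a * b)‖ := Complex.re_le_norm _
    have h4 : n2 φ (a + b) ^ 2 ≤ (n2 φ a + n2 φ b) ^ 2 := by nlinarith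
    exact (pow_le_pow_iff_left₀ (n2_nonneg _) (add_nonneg (n2_nonneg _) (n2_nonneg _))
      two_ne_zero).1 h4
  · intro a b hab
    have h1 := sq_add h a b
    rw [hab] at h1
    simpa using h1
  · unfold n2
    fun_prop

end Pool.Agent.FPZ
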