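import Pool.Agent.FPZ.Targets1
import Pool.Agent.FPZ.Targets2

set_option autoImplicit false

open scoped Classical
open MeasureTheory

noncomputable section

namespace Pool.Agent.FPZ

namespace CMP_

theorem swap {R : Type} [Monoid R] (f : R → ℂ) (X Y : Set R)
    (h : Free f (fun b : Bool => bif b then X else Y)) :
    Free f (fun b : Bool => bif b then Y else X) := by
  intro l hl hc hx
  have h1 := h (l.map (fun x => (!x.1, x.2))) (by simpa using hl) ?_ ?_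
  · rw [List.map_map] at h1
    exact h1
  · rw [List.isChain_map]
    refine hc.imp ?_
    intro a b hab hcon
    exact hab (by simpa using hcon)
  · intro x hxm
    rw [List.mem_map] at hxm
    obtain ⟨y, hy, rfl⟩ := hxm
    have h2 := hx y hy
    refine ⟨?_, h2.2⟩
    have h3 := h2.1
    rcases y with ⟨b, r⟩
    cases b <;> simpa using h3

theorem cal_mono {A : Type} [CStarAlgebra A] {S T : Set A} (h : S ⊆ T) : cal S ≤ cal T := by
  unfold cal
  exact StarSubalgebra.topologicalClosure_mono (StarAlgebra.adjoin_le (h.trans (StarAlgebra.subset_adjoin ℂ T)))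

theorem GA_mono {Z A : Type} [TopologicalSpace Z] [CompactSpace Z] [CStarAlgebra A]
    (ι : C(Z, ℂ) →⋆ₐ[ℂ] A) (κ : ℕ → ℂ × ℂ →⋆ₐ[ℂ] A) {J J' : Set ℕ} (h : J ⊆ J') :
    GA ι κ J ≤ GA ι κ J' := by
  unfold GA
  refine cal_mono (Set.union_subset_union_right _ ?_)
  exact Set.biUnion_mono h (fun _ _ => le_rfl)

theorem GA_mem {Z A : Type} [TopologicalSpace Z] [CompactSpace Z] [CStarAlgebra A]
    (ι : C(Z, ℂ) →⋆ₐ[ℂ] A) (κ : ℕ → ℂ × ℂ →⋆ₐ[ℂ] A) (n m : ℕ) (h : n ≤ m) (x : A)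
    (hx : x ∈ GA ι κ {j | j < n}) : x ∈ GA ι κ {j | j < m} := by
  have hs : ({j | j < n} : Set ℕ) ⊆ {j | j < m} := by
    intro j hj
    simp only [Set.mem_ofPred_eq] at hj ⊢
    omega
  have h1 : GA ι κ {j | j < n} ≤ GA ι κ {j | j < m} := GA_mono ι κ hs
  exact SetLike.le_def.mp h1 hx

theorem memTop {A : Type} [CStarAlgebra A] (x : A) : x ∈ (⊤ : StarSubalgebra ℂ A) :=
  StarSubalgebra.mem_top

theorem closedTop {A : Type} [CStarAlgebra A] : IsClosed (((⊤ : StarSubalgebra ℂ A)) : Set A) := by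
  have : ((⊤ : StarSubalgebra ℂ A) : Set A) = Set.univ := by
    ext x
    simp
  rw [this]
  exact isClosed_univ

theorem approx (h_DIR : T_DIR) (h_PRT : T_PRT) (h_CLS : T_CLS)
    (Z A : Type) [TopologicalSpace Z] [CompactSpace Z] [MeasurableSpace Z] [CStarAlgebra A]
    (μ : Measure Z) (t : ℝ) (φ : A →L[ℂ] ℂ) (ι : C(Z, ℂ) →⋆ₐ[ℂ] A) (κ : ℕ → ℂ × ℂ →⋆ₐ[ℂ] A)
    (hF : FS μ t φ ι κ) (P : A) (hP : IsStarProjection P) :
    ∃ n : ℕ, ∃ P' ∈ GA ι κ {j | j < n}, IsStarProjection P' ∧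
      ∃ u : A, star u * u = 1 ∧ u * star u = 1 ∧ u * P = P' * u := by
  have hmono : Monotone (fun n : ℕ => Set.range ι ∪ ⋃ i ∈ {j : ℕ | j < n}, Set.range (κ i)) := by
    intro a b hab
    refine Set.union_subset_union_right _ ?_
    refine Set.biUnion_mono ?_ (fun _ _ => le_rfl)
    intro j hj
    exact lt_of_lt_of_le hj hab
  have hun : (⋃ n : ℕ, (Set.range ι ∪ ⋃ i ∈ {j : ℕ | j < n}, Set.range (κ i)))
      = Set.range ι ∪ ⋃ i, Set.range (κ i) := by
    ext x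
    simp only [Set.mem_iUnion, Set.mem_union, Set.mem_ofPred_eq]
    constructor
    · rintro ⟨n, h | ⟨i, _, hi⟩⟩
      · exact Or.inl h
      · exact Or.inr ⟨i, hi⟩
    · rintro (h | ⟨i, hi⟩)
      · exact ⟨0, Or.inl h⟩
      · exact ⟨i + 1, Or.inr ⟨i, Nat.lt_succ_self i, hi⟩⟩
  have hmem : P ∈ cal (⋃ n : ℕ, (Set.range ι ∪ ⋃ i ∈ {j : ℕ | j < n}, Set.range (κ i))) := by
    rw [hun, hF.gen]
    exact memTop _
  obtain ⟨n, d, hd, hPd⟩ := h_DIR A _ hmono P hmem (1 / 8) (by norm_num)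
  obtain ⟨P', hP', hP'p, hn⟩ := h_PRT A (GA ι κ {j | j < n}) P d (GA_closed ι κ _) hP hd hPd
  obtain ⟨u, _, hu1, hu2, hu3⟩ := h_CLS A ⊤ P P' closedTop hP hP'p (memTop _) (memTop _) hn
  exact ⟨n, P', hP', hP'p, u, hu1, hu2, hu3⟩

theorem sub_left {A : Type} [CStarAlgebra A] {P P' u : A} (hP : IsStarProjection P)
    (h1 : star u * u = 1) (h3 : u * P = P' * u) : Sub P P' := by
  refine ⟨u * P, ?_, ?_⟩
  · calc star (u * P) * (u * P) = star P * (star u * u) * P := by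
          rw [star_mul]
          simp only [mul_assoc]
      _ = P := by
          rw [h1, mul_one, hP.isSelfAdjoint.star_eq, hP.isIdempotentElem.eq]
  · calc P' * (u * P) = (P' * u) * P := by rw [mul_assoc]
      _ = u * (P * P) := by rw [← h3, mul_assoc]
      _ = u * P := by rw [hP.isIdempotentElem.eq]

theorem sub_right {A : Type} [CStarAlgebra A] {Q Q' u : A} (hQ' : IsStarProjection Q')
    (h1 : star u * u = 1) (h2 : u * star u = 1) (h3 : u * Q = Q' * u) : Sub Q' Q := by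
  refine ⟨star u * Q', ?_, ?_⟩
  · calc star (star u * Q') * (star u * Q') = star Q' * (u * star u) * Q' := by
          rw [star_mul, star_star]
          simp only [mul_assoc]
      _ = Q' := by
          rw [h2, mul_one, hQ'.isSelfAdjoint.star_eq, hQ'.isIdempotentElem.eq]
  · calc Q * (star u * Q') = (star u * u) * Q * (star u * Q') := by rw [h1, one_mul]
      _ = star u * (u * Q) * (star u * Q') := by simp only [mul_assoc]
      _ = star u * Q' * (u * star u) * Q' := by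
          rw [h3]
          simp only [mul_assoc]
      _ = star u * (Q' * Q') := by
          rw [h2]
          simp only [mul_assoc, one_mul]
      _ = star u * Q' := by rw [hQ'.isIdempotentElem.eq]

theorem trace_eq {A : Type} [CStarAlgebra A] {φ : A →L[ℂ] ℂ} (hT : TS φ) {P P' u : A}
    (h1 : star u * u = 1) (h2 : u * star u = 1) (h3 : u * P = P' * u) : φ P' = φ P := by
  calc φ P' = φ ((P' * u) * star u) := by rw [mul_assoc, h2, mul_one]
    _ = φ ((u * P) * star u) := by rw [h3]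
    _ = φ (star u * (u * P)) := hT.tr _ _
    _ = φ P := by rw [← mul_assoc, h1, one_mul]

end CMP_

theorem p_CMP (h_FRG : T_FRG) (h_SQP : T_SQP) (h_DEN : T_DEN) (h_DIR : T_DIR) (h_PRT : T_PRT)
    (h_CLS : T_CLS) (h_SUT : T_SUT) (h_TSB : T_TSB) : T_CMP := by
  intro Z A _ _ _ _ μ t φ ι κ hF ht P Q hP hQ hlt
  obtain ⟨n1, P', hP', hP'p, u, hu1, hu2, hu3⟩ := CMP_.approx h_DIR h_PRT h_CLS Z A μ t φ ι κ hF P hP
  obtain ⟨n2, Q', hQ', hQ'p, v, hv1, hv2, hv3⟩ := CMP_.approx h_DIR h_PRT h_CLS Z A μ t φ ι κ hF Q hQ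
  have htP : φ P' = φ P := CMP_.trace_eq hF.ts hu1 hu2 hu3
  have htQ : φ Q' = φ Q := CMP_.trace_eq hF.ts hv1 hv2 hv3
  have hTS := (h_TSB A φ hF.ts).1
  obtain ⟨R, hR, hRp, hR1, hR2⟩ := h_DEN Z A μ t φ ι κ hF ht (max n1 n2) (φ P).re (φ Q).re
    (hTS P hP).1 hlt (hTS Q hQ).2.1
  have hP'' : P' ∈ GA ι κ {j | j < max n1 n2} :=
    CMP_.GA_mem ι κ n1 (max n1 n2) (le_max_left _ _) P' hP'
  have hQ'' : Q' ∈ GA ι κ {j | j < max n1 n2} :=
    CMP_.GA_mem ι κ n2 (max n1 n2) (le_max_right _ _) Q' hQ'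
  have hJ : ({j | j < max n1 n2} : Set ℕ)ᶜ = {j | max n1 n2 ≤ j} := by
    ext j
    simp
  have hfree := h_FRG Z A μ t φ ι κ {j | j < max n1 n2} hF
  rw [hJ] at hfree
  have hsub1 : Sub P' R := by
    obtain ⟨w, _, hw1, hw2⟩ := h_SQP A φ (GA ι κ {j | j < max n1 n2}) (EA κ {j | max n1 n2 ≤ j}) ⊤ P' R
      hF.ts hfree CMP_.closedTop hP'p hRp hP'' hR (CMP_.memTop _) (CMP_.memTop _) (by rw [htP]; exact hR1)
    exact ⟨w, hw1, hw2⟩
  have hsub2 : Sub R Q' := by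
    obtain ⟨w, _, hw1, hw2⟩ := h_SQP A φ (EA κ {j | max n1 n2 ≤ j}) (GA ι κ {j | j < max n1 n2}) ⊤ R Q'
      hF.ts (CMP_.swap φ _ _ hfree) CMP_.closedTop hRp hQ'p hR hQ'' (CMP_.memTop _) (CMP_.memTop _) (by rw [htQ]; exact hR2)
    exact ⟨w, hw1, hw2⟩
  have hsub0 : Sub P P' := CMP_.sub_left hP hu1 hu3
  have hsub3 : Sub Q' Q := CMP_.sub_right hQ'p hv1 hv2 hv3
  have s1 : Sub P R := h_SUT A P P' R hP hP'p hsub0 hsub1
  have s2 : Sub P Q' := h_SUT A P R Q' hP hRp s1 hsub2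
  exact h_SUT A P Q' Q hP hQ'p s2 hsub3

end Pool.Agent.FPZ
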