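import Pool.Agent.FPZ.Targets2

set_option autoImplicit false

/-!
# FPZ: orthogonal copies of a projection
-/

open scoped Classical
open MeasureTheory

noncomputable section

namespace Pool.Agent.FPZ

namespace DIV_

variable {A : Type} [CStarAlgebra A]

theorem mul_right_eq {u p : A} (hp : IsStarProjection p) (hu : star u * u = p) : u * p = u := by
  have h1 : p * p = p := hp.isIdempotentElem
  have h2 : star p = p := hp.isSelfAdjoint
  have h3 : star (u * p - u) * (u * p - u) = 0 := by
    have : star (u * p - u) * (u * p - u)
        = star p * (star u * u) * p - star p * (star u * u) - (star u * u) * p + star u * u := by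
      simp only [star_sub, star_mul]
      noncomm_ring
    rw [this, hu, h2, h1, h1]
    simp
  have h4 : u * p - u = 0 := by
    rwa [CStarRing.star_mul_self_eq_zero_iff] at h3
  exact sub_eq_zero.mp h4

theorem star_eq {u p : A} (hp : IsStarProjection p) (hu : star u * u = p) : p * star u = star u := by
  have h := congrArg star (mul_right_eq hp hu)
  rw [star_mul, hp.isSelfAdjoint.star_eq] at h
  exact h

/-- The complement of the sum of the range projections. -/
def E {n : ℕ} (u : Fin n → A) : A := 1 - ∑ i, u i * star (u i)

theorem star_mul_E {n : ℕ} {u : Fin n → A} {p : A} (hp : IsStarProjection p)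
    (hu : ∀ i, star (u i) * u i = p) (ho : ∀ i j, i ≠ j → star (u i) * u j = 0) (i : Fin n) :
    star (u i) * E u = 0 := by
  have h1 : star (u i) * ∑ j, u j * star (u j) = star (u i) := by
    rw [Finset.mul_sum, Finset.sum_eq_single i]
    · rw [← mul_assoc, hu, star_eq hp (hu i)]
    · intro j _ hj
      rw [← mul_assoc, ho i j (Ne.symm hj), zero_mul]
    · intro h
      exact absurd (Finset.mem_univ i) h
  rw [E, mul_sub, mul_one, h1, sub_self]

theorem proj_E {n : ℕ} {u : Fin n → A} {p : A} (hp : IsStarProjection p)
    (hu : ∀ i, star (u i) * u i = p) (ho : ∀ i j, i ≠ j → star (u i) * u j = 0) :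
    IsStarProjection (E u) := by
  have hs : star (E u) = E u := by
    simp [E, star_sub, star_sum, star_mul]
  have hi : E u * E u = E u := by
    have h1 : (∑ i, u i * star (u i)) * E u = 0 := by
      rw [Finset.sum_mul]
      refine Finset.sum_eq_zero fun i _ => ?_
      rw [mul_assoc, star_mul_E hp hu ho, mul_zero]
    conv_lhs => rw [E]
    rw [sub_mul, one_mul]
    change E u - (∑ i, u i * star (u i)) * E u = E u
    rw [h1, sub_zero]
  exact ⟨hi, hs⟩

end DIV_

open DIV_ in
theorem p_DIV (h_CMP : T_CMP) : T_DIV := by
  intro Z A _ _ _ _ μ t φ ι κ hF ht p n hp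
  have hpos : 0 ≤ (φ p).re := by
    have h := (hF.ts.pos p).1
    have h2 : star p * p = p := by
      rw [hp.isSelfAdjoint.star_eq]
      exact hp.isIdempotentElem
    rwa [h2] at h
  induction n with
  | zero =>
    intro _
    exact ⟨fun i => i.elim0, fun i => i.elim0, fun i => i.elim0⟩
  | succ n ih =>
    intro hn
    have hn' : (n : ℝ) * (φ p).re < 1 := by
      push_cast at hn
      nlinarith
    obtain ⟨u, hu, ho⟩ := ih hn'
    have hE := proj_E hp hu ho
    have hφ : φ (E u) = 1 - n * φ p := by
      have h1 : φ (∑ i, u i * star (u i)) = n * φ p := by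
        rw [map_sum]
        have h2 : ∀ i : Fin n, φ (u i * star (u i)) = φ p := by
          intro i
          rw [hF.ts.tr, hu]
        rw [Finset.sum_congr rfl fun i _ => h2 i]
        simp
      rw [E, map_sub, h1, hF.ts.one]
    have hre : (φ (E u)).re = 1 - n * (φ p).re := by
      rw [hφ]
      simp
    have hlt : (φ p).re < (φ (E u)).re := by
      rw [hre]
      push_cast at hn
      linarith
    obtain ⟨v, hv, hEv⟩ := h_CMP Z A μ t φ ι κ hF ht p (E u) hp hE hlt
    have huv : ∀ i, star (u i) * v = 0 := by
      intro i
      rw [← hEv, ← mul_assoc, star_mul_E hp hu ho, zero_mul]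
    have hvu : ∀ i, star v * u i = 0 := by
      intro i
      have h := congrArg star (huv i)
      rw [star_mul, star_star, star_zero] at h
      exact h
    refine ⟨Fin.cons v u, ?_, ?_⟩
    · intro i
      refine Fin.cases ?_ (fun j => ?_) i
      · simpa using hv
      · simpa using hu j
    · intro i j
      refine Fin.cases ?_ (fun i' => ?_) i
      · refine Fin.cases ?_ (fun j' => ?_) j
        · intro h
          exact absurd rfl h
        · intro _
          simpa using hvu j'
      · refine Fin.cases ?_ (fun j' => ?_) j
        · intro _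
          simpa using huv i'
        · intro h
          have h' : i' ≠ j' := fun e => h (by rw [e])
          simpa using ho i' j' h'

end Pool.Agent.FPZ
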