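import Pool.Agent.FPZ.Targets3

set_option autoImplicit false

/-!
# FPZ: INT, approximate intertwining
-/

open Filter Topology

noncomputable section

namespace Pool.Agent.FPZ

namespace INT_

lemma hom_le {A B : Type} [CStarAlgebra A] [CStarAlgebra B] (f : A →⋆ₐ[ℂ] B) (a : A) :
    ‖f a‖ ≤ ‖a‖ :=
  NonUnitalStarAlgHom.norm_apply_le f a

lemma hom_dist {A B : Type} [CStarAlgebra A] [CStarAlgebra B] (f : A →⋆ₐ[ℂ] B) (a b : A) :
    dist (f a) (f b) ≤ dist a b := by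
  rw [dist_eq_norm, dist_eq_norm, ← map_sub]
  exact hom_le f _

lemma hom_cont {A B : Type} [CStarAlgebra A] [CStarAlgebra B] (f : A →⋆ₐ[ℂ] B) :
    Continuous f := by
  apply LipschitzWith.continuous (K := 1)
  apply LipschitzWith.of_dist_le_mul
  intro a b
  simpa using hom_dist f a b

lemma eqv_norm {A B : Type} [CStarAlgebra A] [CStarAlgebra B] (e : A ≃⋆ₐ[ℂ] B) (a : A) :
    ‖e a‖ = ‖a‖ := by
  apply le_antisymm
  · exact hom_le (e : A →⋆ₐ[ℂ] B) a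
  · have h := hom_le (e.symm : B →⋆ₐ[ℂ] A) (e a)
    simpa using h

/-- Pointwise limits of star homomorphisms. -/
lemma lim {A B : Type} [CStarAlgebra A] [CStarAlgebra B] (σ : ℕ → A →⋆ₐ[ℂ] B) (d : ℕ → A)
    (hd : DenseRange d) (h : ∀ i, CauchySeq (fun k => σ k (d i))) :
    ∃ τ : A →⋆ₐ[ℂ] B, ∀ a, Tendsto (fun k => σ k a) atTop (𝓝 (τ a)) := by
  have hc : ∀ a, CauchySeq (fun k => σ k a) := by
    intro a
    rw [Metric.cauchySeq_iff]
    intro ε hε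
    obtain ⟨i, hi⟩ := hd.exists_dist_lt a (show 0 < ε / 4 by positivity)
    obtain ⟨N, hN⟩ := Metric.cauchySeq_iff.mp (h i) (ε / 4) (by positivity)
    refine ⟨N, fun m hm n hn => ?_⟩
    have h1 := hom_dist (σ m) a (d i)
    have h2 := hom_dist (σ n) (d i) a
    rw [dist_comm (d i) a] at h2
    have h3 := hN m hm n hn
    have h4 := dist_triangle4 (σ m a) (σ m (d i)) (σ n (d i)) (σ n a)
    linarith
  choose τ hτ using fun a => cauchySeq_tendsto_of_complete (hc a)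
  have e1 : τ 1 = 1 := by
    refine tendsto_nhds_unique (hτ 1) ?_
    simp only [map_one]
    exact tendsto_const_nhds
  have e2 : ∀ x y, τ (x * y) = τ x * τ y := by
    intro x y
    refine tendsto_nhds_unique (hτ (x * y)) ?_
    simp only [map_mul]
    exact (hτ x).mul (hτ y)
  have e3 : τ 0 = 0 := by
    refine tendsto_nhds_unique (hτ 0) ?_
    simp only [map_zero]
    exact tendsto_const_nhds
  have e4 : ∀ x y, τ (x + y) = τ x + τ y := by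
    intro x y
    refine tendsto_nhds_unique (hτ (x + y)) ?_
    simp only [map_add]
    exact (hτ x).add (hτ y)
  have e5 : ∀ r : ℂ, τ (algebraMap ℂ A r) = algebraMap ℂ B r := by
    intro r
    refine tendsto_nhds_unique (hτ _) ?_
    simp only [AlgHomClass.commutes]
    exact tendsto_const_nhds
  have e6 : ∀ x, τ (star x) = star (τ x) := by
    intro x
    refine tendsto_nhds_unique (hτ _) ?_
    simp only [map_star]
    exact (hτ x).star
  exact ⟨{ toFun := τ, map_one' := e1, map_mul' := e2, map_zero' := e3, map_add' := e4,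
           commutes' := e5, map_star' := e6 }, hτ⟩

lemma joint {A B : Type} [CStarAlgebra A] [CStarAlgebra B] (σ : ℕ → A →⋆ₐ[ℂ] B) (y : ℕ → A)
    (a : A) (b : B) (hy : Tendsto y atTop (𝓝 a)) (h : Tendsto (fun k => σ k a) atTop (𝓝 b)) :
    Tendsto (fun k => σ k (y k)) atTop (𝓝 b) := by
  rw [tendsto_iff_dist_tendsto_zero] at hy h ⊢
  have h0 : Tendsto (fun k => dist (y k) a + dist (σ k a) b) atTop (𝓝 0) := by
    simpa using hy.add h
  refine squeeze_zero (fun _ => dist_nonneg) (fun k => ?_) h0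
  calc dist (σ k (y k)) b ≤ dist (σ k (y k)) (σ k a) + dist (σ k a) b := dist_triangle _ _ _
    _ ≤ dist (y k) a + dist (σ k a) b := by
      gcongr
      exact hom_dist _ _ _

/-- Geometric Cauchy criterion from some index on. -/
lemma geo {X : Type} [PseudoMetricSpace X] (u : ℕ → X) (n₀ : ℕ)
    (h : ∀ k, n₀ ≤ k → dist (u k) (u (k + 1)) ≤ 2 * (1 / 2 : ℝ) ^ k) : CauchySeq u := by
  rw [← cauchySeq_shift n₀]
  apply cauchySeq_of_le_geometric (1 / 2 : ℝ) 2 (by norm_num)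
  intro n
  have h1 := h (n + n₀) (by omega)
  have h2 : (1 / 2 : ℝ) ^ (n + n₀) ≤ (1 / 2 : ℝ) ^ n :=
    pow_le_pow_of_le_one (by norm_num) (by norm_num) (by omega)
  have e : n + 1 + n₀ = n + n₀ + 1 := by omega
  rw [e]
  linarith

/-- A sequence chosen step by step. -/
lemma rec_seq {X : Type} (x₀ : X) (R : ℕ → X → X → Prop) (h : ∀ k x, ∃ y, R k x y) :
    ∃ s : ℕ → X, ∀ k, R k (s k) (s (k + 1)) := by
  choose f hf using h
  refine ⟨fun n => Nat.rec x₀ (fun k x => f k x) n, fun k => ?_⟩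
  exact hf k _

section main

variable {A A' : Type} [CStarAlgebra A] [CStarAlgebra A']

/-- The abstract intertwining. -/
lemma core (d : ℕ → A) (d' : ℕ → A') (hd : DenseRange d) (hd' : DenseRange d')
    (P : (A →⋆ₐ[ℂ] A') → Prop) (P' : (A' →⋆ₐ[ℂ] A) → Prop) (σ₀ : A →⋆ₐ[ℂ] A') (hσ₀ : P σ₀)
    (H1 : ∀ σ, P σ → ∀ (E : Finset A) (ε : ℝ), 0 < ε → ∃ ρ, P' ρ ∧ ∀ a ∈ E, ‖ρ (σ a) - a‖ ≤ ε)
    (H2 : ∀ ρ, P' ρ → ∀ (E : Finset A') (ε : ℝ), 0 < ε → ∃ σ, P σ ∧ ∀ b ∈ E, ‖σ (ρ b) - b‖ ≤ ε) :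
    Nonempty (A ≃⋆ₐ[ℂ] A') := by
  classical
  obtain ⟨s, hs⟩ := rec_seq
    (X := {x : (A →⋆ₐ[ℂ] A') × Finset A × Finset A' // P x.1})
    ⟨(σ₀, ∅, ∅), hσ₀⟩
    (fun k x y => ∃ ρ : A' →⋆ₐ[ℂ] A,
      (∀ a ∈ x.1.2.1, ‖ρ (x.1.1 a) - a‖ ≤ (1 / 2 : ℝ) ^ k) ∧
      (∀ b ∈ y.1.2.2, ‖y.1.1 (ρ b) - b‖ ≤ (1 / 2 : ℝ) ^ k) ∧
      (∀ a ∈ x.1.2.1, x.1.1 a ∈ y.1.2.2) ∧ (∀ b ∈ y.1.2.2, ρ b ∈ y.1.2.1) ∧
      (∀ i ≤ k, d i ∈ y.1.2.1) ∧ (∀ i ≤ k, d' i ∈ y.1.2.2))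
    (by
      rintro k ⟨⟨σ, E, E'⟩, hσ⟩
      have hk : (0 : ℝ) < (1 / 2 : ℝ) ^ k := by positivity
      obtain ⟨ρ, hρ, hρE⟩ := H1 σ hσ E _ hk
      obtain ⟨σ', hσ', hσE⟩ := H2 ρ hρ (E.image σ ∪ (Finset.range (k + 1)).image d') _ hk
      refine ⟨⟨(σ', (E.image σ ∪ (Finset.range (k + 1)).image d').image ρ ∪
        (Finset.range (k + 1)).image d, E.image σ ∪ (Finset.range (k + 1)).image d'), hσ'⟩,
        ρ, hρE, hσE, ?_, ?_, ?_, ?_⟩
      · intro a ha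
        exact Finset.mem_union_left _ (Finset.mem_image_of_mem _ ha)
      · intro b hb
        exact Finset.mem_union_left _ (Finset.mem_image_of_mem _ hb)
      · intro i hi
        exact Finset.mem_union_right _ (Finset.mem_image_of_mem _ (Finset.mem_range.mpr (by omega)))
      · intro i hi
        exact Finset.mem_union_right _ (Finset.mem_image_of_mem _ (Finset.mem_range.mpr (by omega))))
  choose ρ h1 h2 h3 h4 h5 h6 using hs
  -- the maps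
  have hE : ∀ i k, i + 1 ≤ k → d i ∈ (s k).1.2.1 := by
    intro i k hik
    obtain ⟨m, rfl⟩ : ∃ m, k = m + 1 := ⟨k - 1, by omega⟩
    exact h5 m i (by omega)
  have hσC : ∀ i, CauchySeq (fun k => (s k).1.1 (d i)) := by
    intro i
    apply geo _ (i + 1)
    intro k hk
    have hi := hE i k hk
    have a1 := h1 k _ hi
    have a2 := h2 k _ (h3 k _ hi)
    have a3 : dist ((s k).1.1 (d i)) ((s (k + 1)).1.1 (ρ k ((s k).1.1 (d i)))) ≤ (1 / 2 : ℝ) ^ k := by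
      rw [dist_comm, dist_eq_norm]
      exact a2
    have a4 : dist ((s (k + 1)).1.1 (ρ k ((s k).1.1 (d i)))) ((s (k + 1)).1.1 (d i)) ≤
        (1 / 2 : ℝ) ^ k := by
      refine (hom_dist _ _ _).trans ?_
      rw [dist_eq_norm]
      exact a1
    have a5 := dist_triangle ((s k).1.1 (d i)) ((s (k + 1)).1.1 (ρ k ((s k).1.1 (d i))))
      ((s (k + 1)).1.1 (d i))
    linarith
  have hρC : ∀ i, CauchySeq (fun k => ρ k (d' i)) := by
    intro i
    apply geo _ i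
    intro k hk
    have hi := h6 k i hk
    have a1 := h2 k _ hi
    have a2 := h1 (k + 1) _ (h4 k _ hi)
    have a3 : dist (ρ k (d' i)) (ρ (k + 1) ((s (k + 1)).1.1 (ρ k (d' i)))) ≤
        (1 / 2 : ℝ) ^ (k + 1) := by
      rw [dist_comm, dist_eq_norm]
      exact a2
    have a4 : dist (ρ (k + 1) ((s (k + 1)).1.1 (ρ k (d' i)))) (ρ (k + 1) (d' i)) ≤
        (1 / 2 : ℝ) ^ k := by
      refine (hom_dist _ _ _).trans ?_
      rw [dist_eq_norm]
      exact a1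
    have a5 := dist_triangle (ρ k (d' i)) (ρ (k + 1) ((s (k + 1)).1.1 (ρ k (d' i))))
      (ρ (k + 1) (d' i))
    have a6 : (1 / 2 : ℝ) ^ (k + 1) ≤ (1 / 2 : ℝ) ^ k :=
      pow_le_pow_of_le_one (by norm_num) (by norm_num) (by omega)
    linarith
  obtain ⟨σ, hσ⟩ := lim (fun k => (s k).1.1) d hd hσC
  obtain ⟨τ, hτ⟩ := lim ρ d' hd' hρC
  have hhalf : Tendsto (fun k : ℕ => (1 / 2 : ℝ) ^ k) atTop (𝓝 0) :=
    tendsto_pow_atTop_nhds_zero_of_lt_one (by norm_num) (by norm_num)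
  have hτσ : ∀ a, τ (σ a) = a := by
    have h0 : (fun a => τ (σ a)) = fun a => a := by
      apply hd.equalizer ((hom_cont τ).comp (hom_cont σ)) continuous_id
      funext i
      have b1 : Tendsto (fun k => ρ k ((s k).1.1 (d i))) atTop (𝓝 (τ (σ (d i)))) :=
        joint ρ _ _ _ (hσ (d i)) (hτ _)
      have b2 : Tendsto (fun k => ρ k ((s k).1.1 (d i))) atTop (𝓝 (d i)) := by
        rw [tendsto_iff_dist_tendsto_zero]
        refine squeeze_zero' (Eventually.of_forall fun _ => dist_nonneg) ?_ hhalf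
        filter_upwards [eventually_ge_atTop (i + 1)] with k hk
        rw [dist_eq_norm]
        exact h1 k _ (hE i k hk)
      exact tendsto_nhds_unique b1 b2
    exact fun a => congrFun h0 a
  have hστ : ∀ b, σ (τ b) = b := by
    have h0 : (fun b => σ (τ b)) = fun b => b := by
      apply hd'.equalizer ((hom_cont σ).comp (hom_cont τ)) continuous_id
      funext i
      have b0 : ∀ a, Tendsto (fun k => (s (k + 1)).1.1 a) atTop (𝓝 (σ a)) := fun a =>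
        (hσ a).comp (tendsto_add_atTop_nat 1)
      have b1 : Tendsto (fun k => (s (k + 1)).1.1 (ρ k (d' i))) atTop (𝓝 (σ (τ (d' i)))) :=
        joint (fun k => (s (k + 1)).1.1) _ _ _ (hτ (d' i)) (b0 _)
      have b2 : Tendsto (fun k => (s (k + 1)).1.1 (ρ k (d' i))) atTop (𝓝 (d' i)) := by
        rw [tendsto_iff_dist_tendsto_zero]
        refine squeeze_zero' (Eventually.of_forall fun _ => dist_nonneg) ?_ hhalf
        filter_upwards [eventually_ge_atTop i] with k hk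
        rw [dist_eq_norm]
        exact h2 k _ (h6 k i hk)
      exact tendsto_nhds_unique b1 b2
    exact fun b => congrFun h0 b
  exact ⟨StarAlgEquiv.ofStarAlgHom σ τ (StarAlgHom.ext hτσ) (StarAlgHom.ext hστ)⟩

end main

end INT_

open INT_

theorem p_INT : T_INT := by
  classical
  intro A A' _ _ d d' α β hd hd' _ _ K1 K2
  refine core d d' hd hd'
    (fun σ => ∃ (χ : A' ≃⋆ₐ[ℂ] A') (ψ : A ≃⋆ₐ[ℂ] A), ∀ a, σ a = χ (α (ψ a)))
    (fun ρ => ∃ (χ : A ≃⋆ₐ[ℂ] A) (ψ : A' ≃⋆ₐ[ℂ] A'), ∀ b, ρ b = χ (β (ψ b)))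
    α ⟨StarAlgEquiv.refl ℂ A', StarAlgEquiv.refl ℂ A, fun a => rfl⟩ ?_ ?_
  · rintro σ ⟨χ, ψ, hσ⟩ E ε hε
    obtain ⟨ψ₀, h⟩ := K1 (E.image ψ) ε hε
    refine ⟨((ψ₀.trans ψ.symm : A ≃⋆ₐ[ℂ] A) : A →⋆ₐ[ℂ] A).comp
      (β.comp (χ.symm : A' →⋆ₐ[ℂ] A')), ⟨ψ₀.trans ψ.symm, χ.symm, fun b => rfl⟩, ?_⟩
    intro a ha
    have h1 := h (ψ a) (Finset.mem_image_of_mem _ ha)
    have h2 : (((ψ₀.trans ψ.symm : A ≃⋆ₐ[ℂ] A) : A →⋆ₐ[ℂ] A).comp
      (β.comp (χ.symm : A' →⋆ₐ[ℂ] A'))) (σ a) = ψ.symm (ψ₀ (β (α (ψ a)))) := by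
      rw [hσ a]
      show ψ.symm (ψ₀ (β (χ.symm (χ (α (ψ a)))))) = _
      rw [StarAlgEquiv.symm_apply_apply]
    rw [h2]
    have h3 : ψ.symm (ψ₀ (β (α (ψ a)))) - a = ψ.symm (ψ₀ (β (α (ψ a))) - ψ a) := by
      rw [map_sub, StarAlgEquiv.symm_apply_apply]
    rw [h3, eqv_norm]
    exact h1
  · rintro ρ ⟨χ, ψ, hρ⟩ E ε hε
    obtain ⟨ψ₀, h⟩ := K2 (E.image ψ) ε hε
    refine ⟨((ψ₀.trans ψ.symm : A' ≃⋆ₐ[ℂ] A') : A' →⋆ₐ[ℂ] A').comp
      (α.comp (χ.symm : A →⋆ₐ[ℂ] A)), ⟨ψ₀.trans ψ.symm, χ.symm, fun b => rfl⟩, ?_⟩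
    intro a ha
    have h1 := h (ψ a) (Finset.mem_image_of_mem _ ha)
    have h2 : (((ψ₀.trans ψ.symm : A' ≃⋆ₐ[ℂ] A') : A' →⋆ₐ[ℂ] A').comp
      (α.comp (χ.symm : A →⋆ₐ[ℂ] A))) (ρ a) = ψ.symm (ψ₀ (α (β (ψ a)))) := by
      rw [hρ a]
      show ψ.symm (ψ₀ (α (χ.symm (χ (β (ψ a)))))) = _
      rw [StarAlgEquiv.symm_apply_apply]
    rw [h2]
    have h3 : ψ.symm (ψ₀ (α (β (ψ a)))) - a = ψ.symm (ψ₀ (α (β (ψ a))) - ψ a) := by
      rw [map_sub, StarAlgEquiv.symm_apply_apply]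
    rw [h3, eqv_norm]
    exact h1

end Pool.Agent.FPZ
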