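import Pool.Agent.FPZ.Targets4

set_option autoImplicit false

/-!
# FPZ targets 5: arbitrary positions of the segment and of the annulus

Every target has its complete proof in the docstring.
-/

open scoped Classical unitInterval
open MeasureTheory

noncomputable section

namespace Pool.Agent.FPZ

/-- The metric space `X` is the union of an isometric copy of the unit circle and an isometric copy of
the segment `[0, L]` that have exactly one point in common. -/
structure CS (X : Type) [MetricSpace X] (L : ℝ) (c : S1 → X) (l : Set.Icc (0 : ℝ) L → X) : Prop where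
  isoc : Isometry c
  isol : Isometry l
  cover : Set.range c ∪ Set.range l = Set.univ
  inter : ∃ x, Set.range c ∩ Set.range l = {x}

/-- Lebesgue measure on `[0, L]`. -/
def vL (L : ℝ) : Measure (Set.Icc (0 : ℝ) L) := (volume : Measure ℝ).comap Subtype.val

/-- The normalised one-dimensional Hausdorff measure of a metric space. -/
def nHX (X : Type) [MetricSpace X] [MeasurableSpace X] [BorelSpace X] : Measure X :=
  ((Measure.hausdorffMeasure 1 : Measure X) Set.univ)⁻¹ • (Measure.hausdorffMeasure 1 : Measure X)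

/-- The closed annulus with centre `c`. -/
def YC (c : ℂ) (r₁ r₂ : ℝ) : Set ℂ := {z | r₁ ≤ ‖z - c‖ ∧ ‖z - c‖ ≤ r₂}

instance YC_compact (c : ℂ) (r₁ r₂ : ℝ) : CompactSpace (YC c r₁ r₂) := by
  refine isCompact_iff_compactSpace.mp (Metric.isCompact_of_isClosed_isBounded ?_ ?_)
  · exact (isClosed_le continuous_const (continuous_id.sub continuous_const).norm).inter (isClosed_le (continuous_id.sub continuous_const).norm continuous_const)
  · exact (Metric.isBounded_closedBall (x := c) (r := r₂)).subset fun z hz => by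
      simpa [dist_eq_norm] using hz.2

/-- GLU. Pasting. PROOF. `C = univ ×ˢ range c` and `D = univ ×ˢ range l` are closed sets of `P × X` with union `univ` (`c`, `l` are isometries of compact spaces, closed embeddings). `U (p, x)` = `u (p, c⁻¹ x)` on `C`, `v (p, l⁻¹ x)` otherwise; well defined since the only common point is `c ζ₀ = l s₀`.
The preimage of a closed set under `U` is the union of the images under the closed embeddings `id × c`, `id × l` of its preimages under `u` and `v` (or: `ContinuousOn` on both closed sets, `ContinuousOn.union_of_isClosed` / `IsClosed.continuousOn`..). -/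
def T_GLU : Prop := ∀ (X : Type) [MetricSpace X] (L : ℝ) (c : S1 → X) (l : Set.Icc (0 : ℝ) L → X), CS X L c l → ∀ (W P : Type) [TopologicalSpace W] [TopologicalSpace P]
  (u : C(P × S1, W)) (v : C(P × Set.Icc (0 : ℝ) L, W)) (ζ₀ : S1) (s₀ : Set.Icc (0 : ℝ) L), c ζ₀ = l s₀ → (∀ p, u (p, ζ₀) = v (p, s₀)) →
  ∃ U : C(P × X, W), (∀ p z, U (p, c z) = u (p, z)) ∧ ∀ p s, U (p, l s) = v (p, s)

/-- MSX. The length measure of `X`. PROOF. `Isometry.map_hausdorffMeasure` for `c` and `l`: `map c μH = μH.restrict (range c)`, `map l μH = μH.restrict (range l)`; the ranges are closed, cover, and meet in a single point, which has measure `0` (`μH[1]` has no atoms). On `Icc 0 L` (a subtype of `ℝ`)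
`μH[1] = vL L` : `isometry_subtype_coe.map_hausdorffMeasure` and `hausdorffMeasure_real`. -/
def T_MSX : Prop := ∀ (X : Type) [MetricSpace X] [MeasurableSpace X] [BorelSpace X] (L : ℝ) (c : S1 → X) (l : Set.Icc (0 : ℝ) L → X), CS X L c l →
  (Measure.hausdorffMeasure 1 : Measure X) = Measure.map c (Measure.hausdorffMeasure 1 : Measure S1) + Measure.map l (vL L)

/-- NHI. The measures `nH` are intrinsic (uses T_HSC for nothing; the last statement: T_HSC with `E = [0,1)`, or `E = [0,1]`). PROOF. `(μH[1] : Measure ℂ).comap Subtype.val = (μH[1] : Measure K)` for a measurable `K` by `Isometry.hausdorffMeasure_image` for `Subtype.val`; the total mass is `μH[1] K`. -/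
def T_NHI : Prop := (∀ K : Set ℂ, MeasurableSet K → nH K = nHX K) ∧ (Measure.hausdorffMeasure 1 : Measure S1) Set.univ = ENNReal.ofReal (2 * Real.pi)

/-- FOL. Folding maps of `[0, L]`. PROOF. `f s = |2 s - s₀|` for `s ≤ s₀`, `f s = s` for `s ≥ s₀`. `g s = L * max ((s - s₀) / (L - s₀)) ((s₀ - s) / s₀)` (division by zero is zero). Both preserve Lebesgue measure: check the measures of the preimages of the intervals `[0, a]` (`f`: for `a ≤ s₀` the preimage is
`[(s₀ - a)/2, (s₀ + a)/2]`, of length `a`, for `a ≥ s₀` it is `[0, a]`; `g` for `0 < s₀ < L`: the preimage of `[0, a]` is `[s₀ - a s₀ / L, s₀ + a (L - s₀) / L]`, of length `a`; for `s₀ = 0` `g = id`, for `s₀ = L` `g s = L - s`). -/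
def T_FOL : Prop := ∀ (L : ℝ) (s₀ : Set.Icc (0 : ℝ) L) (z₀ : Set.Icc (0 : ℝ) L), 0 < L → (z₀ : ℝ) = 0 → ∃ f g : C(Set.Icc (0 : ℝ) L, Set.Icc (0 : ℝ) L),
  f z₀ = s₀ ∧ g s₀ = z₀ ∧ Measure.map f (vL L) = vL L ∧ Measure.map g (vL L) = vL L

/-- GEQ. Two spaces `X`, `X'` (with the same `L`) are equivalent (uses T_GLU, T_MSX, T_FOL). PROOF. Let `c ζ₀ = l s₀` and `c' ζ₀' = l' s₀'` be the common points. By T_FOL (via the point `0`: compose `f` for `s₀'` with `g` for `s₀`) there is a measure preserving `h : [0,L] → [0,L]` with `h s₀ = s₀'`, and likewise `h'` back.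
`G = c' (ζ₀' / ζ₀ * ·)` on the circle and `l' ∘ h` on the segment (T_GLU with `P` a point), `F` the same with the roles exchanged. `G_* μH = map (c' ∘ rot) μH + map (l' ∘ h) vol = map c' μH + map l' vol = μH` (T_MSX; the rotation is an isometry of `S1`: `IsometryEquiv.map_hausdorffMeasure`); the total masses agree, so the
normalised measures correspond. Homotopy: the retraction `P' : X' → X'`, `P' = id` on the circle and constant `c' ζ₀'` on the segment, is homotopic to `id` (on the segment `l' ((1 - τ) s + τ s₀')`; T_GLU with `P = I`). `P' ∘ (G ∘ F) = P'` (both maps `G`, `F` map circle to circle, inverse to each other there, and segment to segment), so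
`G ∘ F ≃ P' ∘ G ∘ F = P' ≃ id`; same for `F ∘ G`. -/
def T_GEQ : Prop := ∀ (X X' : Type) [MetricSpace X] [MeasurableSpace X] [BorelSpace X] [MetricSpace X'] [MeasurableSpace X'] [BorelSpace X'] (L : ℝ)
  (c : S1 → X) (l : Set.Icc (0 : ℝ) L → X) (c' : S1 → X') (l' : Set.Icc (0 : ℝ) L → X'), 0 < L → CS X L c l → CS X' L c' l' →
  ∃ (F : C(X', X)) (G : C(X, X')), Measure.map F (nHX X') = nHX X ∧ Measure.map G (nHX X) = nHX X' ∧
    ContinuousMap.Homotopic (ContinuousMap.id X) (F.comp G) ∧ ContinuousMap.Homotopic (ContinuousMap.id X') (G.comp F)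

/-- XSC. The standard model. PROOF. `c` = inclusion, `l s = 1 + s`; `‖(1 + s) - (1 + s')‖ = |s - s'|`; `segment ℝ 1 (1 + L)` = the points `1 + s`; the circle and the segment meet only in `1`. -/
def T_XSC : Prop := ∀ L : ℝ, 0 < L → ∃ (c : S1 → XS L) (l : Set.Icc (0 : ℝ) L → XS L), CS (XS L) L c l

/-- GSP. `X` satisfies the hypotheses of T_MNT (uses T_MSX, T_NHI). PROOF. Compact and connected: a union of two compact connected sets (images of `S1` and of `[0,L]`) with a common point. Mass: `0 < 2π + L < ∞`. A nonempty open set has a nonempty open preimage under `c` or `l`; volume on `[0,L]` is positive on nonempty open sets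
(`L > 0`); `μH[1]` on `S1` is positive on nonempty open sets (T_SPC and T_NHI: `nH` on `S1` is open positive). -/
def T_GSP : Prop := ∀ (X : Type) [MetricSpace X] [MeasurableSpace X] [BorelSpace X] (L : ℝ) (c : S1 → X) (l : Set.Icc (0 : ℝ) L → X), 0 < L → CS X L c l →
  ConnectedSpace X ∧ IsProbabilityMeasure (nHX X) ∧ (nHX X).IsOpenPosMeasure

/-- YCT. Translation of the annulus. PROOF. `e z = z + c`; `volume` is translation invariant. Connected etc. by T_SPC for `YS`, transported along `e`. -/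
def T_YCT : Prop := ∀ (c : ℂ) (r₁ r₂ : ℝ), 0 < r₁ → r₁ < r₂ → ∃ e : YS r₁ r₂ ≃ₜ YC c r₁ r₂, Measure.map e (nL (YS r₁ r₂)) = nL (YC c r₁ r₂)

/-- FI2. The final theorem (uses T_FIN, T_ZFS, T_MNT, T_GEQ, T_XSC, T_GSP, T_SPC, T_NHI, T_YCT). -/
def T_FI2 : Prop := ∀ (t : ℝ), Irrational t → ∀ (A A' B B' : Type) [CStarAlgebra A] [CStarAlgebra A'] [CStarAlgebra B] [CStarAlgebra B']
  (ψ : B →L[ℂ] ℂ) (κ : ℕ → ℂ × ℂ →⋆ₐ[ℂ] B) (φ : A →L[ℂ] ℂ) (ι : C(S1, ℂ) →⋆ₐ[ℂ] A) (j : B →⋆ₐ[ℂ] A)
  (ψ' : B' →L[ℂ] ℂ) (κ' : ℕ → ℂ × ℂ →⋆ₐ[ℂ] B') (φ' : A' →L[ℂ] ℂ) (j' : B' →⋆ₐ[ℂ] A'), IsB t ψ κ → IsZB (nHX S1) ψ φ ι j → IsB t ψ' κ' →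
  (∀ (X : Type) [MetricSpace X] [CompactSpace X] [MeasurableSpace X] [BorelSpace X] (L : ℝ) (c : S1 → X) (l : Set.Icc (0 : ℝ) L → X), 0 < L → CS X L c l →
    ∀ ι' : C(X, ℂ) →⋆ₐ[ℂ] A', IsZB (nHX X) ψ' φ' ι' j' → Nonempty (A ≃⋆ₐ[ℂ] A')) ∧
  (∀ (c : ℂ) (r₁ r₂ : ℝ), 0 < r₁ → r₁ < r₂ → ∀ ι' : C(YC c r₁ r₂, ℂ) →⋆ₐ[ℂ] A', IsZB (nL (YC c r₁ r₂)) ψ' φ' ι' j' → Nonempty (A ≃⋆ₐ[ℂ] A'))

end Pool.Agent.FPZ
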