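import Pool.Agent.FPZ.Targets3

set_option autoImplicit false

/-!
# FPZ, target APX: approximate one-sided inverses
-/

open scoped Classical
open MeasureTheory

noncomputable section

namespace Pool.Agent.FPZ

theorem p_APX (h_APG : T_APG) (h_UNI : T_UNI) (h_RST : T_RST) (h_AUT : T_AUT) : T_APX := by
  intro Z A _ _ _ _ _ _ μ _ _ t φ ι κ hFS hirr f θ hmap hhom hθι hθκ E ε hε
  obtain ⟨T₀, δ, hT₀, hδ, hprop⟩ := h_APG A _ hFS.gen E ε hε
  -- the functions needed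
  have hF : ∃ F : Finset C(Z, ℂ), ∀ b ∈ T₀, b ∈ Set.range ι → ∃ g ∈ F, ι g = b := by
    have h1 : ∀ b : A, ∃ g : C(Z, ℂ), b ∈ Set.range ι → ι g = b := by
      intro b
      by_cases hb : b ∈ Set.range ι
      · obtain ⟨g, hg⟩ := hb
        exact ⟨g, fun _ => hg⟩
      · exact ⟨0, fun h => absurd h hb⟩
    choose G hG using h1
    exact ⟨T₀.image G, fun b hb hr => ⟨G b, Finset.mem_image_of_mem G hb, hG b hr⟩⟩
  obtain ⟨F, hF⟩ := hF
  -- the number of blocks needed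
  have hn : ∃ n : ℕ, ∀ b ∈ T₀, b ∈ (⋃ i, Set.range (κ i)) → ∃ i < n, b ∈ Set.range (κ i) := by
    have h1 : ∀ b : A, ∃ i : ℕ, b ∈ (⋃ i, Set.range (κ i)) → b ∈ Set.range (κ i) := by
      intro b
      by_cases hb : b ∈ (⋃ i, Set.range (κ i))
      · obtain ⟨i, hi⟩ := Set.mem_iUnion.1 hb
        exact ⟨i, fun _ => hi⟩
      · exact ⟨0, fun h => absurd h hb⟩
    choose I hI using h1
    refine ⟨T₀.sup I + 1, fun b hb hr => ⟨I b, ?_, hI b hr⟩⟩
    exact Nat.lt_succ_of_le (Finset.le_sup hb)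
  obtain ⟨n, hn⟩ := hn
  obtain ⟨ι', κ', hι', -, hFS'⟩ := h_RST Z A μ t φ ι κ n hFS
  obtain ⟨w, hw1, hw2, hw3⟩ := h_UNI Z (GA ι κ {j | n ≤ j} : StarSubalgebra ℂ A) μ t
    (res φ (GA ι κ {j | n ≤ j})) ι' κ' hFS' hirr f hmap hhom F δ hδ
  have hw1' : star (w : A) * (w : A) = 1 := by
    have := congrArg (Subtype.val) hw1
    simpa using this
  have hw2' : (w : A) * star (w : A) = 1 := by
    have := congrArg (Subtype.val) hw2
    simpa using this
  obtain ⟨ψ, hψι, hψκ⟩ := h_AUT Z A μ t φ ι κ n (w : A) hFS w.2 hw1' hw2'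
  refine ⟨ψ, ?_⟩
  have hmain := hprop ((ψ : A →⋆ₐ[ℂ] A).comp θ) ?_
  · intro a ha
    have := hmain a ha
    simpa using this
  · intro b hb
    have happ : ((ψ : A →⋆ₐ[ℂ] A).comp θ) b = ψ (θ b) := rfl
    rw [happ]
    rcases hT₀ hb with h1 | h1
    · obtain ⟨g, hg, rfl⟩ := hF b hb h1
      rw [hθι, hψι]
      have h2 := hw3 g hg
      have h3 : ((w * ι' (g.comp f) * star w - ι' g :
          (GA ι κ {j | n ≤ j} : StarSubalgebra ℂ A)) : A) =
            (w : A) * ι (g.comp f) * star (w : A) - ι g := by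
        push_cast
        rw [hι', hι']
        rfl
      rw [← h3]
      exact h2
    · obtain ⟨i, hi, x, rfl⟩ := hn b hb h1
      rw [hθκ, hψκ i hi, sub_self, norm_zero]
      exact hδ.le

end Pool.Agent.FPZ
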