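import Pool.Agent.FPZ.Targets1

/-!
# FPZ, target ASC: associativity of freeness
-/

set_option autoImplicit false

open scoped Classical

namespace Pool.Agent.FPZ

/-- the head of the grouped list -/
def ASC_head {I R : Type} [Monoid R] (f : R → ℂ) (U : I → Set R) :
    List (Option I × R) → List (Bool × R) → Prop
  | [], m => m = []
  | (none, _) :: _, m => ∃ a m', m = (true, a) :: m'
  | (some i, _) :: _, m => ∃ w m', m = (false, w) :: m' ∧ w ∈ RWi f U i

theorem ASC_rehead {R : Type} {b : Bool} {x y : R} {m : List (Bool × R)}
    (h : ((b, x) :: m).IsChain (fun x y => x.1 ≠ y.1)) :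
    ((b, y) :: m).IsChain (fun x y => x.1 ≠ y.1) := by
  cases m with
  | nil => exact List.isChain_singleton _
  | cons c m =>
    rw [List.isChain_cons_cons] at h ⊢
    exact h

theorem ASC_zero {I R : Type} [Monoid R] {f : R → ℂ} {U : I → Set R} (hU : Free f U) {i : I}
    {w : R} (hw : w ∈ RWi f U i) : f w = 0 := by
  obtain ⟨a, l, h1, h2, h3⟩ := hw
  have := hU ((i, a) :: l) (by simp) h1 h2
  rw [h3]
  simpa using this

theorem ASC_key {I R : Type} [Ring R] [Algebra ℂ R] (f : R →ₗ[ℂ] ℂ) (T₁ T₂ : Subalgebra ℂ R)
    (U : I → Subalgebra ℂ R) (hle : ∀ i, U i ≤ T₂) (hU : Free f (fun i => (U i : Set R)))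
    (l : List (Option I × R)) (hc : l.IsChain (fun x y => x.1 ≠ y.1))
    (hm : ∀ x ∈ l, x.2 ∈ x.1.elim (T₁ : Set R) (fun i => (U i : Set R)) ∧ f x.2 = 0) :
    ∃ m : List (Bool × R), m.IsChain (fun x y => x.1 ≠ y.1) ∧
      (∀ x ∈ m, x.2 ∈ (bif x.1 then (T₁ : Set R) else (T₂ : Set R)) ∧ f x.2 = 0) ∧
      (m.map Prod.snd).prod = (l.map Prod.snd).prod ∧ ASC_head f (fun i => (U i : Set R)) l m := by
  induction l with
  | nil => exact ⟨[], List.isChain_nil, by simp, rfl, rfl⟩
  | cons z l ih =>
    have hc' : l.IsChain (fun x y => x.1 ≠ y.1) := hc.tail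
    obtain ⟨m, h1, h2, h3, h4⟩ := ih hc' (fun x hx => hm x (List.mem_cons_of_mem _ hx))
    obtain ⟨o, a⟩ := z
    have ha := hm (o, a) List.mem_cons_self
    cases o with
    | none =>
      refine ⟨(true, a) :: m, ?_, ?_, ?_, ⟨a, m, rfl⟩⟩
      · cases l with
        | nil =>
          rw [show m = [] from h4]
          exact List.isChain_singleton _
        | cons y l =>
          obtain ⟨o', b⟩ := y
          rw [List.isChain_cons_cons] at hc
          cases o' with
          | none => exact absurd rfl hc.1
          | some j =>
            obtain ⟨w, m', hm', _⟩ := h4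
            rw [hm'] at h1 ⊢
            rw [List.isChain_cons_cons]
            exact ⟨by simp, h1⟩
      · intro x hx
        rcases List.mem_cons.1 hx with rfl | hx
        · exact ha
        · exact h2 x hx
      · simp only [List.map_cons, List.prod_cons, h3]
    | some i =>
      have haU : a ∈ U i := ha.1
      have haT : a ∈ T₂ := hle i haU
      cases l with
      | nil =>
        have hm0 : m = [] := h4
        subst hm0
        refine ⟨[(false, a)], List.isChain_singleton _, ?_, by simp, ⟨a, [], rfl, a, [], ?_, ?_, ?_⟩⟩
        · intro x hx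
          rw [List.mem_singleton] at hx
          subst hx
          exact ⟨haT, ha.2⟩
        · exact List.isChain_singleton _
        · intro x hx
          rw [List.mem_singleton] at hx
          subst hx
          exact ⟨haU, ha.2⟩
        · simp
      | cons y l =>
        obtain ⟨o', b⟩ := y
        rw [List.isChain_cons_cons] at hc
        cases o' with
        | none =>
          obtain ⟨b', m', hm'⟩ := h4
          subst hm'
          refine ⟨(false, a) :: (true, b') :: m', ?_, ?_, ?_, ⟨a, _, rfl, a, [], ?_, ?_, ?_⟩⟩
          · rw [List.isChain_cons_cons]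
            exact ⟨by simp, h1⟩
          · intro x hx
            rcases List.mem_cons.1 hx with rfl | hx
            · exact ⟨haT, ha.2⟩
            · exact h2 x hx
          · rw [List.map_cons, List.prod_cons, h3, List.map_cons (a := (some i, a)),
              List.prod_cons]
          · exact List.isChain_singleton _
          · intro x hx
            rw [List.mem_singleton] at hx
            subst hx
            exact ⟨haU, ha.2⟩
          · simp
        | some j =>
          obtain ⟨w, m', hm', hw⟩ := h4
          subst hm'
          have hij : i ≠ j := fun h => hc.1 (by simp [h])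
          have hw' : a * w ∈ RWi f (fun i => (U i : Set R)) i := by
            obtain ⟨b', l', h5, h6, h7⟩ := hw
            refine ⟨a, (j, b') :: l', ?_, ?_, ?_⟩
            · rw [List.isChain_cons_cons]
              exact ⟨hij, h5⟩
            · intro x hx
              rcases List.mem_cons.1 hx with rfl | hx
              · exact ⟨haU, ha.2⟩
              · exact h6 x hx
            · rw [h7, List.map_cons, List.prod_cons]
          refine ⟨(false, a * w) :: m', ASC_rehead h1, ?_, ?_, ⟨a * w, m', rfl, hw'⟩⟩
          · intro x hx
            rcases List.mem_cons.1 hx with rfl | hx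
            · exact ⟨T₂.mul_mem haT (h2 _ List.mem_cons_self).1, ASC_zero hU hw'⟩
            · exact h2 x (List.mem_cons_of_mem _ hx)
          · rw [List.map_cons, List.prod_cons, List.map_cons (a := (some i, a)), List.prod_cons,
              ← h3, List.map_cons, List.prod_cons, mul_assoc]

theorem p_ASC : T_ASC := by
  intro I R _ _ f T₁ T₂ U _ hF hle hU l hl hc hm
  obtain ⟨m, h1, h2, h3, h4⟩ := ASC_key f T₁ T₂ U hle hU l hc (fun x hx => hm x hx)
  rw [← h3]
  refine hF m ?_ h1 (fun x hx => ?_)
  · rintro rfl
    cases l with
    | nil => exact hl rfl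
    | cons y l =>
      obtain ⟨o, a⟩ := y
      cases o with
      | none =>
        obtain ⟨a, m', h⟩ := h4
        simp at h
      | some i =>
        obtain ⟨w, m', h, _⟩ := h4
        simp at h
  · exact h2 x hx

end Pool.Agent.FPZ
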