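import Pool.Agent.FPZ.Targets2

/-!
Partition of a compact metric space in small open cells, up to a null set.
-/

set_option autoImplicit false

namespace Pool.Agent.FPZ

open MeasureTheory Set

open scoped Topology

namespace CEL_

/-- Ordered families of sets with null boundaries: the disjoint open cells. -/
theorem cells {Z : Type} [TopologicalSpace Z] [MeasurableSpace Z] [OpensMeasurableSpace Z]
    (μ : Measure Z) [IsProbabilityMeasure μ] (m : ℕ) (B : Fin m → Set Z)
    (hB : ∀ k, IsOpen (B k)) (hf : ∀ k, μ (frontier (B k)) = 0) (hc : ⋃ k, B k = univ) :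
    ∃ O : Fin m → Set Z, (∀ k, IsOpen (O k)) ∧ (∀ k k', k ≠ k' → Disjoint (O k) (O k')) ∧
      (∀ k, O k ⊆ B k) ∧ ∑ k, (μ (O k)).toReal = 1 := by
  classical
  let O : Fin m → Set Z := fun k => B k \ ⋃ j ∈ {j : Fin m | j < k}, closure (B j)
  have hO : ∀ k, IsOpen (O k) := by
    intro k
    refine (hB k).sdiff ?_
    exact (Set.toFinite _).isClosed_biUnion fun j _ => isClosed_closure
  have hlt : ∀ k k', k < k' → Disjoint (O k) (O k') := by
    intro k k' hkk
    rw [Set.disjoint_left]
    intro z hz hz'
    apply hz'.2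
    simp only [mem_iUnion]
    exact ⟨k, hkk, subset_closure hz.1⟩
  have hdis : ∀ k k', k ≠ k' → Disjoint (O k) (O k') := by
    intro k k' hkk
    rcases lt_or_gt_of_ne hkk with h | h
    · exact hlt k k' h
    · exact (hlt k' k h).symm
  have hcov : (⋃ k, O k)ᶜ ⊆ ⋃ k, frontier (B k) := by
    intro z hz
    by_contra hnot
    apply hz
    have hne : ∃ k, z ∈ B k := by
      have : z ∈ ⋃ k, B k := by rw [hc]; exact mem_univ z
      simpa using this
    let S : Finset (Fin m) := Finset.univ.filter fun k => z ∈ B k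
    have hS : S.Nonempty := by
      obtain ⟨k, hk⟩ := hne
      exact ⟨k, by simp [S, hk]⟩
    have hmin := Finset.min'_mem S hS
    rw [mem_iUnion]
    refine ⟨S.min' hS, ?_, ?_⟩
    · have := (Finset.mem_filter.1 hmin).2
      exact this
    · simp only [mem_iUnion, not_exists]
      intro j hj hjc
      have hjB : z ∉ B j := by
        intro hjB
        have h1 : S.min' hS ≤ j := Finset.min'_le S j (by simp [S, hjB])
        exact absurd hj (not_lt.2 h1)
      apply hnot
      rw [mem_iUnion]
      refine ⟨j, hjc, ?_⟩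
      rw [(hB j).interior_eq]
      exact hjB
  refine ⟨O, hO, hdis, fun k => sdiff_subset, ?_⟩
  have hnull : μ (⋃ k, O k)ᶜ = 0 := by
    refine measure_mono_null hcov ?_
    rw [measure_iUnion_null_iff]
    exact hf
  have hone : μ (⋃ k, O k) = 1 := by
    rw [← prob_compl_eq_zero_iff (isOpen_iUnion hO).measurableSet]
    exact hnull
  have hsum : μ (⋃ k, O k) = ∑ k, μ (O k) := by
    rw [measure_iUnion (fun k k' h => hdis k k' h) (fun k => (hO k).measurableSet), tsum_fintype]
  rw [← ENNReal.toReal_sum (fun k _ => measure_ne_top μ _), ← hsum, hone]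
  simp

end CEL_

theorem p_CEL : T_CEL := by
  intro Z _ _ _ _ μ _ δ hδ
  classical
  have hr : ∀ x : Z, ∃ r ∈ Ioo (δ / 4) (δ / 2), μ (frontier (Metric.ball x r)) = 0 := by
    intro x
    obtain ⟨r, hr, h⟩ := exists_null_frontier_thickening μ ({x} : Set Z)
      (show δ / 4 < δ / 2 by linarith)
    rw [Metric.thickening_singleton] at h
    exact ⟨r, hr, h⟩
  choose r hr hfr using hr
  obtain ⟨t, ht⟩ := CompactSpace.elim_nhds_subcover (fun x => Metric.ball x (r x))
    (fun x => Metric.ball_mem_nhds x (by have := (hr x).1; linarith))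
  let e : Fin t.card ≃ t := t.equivFin.symm
  let B : Fin t.card → Set Z := fun k => Metric.ball (e k : Z) (r (e k))
  have hc : ⋃ k, B k = univ := by
    rw [eq_univ_iff_forall]
    intro z
    have hz : z ∈ ⋃ x ∈ t, Metric.ball x (r x) := by rw [ht]; trivial
    simp only [mem_iUnion] at hz
    obtain ⟨x, hx, hz⟩ := hz
    rw [mem_iUnion]
    exact ⟨e.symm ⟨x, hx⟩, by simpa [B] using hz⟩
  obtain ⟨O, hO, hdis, hsub, hsum⟩ := CEL_.cells μ t.card B (fun k => Metric.isOpen_ball)
    (fun k => hfr _) hc
  let I : Type := {k : Fin t.card // (O k).Nonempty}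
  let f : Fin (Fintype.card I) ≃ I := (Fintype.equivFin I).symm
  refine ⟨Fintype.card I, fun k => O (f k), fun k => (f k).2.choose, fun k => hO _, ?_,
    fun k => (f k).2.choose_spec, ?_, ?_⟩
  · intro k k' hkk
    apply hdis
    intro h
    exact hkk (f.injective (Subtype.ext h))
  · intro k x hx y hy
    have h1 := hsub _ hx
    have h2 := hsub _ hy
    simp only [B, Metric.mem_ball] at h1 h2
    have h3 := (hr (e (f k))).2
    have h4 := dist_triangle_right x y (e (f k) : Z)
    linarith
  · rw [Equiv.sum_comp f (fun i : I => (μ (O i)).toReal)]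
    rw [← hsum, ← Finset.sum_subtype (Finset.univ.filter fun k => (O k).Nonempty)
      (p := fun k => (O k).Nonempty) (by simp) (fun k => (μ (O k)).toReal)]
    refine Finset.sum_subset (Finset.filter_subset _ _) ?_
    intro k _ hk
    have : ¬ (O k).Nonempty := fun h => hk (by simp [h])
    rw [Set.not_nonempty_iff_eq_empty.1 this]
    simp
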