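import Pool.Agent.FPZ.Targets3

set_option autoImplicit false

/-!
# FPZ, target CHN: the chain of swaps
-/

namespace Pool.Agent.FPZ.CHN_

/-- The relations between the projection `e` and the isometry `V`. -/
structure Rel {A : Type} [CStarAlgebra A] (e V : A) : Prop where
  se : star e = e
  ee : e * e = e
  vv : star V * V = e
  eV : e * V = 0

variable {A : Type} [CStarAlgebra A] {e V : A}

theorem Rel.Ve (h : Rel e V) : V * e = V := by
  have h0 : star (V * e - V) * (V * e - V) = 0 := by
    rw [star_sub, star_mul, h.se, sub_mul, mul_sub, mul_sub]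
    have h1 : e * star V * (V * e) = e := by
      rw [mul_assoc, ← mul_assoc (star V), h.vv, h.ee, h.ee]
    have h2 : e * star V * V = e := by rw [mul_assoc, h.vv, h.ee]
    have h3 : star V * (V * e) = e := by rw [← mul_assoc, h.vv, h.ee]
    rw [h1, h2, h3, h.vv]
    simp
  exact sub_eq_zero.1 (CStarRing.star_mul_self_eq_zero_iff _ |>.1 h0)

theorem Rel.VV (h : Rel e V) : V * V = 0 := by
  have : V * V = V * e * V := by rw [h.Ve]
  rw [this, mul_assoc, h.eV, mul_zero]

theorem Rel.sVe (h : Rel e V) : star V * e = 0 := by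
  have := congrArg star h.eV
  rwa [star_mul, star_zero, h.se] at this

theorem Rel.esV (h : Rel e V) : e * star V = star V := by
  have := congrArg star h.Ve
  rwa [star_mul, h.se] at this

theorem Rel.sVsV (h : Rel e V) : star V * star V = 0 := by
  have := congrArg star h.VV
  rwa [star_mul, star_zero] at this

/-- The swap. -/
def sw (e V : A) : A := V + star V + (1 - e - V * star V)

theorem Rel.star_sw (h : Rel e V) : star (sw e V) = sw e V := by
  unfold sw
  rw [star_add, star_add, star_star, star_sub, star_sub, star_one, h.se, star_mul, star_star,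
    add_comm (star V) V]

theorem Rel.swV (h : Rel e V) : sw e V * V = e := by
  unfold sw
  rw [add_mul, add_mul, sub_mul, sub_mul, h.VV, h.vv, h.eV, mul_assoc, h.vv, h.Ve, one_mul]
  abel

theorem Rel.swe (h : Rel e V) : sw e V * e = V := by
  unfold sw
  rw [add_mul, add_mul, sub_mul, sub_mul, h.Ve, h.sVe, h.ee, mul_assoc, h.sVe, one_mul, mul_zero]
  abel

theorem Rel.esw (h : Rel e V) : e * sw e V = star V := by
  have := congrArg star h.swe
  rwa [star_mul, h.star_sw, h.se] at this

theorem Rel.sVsw (h : Rel e V) : star V * sw e V = e := by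
  have := congrArg star h.swV
  rwa [star_mul, h.star_sw, h.se] at this

theorem Rel.swsV (h : Rel e V) : sw e V * star V = V * star V := by
  rw [← h.esV, ← mul_assoc, h.swe, h.esV]

theorem Rel.sw_sw (h : Rel e V) : sw e V * sw e V = 1 := by
  have h1 : sw e V * sw e V = sw e V * V + sw e V * star V +
      (sw e V - sw e V * e - sw e V * V * star V) := by
    conv_lhs => rw [show sw e V * sw e V = sw e V * (V + star V + (1 - e - V * star V)) from rfl]
    rw [mul_add, mul_add, mul_sub, mul_sub, mul_one, ← mul_assoc]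
  rw [h1, h.swV, h.swsV, h.swe, h.esV]
  unfold sw
  abel

theorem norm_e (h : Rel e V) : ‖e‖ ≤ 1 := by
  have h1 : ‖e‖ * ‖e‖ = ‖e‖ := by
    rw [← CStarRing.norm_star_mul_self, h.se, h.ee]
  nlinarith [norm_nonneg e]

theorem norm_V (h : Rel e V) : ‖V‖ ≤ 1 := by
  have h1 : ‖V‖ * ‖V‖ = ‖e‖ := by
    rw [← CStarRing.norm_star_mul_self, h.vv]
  have h2 := norm_e h
  nlinarith [norm_nonneg V]

theorem norm_one_le' : ‖(1 : A)‖ ≤ 1 := by
  have h1 : ‖(1 : A)‖ * ‖(1 : A)‖ = ‖(1 : A)‖ := by
    rw [← CStarRing.norm_star_mul_self, star_one, one_mul]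
  nlinarith [norm_nonneg (1 : A)]

theorem norm_uni {U : A} (h : star U * U = 1) : ‖U‖ ≤ 1 := by
  have h1 : ‖U‖ * ‖U‖ = ‖(1 : A)‖ := by
    rw [← CStarRing.norm_star_mul_self, h]
  have h2 := norm_one_le' (A := A)
  nlinarith [norm_nonneg U]

theorem norm_conj {U : A} (h : star U * U = 1) (x : A) : ‖U * x * star U‖ ≤ ‖x‖ := by
  have h1 := norm_uni h
  have h2 : ‖star U‖ ≤ 1 := by rw [norm_star]; exact h1
  calc ‖U * x * star U‖ ≤ ‖U * x‖ * ‖star U‖ := norm_mul_le _ _
    _ ≤ ‖U‖ * ‖x‖ * ‖star U‖ := by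
        exact mul_le_mul_of_nonneg_right (norm_mul_le _ _) (norm_nonneg _)
    _ ≤ 1 * ‖x‖ * 1 := by
        apply mul_le_mul (mul_le_mul_of_nonneg_right h1 (norm_nonneg _)) h2 (norm_nonneg _)
        positivity
    _ = ‖x‖ := by ring

/-- One swap. -/
theorem step (h : Rel e V) {a a' D : A} {θ : ℝ} (hD1 : D * e = 0) (hD2 : e * D = 0)
    (ha1 : e * a = a) (ha2 : a * e = a) (ha1' : e * a' = a')
    (hE1 : ‖D * V - V * a'‖ ≤ θ) (hE2 : ‖star V * D - a' * star V‖ ≤ θ) :
    ‖sw e V * (a + D) * sw e V - (a' + D + V * (a - a') * star V)‖ ≤ 4 * θ := by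
  set U := sw e V with hU
  have hUU : U * U = 1 := h.sw_sw
  have hsU : star U = U := h.star_sw
  have hnU : ‖U‖ ≤ 1 := norm_uni (by rw [hsU, hUU])
  have hnV : ‖V‖ ≤ 1 := norm_V h
  have hnV' : ‖star V‖ ≤ 1 := by rw [norm_star]; exact hnV
  -- the `a` part
  have hA : U * a * U = V * a * star V := by
    calc U * a * U = U * (e * a * e) * U := by rw [ha1, ha2]
      _ = (U * e) * a * (e * U) := by simp only [mul_assoc]
      _ = V * a * star V := by rw [h.swe, h.esw]
  -- the `D` part
  obtain ⟨E1, hE1'⟩ : ∃ E1, E1 = D * V - V * a' := ⟨_, rfl⟩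
  obtain ⟨E2, hE2'⟩ : ∃ E2, E2 = star V * D - a' * star V := ⟨_, rfl⟩
  have hDV : D * V = V * a' + E1 := by rw [hE1']; abel
  have hVD : star V * D = a' * star V + E2 := by rw [hE2']; abel
  have hVD0 : V * D = 0 := by
    rw [← h.Ve, mul_assoc, hD2, mul_zero]
  have hDV0 : D * star V = 0 := by
    rw [← h.esV, ← mul_assoc, hD1, zero_mul]
  have hUD : U * D = a' * star V + E2 + D - V * (a' * star V + E2) := by
    have : U * D = V * D + star V * D + (D - e * D - V * (star V * D)) := by
      rw [hU]; unfold sw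
      rw [add_mul, add_mul, sub_mul, sub_mul, one_mul, mul_assoc V (star V) D]
    rw [this, hVD0, hVD, hD2]
    abel
  have hDU : D * U = V * a' + E1 + D - (V * a' + E1) * star V := by
    have : D * U = D * V + D * star V + (D - D * e - D * V * star V) := by
      rw [hU]; unfold sw
      rw [mul_add, mul_add, mul_sub, mul_sub, mul_one, ← mul_assoc D V (star V)]
    rw [this, hDV0, hDV, hD1]
    abel
  have hUV : U * V = e := h.swV
  have hUF : U * (V * a' + E1) = a' + U * E1 := by
    rw [mul_add, ← mul_assoc, hUV, ha1']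
  have hUDU : U * D * U = a' + D - V * a' * star V +
      (U * E1 + E2 - V * E2 - U * E1 * star V) := by
    calc U * D * U = U * (D * U) := mul_assoc _ _ _
      _ = U * (V * a' + E1) + U * D - U * (V * a' + E1) * star V := by
          rw [hDU, mul_sub, mul_add, ← mul_assoc]
      _ = _ := by
          rw [hUF, hUD, add_mul, mul_add, ← mul_assoc V a' (star V)]
          abel
  have hfin : U * (a + D) * U - (a' + D + V * (a - a') * star V) =
      U * E1 + E2 - V * E2 - U * E1 * star V := by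
    rw [mul_add, add_mul, hA, hUDU, mul_sub, sub_mul]
    abel
  rw [hfin]
  have hE1n : ‖E1‖ ≤ θ := by rw [hE1']; exact hE1
  have hE2n : ‖E2‖ ≤ θ := by rw [hE2']; exact hE2
  have hθ : 0 ≤ θ := le_trans (norm_nonneg _) hE1n
  have n1 : ‖U * E1‖ ≤ θ := by
    calc ‖U * E1‖ ≤ ‖U‖ * ‖E1‖ := norm_mul_le _ _
      _ ≤ 1 * θ := mul_le_mul hnU hE1n (norm_nonneg _) zero_le_one
      _ = θ := one_mul _
  have n2 : ‖V * E2‖ ≤ θ := by
    calc ‖V * E2‖ ≤ ‖V‖ * ‖E2‖ := norm_mul_le _ _
      _ ≤ 1 * θ := mul_le_mul hnV hE2n (norm_nonneg _) zero_le_one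
      _ = θ := one_mul _
  have n3 : ‖U * E1 * star V‖ ≤ θ := by
    calc ‖U * E1 * star V‖ ≤ ‖U * E1‖ * ‖star V‖ := norm_mul_le _ _
      _ ≤ θ * 1 := mul_le_mul n1 hnV' (norm_nonneg _) hθ
      _ = θ := mul_one _
  calc ‖U * E1 + E2 - V * E2 - U * E1 * star V‖
      ≤ ‖U * E1 + E2 - V * E2‖ + ‖U * E1 * star V‖ := norm_sub_le _ _
    _ ≤ ‖U * E1 + E2‖ + ‖V * E2‖ + ‖U * E1 * star V‖ := by
        gcongr; exact norm_sub_le _ _
    _ ≤ ‖U * E1‖ + ‖E2‖ + ‖V * E2‖ + ‖U * E1 * star V‖ := by
        gcongr; exact norm_add_le _ _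
    _ ≤ θ + θ + θ + θ := by gcongr
    _ = 4 * θ := by ring

/-- The swap fixes the other isometries. -/
theorem fixes (h : Rel e V) {W : A} (hW : e * W = 0) (hVW : star V * W = 0) :
    sw e V * W = W := by
  unfold sw
  have : V * W = 0 := by
    rw [← h.Ve, mul_assoc, hW, mul_zero]
  rw [add_mul, add_mul, sub_mul, sub_mul, one_mul, mul_assoc V (star V) W, this, hVW, hW, mul_zero]
  abel

theorem fixes' (h : Rel e V) {W c : A} (hW : e * W = 0) (hVW : star V * W = 0) :
    sw e V * (W * c * star W) * sw e V = W * c * star W := by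
  have h1 := fixes h hW hVW
  have h2 : star W * sw e V = star W := by
    have := congrArg star h1
    rwa [star_mul, h.star_sw] at this
  calc sw e V * (W * c * star W) * sw e V = (sw e V * W) * c * (star W * sw e V) := by
        simp only [mul_assoc]
    _ = _ := by rw [h1, h2]

theorem chain {X : Type} (e : A) (m : ℕ) (V : ℕ → A) (D : X → A) (a : X → ℕ → A) (θ : ℝ)
    (he : IsStarProjection e) (hθ : 0 ≤ θ)
    (hV : ∀ i < m, star (V i) * V i = e)
    (hO : ∀ i < m, ∀ j < m, i ≠ j → star (V i) * V j = 0) (heV : ∀ i < m, e * V i = 0)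
    (hD : ∀ g, D g * e = 0 ∧ e * D g = 0) (ha : ∀ g i, e * a g i = a g i ∧ a g i * e = a g i)
    (hE : ∀ g, ∀ i < m, ‖D g * V i - V i * a g (i + 1)‖ ≤ θ ∧
      ‖star (V i) * D g - a g (i + 1) * star (V i)‖ ≤ θ) (k : ℕ) (hk : k ≤ m) :
    ∃ U : A, star U * U = 1 ∧ U * star U = 1 ∧ ∀ g, ‖U * (a g 0 + D g) * star U -
      (a g k + D g + ∑ j ∈ Finset.range k, V j * (a g j - a g (j + 1)) * star (V j))‖ ≤
        4 * k * θ := by
  induction k with
  | zero =>
    refine ⟨1, by simp, by simp, fun g => ?_⟩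
    simp
  | succ k ih =>
    obtain ⟨U, hU1, hU2, hU⟩ := ih (by omega)
    have hkm : k < m := by omega
    have h : Rel e (V k) := ⟨he.isSelfAdjoint, he.isIdempotentElem, hV k hkm, heV k hkm⟩
    set W := sw e (V k) with hW
    have hWW : W * W = 1 := h.sw_sw
    have hsW : star W = W := h.star_sw
    refine ⟨W * U, ?_, ?_, fun g => ?_⟩
    · rw [star_mul, hsW, mul_assoc, ← mul_assoc W W U, hWW, one_mul, hU1]
    · rw [star_mul, hsW, mul_assoc, ← mul_assoc U (star U) W, hU2, one_mul, hWW]
    · obtain ⟨S, hS⟩ : ∃ S, S = ∑ j ∈ Finset.range k,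
        V j * (a g j - a g (j + 1)) * star (V j) := ⟨_, rfl⟩
      have hWS : W * S * W = S := by
        rw [hS, Finset.mul_sum, Finset.sum_mul]
        refine Finset.sum_congr rfl fun j hj => ?_
        have hj' := Finset.mem_range.1 hj
        exact fixes' h (heV j (by omega)) (hO k hkm j (by omega) (by omega))
      have h1 := step h (hD g).1 (hD g).2 (ha g k).1 (ha g k).2 (ha g (k + 1)).1
        (hE g k hkm).1 (hE g k hkm).2
      rw [← hW] at h1
      have h2 := hU g
      rw [← hS] at h2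
      rw [Finset.sum_range_succ, ← hS]
      have h3 : W * U * (a g 0 + D g) * star (W * U) -
          (a g (k + 1) + D g + (S + V k * (a g k - a g (k + 1)) * star (V k))) =
          W * (U * (a g 0 + D g) * star U - (a g k + D g + S)) * star W +
          (W * (a g k + D g) * W -
            (a g (k + 1) + D g + V k * (a g k - a g (k + 1)) * star (V k))) := by
        have e1 : W * U * (a g 0 + D g) * star (W * U) =
            W * (U * (a g 0 + D g) * star U) * W := by
          rw [star_mul, hsW]; simp only [mul_assoc]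
        have e2 : W * (U * (a g 0 + D g) * star U - (a g k + D g + S)) * star W =
            W * (U * (a g 0 + D g) * star U) * W - W * (a g k + D g) * W - W * S * W := by
          rw [hsW, mul_sub, sub_mul, mul_add W _ S, add_mul]
          abel
        rw [e1, e2, hWS]
        abel
      rw [h3]
      have h4 : ‖W * (U * (a g 0 + D g) * star U - (a g k + D g + S)) * star W‖ ≤ 4 * k * θ :=
        le_trans (norm_conj (by rw [hsW, hWW]) _) h2
      refine le_trans (norm_add_le _ _) (le_trans (add_le_add h4 h1) ?_)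
      push_cast
      apply le_of_eq
      ring

end Pool.Agent.FPZ.CHN_

namespace Pool.Agent.FPZ

theorem p_CHN (h_OSM : T_OSM) : T_CHN := by
  intro A X _ e m V D a δ θ he hδ hθ hV hO heV hD ha hE hδa
  obtain ⟨U, hU1, hU2, hU⟩ := CHN_.chain e m V D a θ he hθ hV hO heV hD ha hE m le_rfl
  refine ⟨U, hU1, hU2, fun g => ?_⟩
  have h1 := hU g
  have h2 := h_OSM A e m V (fun j => a g j - a g (j + 1)) δ he hδ hV hO (hδa g)
  have h3 : U * (a g 0 + D g) * star U - (a g m + D g) =
      (U * (a g 0 + D g) * star U -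
      (a g m + D g + ∑ j ∈ Finset.range m, V j * (a g j - a g (j + 1)) * star (V j))) +
      ∑ j ∈ Finset.range m, V j * (a g j - a g (j + 1)) * star (V j) := by abel
  rw [h3]
  refine le_trans (norm_add_le _ _) (le_trans (add_le_add h1 h2) ?_)
  have h5 : 0 ≤ (m : ℝ) * θ := by positivity
  nlinarith

end Pool.Agent.FPZ
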