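import Pool.Agent.FPZ.Targets1

set_option autoImplicit false

/-!
# FPZ: proof of T_CLO (freeness passes to closures)
-/

open scoped Classical
open Filter Topology

noncomputable section

namespace Pool.Agent.FPZ

namespace CLO_

variable {A : Type} [CStarAlgebra A]

/-- A centered element of the closure is a limit of centered elements. -/
lemma approx (φ : A →L[ℂ] ℂ) (h1 : φ 1 = 1) (S : StarSubalgebra ℂ A) (x : A)
    (hx : x ∈ (S.topologicalClosure : Set A)) (h0 : φ x = 0) :
    ∃ u : ℕ → A, (∀ n, u n ∈ S ∧ φ (u n) = 0) ∧ Tendsto u atTop (𝓝 x) := by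
  have hx' : x ∈ closure (S : Set A) := by
    rwa [StarSubalgebra.topologicalClosure_coe] at hx
  obtain ⟨v, hv, hlim⟩ := mem_closure_iff_seq_limit.1 hx'
  refine ⟨fun n => v n - φ (v n) • (1 : A), fun n => ⟨?_, ?_⟩, ?_⟩
  · exact sub_mem (hv n) (S.smul_mem (one_mem S) _)
  · simp [map_sub, h1]
  · have hφ : Tendsto (fun n => φ (v n)) atTop (𝓝 (φ x)) :=
      (φ.continuous.tendsto x).comp hlim
    have := hlim.sub (hφ.smul_const (1 : A))
    simpa [h0] using this

end CLO_

theorem p_CLO : T_CLO := by
  intro I A _ φ S h1 hF l hl hch hmem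
  have key : ∀ x : I × A, x ∈ l →
      ∃ u : ℕ → A, (∀ n, u n ∈ S x.1 ∧ φ (u n) = 0) ∧ Tendsto u atTop (𝓝 x.2) := by
    intro x hx
    exact CLO_.approx φ h1 (S x.1) x.2 (hmem x hx).1 (hmem x hx).2
  choose! u hu hlim using key
  have hzero : ∀ n, φ ((l.map (fun x => u x n)).prod) = 0 := by
    intro n
    have := hF (l.map (fun x => (x.1, u x n))) (by simpa using hl)
      (by
        rw [List.isChain_map]
        exact hch)
      (by
        intro y hy
        obtain ⟨x, hx, rfl⟩ := List.mem_map.1 hy
        exact hu x hx n)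
    simpa [List.map_map, Function.comp_def] using this
  have ht : Tendsto (fun n => (l.map (fun x => u x n)).prod) atTop
      (𝓝 ((l.map Prod.snd).prod)) :=
    tendsto_list_prod l hlim
  have ht2 : Tendsto (fun n => φ ((l.map (fun x => u x n)).prod)) atTop
      (𝓝 (φ ((l.map Prod.snd).prod))) :=
    (φ.continuous.tendsto _).comp ht
  simp only [hzero] at ht2
  exact (tendsto_nhds_unique tendsto_const_nhds ht2).symm

end Pool.Agent.FPZ
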