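import Pool.Agent.FPZ.Targets1
import Pool.Agent.FPZ.Targets2

set_option autoImplicit false

/-!
# FPZ-CMG: comparison of a projection with a function
-/

open scoped Classical
open MeasureTheory

noncomputable section

namespace Pool.Agent.FPZ

/-- Swapping the two free blocks. -/
theorem CMG_swap {A : Type} [CStarAlgebra A] (φ : A →L[ℂ] ℂ) (X Y : StarSubalgebra ℂ A)
    (h : Free φ (fun b : Bool => bif b then (X : Set A) else (Y : Set A))) :
    Free φ (fun b : Bool => bif b then (Y : Set A) else (X : Set A)) := by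
  intro l hl hc hx
  have h1 := h (l.map (fun x => (!x.1, x.2))) (by simpa using hl) (by
    rw [List.isChain_map]
    refine hc.imp ?_
    intro a b hab
    simpa using hab) (by
    intro x hxm
    obtain ⟨y, hy, rfl⟩ := List.mem_map.mp hxm
    refine ⟨?_, (hx y hy).2⟩
    have := (hx y hy).1
    rcases y with ⟨b, a⟩
    cases b <;> simpa using this)
  simpa [List.map_map, Function.comp_def] using h1

theorem CMG_integrable {Z : Type} [TopologicalSpace Z] [CompactSpace Z] [MeasurableSpace Z] [BorelSpace Z]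
    (μ : Measure Z) [IsProbabilityMeasure μ] (g : C(Z, ℝ)) : Integrable (fun z => g z) μ :=
  g.continuous.integrable_of_hasCompactSupport (HasCompactSupport.of_compactSpace _)

theorem CMG_star_toC {Z : Type} [TopologicalSpace Z] [CompactSpace Z] (g : C(Z, ℝ)) :
    star (toC g) = toC g := by
  ext z
  simp [toC]

theorem CMG_main {A : Type} [CStarAlgebra A] (R f x w P : A) (hw : star w * w = P) (hRw : R * w = w)
    (hx : star (f * R * x) * (f * R * x) = R) :
    star (f * R * x * w) * (f * R * x * w) = P := by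
  have : star (f * R * x * w) * (f * R * x * w) = star w * ((star (f * R * x) * (f * R * x)) * w) := by
    rw [star_mul]; simp only [mul_assoc]
  rw [this, hx, hRw, hw]

/-- CMG. Comparison of a projection with a function. -/
theorem p_CMG (hFRG : T_FRG) (hCOM : T_COM) (hPOL : T_POL) (hDEN : T_DEN) (hCMP : T_CMP) (hTSB : T_TSB) : T_CMG := by
  intro Z A _ _ _ _ _ μ _ t φ ι κ hFS ht P g hP hg hlt
  set c : ℝ := ∫ z, g z ∂μ with hc
  have hTS : TS φ := hFS.ts
  obtain ⟨hT1, _, _, _, _⟩ := hTSB A φ hTS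
  have hint := CMG_integrable μ g
  have hc1 : c ≤ 1 := by
    have := integral_mono hint (integrable_const (1 : ℝ)) (fun z => (hg z).2)
    simpa using this
  obtain ⟨R, hRm, hR, h1, h2⟩ := hDEN Z A μ t φ ι κ hFS ht 0 (φ P).re c (hT1 P hP).1 hlt hc1
  have hR0 : 0 ≤ (φ R).re := (hT1 R hR).1
  have hc0 : 0 < c := lt_of_le_of_lt hR0 h2
  -- freeness
  have hfree := CMG_swap φ _ _ (hFRG Z A μ t φ ι κ ∅ hFS)
  have hRm' : R ∈ EA κ (∅ : Set ℕ)ᶜ := by
    have : ({j : ℕ | 0 ≤ j}) = (∅ : Set ℕ)ᶜ := by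
      ext j; simp
    rw [← this]; exact hRm
  have hgm : ι (toC g) ∈ GA ι κ (∅ : Set ℕ) := by
    refine StarSubalgebra.le_topologicalClosure _ ?_
    exact StarAlgebra.subset_adjoin ℂ _ (Or.inl ⟨_, rfl⟩)
  have hcC : (c : ℂ) ≠ 0 := by exact_mod_cast hc0.ne'
  set f : A := (c⁻¹ : ℂ) • ι (toC g) with hf
  have hfm : f ∈ GA ι κ (∅ : Set ℕ) := (GA ι κ (∅ : Set ℕ)).smul_mem hgm _
  have hfs : star f = f := by
    rw [hf, star_smul, ← map_star, CMG_star_toC]
    congr 1
    simp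
  have hval : φ (ι (toC g)) = (c : ℂ) := by
    rw [hFS.valZ, hc]
    have : (fun z => (toC g) z) = fun z => ((g z : ℝ) : ℂ) := rfl
    rw [this, integral_complex_ofReal]
  have hf1 : φ f = 1 := by
    rw [hf, map_smul, hval, smul_eq_mul, inv_mul_cancel₀ hcC]
  have hval2 : φ (ι (toC g) * ι (toC g)) = ((∫ z, g z * g z ∂μ : ℝ) : ℂ) := by
    rw [← map_mul, hFS.valZ]
    have : (fun z => (toC g * toC g) z) = fun z => ((g z * g z : ℝ) : ℂ) := by
      funext z
      simp [toC]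
    rw [this, integral_complex_ofReal]
  have hsq : ∫ z, g z * g z ∂μ ≤ c := by
    refine integral_mono ?_ hint (fun z => ?_)
    · have := CMG_integrable μ (g * g)
      simpa using this
    · have := hg z
      show g z * g z ≤ g z
      nlinarith
  have hff : (φ (f * f)).re = c⁻¹ * c⁻¹ * ∫ z, g z * g z ∂μ := by
    rw [hf, smul_mul_smul_comm, map_smul, hval2, smul_eq_mul]
    have : ((c : ℂ)⁻¹ * (c : ℂ)⁻¹ * ((∫ z, g z * g z ∂μ : ℝ) : ℂ)) = ((c⁻¹ * c⁻¹ * ∫ z, g z * g z ∂μ : ℝ) : ℂ) := by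
      push_cast; ring
    rw [this, Complex.ofReal_re]
  have hprod : (φ (f * f)).re * (φ R).re < 1 := by
    rw [hff]
    have hci : 0 < c⁻¹ := inv_pos.mpr hc0
    have e1 : c⁻¹ * c⁻¹ * (∫ z, g z * g z ∂μ) ≤ c⁻¹ := by
      calc c⁻¹ * c⁻¹ * (∫ z, g z * g z ∂μ) ≤ c⁻¹ * c⁻¹ * c :=
            mul_le_mul_of_nonneg_left hsq (by positivity)
        _ = c⁻¹ := by field_simp
    calc c⁻¹ * c⁻¹ * (∫ z, g z * g z ∂μ) * (φ R).re ≤ c⁻¹ * (φ R).re := mul_le_mul_of_nonneg_right e1 hR0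
      _ < c⁻¹ * c := mul_lt_mul_of_pos_left h2 hci
      _ = 1 := inv_mul_cancel₀ hc0.ne'
  obtain ⟨y, hy⟩ := hCOM A φ (EA κ (∅ : Set ℕ)ᶜ) (GA ι κ (∅ : Set ℕ)) R f hTS hfree hR hRm' hfm hfs hf1
    (lt_of_lt_of_le h2 hc1) hprod
  obtain ⟨x, -, hx⟩ := hPOL A ⊤ R f y (by simp) hR trivial trivial hy
  obtain ⟨w, hw, hRw⟩ := hCMP Z A μ t φ ι κ hFS ht P R hP hR h1
  refine ⟨(c⁻¹ : ℂ) • (R * x * w), ?_⟩
  have key : ι (toC g) * ((c⁻¹ : ℂ) • (R * x * w)) = f * R * x * w := by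
    rw [hf, mul_smul_comm]
    simp only [smul_mul_assoc, mul_assoc]
  rw [key]
  exact CMG_main R f x w P hw hRw hx

end Pool.Agent.FPZ
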