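import Pool.Agent.FPZ.Targets2
import Pool.Agent.FPZ.Targets1

set_option autoImplicit false

open scoped Classical
open MeasureTheory

noncomputable section

namespace Pool.Agent.FPZ

theorem p_COM (h_SRI : T_SRI) (h_STB : T_STB) : T_COM := by
  intro A _ φ X Y R f hts hfree hR hRX hfY hf hφf hlt hprod
  obtain ⟨-, -, -, -, -, -, hn2, -, -, hnn, -⟩ := h_STB A φ hts.toSt
  have hRR : R * R = R := hR.isIdempotentElem
  have hRs : star R = R := hR.isSelfAdjoint
  have hone : φ 1 = 1 := hts.toSt.one
  obtain ⟨hp1, hp2⟩ := hts.toSt.pos R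
  rw [hRs, hRR] at hp1 hp2
  set lam : ℝ := (φ R).re with hlam
  have hφR : φ R = (lam : ℂ) := by
    apply Complex.ext
    · simp [hlam]
    · simpa using hp2
  have h1l : 0 < 1 - lam := by linarith
  have h1lc : (1 - (lam : ℂ)) ≠ 0 := by
    have : ((1 - lam : ℝ) : ℂ) ≠ 0 := by exact_mod_cast h1l.ne'
    simpa using this
  let c : ℂ := (1 - (lam : ℂ))⁻¹
  let k : A := c • (R - (lam : ℂ) • (1 : A))
  let g : A := 1 - f
  have hkX : k ∈ X := by
    apply X.toSubalgebra.smul_mem
    apply X.toSubalgebra.sub_mem hRX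
    exact X.toSubalgebra.smul_mem (one_mem _) _
  have hgY : g ∈ Y := Y.toSubalgebra.sub_mem (one_mem _) hfY
  have hφk : φ k = 0 := by
    simp only [k, map_smul, map_sub, hone, hφR, smul_eq_mul]
    ring
  have hφg : φ g = 0 := by
    simp only [g, map_sub, hone, hφf]; ring
  have hcs : star c = c := by
    simp only [c]
    rw [star_inv₀]
    congr 1
    simp
  have hks : star k = k := by
    simp only [k, star_smul, star_sub, hRs, hcs, star_one]
    congr 2
    simp
  have hkk : star k * k = (c * c * (1 - 2 * (lam : ℂ))) • R + (c * c * (lam : ℂ) ^ 2) • (1 : A) := by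
    rw [hks]
    simp only [k, smul_mul_assoc, mul_smul_comm, sub_mul, mul_sub, hRR, one_mul, mul_one, smul_sub, smul_smul]
    module
  have hn2k : n2 φ k ^ 2 = lam / (1 - lam) := by
    rw [hn2, hkk]
    simp only [map_add, map_smul, hφR, hone, smul_eq_mul, mul_one]
    have : c * c * (1 - 2 * (lam : ℂ)) * (lam : ℂ) + c * c * (lam : ℂ) ^ 2 = ((lam / (1 - lam) : ℝ) : ℂ) := by
      simp only [c]
      push_cast
      field_simp
      ring
    rw [this, Complex.ofReal_re]
  have hn2g : n2 φ g ^ 2 = (φ (f * f)).re - 1 := by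
    rw [hn2]
    have : star g * g = 1 - f - f + f * f := by
      simp only [g, star_sub, star_one, hf]
      noncomm_ring
    rw [this]
    simp only [map_add, map_sub, hone, hφf, Complex.add_re, Complex.sub_re, Complex.one_re]
    ring
  have hlt1 : n2 φ k * n2 φ g < 1 := by
    have h0 : 0 ≤ n2 φ k * n2 φ g := mul_nonneg (hnn k) (hnn g)
    have h2 : (n2 φ k * n2 φ g) ^ 2 < 1 := by
      rw [mul_pow, hn2k, hn2g, div_mul_eq_mul_div, div_lt_one h1l]
      nlinarith
    nlinarith
  have hunit : IsUnit (1 - k * g) := by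
    refine h_SRI A φ (fun b : Bool => bif b then X else Y) k g hts ?_ hkX hgY hφk hφg hlt1
    convert hfree using 2 with b
    cases b <;> rfl
  obtain ⟨u, hu⟩ := hunit
  have hRk : R * k = R := by
    simp only [k, mul_smul_comm, mul_sub, hRR, mul_one]
    have : R - (lam : ℂ) • R = (1 - (lam : ℂ)) • R := by module
    rw [this, smul_smul]
    simp only [c]
    rw [inv_mul_cancel₀ h1lc, one_smul]
  have hRT : R * (1 - k * g) = R * f := by
    rw [mul_sub, mul_one, ← mul_assoc, hRk]
    simp only [g]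
    noncomm_ring
  refine ⟨star (↑u⁻¹ : A), ?_⟩
  have h3 : R * f * (↑u⁻¹ : A) = R := by
    rw [← hRT, ← hu, mul_assoc, Units.mul_inv, mul_one]
  have h4 := congrArg star h3
  rw [star_mul, star_mul, hf, hRs] at h4
  exact h4

end Pool.Agent.FPZ
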