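import Pool.Agent.FPZ.Targets2

set_option autoImplicit false

open scoped Classical
open MeasureTheory

noncomputable section

namespace Pool.Agent.FPZ

namespace CPJ_

/-- an isometry is fixed by its source projection -/
lemma mul_src {A : Type} [CStarAlgebra A] {p u : A} (hp : IsStarProjection p)
    (hu : star u * u = p) : u * p = u := by
  have hpp : p * p = p := hp.isIdempotentElem.eq
  have hps : star p = p := hp.isSelfAdjoint.star_eq
  have h : star (u * p - u) * (u * p - u) = 0 := by
    have e : star (u * p - u) * (u * p - u)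
        = star p * (star u * u) * p - star p * (star u * u) - (star u * u) * p + star u * u := by
      rw [star_sub, star_mul]
      noncomm_ring
    rw [e, hu, hps]
    simp only [hpp]
    simp
  have h2 : u * p - u = 0 := (CStarRing.star_mul_self_eq_zero_iff _).mp h
  exact sub_eq_zero.mp h2

lemma sum_mul_u {A : Type} [CStarAlgebra A] {p : A} (hp : IsStarProjection p) {n : ℕ}
    (u : Fin n → A) (hu : ∀ i, star (u i) * u i = p) (ho : ∀ i j, i ≠ j → star (u i) * u j = 0)
    (j : Fin n) : (∑ i, u i * star (u i)) * u j = u j := by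
  rw [Finset.sum_mul, Finset.sum_eq_single j]
  · rw [mul_assoc, hu, mul_src hp (hu j)]
  · intro i _ hij
    rw [mul_assoc, ho i j hij, mul_zero]
  · intro h
    exact absurd (Finset.mem_univ j) h

lemma sum_proj {A : Type} [CStarAlgebra A] {p : A} (hp : IsStarProjection p) {n : ℕ}
    (u : Fin n → A) (hu : ∀ i, star (u i) * u i = p) (ho : ∀ i j, i ≠ j → star (u i) * u j = 0) :
    IsStarProjection (∑ i, u i * star (u i)) := by
  refine ⟨?_, ?_⟩
  · show (∑ i, u i * star (u i)) * (∑ i, u i * star (u i)) = ∑ i, u i * star (u i)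
    rw [Finset.mul_sum]
    refine Finset.sum_congr rfl fun i _ => ?_
    rw [← mul_assoc, sum_mul_u hp u hu ho]
  · show star (∑ i, u i * star (u i)) = ∑ i, u i * star (u i)
    rw [star_sum]
    refine Finset.sum_congr rfl fun i _ => ?_
    rw [star_mul, star_star]

lemma star_toC {Z : Type} [TopologicalSpace Z] (g : C(Z, ℝ)) : star (toC g) = toC g := by
  ext z
  simp [toC]

lemma toC_mul_eq {Z : Type} [TopologicalSpace Z] (g' g : C(Z, ℝ)) (h : ∀ z, g' z * g z = g z) :
    toC g' * toC g = toC g := by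
  ext z
  simp only [toC, ContinuousMap.mul_apply, ContinuousMap.coe_mk]
  exact_mod_cast h z

lemma toC_mul_zero {Z : Type} [TopologicalSpace Z] (g' g : C(Z, ℝ)) (h : ∀ z, g' z * g z = 0) :
    toC g' * toC g = 0 := by
  ext z
  simp only [toC, ContinuousMap.mul_apply, ContinuousMap.coe_mk, ContinuousMap.zero_apply]
  exact_mod_cast h z

end CPJ_

open CPJ_ in
theorem p_CPJ (h_DIV : T_DIV) (h_CMG : T_CMG) (h_GFN : T_GFN) : T_CPJ := by
  intro Z A _ _ _ _ _ μ _ t φ ι κ hFS hirr K O n p hO hdisj hp hn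
  have key : ∀ k : Fin K, ∃ (v : Fin (n k) → A) (g' : C(Z, ℝ)), (∀ j, star (v j) * v j = p) ∧
      (∀ j j', j ≠ j' → star (v j) * v j' = 0) ∧ (∀ z, 0 ≤ g' z ∧ g' z ≤ 1) ∧
      (∀ z, z ∉ O k → g' z = 0) ∧ ∀ j, ι (toC g') * v j = v j := by
    intro k
    have hle : (μ (O k)).toReal ≤ 1 := by
      have := prob_le_one (μ := μ) (s := O k)
      have h2 : (μ (O k)).toReal ≤ (1 : ENNReal).toReal :=
        ENNReal.toReal_mono ENNReal.one_ne_top this
      simpa using h2
    have h1 : n k * (φ p).re < 1 := lt_of_lt_of_le (hn k) hle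
    obtain ⟨u, hu, ho⟩ := h_DIV Z A μ t φ ι κ hFS hirr p (n k) hp h1
    obtain ⟨g, g', hg, hg', hgg, hg0, hint⟩ := h_GFN Z μ (O k) (n k * (φ p).re) (hO k) (hn k)
    have hP := sum_proj hp u hu ho
    have hφP : (φ (∑ i, u i * star (u i))).re = n k * (φ p).re := by
      rw [map_sum]
      have : ∀ i, φ (u i * star (u i)) = φ p := fun i => by rw [hFS.ts.tr, hu]
      simp [this]
    obtain ⟨x, hx⟩ := h_CMG Z A μ t φ ι κ hFS hirr _ g hP hg (by rw [hφP]; exact hint)
    refine ⟨fun j => ι (toC g) * x * u j, g', ?_, ?_, hg', hg0, ?_⟩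
    · intro j
      have e : star (ι (toC g) * x * u j) * (ι (toC g) * x * u j)
          = star (u j) * ((star (ι (toC g) * x) * (ι (toC g) * x)) * u j) := by
        rw [star_mul (ι (toC g) * x) (u j)]
        simp only [mul_assoc]
      rw [e, hx, sum_mul_u hp u hu ho, hu]
    · intro j j' hjj
      have e : star (ι (toC g) * x * u j) * (ι (toC g) * x * u j')
          = star (u j) * ((star (ι (toC g) * x) * (ι (toC g) * x)) * u j') := by
        rw [star_mul (ι (toC g) * x) (u j)]
        simp only [mul_assoc]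
      rw [e, hx, sum_mul_u hp u hu ho, ho j j' hjj]
    · intro j
      show ι (toC g') * (ι (toC g) * x * u j) = ι (toC g) * x * u j
      rw [← mul_assoc, ← mul_assoc, ← map_mul, toC_mul_eq g' g hgg]
  choose v g' h1 h2 h3 h4 h5 using key
  refine ⟨fun s => v s.1 s.2, g', fun s => h1 s.1 s.2, ?_, h3, h4, fun s => h5 s.1 s.2⟩
  rintro ⟨k, j⟩ ⟨k', j'⟩ hne
  show star (v k j) * v k' j' = 0
  by_cases hk : k = k'
  · subst hk
    exact h2 k j j' fun h => hne (by rw [h])
  · have e1 : star (v k j) = star (v k j) * ι (toC (g' k)) := by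
      conv_lhs => rw [← h5 k j]
      rw [star_mul, ← map_star, star_toC]
    have e2 : toC (g' k) * toC (g' k') = 0 := by
      refine toC_mul_zero _ _ fun z => ?_
      by_cases hz : z ∈ O k
      · have hz' : z ∉ O k' := fun h => (Set.disjoint_left.mp (hdisj k k' hk)) hz h
        rw [h4 k' z hz', mul_zero]
      · rw [h4 k z hz, zero_mul]
    rw [e1, ← h5 k' j', mul_assoc, ← mul_assoc (ι (toC (g' k))), ← map_mul, e2]
    simp

end Pool.Agent.FPZ
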