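import Pool.Agent.FPZ.Targets2

set_option autoImplicit false

open scoped Classical
open MeasureTheory

noncomputable section

namespace Pool.Agent.FPZ

theorem CUT_star_proj_norm {A : Type} [CStarAlgebra A] (Q : A) (h1 : star Q = Q) (h2 : Q * Q = Q) : ‖Q‖ ≤ 1 := by
  have h3 : ‖Q‖ * ‖Q‖ = ‖Q‖ := by
    have := CStarRing.norm_star_mul_self (x := Q)
    rw [h1, h2] at this
    exact this.symm
  by_contra h
  push Not at h
  nlinarith

theorem CUT_vp {A : Type} [CStarAlgebra A] (p v : A) (hp : IsStarProjection p) (hv : star v * v = p) : v * p = v := by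
  have hpp : p * p = p := hp.isIdempotentElem
  have hsp : star p = p := hp.isSelfAdjoint
  have h : star (v - v * p) * (v - v * p) = 0 := by
    have e : star (v - v * p) * (v - v * p) = star v * v - star v * v * p - star p * (star v * v) + star p * (star v * v) * p := by
      rw [star_sub, star_mul]
      noncomm_ring
    rw [e, hv, hsp, hpp, hpp]
    abel
  have h2 : ‖v - v * p‖ = 0 := by
    have := CStarRing.norm_star_mul_self (x := v - v * p)
    rw [h, norm_zero] at this
    exact (mul_self_eq_zero.mp this.symm)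
  have h3 := norm_eq_zero.mp h2
  exact (sub_eq_zero.mp h3).symm

theorem p_CUT : T_CUT := by
  intro Z A _ _ _ ι K O z n p v g' h ε hO hp hv hvv hg hgO hgv hε hh
  have hpp : p * p = p := hp.isIdempotentElem
  have hsp : star p = p := hp.isSelfAdjoint
  -- the projection Q
  set Q : A := ∑ s, v s * star (v s) with hQ
  have hQs : star Q = Q := by
    rw [hQ, star_sum]
    refine Finset.sum_congr rfl fun s _ => ?_
    rw [star_mul, star_star]
  have hQQ : Q * Q = Q := by
    rw [hQ, Finset.sum_mul]
    refine Finset.sum_congr rfl fun s _ => ?_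
    rw [Finset.mul_sum, Finset.sum_eq_single s]
    · calc v s * star (v s) * (v s * star (v s)) = v s * (star (v s) * v s) * star (v s) := by noncomm_ring
        _ = v s * star (v s) := by rw [hv s, CUT_vp p (v s) hp (hv s)]
    · intro s' _ hs'
      calc v s * star (v s) * (v s' * star (v s')) = v s * (star (v s) * v s') * star (v s') := by noncomm_ring
        _ = 0 := by rw [hvv s s' (Ne.symm hs')]; simp
    · intro h; exact absurd (Finset.mem_univ _) h
  have hQn : ‖Q‖ ≤ 1 := CUT_star_proj_norm Q hQs hQQ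
  -- the function m
  set m : C(Z, ℂ) := ∑ k, (h - algebraMap ℂ C(Z, ℂ) (h (z k))) * toC (g' k) with hm
  have hmx : ∀ x, m x = ∑ k, (h x - h (z k)) * (g' k x : ℂ) := by
    intro x
    rw [hm, ContinuousMap.sum_apply]
    refine Finset.sum_congr rfl fun k _ => ?_
    rfl
  have hmn : ‖m‖ ≤ ε := by
    rw [ContinuousMap.norm_le _ hε]
    intro x
    rw [hmx x]
    by_cases hx : ∃ k, x ∈ O k
    · obtain ⟨k, hk⟩ := hx
      rw [Finset.sum_eq_single k]
      · rw [norm_mul]
        have h1 := hh k x hk
        have h2 : ‖(g' k x : ℂ)‖ ≤ 1 := by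
          rw [Complex.norm_real, Real.norm_eq_abs, abs_of_nonneg (hg k x).1]
          exact (hg k x).2
        calc ‖h x - h (z k)‖ * ‖(g' k x : ℂ)‖ ≤ ε * 1 := by gcongr
          _ = ε := mul_one _
      · intro k' _ hk'
        have : x ∉ O k' := fun hx' => (Set.disjoint_left.mp (hO k' k hk')) hx' hk
        rw [hgO k' x this]
        simp
      · intro h; exact absurd (Finset.mem_univ _) h
    · push Not at hx
      rw [Finset.sum_eq_zero]
      · simpa using hε
      · intro k _
        rw [hgO k x (hx k)]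
        simp
  have hιm : ‖ι m‖ ≤ ε := (NonUnitalStarAlgHom.norm_apply_le ι m).trans hmn
  -- ι m * v s
  have hg0 : ∀ k k', k ≠ k' → toC (g' k) * toC (g' k') = 0 := by
    intro k k' hkk
    ext x
    change (g' k x : ℂ) * (g' k' x : ℂ) = 0
    by_cases hx : x ∈ O k
    · have : x ∉ O k' := fun hx' => (Set.disjoint_left.mp (hO k k' hkk)) hx hx'
      rw [hgO k' x this]; simp
    · rw [hgO k x hx]; simp
  have hkey : ∀ s, ι m * v s = ι h * v s - h (z s.1) • v s := by
    intro s
    rw [hm, map_sum, Finset.sum_mul, Finset.sum_eq_single s.1]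
    · rw [map_mul, mul_assoc, hgv s, map_sub, sub_mul, AlgHomClass.commutes, ← Algebra.smul_def]
    · intro k _ hk
      rw [map_mul, mul_assoc]
      have : ι (toC (g' k)) * v s = 0 := by
        calc ι (toC (g' k)) * v s = ι (toC (g' k)) * (ι (toC (g' s.1)) * v s) := by rw [hgv s]
          _ = ι (toC (g' k) * toC (g' s.1)) * v s := by rw [map_mul, mul_assoc]
          _ = 0 := by rw [hg0 k s.1 hk, map_zero, zero_mul]
      rw [this, mul_zero]
    · intro h; exact absurd (Finset.mem_univ _) h
  have hfin : ι h * Q - ∑ s, h (z s.1) • (v s * star (v s)) = ι m * Q := by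
    rw [hQ, Finset.mul_sum, Finset.mul_sum, ← Finset.sum_sub_distrib]
    refine Finset.sum_congr rfl fun s _ => ?_
    rw [← mul_assoc, ← mul_assoc, hkey s, sub_mul, smul_mul_assoc]
  rw [hfin]
  calc ‖ι m * Q‖ ≤ ‖ι m‖ * ‖Q‖ := norm_mul_le _ _
    _ ≤ ε * 1 := by gcongr
    _ = ε := mul_one _

end Pool.Agent.FPZ
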