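import Pool.Agent.FPZ.Targets1
import Pool.Agent.FPZ.Targets2

set_option autoImplicit false

/-!
# FPZ: the traces of projections are dense (target `T_DEN`)
-/

open scoped Classical
open MeasureTheory

noncomputable section

namespace Pool.Agent.FPZ

namespace DEN_

/-- A set of positive reals closed under positive differences and containing `1` and an irrational
number has arbitrarily small elements. -/
theorem small {K : Set ℝ} {t : ℝ} (hpos : ∀ x ∈ K, 0 < x)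
    (hsub : ∀ x ∈ K, ∀ y ∈ K, x < y → y - x ∈ K) (h1 : (1 : ℝ) ∈ K) (ht : t ∈ K)
    (hirr : Irrational t) : ∀ ε : ℝ, 0 < ε → ∃ x ∈ K, x < ε := by
  by_contra hcon
  push Not at hcon
  obtain ⟨ε, hε, hK⟩ := hcon
  have hne : K.Nonempty := ⟨1, h1⟩
  have hbdd : BddBelow K := ⟨0, fun x hx => (hpos x hx).le⟩
  have hm : ε ≤ sInf K := le_csInf hne hK
  have hm0 : 0 < sInf K := lt_of_lt_of_le hε hm
  obtain ⟨x, hx, hxm⟩ := exists_lt_of_csInf_lt hne (show sInf K < 3 / 2 * sInf K by linarith)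
  have hx0 := hpos x hx
  have hmin : ∀ y ∈ K, x ≤ y := by
    intro y hy
    by_contra hlt
    push Not at hlt
    have h2 := csInf_le hbdd (hsub y hy x hx hlt)
    have h3 := csInf_le hbdd hy
    linarith
  have hmul : ∀ n : ℕ, ∀ y ∈ K, y ≤ n * x → ∃ k : ℕ, y = k * x := by
    intro n
    induction n with
    | zero =>
        intro y hy hyn
        have := hpos y hy
        simp at hyn
        linarith
    | succ n ih =>
        intro y hy hyn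
        rcases eq_or_lt_of_le (hmin y hy) with h | h
        · exact ⟨1, by simp [h]⟩
        · obtain ⟨k, hk⟩ := ih (y - x) (hsub x hx y hy h) (by push_cast at hyn; linarith)
          exact ⟨k + 1, by push_cast; linarith⟩
  have hall : ∀ y ∈ K, ∃ k : ℕ, y = k * x := by
    intro y hy
    obtain ⟨n, hn⟩ := exists_nat_ge (y / x)
    exact hmul n y hy ((div_le_iff₀ hx0).1 hn)
  obtain ⟨a, ha⟩ := hall t ht
  obtain ⟨b, hb⟩ := hall 1 h1
  have hb0 : (b : ℝ) ≠ 0 := by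
    intro h
    rw [h] at hb
    simp at hb
  apply hirr
  refine ⟨(a : ℚ) / b, ?_⟩
  push_cast
  rw [ha]
  field_simp
  linear_combination (a : ℝ) * hb

/-- Multiples of small elements. -/
theorem dense {K : Set ℝ} (hsub : ∀ x ∈ K, ∀ y ∈ K, x < y → y - x ∈ K)
    (hcom : ∀ x ∈ K, 1 - x ∈ K) (h1 : (1 : ℝ) ∈ K)
    (hsm : ∀ ε : ℝ, 0 < ε → ∃ x ∈ K, 0 < x ∧ x < ε) (s₁ s₂ : ℝ) (h0 : 0 ≤ s₁) (h12 : s₁ < s₂)
    (h21 : s₂ ≤ 1) : ∃ x ∈ K, s₁ < x ∧ x < s₂ := by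
  obtain ⟨x, hx, hx0, hxε⟩ := hsm (s₂ - s₁) (by linarith)
  have hmul : ∀ k : ℕ, k * x < 1 → 1 - k * x ∈ K := by
    intro k
    induction k with
    | zero => intro _; simpa using h1
    | succ k ih =>
        intro hk
        push_cast at hk ⊢
        have h2 := hsub x hx _ (ih (by linarith)) (by linarith)
        have h3 : 1 - (k + 1) * x = 1 - k * x - x := by ring
        rw [h3]
        exact h2
  have hfl : (⌊s₁ / x⌋₊ : ℝ) ≤ s₁ / x := Nat.floor_le (by positivity)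
  have hfl2 : s₁ / x < (⌊s₁ / x⌋₊ : ℝ) + 1 := Nat.lt_floor_add_one _
  have e1 : (⌊s₁ / x⌋₊ : ℝ) * x ≤ s₁ := (le_div_iff₀ hx0).1 hfl
  have e2 : s₁ < ((⌊s₁ / x⌋₊ : ℝ) + 1) * x := (div_lt_iff₀ hx0).1 hfl2
  have h4 := hmul (⌊s₁ / x⌋₊ + 1) (by push_cast; linarith)
  push_cast at h4
  have h5 := hcom _ h4
  refine ⟨_, h5, ?_, ?_⟩
  · linarith
  · linarith

theorem cal_mono {A : Type} [CStarAlgebra A] {T T' : Set A} (h : T ⊆ T') : cal T ≤ cal T' :=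
  StarSubalgebra.topologicalClosure_mono (StarAlgebra.adjoin_mono h)

theorem EA_mono {A : Type} [CStarAlgebra A] (κ : ℕ → ℂ × ℂ →⋆ₐ[ℂ] A) {J J' : Set ℕ}
    (h : J ⊆ J') : EA κ J ≤ EA κ J' :=
  cal_mono (Set.biUnion_subset_biUnion_left h)

theorem mem_EA {A : Type} [CStarAlgebra A] (κ : ℕ → ℂ × ℂ →⋆ₐ[ℂ] A) {J : Set ℕ} {i : ℕ}
    (hi : i ∈ J) (x : ℂ × ℂ) : κ i x ∈ EA κ J := by
  apply StarSubalgebra.le_topologicalClosure
  apply StarAlgebra.subset_adjoin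
  exact Set.mem_biUnion hi ⟨x, rfl⟩

end DEN_

theorem p_DEN (h_FRE : T_FRE) (h_SQP : T_SQP) (h_DIR : T_DIR) (h_PRT : T_PRT) (h_CLS : T_CLS)
    (h_TSB : T_TSB) : T_DEN := by
  intro Z A _ _ _ _ μ t φ ι κ hFS hirr n₀ s₁ s₂ h0 h12 h21
  obtain ⟨htp, -, -, htv, -⟩ := h_TSB A φ hFS.ts
  set K : Set ℝ := {x | ∀ n : ℕ, ∃ R ∈ EA κ {j | n ≤ j}, IsStarProjection R ∧ (φ R).re = x}
    with hK
  have K1 : (1 : ℝ) ∈ K := by
    intro n
    exact ⟨1, one_mem _, IsStarProjection.one A, by rw [hFS.ts.one]; simp⟩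
  have Kt : t ∈ K := by
    intro n
    refine ⟨κ n (1, 0), DEN_.mem_EA κ (by simp) _, ?_, ?_⟩
    · have h : IsStarProjection ((1, 0) : ℂ × ℂ) := by
        rw [isStarProjection_iff']
        constructor
        · ext <;> simp
        · ext <;> simp
      exact h.map (κ n)
    · rw [hFS.valP]
      simp
  have Kc : ∀ x ∈ K, 1 - x ∈ K := by
    intro x hx n
    obtain ⟨R, hR, hRp, hRx⟩ := hx n
    refine ⟨1 - R, sub_mem (one_mem _) hR, hRp.one_sub, ?_⟩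
    rw [map_sub, hFS.ts.one, Complex.sub_re, Complex.one_re, hRx]
  have Ks : ∀ x ∈ K, ∀ y ∈ K, x < y → y - x ∈ K := by
    intro x hx y hy hxy n
    obtain ⟨R₁, hR₁, hR₁p, hR₁x⟩ := hx n
    have hT : Monotone (fun m : ℕ => ⋃ i ∈ {j | n ≤ j ∧ j < m}, Set.range (κ i)) := by
      intro m m' hmm
      exact Set.biUnion_subset_biUnion_left (fun j hj => ⟨hj.1, lt_of_lt_of_le hj.2 hmm⟩)
    have hU : R₁ ∈ cal (⋃ m : ℕ, ⋃ i ∈ {j | n ≤ j ∧ j < m}, Set.range (κ i)) := by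
      refine DEN_.cal_mono ?_ hR₁
      intro z hz
      simp only [Set.mem_iUnion] at hz ⊢
      obtain ⟨i, hi, hz⟩ := hz
      exact ⟨i + 1, i, ⟨hi, Nat.lt_succ_self i⟩, hz⟩
    obtain ⟨m, d, hd, hRd⟩ := h_DIR A _ hT R₁ hU (1 / 8) (by norm_num)
    have hd' : d ∈ EA κ {j | n ≤ j ∧ j < m} := hd
    obtain ⟨P, hP, hPp, hRP⟩ := h_PRT A (EA κ {j | n ≤ j ∧ j < m}) R₁ d (EA_closed κ _) hR₁p hd' hRd
    have hPn : P ∈ EA κ {j | n ≤ j} := DEN_.EA_mono κ (fun j hj => hj.1) hP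
    obtain ⟨u, hu, hu1, hu2, huR⟩ :=
      h_CLS A (EA κ {j | n ≤ j}) R₁ P (EA_closed κ _) hR₁p hPp hR₁ hPn hRP
    have hPx : φ P = φ R₁ := by
      have e : P = u * R₁ * star u := by rw [huR, mul_assoc, hu2, mul_one]
      rw [e, hFS.ts.tr, ← mul_assoc, hu1, one_mul]
    obtain ⟨R₂, hR₂, hR₂p, hR₂y⟩ := hy (max n m)
    have hR₂n : R₂ ∈ EA κ {j | n ≤ j} :=
      DEN_.EA_mono κ (fun j hj => le_trans (le_max_left n m) hj) hR₂
    have hfree : Free φ (fun b : Bool => bif b then (EA κ {j | n ≤ j ∧ j < m} : Set A)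
        else (EA κ {j | max n m ≤ j} : Set A)) := by
      refine h_FRE Z A μ t φ ι κ _ _ hFS ?_
      rw [Set.disjoint_left]
      intro j hj hj'
      have h1 : j < m := hj.2
      have h2 : max n m ≤ j := hj'
      have h3 : m ≤ max n m := le_max_right n m
      omega
    obtain ⟨v, hv, hvv, hRv⟩ := h_SQP A φ (EA κ {j | n ≤ j ∧ j < m}) (EA κ {j | max n m ≤ j})
      (EA κ {j | n ≤ j}) P R₂ hFS.ts hfree (EA_closed κ _) hPp hR₂p hP hR₂ hPn hR₂n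
      (by rw [hPx, hR₁x, hR₂y]; exact hxy)
    obtain ⟨hvp, hvt⟩ := htv P v hPp hvv
    refine ⟨R₂ - v * star v, sub_mem hR₂n (mul_mem hv (star_mem hv)), ?_, ?_⟩
    · exact hvp.sub_of_mul_eq_right hR₂p (by rw [← mul_assoc, hRv])
    · rw [map_sub, hvt, hPx, Complex.sub_re, hR₁x, hR₂y]
  have hsm : ∀ ε : ℝ, 0 < ε → ∃ x ∈ K, 0 < x ∧ x < ε := by
    have hle : ∀ x ∈ K, 0 ≤ x := by
      intro x hx
      obtain ⟨R, -, hRp, hRx⟩ := hx 0
      rw [← hRx]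
      exact (htp R hRp).1
    have ht0 : 0 < t := lt_of_le_of_ne (hle t Kt) (fun h => hirr ⟨0, by simpa using h⟩)
    intro ε hε
    obtain ⟨x, hx, hxε⟩ := DEN_.small (K := {x | x ∈ K ∧ 0 < x}) (t := t) (fun x hx => hx.2)
      (fun x hx y hy hxy => ⟨Ks x hx.1 y hy.1 hxy, by linarith⟩) ⟨K1, one_pos⟩ ⟨Kt, ht0⟩ hirr ε hε
    exact ⟨x, hx.1, hx.2, hxε⟩
  obtain ⟨x, hx, hx1, hx2⟩ := DEN_.dense Ks Kc K1 hsm s₁ s₂ h0 h12 h21
  obtain ⟨R, hR, hRp, hRx⟩ := hx n₀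
  exact ⟨R, hR, hRp, by rw [hRx]; exact hx1, by rw [hRx]; exact hx2⟩

end Pool.Agent.FPZ
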