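import Pool.Agent.FPZ.Targets2

/-!
# FPZ: the closed star algebra generated by a monotone union
-/

set_option autoImplicit false

open scoped Classical

noncomputable section

namespace Pool.Agent.FPZ

theorem DIR_adj (A : Type) [CStarAlgebra A] (T : ℕ → Set A) (hT : Monotone T) (a : A)
    (ha : a ∈ StarAlgebra.adjoin ℂ (⋃ n, T n)) : ∃ n, a ∈ StarAlgebra.adjoin ℂ (T n) := by
  have hmono : Monotone fun n => StarAlgebra.adjoin ℂ (T n) :=
    fun i j h => StarAlgebra.adjoin_mono (hT h)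
  induction ha using StarAlgebra.adjoin_induction with
  | mem x hx =>
    obtain ⟨n, hn⟩ := Set.mem_iUnion.1 hx
    exact ⟨n, StarAlgebra.subset_adjoin ℂ (T n) hn⟩
  | algebraMap r => exact ⟨0, (StarAlgebra.adjoin ℂ (T 0)).algebraMap_mem r⟩
  | add x y _ _ h1 h2 =>
    obtain ⟨n, hn⟩ := h1
    obtain ⟨m, hm⟩ := h2
    exact ⟨max n m, add_mem (hmono (le_max_left n m) hn) (hmono (le_max_right n m) hm)⟩
  | mul x y _ _ h1 h2 =>
    obtain ⟨n, hn⟩ := h1
    obtain ⟨m, hm⟩ := h2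
    exact ⟨max n m, mul_mem (hmono (le_max_left n m) hn) (hmono (le_max_right n m) hm)⟩
  | star x _ h1 =>
    obtain ⟨n, hn⟩ := h1
    exact ⟨n, star_mem hn⟩

theorem p_DIR : T_DIR := by
  intro A _ T hT a ha ε hε
  have h1 : a ∈ closure ((StarAlgebra.adjoin ℂ (⋃ n, T n) : StarSubalgebra ℂ A) : Set A) := ha
  obtain ⟨b, hb, hab⟩ := Metric.mem_closure_iff.1 h1 ε hε
  obtain ⟨n, hn⟩ := DIR_adj A T hT b hb
  exact ⟨n, b, StarSubalgebra.le_topologicalClosure _ hn, by rwa [dist_eq_norm] at hab⟩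

end Pool.Agent.FPZ
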