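import Pool.Agent.FPZ.Targets4

set_option autoImplicit false

/-!
# FPZ: EQX, the measure preserving homotopy equivalence of the circle and `X`
-/

open scoped Classical unitInterval
open MeasureTheory

noncomputable section

namespace Pool.Agent.FPZ

namespace EQX_

/-! ## The circle -/

lemma cpt_coe (s : ℝ) : (cpt s : ℂ) = Complex.exp (2 * Real.pi * s * Complex.I) := rfl

lemma cpt_cont : Continuous cpt := by
  refine Continuous.subtype_mk ?_ _
  fun_prop

lemma cpt_zero : (cpt 0 : ℂ) = 1 := by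
  rw [cpt_coe]; simp

lemma cpt_one : (cpt 1 : ℂ) = 1 := by
  rw [cpt_coe]
  have : (2 * Real.pi * ((1 : ℝ) : ℂ) * Complex.I) = 2 * Real.pi * Complex.I := by
    push_cast; ring
  rw [this, Complex.exp_two_pi_mul_I]

lemma cpt_surj (w : S1) : ∃ s : I, cpt s = w := by
  have hw : ‖(w : ℂ)‖ = 1 := by simp
  set a : ℝ := Complex.arg (w : ℂ) / (2 * Real.pi) with ha
  refine ⟨⟨Int.fract a, Int.fract_nonneg a, (Int.fract_lt_one a).le⟩, ?_⟩
  apply Subtype.ext
  rw [cpt_coe]
  have h1 : (2 * Real.pi * ((Int.fract a : ℝ) : ℂ) * Complex.I) =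
      Complex.arg (w : ℂ) * Complex.I - (⌊a⌋ : ℤ) * (2 * Real.pi * Complex.I) := by
    have h2 : (Int.fract a : ℝ) = a - ⌊a⌋ := rfl
    rw [h2, ha]
    have hpi : (Real.pi : ℂ) ≠ 0 := by exact_mod_cast Real.pi_ne_zero
    push_cast
    field_simp
  rw [h1, Complex.exp_sub, Complex.exp_int_mul_two_pi_mul_I, div_one]
  have h3 := Complex.norm_mul_exp_arg_mul_I (w : ℂ)
  rw [hw] at h3
  simpa using h3

/-! ## The coordinates of `X` -/

/-- The coordinate on the segment. -/
def sg (w : ℂ) : ℝ := max 0 (w.re - 1)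

/-- The coordinate on the circle. -/
def pr (w : ℂ) : ℂ := w - (sg w : ℂ)

lemma sg_cont : Continuous sg := by
  unfold sg; fun_prop

lemma pr_cont : Continuous pr := by
  unfold pr
  have := sg_cont
  fun_prop

lemma sg_circle {w : ℂ} (hw : ‖w‖ = 1) : sg w = 0 := by
  have h1 : w.re ≤ 1 := by rw [← hw]; exact Complex.re_le_norm w
  unfold sg
  exact max_eq_left (by linarith)

lemma pr_circle {w : ℂ} (hw : ‖w‖ = 1) : pr w = w := by
  unfold pr
  rw [sg_circle hw]
  simp

lemma sg_seg {t : ℝ} (ht : 0 ≤ t) : sg (1 + t) = t := by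
  unfold sg
  simp [ht]

lemma pr_seg {t : ℝ} (ht : 0 ≤ t) : pr (1 + t) = 1 := by
  unfold pr
  rw [sg_seg ht]
  ring

lemma mem_seg {L t : ℝ} (hL : 0 < L) (h0 : 0 ≤ t) (h1 : t ≤ L) : (1 + t : ℂ) ∈ XS L := by
  right
  rw [segment_eq_image]
  refine ⟨t / L, ⟨by positivity, by rw [div_le_one hL]; exact h1⟩, ?_⟩
  have hL' : (L : ℂ) ≠ 0 := by exact_mod_cast hL.ne'
  simp only [Complex.real_smul]
  push_cast
  field_simp
  ring

lemma mem_cases {L : ℝ} (hL : 0 < L) {w : ℂ} (hw : w ∈ XS L) :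
    ‖w‖ = 1 ∨ ∃ t : ℝ, 0 ≤ t ∧ t ≤ L ∧ w = 1 + t := by
  rcases hw with h | h
  · left
    simpa using h
  · right
    rw [segment_eq_image] at h
    obtain ⟨a, ⟨ha0, ha1⟩, rfl⟩ := h
    refine ⟨a * L, by positivity, ?_, ?_⟩
    · calc a * L ≤ 1 * L := by gcongr
        _ = L := one_mul L
    · simp only [Complex.real_smul]
      push_cast
      ring

lemma pr_norm {L : ℝ} (hL : 0 < L) {w : ℂ} (hw : w ∈ XS L) : ‖pr w‖ = 1 := by
  rcases mem_cases hL hw with h | ⟨t, h0, _, rfl⟩
  · rw [pr_circle h, h]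
  · rw [pr_seg h0]; simp

/-- The retraction onto the circle. -/
def P (L : ℝ) (hL : 0 < L) : C(XS L, S1) where
  toFun w := ⟨pr w, by simpa using pr_norm hL w.2⟩
  continuous_toFun := (pr_cont.comp continuous_subtype_val).subtype_mk _

/-- The map that winds the segment once around the circle. -/
def G (L : ℝ) (hL : 0 < L) : C(XS L, S1) where
  toFun w := ⟨pr w * (cpt (sg w / L) : ℂ), by
    have h1 := pr_norm hL w.2
    have h2 : ‖(cpt (sg w / L) : ℂ)‖ = 1 := by simp
    simp [h1, h2]⟩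
  continuous_toFun := by
    refine Continuous.subtype_mk ?_ _
    have h1 : Continuous fun w : XS L => pr (w : ℂ) := pr_cont.comp continuous_subtype_val
    have h2 : Continuous fun w : XS L => (cpt (sg (w : ℂ) / L) : ℂ) :=
      continuous_subtype_val.comp (cpt_cont.comp
        ((sg_cont.comp continuous_subtype_val).div_const L))
    exact h1.mul h2

/-- The inclusion of the circle. -/
def inc (L : ℝ) : C(S1, XS L) where
  toFun w := ⟨w, Or.inl w.2⟩
  continuous_toFun := continuous_subtype_val.subtype_mk _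

lemma G_inc (L : ℝ) (hL : 0 < L) : (G L hL).comp (inc L) = ContinuousMap.id S1 := by
  ext w
  have hw : ‖(w : ℂ)‖ = 1 := by simp
  change pr (w : ℂ) * (cpt (sg w / L) : ℂ) = w
  rw [sg_circle hw, pr_circle hw, zero_div, cpt_zero, mul_one]

/-- The retraction is homotopic to the identity. -/
lemma inc_P (L : ℝ) (hL : 0 < L) :
    ContinuousMap.Homotopic ((inc L).comp (P L hL)) (ContinuousMap.id (XS L)) := by
  have hmem : ∀ x : I × XS L, pr (x.2 : ℂ) + ((x.1 : ℝ) * sg (x.2 : ℂ) : ℝ) ∈ XS L := by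
    rintro ⟨τ, w, hw⟩
    change pr w + ((τ : ℝ) * sg w : ℝ) ∈ XS L
    rcases mem_cases hL hw with h | ⟨t, h0, h1, rfl⟩
    · rw [sg_circle h, pr_circle h]
      simpa using hw
    · rw [pr_seg h0, sg_seg h0]
      refine mem_seg hL (mul_nonneg τ.2.1 h0) ?_
      calc (τ : ℝ) * t ≤ 1 * t := mul_le_mul_of_nonneg_right τ.2.2 h0
        _ ≤ L := by linarith
  refine ⟨⟨⟨fun x => ⟨pr (x.2 : ℂ) + ((x.1 : ℝ) * sg (x.2 : ℂ) : ℝ), hmem x⟩, ?_⟩, ?_, ?_⟩⟩
  · refine Continuous.subtype_mk ?_ _
    have h1 : Continuous fun x : I × XS L => pr (x.2 : ℂ) :=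
      pr_cont.comp (continuous_subtype_val.comp continuous_snd)
    have h2 : Continuous fun x : I × XS L => sg (x.2 : ℂ) :=
      sg_cont.comp (continuous_subtype_val.comp continuous_snd)
    have h3 : Continuous fun x : I × XS L => (x.1 : ℝ) :=
      continuous_subtype_val.comp continuous_fst
    exact h1.add (Complex.continuous_ofReal.comp (h3.mul h2))
  · intro w
    apply Subtype.ext
    change pr (w : ℂ) + (((0 : I) : ℝ) * sg (w : ℂ) : ℝ) = pr (w : ℂ)
    simp
  · intro w
    apply Subtype.ext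
    change pr (w : ℂ) + (((1 : I) : ℝ) * sg (w : ℂ) : ℝ) = (w : ℂ)
    unfold pr
    simp

end EQX_

open EQX_ in
/-- The measure preserving homotopy equivalence of the circle and `X`. -/
theorem p_EQX (h_CIR : T_CIR) (h_LFC : T_LFC) (h_HTC : T_HTC) (h_PHX : T_PHX) (h_PWL : T_PWL) :
    T_EQX := by
  intro L hL
  obtain ⟨c, hc⟩ : ∃ c : ℝ, 2 * Real.pi / (2 * Real.pi + L) = c := ⟨_, rfl⟩
  have hpi := Real.pi_pos
  have hc0 : 0 < c := by rw [← hc]; positivity
  have hc1 : c < 1 := by
    rw [← hc, div_lt_one (by positivity)]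
    linarith
  obtain ⟨Φ, hΦm, hΦ1, hΦ2⟩ := h_PHX L hL
  rw [hc] at hΦ1 hΦ2
  obtain ⟨T, T', hT'm, hTm, hT'v, hT1, hT2, hT'1, hT'2⟩ := h_PWL c hc0 hc1
  have hc1' : (1 - c) ≠ 0 := by linarith
  have hT0 : T 0 = 0 := hT1 0 hc0.le
  have hT1' : ((T 1 : I) : ℝ) = c := by
    rw [hT2 1 hc1.le]
    have : ((1 : I) : ℝ) = 1 := rfl
    rw [this, div_self hc1']
    norm_num
  have hP0 : (Φ 0 : ℂ) = 1 := by
    rw [hΦ1 0 hc0.le]
    have : ((0 : I) : ℝ) / c = 0 := by simp
    rw [this, cpt_zero]
  have hPc : (Φ (T 1) : ℂ) = 1 := by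
    rw [hΦ2 _ hT1'.ge, hT1']
    simp
  -- the map `F`
  obtain ⟨U, hU⟩ := h_LFC (XS L) Unit ⟨fun x => Φ (T x.2), by fun_prop⟩ (fun q => by
    apply Subtype.ext
    change (Φ (T 0) : ℂ) = (Φ (T 1) : ℂ)
    rw [hT0, hP0, hPc])
  obtain ⟨F, hF⟩ : ∃ F : C(S1, XS L), ∀ s : I, F (cpt s) = Φ (T s) :=
    ⟨⟨fun w => U ((), w), by fun_prop⟩, fun s => hU () s⟩
  have hG : ∀ s : I, G L hL (Φ s) = cpt (T' s) := by
    intro s
    apply Subtype.ext
    change pr (Φ s : ℂ) * (cpt (sg (Φ s : ℂ) / L) : ℂ) = _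
    rcases le_or_gt (s : ℝ) c with h | h
    · rw [hΦ1 s h, hT'1 s h]
      have hw : ‖(cpt (s / c) : ℂ)‖ = 1 := by simp
      rw [sg_circle hw, pr_circle hw, zero_div, cpt_zero, mul_one]
    · rw [hΦ2 s h.le, hT'2 s h]
      have h0 : 0 ≤ L * ((s - c) / (1 - c)) := by
        have h1 : 0 ≤ ((s : ℝ) - c) / (1 - c) := div_nonneg (by linarith) (by linarith)
        positivity
      have e1 : (1 + L * (((s - c) / (1 - c) : ℝ) : ℂ) : ℂ) =
          1 + ((L * ((s - c) / (1 - c)) : ℝ) : ℂ) := by push_cast; ring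
      rw [e1, pr_seg h0, sg_seg h0, one_mul, mul_div_cancel_left₀ _ hL.ne']
  have hcm : Measurable (fun s : I => cpt s) :=
    (cpt_cont.comp continuous_subtype_val).measurable
  refine ⟨F, G L hL, ?_, ?_, ?_, ?_⟩
  · rw [← h_CIR, Measure.map_map F.continuous.measurable hcm]
    have e1 : (F ∘ fun s : I => cpt s) = Φ ∘ T := by
      funext s
      exact hF s
    rw [e1, ← Measure.map_map Φ.continuous.measurable T.continuous.measurable, hTm, hΦm]
  · rw [← hΦm, Measure.map_map (G L hL).continuous.measurable Φ.continuous.measurable, ← h_CIR]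
    have e1 : (G L hL ∘ Φ) = (fun s : I => cpt s) ∘ T' := by
      funext s
      exact hG s
    rw [e1, ← Measure.map_map hcm hT'm, hT'v]
  all_goals
    have hPF : ContinuousMap.Homotopic ((P L hL).comp F) (ContinuousMap.id S1) := by
      obtain ⟨E, H, hE, hH0, hH1, _, _⟩ := h_HTC ⟨fun s => ⟨min ((s : ℝ) / c) 1,
        le_min (div_nonneg s.2.1 hc0.le) zero_le_one, min_le_right _ _⟩, by fun_prop⟩
        (by
          apply Subtype.ext
          change min (((0 : I) : ℝ) / c) 1 = 0
          simp)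
        (by
          apply Subtype.ext
          change min (((1 : I) : ℝ) / c) 1 = 1
          refine min_eq_right ?_
          have : ((1 : I) : ℝ) = 1 := rfl
          rw [this, le_div_iff₀ hc0]
          linarith)
      have hEP : E = (P L hL).comp F := by
        ext w
        obtain ⟨s, rfl⟩ := cpt_surj w
        rw [hE s]
        change (cpt (min ((s : ℝ) / c) 1) : ℂ) = pr (F (cpt s) : ℂ)
        rw [hF s]
        rcases le_or_gt (s : ℝ) c with h | h
        · rw [hT1 s h, hΦ1 s h]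
          have hw : ‖(cpt (s / c) : ℂ)‖ = 1 := by simp
          rw [pr_circle hw, min_eq_left]
          rw [div_le_one hc0]
          exact h
        · have hTs : c ≤ ((T s : I) : ℝ) := by
            rw [hT2 s h.le]
            have h1 : 0 ≤ ((s : ℝ) - c) / (1 - c) := div_nonneg (by linarith) (by linarith)
            have h2 : ((s : ℝ) - c) / (1 - c) ≤ 1 := by
              rw [div_le_one (by linarith)]
              linarith [s.2.2]
            have h3 : |2 * (((s : ℝ) - c) / (1 - c)) - 1| ≤ 1 := by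
              rw [abs_le]
              constructor <;> linarith
            have h4 : 0 ≤ (1 - c) * (1 - |2 * (((s : ℝ) - c) / (1 - c)) - 1|) :=
              mul_nonneg (by linarith) (by linarith)
            linarith
          rw [hΦ2 _ hTs]
          have h0 : 0 ≤ L * ((((T s : I) : ℝ) - c) / (1 - c)) := by
            have h1 : 0 ≤ (((T s : I) : ℝ) - c) / (1 - c) :=
              div_nonneg (by linarith) (by linarith)
            positivity
          have e1 : (1 + L * (((((T s : I) : ℝ) - c) / (1 - c) : ℝ) : ℂ) : ℂ) =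
              1 + ((L * ((((T s : I) : ℝ) - c) / (1 - c)) : ℝ) : ℂ) := by push_cast; ring
          rw [e1, pr_seg h0, min_eq_right, cpt_one]
          rw [le_div_iff₀ hc0]
          linarith
      rw [← hEP]
      exact ⟨⟨H, hH0, hH1⟩⟩
    have hFi : ContinuousMap.Homotopic F (inc L) := by
      have h1 : ContinuousMap.Homotopic (((inc L).comp (P L hL)).comp F)
          ((ContinuousMap.id (XS L)).comp F) :=
        (inc_P L hL).comp (ContinuousMap.Homotopic.refl F)
      have h2 : ContinuousMap.Homotopic ((inc L).comp ((P L hL).comp F))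
          ((inc L).comp (ContinuousMap.id S1)) :=
        (ContinuousMap.Homotopic.refl (inc L)).comp hPF
      rw [ContinuousMap.id_comp] at h1
      rw [ContinuousMap.comp_id] at h2
      exact h1.symm.trans h2
  · have h1 : ContinuousMap.Homotopic (F.comp (G L hL)) ((inc L).comp (G L hL)) :=
      hFi.comp (ContinuousMap.Homotopic.refl _)
    have h2 : ContinuousMap.Homotopic (((inc L).comp (G L hL)).comp ((inc L).comp (P L hL)))
        (((inc L).comp (G L hL)).comp (ContinuousMap.id (XS L))) :=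
      (ContinuousMap.Homotopic.refl _).comp (inc_P L hL)
    have e1 : ((inc L).comp (G L hL)).comp ((inc L).comp (P L hL)) = (inc L).comp (P L hL) := by
      calc ((inc L).comp (G L hL)).comp ((inc L).comp (P L hL))
          = (inc L).comp (((G L hL).comp (inc L)).comp (P L hL)) := rfl
        _ = (inc L).comp (P L hL) := by rw [G_inc, ContinuousMap.id_comp]
    rw [e1, ContinuousMap.comp_id] at h2
    exact ((inc_P L hL).symm.trans h2).trans h1.symm
  · have h1 : ContinuousMap.Homotopic ((G L hL).comp F) ((G L hL).comp (inc L)) :=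
      (ContinuousMap.Homotopic.refl _).comp hFi
    rw [G_inc] at h1
    exact h1.symm

end Pool.Agent.FPZ
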