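import Pool.Agent.FPZ.Targets4

set_option autoImplicit false

/-!
# FPZ: the measure preserving homotopy equivalence of the circle and the annulus
-/

open scoped Classical unitInterval
open MeasureTheory

noncomputable section

namespace Pool.Agent.FPZ

namespace EQY_

lemma cpt_coe (s : ℝ) : ((cpt s : S1) : ℂ) = Complex.exp (2 * Real.pi * s * Complex.I) := rfl

lemma cpt_norm (s : ℝ) : ‖((cpt s : S1) : ℂ)‖ = 1 :=
  mem_sphere_zero_iff_norm.mp (cpt s).2

lemma cpt_cont : Continuous cpt := by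
  unfold cpt
  exact Continuous.subtype_mk (by fun_prop) _

lemma cptI_cont : Continuous (fun s : I => cpt s) := cpt_cont.comp continuous_subtype_val

lemma cpt_zero : cpt 0 = cpt 1 := by
  apply Subtype.ext
  rw [cpt_coe, cpt_coe]
  have : (2 * (Real.pi : ℂ) * ((1 : ℝ) : ℂ) * Complex.I) = 2 * Real.pi * Complex.I := by
    push_cast; ring
  rw [this, Complex.exp_two_pi_mul_I]
  simp

lemma cpt_surj (w : S1) : ∃ s : I, cpt s = w := by
  obtain ⟨w, hw⟩ := w
  have hn : ‖w‖ = 1 := mem_sphere_zero_iff_norm.mp hw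
  have hpi := Real.pi_pos
  have hpc : (Real.pi : ℂ) ≠ 0 := by exact_mod_cast hpi.ne'
  have he : Complex.exp (Complex.arg w * Complex.I) = w := by
    have h := Complex.norm_mul_exp_arg_mul_I w
    rw [hn] at h
    simpa using h
  by_cases h0 : 0 ≤ Complex.arg w
  · refine ⟨⟨Complex.arg w / (2 * Real.pi), by positivity, ?_⟩, Subtype.ext ?_⟩
    · rw [div_le_one (by positivity)]
      linarith [Complex.arg_le_pi w]
    · rw [cpt_coe]
      refine Eq.trans ?_ he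
      congr 1
      push_cast
      field_simp
  · push Not at h0
    refine ⟨⟨1 + Complex.arg w / (2 * Real.pi), ?_, ?_⟩, Subtype.ext ?_⟩
    · have h1 : -1 ≤ Complex.arg w / (2 * Real.pi) := by
        rw [le_div_iff₀ (by positivity)]
        linarith [Complex.neg_pi_lt_arg w]
      linarith
    · have h1 : Complex.arg w / (2 * Real.pi) ≤ 0 :=
        div_nonpos_of_nonpos_of_nonneg h0.le (by positivity)
      linarith
    · rw [cpt_coe]
      refine Eq.trans ?_ he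
      have h2 : (2 * (Real.pi : ℂ) * ((1 + Complex.arg w / (2 * Real.pi) : ℝ) : ℂ) * Complex.I)
          = 2 * Real.pi * Complex.I + Complex.arg w * Complex.I := by
        push_cast
        field_simp
      have h3 : Complex.exp (2 * (Real.pi : ℂ) * ((1 + Complex.arg w / (2 * Real.pi) : ℝ) : ℂ) *
          Complex.I) = Complex.exp (Complex.arg w * Complex.I) := by
        rw [h2, Complex.exp_add, Complex.exp_two_pi_mul_I, one_mul]
      exact h3

/-- The angular coordinate. -/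
def ang (r₁ r₂ : ℝ) (h : 0 < r₁) : C(YS r₁ r₂, S1) where
  toFun w := ⟨((‖(w : ℂ)‖ : ℝ) : ℂ)⁻¹ * (w : ℂ), by
    have hw : 0 < ‖(w : ℂ)‖ := lt_of_lt_of_le h w.2.1
    rw [mem_sphere_zero_iff_norm, norm_mul, norm_inv, Complex.norm_real, norm_norm]
    exact inv_mul_cancel₀ hw.ne'⟩
  continuous_toFun := by
    refine Continuous.subtype_mk ?_ _
    refine Continuous.mul ?_ continuous_subtype_val
    refine Continuous.inv₀ ?_ ?_
    · exact Complex.continuous_ofReal.comp (continuous_norm.comp continuous_subtype_val)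
    · intro w
      have hw : 0 < ‖(w : ℂ)‖ := lt_of_lt_of_le h w.2.1
      exact_mod_cast hw.ne'

lemma ang_coe (r₁ r₂ : ℝ) (h : 0 < r₁) (w : YS r₁ r₂) :
    ((ang r₁ r₂ h w : S1) : ℂ) = ((‖(w : ℂ)‖ : ℝ) : ℂ)⁻¹ * (w : ℂ) := rfl

lemma ang_of (r₁ r₂ : ℝ) (h : 0 < r₁) (w : YS r₁ r₂) (R : ℝ) (hR : 0 < R) (s : S1)
    (hw : (w : ℂ) = (R : ℂ) * (s : ℂ)) : ang r₁ r₂ h w = s ∧ ‖(w : ℂ)‖ = R := by
  have hs : ‖(s : ℂ)‖ = 1 := mem_sphere_zero_iff_norm.mp s.2
  have hn : ‖(w : ℂ)‖ = R := by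
    rw [hw, norm_mul, hs, mul_one, Complex.norm_real, Real.norm_of_nonneg hR.le]
  refine ⟨Subtype.ext ?_, hn⟩
  rw [ang_coe, hn, hw, ← mul_assoc, inv_mul_cancel₀ (by exact_mod_cast hR.ne'), one_mul]

end EQY_

open EQY_

/-- EQY. -/
theorem p_EQY (h_CIR : T_CIR) (h_LFC : T_LFC) (h_HTC : T_HTC) (h_PHY : T_PHY) (h_HIL : T_HIL) :
    T_EQY := by
  intro r₁ r₂ h1 h12
  obtain ⟨Φ, hΦm, hΦ⟩ := h_PHY r₁ r₂ h1 h12
  obtain ⟨x, y, hx0, hx1, hy0, hy1, hxy⟩ := h_HIL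
  obtain ⟨E, H, hE, hH0, hH1, -, -⟩ := h_HTC x hx0 hx1
  -- the radius
  have hRpos : ∀ t : I, 0 < Real.sqrt (r₁ ^ 2 + (r₂ ^ 2 - r₁ ^ 2) * t) := by
    intro t
    have ht := t.2.1
    have h3 : 0 ≤ (r₂ ^ 2 - r₁ ^ 2) * (t : ℝ) := by
      apply mul_nonneg _ ht
      nlinarith
    apply Real.sqrt_pos.mpr
    have : 0 < r₁ ^ 2 := by positivity
    linarith
  have hΦa : ∀ s t : I, ang r₁ r₂ h1 (Φ (s, t)) = cpt s ∧
      ‖((Φ (s, t) : YS r₁ r₂) : ℂ)‖ = Real.sqrt (r₁ ^ 2 + (r₂ ^ 2 - r₁ ^ 2) * t) := by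
    intro s t
    exact ang_of r₁ r₂ h1 (Φ (s, t)) _ (hRpos t) (cpt s) (hΦ s t)
  -- the map F
  let pr : C(Unit × I, I × I) :=
    ⟨fun q => (x q.2, y q.2), (x.continuous.comp continuous_snd).prodMk
      (y.continuous.comp continuous_snd)⟩
  obtain ⟨U, hU⟩ := h_LFC (YS r₁ r₂) Unit (Φ.comp pr) (by
    intro q
    apply Subtype.ext
    change ((Φ (x 0, y 0) : YS r₁ r₂) : ℂ) = ((Φ (x 1, y 1) : YS r₁ r₂) : ℂ)
    rw [hΦ, hΦ, hx0, hx1, hy0, hy1]
    have h4 : (cpt ((0 : I) : ℝ)) = cpt ((1 : I) : ℝ) := by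
      simpa using cpt_zero
    rw [h4])
  let F : C(S1, YS r₁ r₂) :=
    ⟨fun w => U ((), w), U.continuous.comp (continuous_const.prodMk continuous_id)⟩
  have hF : ∀ s : I, F (cpt s) = Φ (x s, y s) := by
    intro s
    exact hU () s
  have hcm : Measurable (fun s : I => cpt s) := cptI_cont.measurable
  have hxym : Measurable (fun s : I => (x s, y s)) :=
    (x.continuous.prodMk y.continuous).measurable
  have hGF : (ang r₁ r₂ h1).comp F = E := by
    ext1 w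
    obtain ⟨s, rfl⟩ := cpt_surj w
    change ang r₁ r₂ h1 (F (cpt s)) = E (cpt s)
    rw [hF, (hΦa _ _).1, hE]
  refine ⟨F, ang r₁ r₂ h1, ?_, ?_, ?_, ?_⟩
  · rw [← h_CIR, Measure.map_map F.continuous.measurable hcm]
    have h5 : (F ∘ fun s : I => cpt s) = Φ ∘ (fun s : I => (x s, y s)) := by
      funext s
      exact hF s
    rw [h5, ← Measure.map_map Φ.continuous.measurable hxym, hxy, hΦm]
  · rw [← hΦm, Measure.map_map (ang r₁ r₂ h1).continuous.measurable Φ.continuous.measurable]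
    have h5 : (ang r₁ r₂ h1 ∘ Φ) = (fun s : I => cpt s) ∘ Prod.fst := by
      funext q
      exact (hΦa q.1 q.2).1
    rw [h5, ← Measure.map_map hcm measurable_fst]
    have h6 : Measure.map Prod.fst (volume : Measure (I × I)) = (volume : Measure I) := by
      rw [Measure.volume_eq_prod, Measure.map_fst_prod]
      simp
    rw [h6, h_CIR]
  · -- F G is homotopic to the identity
    refine ContinuousMap.Homotopic.symm ⟨{
      toFun := fun q => ⟨(((1 - (q.1 : ℝ)) * ‖((F (ang r₁ r₂ h1 q.2) : YS r₁ r₂) : ℂ)‖ +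
        q.1 * ‖(q.2 : ℂ)‖ : ℝ) : ℂ) * ((H (q.1, ang r₁ r₂ h1 q.2) : S1) : ℂ), ?_⟩
      continuous_toFun := ?_
      map_zero_left := ?_
      map_one_left := ?_ }⟩
    · have hq0 := q.1.2.1
      have hq1 := q.1.2.2
      have ha := (F (ang r₁ r₂ h1 q.2)).2
      have hb := q.2.2
      have hs : ‖((H (q.1, ang r₁ r₂ h1 q.2) : S1) : ℂ)‖ = 1 :=
        mem_sphere_zero_iff_norm.mp (H (q.1, ang r₁ r₂ h1 q.2)).2
      have hnn : 0 ≤ (1 - (q.1 : ℝ)) * ‖((F (ang r₁ r₂ h1 q.2) : YS r₁ r₂) : ℂ)‖ +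
        q.1 * ‖(q.2 : ℂ)‖ := by
        have : 0 ≤ 1 - (q.1 : ℝ) := by linarith
        positivity
      have hn : ‖((((1 - (q.1 : ℝ)) * ‖((F (ang r₁ r₂ h1 q.2) : YS r₁ r₂) : ℂ)‖ +
        q.1 * ‖(q.2 : ℂ)‖ : ℝ) : ℂ) * ((H (q.1, ang r₁ r₂ h1 q.2) : S1) : ℂ))‖ =
        (1 - (q.1 : ℝ)) * ‖((F (ang r₁ r₂ h1 q.2) : YS r₁ r₂) : ℂ)‖ + q.1 * ‖(q.2 : ℂ)‖ := by
        rw [norm_mul, hs, mul_one, Complex.norm_real, Real.norm_of_nonneg hnn]
      have h7 : 0 ≤ 1 - (q.1 : ℝ) := by linarith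
      constructor
      · rw [hn]
        nlinarith [mul_le_mul_of_nonneg_left ha.1 h7, mul_le_mul_of_nonneg_left hb.1 hq0]
      · rw [hn]
        nlinarith [mul_le_mul_of_nonneg_left ha.2 h7, mul_le_mul_of_nonneg_left hb.2 hq0]
    · refine Continuous.subtype_mk ?_ _
      have c1 : Continuous (fun q : I × YS r₁ r₂ => (q.1 : ℝ)) :=
        continuous_subtype_val.comp continuous_fst
      have c2 : Continuous (fun q : I × YS r₁ r₂ => ang r₁ r₂ h1 q.2) :=
        (ang r₁ r₂ h1).continuous.comp continuous_snd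
      have c3 : Continuous (fun q : I × YS r₁ r₂ =>
          ‖((F (ang r₁ r₂ h1 q.2) : YS r₁ r₂) : ℂ)‖) :=
        continuous_norm.comp (continuous_subtype_val.comp (F.continuous.comp c2))
      have c4 : Continuous (fun q : I × YS r₁ r₂ => ‖(q.2 : ℂ)‖) :=
        continuous_norm.comp (continuous_subtype_val.comp continuous_snd)
      have c5 : Continuous (fun q : I × YS r₁ r₂ =>
          ((H (q.1, ang r₁ r₂ h1 q.2) : S1) : ℂ)) :=
        continuous_subtype_val.comp (H.continuous.comp (continuous_fst.prodMk c2))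
      exact (Complex.continuous_ofReal.comp
        (((continuous_const.sub c1).mul c3).add (c1.mul c4))).mul c5
    · intro w
      apply Subtype.ext
      obtain ⟨s, hs⟩ := cpt_surj (ang r₁ r₂ h1 w)
      change (((1 - ((0 : I) : ℝ)) * ‖((F (ang r₁ r₂ h1 w) : YS r₁ r₂) : ℂ)‖ +
        ((0 : I) : ℝ) * ‖(w : ℂ)‖ : ℝ) : ℂ) * ((H (0, ang r₁ r₂ h1 w) : S1) : ℂ) =
        ((F (ang r₁ r₂ h1 w) : YS r₁ r₂) : ℂ)
      rw [hH0, ← hs, hF, hE, (hΦa _ _).2, hΦ]
      simp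
    · intro w
      apply Subtype.ext
      have hw : 0 < ‖(w : ℂ)‖ := lt_of_lt_of_le h1 w.2.1
      change (((1 - ((1 : I) : ℝ)) * ‖((F (ang r₁ r₂ h1 w) : YS r₁ r₂) : ℂ)‖ +
        ((1 : I) : ℝ) * ‖(w : ℂ)‖ : ℝ) : ℂ) * ((H (1, ang r₁ r₂ h1 w) : S1) : ℂ) = (w : ℂ)
      rw [hH1, ang_coe]
      have h8 : ((‖(w : ℂ)‖ : ℝ) : ℂ) ≠ 0 := by exact_mod_cast hw.ne'
      simp [h8]
  · rw [hGF]
    exact ContinuousMap.Homotopic.symm ⟨{
      toFun := fun q => H q
      continuous_toFun := H.continuous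
      map_zero_left := hH0
      map_one_left := hH1 }⟩

end Pool.Agent.FPZ
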