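import Pool.Agent.FPZ.Defs

set_option autoImplicit false

/-!
# FPZ targets 4: the spaces `S^1`, `X`, `Y` and the measure preserving maps

Every target has its complete proof in the docstring. `unitInterval` carries Lebesgue measure `volume`.
-/

open scoped Classical unitInterval
open MeasureTheory

noncomputable section

namespace Pool.Agent.FPZ

/-- the point `e^{2 pi i s}` of the circle -/
def cpt (s : ℝ) : S1 := ⟨Complex.exp (2 * Real.pi * s * Complex.I), by simp [Complex.norm_exp]⟩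

/-- HIL. The Hilbert curve. PROOF. On the complete space of `γ ∈ C([0,1], ℝ × ℝ)` with `γ 0 = (0,0)`, `γ 1 = (1,0)` (values in the unit square) the operator `Φ γ (s)` = `(1/2) (y, x) (4s)` on `[0,1/4]`, `(1/2) (x, y) (4s-1) + (0,1/2)` on `[1/4,1/2]`,
`(1/2) (x, y) (4s-2) + (1/2,1/2)` on `[1/2,3/4]`, `(1 - y/2, (1-x)/2) (4s-3)` on `[3/4,1]` is well defined (the values at `1/4, 1/2, 3/4` agree: `(0,1/2)`, `(1/2,1/2)`, `(1,1/2)`) and a contraction with factor `1/2`; `γ` = the fixed point. Measure: let `S_0, .., S_3` be the four affine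
maps of the square; `ν = γ_* λ` and `λ²` both satisfy `∫ g dν = (1/4) ∑ ∫ g ∘ S_i dν`. For `g` Lipschitz with constant `L`, `|∫ g dν - ∫ g dλ²| ≤ D(L)`, `D(L)` = supremum over all such `g`, `D(L) ≤ D(L/2)`, `D(L) ≤ 2 L`, so `D = 0`. Lipschitz functions determine a finite measure
(`ext_of_forall_lintegral_eq_of_IsFiniteMeasure` / closed sets, thickened indicators). -/
def T_HIL : Prop := ∃ x y : C(I, I), x 0 = 0 ∧ x 1 = 1 ∧ y 0 = 0 ∧ y 1 = 0 ∧ Measure.map (fun s => (x s, y s)) (volume : Measure I) = (volume : Measure (I × I))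

/-- CIR. The circle is parametrised by arc length. PROOF. `c s = cpt s` pushes `volume` on `[0,1]` to the normalised one-dimensional Hausdorff measure: both are finite measures; `nH` is invariant under rotations (isometries), as is the image of Lebesgue measure; uniqueness of the Haar measure
(`Circle`, `AddCircle`) or directly: on arcs of angle `α` the map `c` is `1`-Lipschitz (for `2π` times arc length) with inverse `(1 + o(1))`-Lipschitz, so `μH[1]` of a Borel part of a small arc is `(1 + o(1)) 2π` times the Lebesgue measure; sum over small arcs. In particular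
`0 < μH[1] (sphere 0 1) < ∞`. -/
def T_CIR : Prop := Measure.map (fun s : I => cpt s) (volume : Measure I) = nH (Metric.sphere (0 : ℂ) 1)

/-- HSC. Total length (uses T_CIR's argument). PROOF. `μH[1] (sphere 0 1) = 2π`. -/
def T_HSC : Prop := ∀ E : Set ℝ, MeasurableSet E → E ⊆ Set.Icc 0 1 →
  (Measure.hausdorffMeasure 1 : Measure ℂ) ((fun s : ℝ => Complex.exp (2 * Real.pi * s * Complex.I)) '' E) = ENNReal.ofReal (2 * Real.pi) * volume E

/-- LFC. Continuous maps of the circle. PROOF. `s ↦ cpt s`, `I → S1`, is a continuous surjection from a compact to a Hausdorff space, so a quotient map (also `id × cpt`); the fibres are `{0, 1}` and points. -/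
def T_LFC : Prop := ∀ (W P : Type) [TopologicalSpace W] [TopologicalSpace P] [CompactSpace P] [T2Space P] (u : C(P × I, W)), (∀ q, u (q, 0) = u (q, 1)) →
  ∃ U : C(P × S1, W), ∀ q (s : I), U (q, cpt s) = u (q, s)

/-- HTC. Homotopies of maps of the circle (uses T_LFC). PROOF. `H (τ, cpt s) = cpt ((1 - τ) u s + τ s)`, well defined since the values at `s = 0` and `s = 1` are `cpt 0` and `cpt 1`. For the second statement the first coordinate as before. -/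
def T_HTC : Prop := ∀ u : C(I, I), u 0 = 0 → u 1 = 1 →
  ∃ (E : C(S1, S1)) (H : C(I × S1, S1)), (∀ s : I, E (cpt s) = cpt (u s)) ∧ (∀ w, H (0, w) = E w) ∧ (∀ w, H (1, w) = w) ∧ (∀ τ, H (τ, cpt 0) = cpt 0) ∧
    ∀ (τ s : I), H (τ, cpt s) = cpt ((1 - (τ : ℝ)) * u s + τ * s)

/-- PHX. Arc length parametrisation of `X` (uses T_HSC). `c₀ = 2π / (2π + L)`. PROOF. `μH[1]` on the circle part by T_HSC, on the segment part by `hausdorffMeasure_segment` / isometry with an interval of length `L`; the two parts meet in one point, total mass `2π + L`; the parametrisation has constant speed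
`2π + L` on both parts. -/
def T_PHX : Prop := ∀ L : ℝ, 0 < L → ∃ Φ : C(I, XS L), Measure.map Φ (volume : Measure I) = nH (XS L) ∧
  (∀ s : I, (s : ℝ) ≤ 2 * Real.pi / (2 * Real.pi + L) → (Φ s : ℂ) = cpt (s / (2 * Real.pi / (2 * Real.pi + L)))) ∧
  (∀ s : I, 2 * Real.pi / (2 * Real.pi + L) ≤ (s : ℝ) → (Φ s : ℂ) = 1 + L * ((s - 2 * Real.pi / (2 * Real.pi + L)) / (1 - 2 * Real.pi / (2 * Real.pi + L)) : ℝ))

/-- PWL. Piecewise linear measure preserving maps of the interval, `0 < c < 1`. PROOF. `T s = s` for `s ≤ c`, `T s = c + (1-c) (1 - |2 (s-c)/(1-c) - 1|)` for `s ≥ c` (continuous); `T' s = s / c` for `s ≤ c`, `(s-c)/(1-c)` for `s > c` (measurable). Check on intervals `[0,a]` or by change of variables. -/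
def T_PWL : Prop := ∀ c : ℝ, 0 < c → c < 1 → ∃ (T : C(I, I)) (T' : I → I), Measurable T' ∧ Measure.map T (volume : Measure I) = volume ∧ Measure.map T' (volume : Measure I) = volume ∧
  (∀ s : I, (s : ℝ) ≤ c → T s = s) ∧ (∀ s : I, c ≤ (s : ℝ) → ((T s : I) : ℝ) = c + (1 - c) * (1 - |2 * ((s - c) / (1 - c)) - 1|)) ∧
  (∀ s : I, (s : ℝ) ≤ c → ((T' s : I) : ℝ) = s / c) ∧ (∀ s : I, c < (s : ℝ) → ((T' s : I) : ℝ) = (s - c) / (1 - c))

/-- EQX. The measure preserving homotopy equivalence of `S^1` and `X` (uses T_CIR, T_LFC, T_HTC, T_PHX, T_PWL). PROOF. `c₀` as in T_PHX. On `X` use the continuous coordinates `σ w = max 0 (Re w - 1)` and `P w = w - σ w ∈ S^1` (`σ = 0` on the circle, `P = 1` on the segment). `h₀ s = min (s / c₀) 1`, `tent s = max 0 (1 - |2 (s-c₀)/(1-c₀) - 1|)`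
for `s ≥ c₀`, `0` for `s ≤ c₀`. `F (cpt s) = cpt (h₀ s) + L tent s` (T_LFC), `F ∘ cpt = Φ ∘ T` (T_PWL), so `F_* nH(S^1) = nH(X)`. `G w = P w * e^{2πi σ w / L}`; `G (Φ s) = cpt (T' s)` except at `s = c₀`, so `G_* nH(X) = nH(S^1)`. `G (F (cpt s)) = cpt (h₀ s + tent s)`, `h₀ + tent` minus: define
`u s = h₀ s + tent s` (values in `[0,2]`, `u 0 = 0`, `u 1 = 1`): `G F ≃ id` by `cpt ((1-τ) u s + τ s)` (T_LFC). `id ≃ P` on `X` by `P w + (1-τ) σ w`; in the same way `F G ≃ P ∘ F ∘ G`; `P F G w = E₀ (P w) * cpt (h₀ (σ w / L))` with `E₀ (cpt s) = cpt (h₀ s)` (since `P w = 1` or `σ w = 0`);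
the homotopy `E_τ (P w) * cpt ((1-τ) h₀ (σ w / L))` (T_HTC for `u = h₀`) connects it with `P w`. -/
def T_EQX : Prop := ∀ L : ℝ, 0 < L → ∃ (F : C(S1, XS L)) (G : C(XS L, S1)), Measure.map F (nH (Metric.sphere (0 : ℂ) 1)) = nH (XS L) ∧ Measure.map G (nH (XS L)) = nH (Metric.sphere (0 : ℂ) 1) ∧
  ContinuousMap.Homotopic (ContinuousMap.id (XS L)) (F.comp G) ∧ ContinuousMap.Homotopic (ContinuousMap.id S1) (G.comp F)

/-- PHY. Area preserving parametrisation of the annulus. `R y = sqrt (r₁² + (r₂² - r₁²) y)`. PROOF. Polar coordinates (`Complex.lintegral_comp_polarCoord_symm`, `integral_comp_polarCoord_symm`): for a nonnegative `g`, `∫_Y g = ∫_{r₁}^{r₂} ∫_0^{2π} g(r e^{iθ}) r dθ dr = π (r₂² - r₁²) ∫_0^1 ∫_0^1 g (R y e^{2πi x}) dx dy`. -/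
def T_PHY : Prop := ∀ r₁ r₂ : ℝ, 0 < r₁ → r₁ < r₂ → ∃ Φ : C(I × I, YS r₁ r₂), Measure.map Φ (volume : Measure (I × I)) = nL (YS r₁ r₂) ∧
  ∀ x y : I, (Φ (x, y) : ℂ) = (Real.sqrt (r₁ ^ 2 + (r₂ ^ 2 - r₁ ^ 2) * y) : ℝ) * (cpt x : ℂ)

/-- EQY. The measure preserving homotopy equivalence of `S^1` and `Y` (uses T_CIR, T_LFC, T_HTC, T_PHY, T_HIL). PROOF. `x, y` from T_HIL, `F (cpt s) = Φ (x s, y s)` (T_LFC; `Φ (0,0) = Φ (1,0)`), `F_* nH = (Φ ∘ (x,y))_* λ = Φ_* λ² = nL`. `G w = w / |w|`, `G (Φ (x, y)) = cpt x`, so `G_* nL = cpt_* λ = nH`.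
`G (F (cpt s)) = cpt (x s) ≃ id` (T_HTC). `F G ≃ id` by `H (τ, w) = ((1-τ) |F (G w)| + τ |w|) * E_τ (G w)` with `E_τ` from T_HTC for `u = x` (a convex combination of radii in `[r₁, r₂]`). -/
def T_EQY : Prop := ∀ r₁ r₂ : ℝ, 0 < r₁ → r₁ < r₂ → ∃ (F : C(S1, YS r₁ r₂)) (G : C(YS r₁ r₂, S1)),
  Measure.map F (nH (Metric.sphere (0 : ℂ) 1)) = nL (YS r₁ r₂) ∧ Measure.map G (nL (YS r₁ r₂)) = nH (Metric.sphere (0 : ℂ) 1) ∧
  ContinuousMap.Homotopic (ContinuousMap.id (YS r₁ r₂)) (F.comp G) ∧ ContinuousMap.Homotopic (ContinuousMap.id S1) (G.comp F)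

/-- SPC. The spaces satisfy the hypotheses of T_MNT (uses T_CIR, T_PHX, T_PHY). PROOF. Image measures of probability measures; open sets have nonempty open preimages under the continuous surjective parametrisations, of positive Lebesgue measure; connected as images of connected spaces. -/
def T_SPC : Prop := (ConnectedSpace S1 ∧ IsProbabilityMeasure (nH (Metric.sphere (0 : ℂ) 1)) ∧ (nH (Metric.sphere (0 : ℂ) 1)).IsOpenPosMeasure) ∧
  (∀ L : ℝ, 0 < L → ConnectedSpace (XS L) ∧ IsProbabilityMeasure (nH (XS L)) ∧ (nH (XS L)).IsOpenPosMeasure) ∧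
  ∀ r₁ r₂ : ℝ, 0 < r₁ → r₁ < r₂ → ConnectedSpace (YS r₁ r₂) ∧ IsProbabilityMeasure (nL (YS r₁ r₂)) ∧ (nL (YS r₁ r₂)).IsOpenPosMeasure

/-- FIN. The final theorem (uses T_ZFS, T_MNT, T_EQX, T_EQY, T_SPC). -/
def T_FIN : Prop := ∀ (t : ℝ), Irrational t → ∀ (A A' B B' : Type) [CStarAlgebra A] [CStarAlgebra A'] [CStarAlgebra B] [CStarAlgebra B']
  (ψ : B →L[ℂ] ℂ) (κ : ℕ → ℂ × ℂ →⋆ₐ[ℂ] B) (φ : A →L[ℂ] ℂ) (ι : C(S1, ℂ) →⋆ₐ[ℂ] A) (j : B →⋆ₐ[ℂ] A)
  (ψ' : B' →L[ℂ] ℂ) (κ' : ℕ → ℂ × ℂ →⋆ₐ[ℂ] B'), IsB t ψ κ → IsZB (nH (Metric.sphere (0 : ℂ) 1)) ψ φ ι j → IsB t ψ' κ' →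
  (∀ L : ℝ, 0 < L → ∀ (φ' : A' →L[ℂ] ℂ) (ι' : C(XS L, ℂ) →⋆ₐ[ℂ] A') (j' : B' →⋆ₐ[ℂ] A'), IsZB (nH (XS L)) ψ' φ' ι' j' → Nonempty (A ≃⋆ₐ[ℂ] A')) ∧
  (∀ r₁ r₂ : ℝ, 0 < r₁ → r₁ < r₂ → ∀ (φ' : A' →L[ℂ] ℂ) (ι' : C(YS r₁ r₂, ℂ) →⋆ₐ[ℂ] A') (j' : B' →⋆ₐ[ℂ] A'), IsZB (nL (YS r₁ r₂)) ψ' φ' ι' j' → Nonempty (A ≃⋆ₐ[ℂ] A'))

end Pool.Agent.FPZ
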