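import Pool.Agent.FPZ.Targets1
import Pool.Agent.FPZ.Targets3
import Pool.Agent.FPZ.Targets4
import Pool.Agent.FPZ.Targets5

set_option autoImplicit false

open scoped Classical
open MeasureTheory

noncomputable section

namespace Pool.Agent.FPZ

theorem FI2_comp_measure {X Y W : Type} [TopologicalSpace X] [MeasurableSpace X] [BorelSpace X]
    [TopologicalSpace Y] [MeasurableSpace Y] [BorelSpace Y]
    [TopologicalSpace W] [MeasurableSpace W] [BorelSpace W]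
    (μ : Measure X) (ν : Measure Y) (ρ : Measure W) (F : C(X, Y)) (G : C(Y, W))
    (h1 : Measure.map F μ = ν) (h2 : Measure.map G ν = ρ) : Measure.map (G.comp F) μ = ρ := by
  rw [← h2, ← h1, Measure.map_map G.continuous.measurable F.continuous.measurable]
  rfl

theorem FI2_comp_homotopic {X Y W : Type} [TopologicalSpace X] [TopologicalSpace Y] [TopologicalSpace W]
    (F : C(X, Y)) (G : C(Y, X)) (F' : C(Y, W)) (G' : C(W, Y))
    (h1 : ContinuousMap.Homotopic (ContinuousMap.id X) (G.comp F))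
    (h2 : ContinuousMap.Homotopic (ContinuousMap.id Y) (G'.comp F')) :
    ContinuousMap.Homotopic (ContinuousMap.id X) ((G.comp G').comp (F'.comp F)) := by
  refine h1.trans ?_
  have h3 : ContinuousMap.Homotopic ((G.comp (ContinuousMap.id Y)).comp F) ((G.comp (G'.comp F')).comp F) :=
    ContinuousMap.Homotopic.comp (ContinuousMap.Homotopic.comp (ContinuousMap.Homotopic.refl G) h2)
      (ContinuousMap.Homotopic.refl F)
  exact h3

theorem p_FI2 (h_ZFS : T_ZFS) (h_MNT : T_MNT) (h_EQX : T_EQX) (h_EQY : T_EQY) (h_GEQ : T_GEQ)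
    (h_XSC : T_XSC) (h_GSP : T_GSP) (h_SPC : T_SPC) (h_NHI : T_NHI) (h_YCT : T_YCT) : T_FI2 := by
  intro t hirr A A' B B' _ _ _ _ ψ κ φ ι j ψ' κ' φ' j' hB hZB hB'
  have hFS := h_ZFS _ A B _ t ψ κ φ ι j hB hZB
  obtain ⟨⟨c1, c2, c3⟩, hX, hY⟩ := h_SPC
  have hS1 : nH (Metric.sphere (0 : ℂ) 1) = nHX S1 := h_NHI.1 _ Metric.isClosed_sphere.measurableSet
  rw [hS1] at c2 c3
  refine ⟨?_, ?_⟩
  · intro X _ _ _ _ L c l hL hCS ι' hZB'
    have hFS' := h_ZFS _ A' B' _ t ψ' κ' φ' ι' j' hB' hZB'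
    obtain ⟨F₁, G₁, hF₁, hG₁, h1, h2⟩ := h_EQX L hL
    obtain ⟨c', l', hCS'⟩ := h_XSC L hL
    obtain ⟨F₂, G₂, hF₂, hG₂, h3, h4⟩ := h_GEQ X (XS L) L c l c' l' hL hCS hCS'
    have hXS : nH (XS L) = nHX (XS L) :=
      h_NHI.1 _ (isCompact_iff_compactSpace.mpr (XS_compact L)).isClosed.measurableSet
    rw [hS1, hXS] at hF₁ hG₁
    obtain ⟨d1, d2, d3⟩ := h_GSP X L c l hL hCS
    exact h_MNT S1 X A A' (nHX S1) (nHX X) t φ ι _ φ' ι' _ (G₁.comp G₂) (F₂.comp F₁) hFS hFS' hirr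
      (FI2_comp_measure _ _ _ _ _ hG₂ hG₁) (FI2_comp_measure _ _ _ _ _ hF₁ hF₂)
      (FI2_comp_homotopic _ _ _ _ h2 h4) (FI2_comp_homotopic _ _ _ _ h3 h1)
  · intro c r₁ r₂ hr hr' ι' hZB'
    have hFS' := h_ZFS _ A' B' _ t ψ' κ' φ' ι' j' hB' hZB'
    obtain ⟨F₁, G₁, hF₁, hG₁, h1, h2⟩ := h_EQY r₁ r₂ hr hr'
    rw [hS1] at hF₁ hG₁
    obtain ⟨d1, d2, d3⟩ := hY r₁ r₂ hr hr'
    obtain ⟨e, he⟩ := h_YCT c r₁ r₂ hr hr'
    have he' : Measure.map (e.symm) (nL (YC c r₁ r₂)) = nL (YS r₁ r₂) := by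
      rw [← he, Measure.map_map e.symm.continuous.measurable e.continuous.measurable]
      have : (e.symm : YC c r₁ r₂ → YS r₁ r₂) ∘ e = id := by
        funext x; simp
      rw [this, Measure.map_id]
    have e1 : ConnectedSpace (YC c r₁ r₂) := by
      exact e.surjective.connectedSpace e.continuous
    have e2 : IsProbabilityMeasure (nL (YC c r₁ r₂)) := by
      rw [← he]
      exact Measure.isProbabilityMeasure_map e.continuous.measurable.aemeasurable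
    have e3 : (nL (YC c r₁ r₂)).IsOpenPosMeasure := by
      rw [← he]
      refine ⟨fun U hU hne => ?_⟩
      rw [Measure.map_apply e.continuous.measurable hU.measurableSet]
      exact ((hU.preimage e.continuous).measure_ne_zero _ (hne.preimage e.surjective))
    have h3 : ContinuousMap.Homotopic (ContinuousMap.id (YS r₁ r₂))
        ((⟨e.symm, e.symm.continuous⟩ : C(YC c r₁ r₂, YS r₁ r₂)).comp (⟨e, e.continuous⟩ : C(YS r₁ r₂, YC c r₁ r₂))) := by
      have : (⟨e.symm, e.symm.continuous⟩ : C(YC c r₁ r₂, YS r₁ r₂)).comp (⟨e, e.continuous⟩ : C(YS r₁ r₂, YC c r₁ r₂)) =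
          ContinuousMap.id _ := by
        ext x; simp
      rw [this]
    have h4 : ContinuousMap.Homotopic (ContinuousMap.id (YC c r₁ r₂))
        ((⟨e, e.continuous⟩ : C(YS r₁ r₂, YC c r₁ r₂)).comp (⟨e.symm, e.symm.continuous⟩ : C(YC c r₁ r₂, YS r₁ r₂))) := by
      have : (⟨e, e.continuous⟩ : C(YS r₁ r₂, YC c r₁ r₂)).comp (⟨e.symm, e.symm.continuous⟩ : C(YC c r₁ r₂, YS r₁ r₂)) =
          ContinuousMap.id _ := by
        ext x; simp
      rw [this]
    exact h_MNT S1 (YC c r₁ r₂) A A' (nHX S1) (nL (YC c r₁ r₂)) t φ ι _ φ' ι' _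
      (G₁.comp ⟨e.symm, e.symm.continuous⟩) ((⟨e, e.continuous⟩ : C(YS r₁ r₂, YC c r₁ r₂)).comp F₁) hFS hFS' hirr
      (FI2_comp_measure _ _ _ _ _ he' hG₁) (FI2_comp_measure _ _ _ _ _ hF₁ he)
      (FI2_comp_homotopic _ _ _ _ h2 h3) (FI2_comp_homotopic _ _ _ _ h4 h1)

end Pool.Agent.FPZ
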