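import Pool.Agent.FPZ.Targets1
import Pool.Agent.FPZ.Targets3
import Pool.Agent.FPZ.Targets4

set_option autoImplicit false

open scoped Classical
open MeasureTheory

noncomputable section

namespace Pool.Agent.FPZ

theorem p_FIN (h_ZFS : T_ZFS) (h_MNT : T_MNT) (h_EQX : T_EQX) (h_EQY : T_EQY) (h_SPC : T_SPC) : T_FIN := by
  intro t hirr A A' B B' _ _ _ _ ψ κ φ ι j ψ' κ' hB hZB hB'
  have hFS := h_ZFS _ A B _ t ψ κ φ ι j hB hZB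
  obtain ⟨⟨c1, c2, c3⟩, hX, hY⟩ := h_SPC
  refine ⟨?_, ?_⟩
  · intro L hL φ' ι' j' hZB'
    obtain ⟨d1, d2, d3⟩ := hX L hL
    have hFS' := h_ZFS _ A' B' _ t ψ' κ' φ' ι' j' hB' hZB'
    obtain ⟨F, G, hF, hG, h1, h2⟩ := h_EQX L hL
    exact h_MNT S1 (XS L) A A' _ _ t φ ι _ φ' ι' _ G F hFS hFS' hirr hG hF h2 h1
  · intro r₁ r₂ hr hr' φ' ι' j' hZB'
    obtain ⟨d1, d2, d3⟩ := hY r₁ r₂ hr hr'
    have hFS' := h_ZFS _ A' B' _ t ψ' κ' φ' ι' j' hB' hZB'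
    obtain ⟨F, G, hF, hG, h1, h2⟩ := h_EQY r₁ r₂ hr hr'
    exact h_MNT S1 (YS r₁ r₂) A A' _ _ t φ ι _ φ' ι' _ G F hFS hFS' hirr hG hF h2 h1

end Pool.Agent.FPZ
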