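import Pool.Agent.FPZ.Targets5

/-!
# FPZ, FOL: folding maps of an interval
-/

set_option autoImplicit false

open scoped Classical unitInterval
open MeasureTheory

noncomputable section

namespace Pool.Agent.FPZ

namespace FOL_

theorem vL_image (L : ℝ) (t : Set (Set.Icc (0 : ℝ) L)) :
    vL L t = (volume : Measure ℝ) ((↑) '' t) := by
  unfold vL
  exact comap_subtype_coe_apply measurableSet_Icc volume t

theorem vL_fin (L : ℝ) : IsFiniteMeasure (vL L) := by
  refine ⟨?_⟩
  rw [vL_image]
  have h1 : ((↑) '' (Set.univ : Set (Set.Icc (0 : ℝ) L)) : Set ℝ) = Set.Icc 0 L := by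
    rw [Set.image_univ, Subtype.range_coe]
  rw [h1, Real.volume_Icc]
  exact ENNReal.ofReal_lt_top

/-- a map whose sublevel sets are intervals of the right length preserves the measure -/
theorem mp (L : ℝ) (h : C(Set.Icc (0 : ℝ) L, Set.Icc (0 : ℝ) L))
    (H : ∀ a : ℝ, 0 ≤ a → a ≤ L → ∃ lo hi : ℝ, hi - lo = a ∧ 0 ≤ lo ∧ hi ≤ L ∧
      ∀ s : Set.Icc (0 : ℝ) L, ((h s : ℝ) ≤ a ↔ lo ≤ s ∧ (s : ℝ) ≤ hi)) :
    Measure.map h (vL L) = vL L := by
  have := vL_fin L
  refine Measure.ext_of_Iic _ _ fun a => ?_
  rw [Measure.map_apply h.continuous.measurable measurableSet_Iic, vL_image, vL_image]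
  obtain ⟨lo, hi, h1, h2, h3, h4⟩ := H a a.2.1 a.2.2
  have e1 : ((↑) '' (h ⁻¹' Set.Iic a) : Set ℝ) = Set.Icc lo hi := by
    ext x
    constructor
    · rintro ⟨s, hs, rfl⟩
      exact (h4 s).1 hs
    · rintro ⟨hx1, hx2⟩
      exact ⟨⟨x, h2.trans hx1, hx2.trans h3⟩, (h4 _).2 ⟨hx1, hx2⟩, rfl⟩
  have e2 : ((↑) '' (Set.Iic a) : Set ℝ) = Set.Icc 0 (a : ℝ) := by
    ext x
    constructor
    · rintro ⟨s, hs, rfl⟩
      exact ⟨s.2.1, hs⟩
    · rintro ⟨hx1, hx2⟩
      exact ⟨⟨x, hx1, hx2.trans a.2.2⟩, hx2, rfl⟩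
  rw [e1, e2, Real.volume_Icc, Real.volume_Icc, h1, sub_zero]

end FOL_

open FOL_

theorem p_FOL : T_FOL := by
  intro L s₀ z₀ hL hz
  obtain ⟨t, ht0, htL⟩ := s₀
  -- the first map
  have hf0 : ∀ s : Set.Icc (0 : ℝ) L,
      |2 * min (s : ℝ) t - t| + (max (s : ℝ) t - t) ∈ Set.Icc (0 : ℝ) L := by
    rintro ⟨s, hs0, hsL⟩
    constructor
    · have h1 := le_max_right s t
      have h2 := abs_nonneg (2 * min s t - t)
      show 0 ≤ |2 * min s t - t| + (max s t - t)
      linarith
    · show |2 * min s t - t| + (max s t - t) ≤ L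
      rcases le_total s t with h | h
      · rw [min_eq_left h, max_eq_right h, sub_self, add_zero, abs_le]
        constructor <;> linarith
      · rw [min_eq_right h, max_eq_left h, show 2 * t - t = t by ring, abs_of_nonneg ht0]
        linarith
  let f : C(Set.Icc (0 : ℝ) L, Set.Icc (0 : ℝ) L) :=
    ⟨fun s => ⟨_, hf0 s⟩, by fun_prop⟩
  -- the second map
  obtain ⟨g, hg1, hg2⟩ : ∃ g : C(Set.Icc (0 : ℝ) L, Set.Icc (0 : ℝ) L),
      (∀ a : ℝ, 0 ≤ a → a ≤ L → ∀ s : Set.Icc (0 : ℝ) L,
        ((g s : ℝ) ≤ a ↔ t - a * t / L ≤ s ∧ (s : ℝ) ≤ t + a * (L - t) / L)) ∧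
      (g ⟨t, ht0, htL⟩ : ℝ) = 0 := by
    rcases eq_or_lt_of_le ht0 with h0 | h0
    · subst h0
      refine ⟨ContinuousMap.id _, ?_, rfl⟩
      rintro a ha0 haL ⟨s, hs0, hsL⟩
      show s ≤ a ↔ _ ≤ s ∧ s ≤ _
      have e : (0 : ℝ) + a * (L - 0) / L = a := by field_simp; ring
      rw [e]
      constructor
      · intro h
        refine ⟨by simpa using hs0, h⟩
      · intro h
        exact h.2
    · rcases eq_or_lt_of_le htL with h1 | h1
      · subst h1
        refine ⟨⟨fun s => ⟨t - s, by linarith [s.2.2], by linarith [s.2.1]⟩, by fun_prop⟩, ?_, ?_⟩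
        · rintro a ha0 haL ⟨s, hs0, hsL⟩
          show t - s ≤ a ↔ _ ≤ s ∧ s ≤ _
          have e : a * t / t = a := by field_simp
          rw [e, sub_self, mul_zero, zero_div, add_zero]
          constructor
          · intro h
            exact ⟨by linarith, hsL⟩
          · intro h
            linarith [h.1]
        · show t - t = 0
          ring
      · have hLt : 0 < L - t := by linarith
        have hg0 : ∀ s : Set.Icc (0 : ℝ) L,
            max (L * ((s : ℝ) - t) / (L - t)) (L * (t - s) / t) ∈ Set.Icc (0 : ℝ) L := by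
          rintro ⟨s, hs0, hsL⟩
          constructor
          · rcases le_total s t with h | h
            · exact le_max_of_le_right (div_nonneg (mul_nonneg hL.le (by
                show 0 ≤ t - s
                linarith)) h0.le)
            · exact le_max_of_le_left (div_nonneg (mul_nonneg hL.le (by
                show 0 ≤ s - t
                linarith)) hLt.le)
          · refine max_le ?_ ?_
            · show L * (s - t) / (L - t) ≤ L
              rw [div_le_iff₀ hLt]
              exact mul_le_mul_of_nonneg_left (by linarith) hL.le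
            · show L * (t - s) / t ≤ L
              rw [div_le_iff₀ h0]
              exact mul_le_mul_of_nonneg_left (by linarith) hL.le
        refine ⟨⟨fun s => ⟨_, hg0 s⟩, by fun_prop⟩, ?_, ?_⟩
        · rintro a ha0 haL ⟨s, hs0, hsL⟩
          show max (L * (s - t) / (L - t)) (L * (t - s) / t) ≤ a ↔ _ ≤ s ∧ s ≤ _
          rw [max_le_iff, div_le_iff₀ hLt, div_le_iff₀ h0]
          have e1 : L * (s - t) ≤ a * (L - t) ↔ s ≤ t + a * (L - t) / L := by
            rw [← sub_le_iff_le_add', le_div_iff₀ hL, mul_comm]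
          have e2 : L * (t - s) ≤ a * t ↔ t - a * t / L ≤ s := by
            rw [sub_le_comm, le_div_iff₀ hL, mul_comm]
          rw [e1, e2, and_comm]
        · show max (L * (t - t) / (L - t)) (L * (t - t) / t) = 0
          simp
  refine ⟨f, g, ?_, ?_, ?_, ?_⟩
  · apply Subtype.ext
    show |2 * min (z₀ : ℝ) t - t| + (max (z₀ : ℝ) t - t) = t
    rw [hz, min_eq_left ht0, max_eq_right ht0, mul_zero, zero_sub, abs_neg, abs_of_nonneg ht0]
    ring
  · apply Subtype.ext
    rw [hg2, hz]
  · refine mp L f fun a ha0 haL => ?_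
    rcases le_total a t with h | h
    · refine ⟨(t - a) / 2, (t + a) / 2, by ring, by linarith, by linarith, ?_⟩
      rintro ⟨s, hs0, hsL⟩
      show |2 * min s t - t| + (max s t - t) ≤ a ↔ _ ≤ s ∧ s ≤ _
      rcases le_total s t with h' | h'
      · rw [min_eq_left h', max_eq_right h', sub_self, add_zero, abs_le]
        constructor
        · rintro ⟨h1, h2⟩
          constructor <;> linarith
        · rintro ⟨h1, h2⟩
          constructor <;> linarith
      · rw [min_eq_right h', max_eq_left h', show 2 * t - t = t by ring, abs_of_nonneg ht0]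
        constructor
        · intro h1
          constructor <;> linarith
        · rintro ⟨h1, h2⟩
          linarith
    · refine ⟨0, a, by ring, le_rfl, haL, ?_⟩
      rintro ⟨s, hs0, hsL⟩
      show |2 * min s t - t| + (max s t - t) ≤ a ↔ _ ≤ s ∧ s ≤ _
      rcases le_total s t with h' | h'
      · rw [min_eq_left h', max_eq_right h', sub_self, add_zero, abs_le]
        constructor
        · rintro ⟨h1, h2⟩
          constructor <;> linarith
        · rintro ⟨h1, h2⟩
          constructor <;> linarith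
      · rw [min_eq_right h', max_eq_left h', show 2 * t - t = t by ring, abs_of_nonneg ht0]
        constructor
        · intro h1
          constructor <;> linarith
        · rintro ⟨h1, h2⟩
          linarith
  · refine mp L g fun a ha0 haL => ?_
    refine ⟨t - a * t / L, t + a * (L - t) / L, ?_, ?_, ?_, hg1 a ha0 haL⟩
    · field_simp
      ring
    · rw [sub_nonneg, div_le_iff₀ hL, mul_comm]
      exact mul_le_mul_of_nonneg_left haL ht0
    · have h1 : a * (L - t) / L ≤ L - t := by
        rw [div_le_iff₀ hL, mul_comm]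
        exact mul_le_mul_of_nonneg_left haL (by linarith)
      linarith

end Pool.Agent.FPZ
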