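import Pool.Agent.FPZ.Targets1

/-!
# FPZ: freeness of two `EA` blocks
-/

set_option autoImplicit false

namespace Pool.Agent.FPZ

namespace FRE_

theorem cal_mono {A : Type} [CStarAlgebra A] {T T' : Set A} (h : T ⊆ T') : cal T ≤ cal T' :=
  StarSubalgebra.topologicalClosure_mono (StarAlgebra.adjoin_mono h)

theorem EA_le_GA {Z A : Type} [TopologicalSpace Z] [CompactSpace Z] [CStarAlgebra A]
    (ι : C(Z, ℂ) →⋆ₐ[ℂ] A) (κ : ℕ → ℂ × ℂ →⋆ₐ[ℂ] A) (J : Set ℕ) : EA κ J ≤ GA ι κ J :=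
  cal_mono Set.subset_union_right

theorem EA_mono {A : Type} [CStarAlgebra A] (κ : ℕ → ℂ × ℂ →⋆ₐ[ℂ] A) {J J' : Set ℕ}
    (h : J ⊆ J') : EA κ J ≤ EA κ J' :=
  cal_mono (Set.biUnion_subset_biUnion_left h)

theorem free_mono {I R : Type} [Monoid R] {f : R → ℂ} {S S' : I → Set R}
    (h : ∀ i, S i ⊆ S' i) (hS : Free f S') : Free f S :=
  fun l hl hc hm => hS l hl hc fun x hx => ⟨h _ (hm x hx).1, (hm x hx).2⟩

end FRE_

theorem p_FRE (h_FRG : T_FRG) : T_FRE := by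
  intro Z A _ _ _ _ μ t φ ι κ J J' hFS hJ
  refine FRE_.free_mono ?_ (h_FRG Z A μ t φ ι κ J hFS)
  intro b
  cases b with
  | true => exact fun x hx => FRE_.EA_le_GA ι κ J hx
  | false => exact fun x hx => FRE_.EA_mono κ hJ.subset_compl_left hx

end Pool.Agent.FPZ
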