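import Pool.Agent.FPZ.Targets1

set_option autoImplicit false

/-!
# FPZ: target FRG (freeness of the blocks GA, EA)
-/

open scoped Classical
open MeasureTheory

noncomputable section

namespace Pool.Agent.FPZ

namespace FRG_

/-- subsets of free sets are free -/
theorem mono {I R : Type} [Monoid R] {f : R → ℂ} {S S' : I → Set R} (h : ∀ i, S' i ⊆ S i)
    (hf : Free f S) : Free f S' := fun l hl hc hx =>
  hf l hl hc fun x hxl => ⟨h _ (hx x hxl).1, (hx x hxl).2⟩

/-- the star algebra generated by a star closed set contained in a subalgebra -/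
theorem adjoin_sub {A : Type} [CStarAlgebra A] {s : Set A} (hs : ∀ x ∈ s, star x ∈ s)
    {T : Subalgebra ℂ A} (hT : s ⊆ (T : Set A)) :
    ((StarAlgebra.adjoin ℂ s : StarSubalgebra ℂ A) : Set A) ⊆ (T : Set A) := by
  intro x hx
  have h1 : x ∈ (StarAlgebra.adjoin ℂ s).toSubalgebra := hx
  rw [StarAlgebra.adjoin_toSubalgebra] at h1
  refine (Algebra.adjoin_le (S := T) ?_) h1
  rintro y (hy | hy)
  · exact hT hy
  · have h2 : star (star y) ∈ s := hs _ hy
    rw [star_star] at h2
    exact hT h2

theorem star_range {C A : Type} [CStarAlgebra A] [Ring C] [StarRing C] [Algebra ℂ C]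
    (j : C →⋆ₐ[ℂ] A) : ∀ x ∈ Set.range j, star x ∈ Set.range j := by
  rintro _ ⟨c, rfl⟩
  exact ⟨star c, map_star j c⟩

end FRG_

open FRG_ in
theorem p_FRG (h_GRP : T_GRP) (h_CLO : T_CLO) : T_FRG := by
  intro Z A _ _ _ _ μ t φ ι κ J hFS
  set S : Option ℕ → Subalgebra ℂ A := fun o =>
    o.elim ι.range.toSubalgebra (fun i => (κ i).range.toSubalgebra) with hS
  set J' : Set (Option ℕ) := {o | o.elim True (fun i => i ∈ J)} with hJ'
  have hfree : Free (φ : A →ₗ[ℂ] ℂ) (fun i => (S i : Set A)) := by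
    refine mono (fun i => ?_) hFS.free
    rcases i with _ | i
    · exact fun x hx => hx
    · exact fun x hx => hx
  have hg := h_GRP (Option ℕ) A (φ : A →ₗ[ℂ] ℂ) S J' hFS.ts.one hfree
  set T : Bool → StarSubalgebra ℂ A := fun b =>
    bif b then StarAlgebra.adjoin ℂ (Set.range ι ∪ ⋃ i ∈ J, Set.range (κ i))
    else StarAlgebra.adjoin ℂ (⋃ i ∈ Jᶜ, Set.range (κ i)) with hT
  have hsub : ∀ b : Bool, (T b : Set A) ⊆
      (bif b then ((⨆ i ∈ J', S i : Subalgebra ℂ A) : Set A)
        else ((⨆ i ∈ J'ᶜ, S i : Subalgebra ℂ A) : Set A)) := by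
    intro b
    rcases b with _ | _
    · refine adjoin_sub ?_ ?_
      · intro x hx
        simp only [Set.mem_iUnion] at hx ⊢
        obtain ⟨i, hi, hx⟩ := hx
        exact ⟨i, hi, star_range (κ i) x hx⟩
      · intro x hx
        simp only [Set.mem_iUnion] at hx
        obtain ⟨i, hi, hx⟩ := hx
        have h1 : S (some i) ≤ ⨆ i ∈ J'ᶜ, S i :=
          le_iSup₂_of_le (some i) (show some i ∈ J'ᶜ from hi) le_rfl
        exact h1 hx
    · refine adjoin_sub ?_ ?_
      · rintro x (hx | hx)
        · exact Or.inl (star_range ι x hx)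
        · refine Or.inr ?_
          simp only [Set.mem_iUnion] at hx ⊢
          obtain ⟨i, hi, hx⟩ := hx
          exact ⟨i, hi, star_range (κ i) x hx⟩
      · rintro x (hx | hx)
        · have h1 : S none ≤ ⨆ i ∈ J', S i :=
            le_iSup₂_of_le none (show none ∈ J' from trivial) le_rfl
          exact h1 hx
        · simp only [Set.mem_iUnion] at hx
          obtain ⟨i, hi, hx⟩ := hx
          have h1 : S (some i) ≤ ⨆ i ∈ J', S i :=
            le_iSup₂_of_le (some i) (show some i ∈ J' from hi) le_rfl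
          exact h1 hx
  have hc := h_CLO Bool A φ T hFS.ts.one (mono hsub hg)
  refine mono (fun b => ?_) hc
  rcases b with _ | _
  · exact fun x hx => hx
  · exact fun x hx => hx

end Pool.Agent.FPZ
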