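import Pool.Agent.FPZ.Targets5

set_option autoImplicit false

/-!
# FPZ: GEQ, equivalence of two positions of the segment
-/

open scoped Classical unitInterval
open MeasureTheory

noncomputable section

namespace Pool.Agent.FPZ

namespace GEQ_

/-- Multiplication by a point of the circle. -/
def rot (a : S1) : C(S1, S1) where
  toFun z := ⟨(a : ℂ) * (z : ℂ), by
    rw [mem_sphere_zero_iff_norm, norm_mul, mem_sphere_zero_iff_norm.mp a.2,
      mem_sphere_zero_iff_norm.mp z.2, one_mul]⟩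
  continuous_toFun := Continuous.subtype_mk (continuous_const.mul continuous_subtype_val) _

lemma rot_coe (a z : S1) : ((rot a z : S1) : ℂ) = (a : ℂ) * (z : ℂ) := rfl

/-- The inverse of a point of the circle. -/
def inv1 (a : S1) : S1 := ⟨(a : ℂ)⁻¹, by
  rw [mem_sphere_zero_iff_norm, norm_inv, mem_sphere_zero_iff_norm.mp a.2, inv_one]⟩

lemma ne0 (a : S1) : (a : ℂ) ≠ 0 := by
  have h : ‖(a : ℂ)‖ = 1 := mem_sphere_zero_iff_norm.mp a.2
  intro h0
  rw [h0, norm_zero] at h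
  exact zero_ne_one h

lemma rot_inv (a z : S1) : rot a (rot (inv1 a) z) = z := by
  apply Subtype.ext
  rw [rot_coe, rot_coe]
  change (a : ℂ) * ((a : ℂ)⁻¹ * (z : ℂ)) = z
  rw [← mul_assoc, mul_inv_cancel₀ (ne0 a), one_mul]

lemma inv_rot (a z : S1) : rot (inv1 a) (rot a z) = z := by
  apply Subtype.ext
  rw [rot_coe, rot_coe]
  change (a : ℂ)⁻¹ * ((a : ℂ) * (z : ℂ)) = z
  rw [← mul_assoc, inv_mul_cancel₀ (ne0 a), one_mul]

lemma rot_iso (a : S1) : Isometry (rot a) := by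
  refine Isometry.of_dist_eq fun z w => ?_
  rw [Subtype.dist_eq, Subtype.dist_eq, rot_coe, rot_coe, dist_eq_norm, dist_eq_norm, ← mul_sub,
    norm_mul, mem_sphere_zero_iff_norm.mp a.2, one_mul]

lemma rot_map (a : S1) : Measure.map (rot a) (Measure.hausdorffMeasure 1 : Measure S1) =
    (Measure.hausdorffMeasure 1 : Measure S1) := by
  have h := (rot_iso a).map_hausdorffMeasure (d := 1) (Or.inl zero_le_one)
  have hs : Set.range (rot a) = Set.univ :=
    Set.range_eq_univ.mpr fun z => ⟨rot (inv1 a) z, rot_inv a z⟩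
  rw [hs, Measure.restrict_univ] at h
  exact h

/-- The pasted map and its measure. -/
lemma mk_map (h_GLU : T_GLU) (h_MSX : T_MSX) (X X' : Type) [MetricSpace X] [MeasurableSpace X]
    [BorelSpace X] [MetricSpace X'] [MeasurableSpace X'] [BorelSpace X'] (L : ℝ)
    (c : S1 → X) (l : Set.Icc (0 : ℝ) L → X) (c' : S1 → X') (l' : Set.Icc (0 : ℝ) L → X')
    (hX : CS X L c l) (hX' : CS X' L c' l') (ζ : S1) (s : Set.Icc (0 : ℝ) L) (hs : c ζ = l s)
    (a : S1) (h : C(Set.Icc (0 : ℝ) L, Set.Icc (0 : ℝ) L)) (hh : c' (rot a ζ) = l' (h s))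
    (hm : Measure.map h (vL L) = vL L) :
    ∃ G : C(X, X'), (∀ z, G (c z) = c' (rot a z)) ∧ (∀ t, G (l t) = l' (h t)) ∧
      Measure.map G (nHX X) = nHX X' := by
  have cc' := hX'.isoc.continuous
  have cl' := hX'.isol.continuous
  obtain ⟨U, hU1, hU2⟩ := h_GLU X L c l hX X' Unit
    ⟨fun q => c' (rot a q.2), cc'.comp ((rot a).continuous.comp continuous_snd)⟩
    ⟨fun q => l' (h q.2), cl'.comp (h.continuous.comp continuous_snd)⟩ ζ s hs (fun _ => hh)
  obtain ⟨G, hG⟩ : ∃ G : C(X, X'), ∀ x, G x = U ((), x) :=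
    ⟨⟨fun x => U ((), x), U.continuous.comp (continuous_const.prodMk continuous_id)⟩, fun _ => rfl⟩
  have g1 : ∀ z, G (c z) = c' (rot a z) := fun z => by rw [hG]; exact hU1 () z
  have g2 : ∀ t, G (l t) = l' (h t) := fun t => by rw [hG]; exact hU2 () t
  have mc : Measurable c := hX.isoc.continuous.measurable
  have ml : Measurable l := hX.isol.continuous.measurable
  have mc' : Measurable c' := cc'.measurable
  have ml' : Measurable l' := cl'.measurable
  have mG : Measurable G := G.continuous.measurable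
  have e1 : (G ∘ c) = c' ∘ rot a := funext g1
  have e2 : (G ∘ l) = l' ∘ h := funext g2
  have key : Measure.map G (Measure.hausdorffMeasure 1 : Measure X) =
      (Measure.hausdorffMeasure 1 : Measure X') := by
    rw [h_MSX X L c l hX, h_MSX X' L c' l' hX', Measure.map_add _ _ mG,
      Measure.map_map mG mc, Measure.map_map mG ml, e1, e2,
      ← Measure.map_map mc' (rot a).continuous.measurable,
      ← Measure.map_map ml' h.continuous.measurable, rot_map, hm]
  have hmass : (Measure.hausdorffMeasure 1 : Measure X') Set.univ =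
      (Measure.hausdorffMeasure 1 : Measure X) Set.univ := by
    rw [← key, Measure.map_apply mG MeasurableSet.univ, Set.preimage_univ]
  refine ⟨G, g1, g2, ?_⟩
  unfold nHX
  rw [Measure.map_smul, key, hmass]

/-- A self map that is the identity on the circle and preserves the segment is homotopic to the
identity. -/
lemma hom_id (h_GLU : T_GLU) (X : Type) [MetricSpace X] (L : ℝ)
    (c : S1 → X) (l : Set.Icc (0 : ℝ) L → X) (hX : CS X L c l) (K : C(X, X))
    (h1 : ∀ z, K (c z) = c z) (h2 : ∀ s, ∃ t, K (l s) = l t) :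
    ContinuousMap.Homotopic (ContinuousMap.id X) K := by
  obtain ⟨x, hx⟩ := hX.inter
  have hx' : x ∈ Set.range c ∩ Set.range l := by rw [hx]; exact rfl
  obtain ⟨⟨ζ, hζ⟩, ⟨s, hs⟩⟩ := hx'
  have hcs : c ζ = l s := by rw [hζ, hs]
  have hmem : ∀ q : I × Set.Icc (0 : ℝ) L,
      (1 - (q.1 : ℝ)) * (q.2 : ℝ) + (q.1 : ℝ) * (s : ℝ) ∈ Set.Icc (0 : ℝ) L := by
    intro q
    exact (convex_Icc (0 : ℝ) L) q.2.2 s.2 (by linarith [q.1.2.2]) q.1.2.1 (by ring)
  obtain ⟨U, hU1, hU2⟩ := h_GLU X L c l hX X I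
    ⟨fun q => c q.2, hX.isoc.continuous.comp continuous_snd⟩
    ⟨fun q => l ⟨(1 - (q.1 : ℝ)) * (q.2 : ℝ) + (q.1 : ℝ) * (s : ℝ), hmem q⟩,
      hX.isol.continuous.comp (Continuous.subtype_mk (by fun_prop) _)⟩ ζ s hcs (by
      intro p
      change c ζ = l _
      rw [hcs]
      congr 1
      apply Subtype.ext
      change (s : ℝ) = (1 - (p : ℝ)) * (s : ℝ) + (p : ℝ) * (s : ℝ)
      ring)
  have hcov : ∀ y : X, (∃ z, c z = y) ∨ ∃ t, l t = y := by
    intro y
    have hy : y ∈ Set.range c ∪ Set.range l := by rw [hX.cover]; trivial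
    exact hy
  obtain ⟨R, hR⟩ : ∃ R : C(X, X), ∀ y, R y = U (1, y) :=
    ⟨⟨fun y => U (1, y), U.continuous.comp (continuous_const.prodMk continuous_id)⟩, fun _ => rfl⟩
  have R1 : ∀ z, R (c z) = c z := fun z => by rw [hR]; exact hU1 1 z
  have R2 : ∀ t, R (l t) = l s := fun t => by
    rw [hR, hU2]
    change l _ = l s
    congr 1
    apply Subtype.ext
    change (1 - ((1 : I) : ℝ)) * (t : ℝ) + ((1 : I) : ℝ) * (s : ℝ) = s
    have : ((1 : I) : ℝ) = 1 := rfl
    rw [this]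
    ring
  have hid : ContinuousMap.Homotopic (ContinuousMap.id X) R := by
    refine ⟨⟨U, ?_, ?_⟩⟩
    · intro y
      rcases hcov y with ⟨z, rfl⟩ | ⟨t, rfl⟩
      · exact hU1 0 z
      · refine (hU2 0 t).trans ?_
        change l _ = l t
        congr 1
        apply Subtype.ext
        change (1 - ((0 : I) : ℝ)) * (t : ℝ) + ((0 : I) : ℝ) * (s : ℝ) = t
        have : ((0 : I) : ℝ) = 0 := rfl
        rw [this]
        ring
    · intro y
      exact (hR y).symm
  have hRK : R.comp K = R := by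
    ext y
    change R (K y) = R y
    rcases hcov y with ⟨z, rfl⟩ | ⟨t, rfl⟩
    · rw [h1]
    · obtain ⟨t', ht'⟩ := h2 t
      rw [ht', R2, R2]
  have h3 : ContinuousMap.Homotopic ((ContinuousMap.id X).comp K) (R.comp K) :=
    hid.comp (ContinuousMap.Homotopic.refl K)
  rw [hRK, ContinuousMap.id_comp] at h3
  exact hid.trans h3.symm

end GEQ_

open GEQ_ in
/-- GEQ. -/
theorem p_GEQ (h_GLU : T_GLU) (h_MSX : T_MSX) (h_FOL : T_FOL) : T_GEQ := by
  intro X X' _ _ _ _ _ _ L c l c' l' hL hX hX'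
  obtain ⟨x, hx⟩ := hX.inter
  have hx1 : x ∈ Set.range c ∩ Set.range l := by rw [hx]; exact rfl
  obtain ⟨⟨ζ, hζ⟩, ⟨s, hs⟩⟩ := hx1
  have hcs : c ζ = l s := by rw [hζ, hs]
  obtain ⟨x', hx'⟩ := hX'.inter
  have hx1' : x' ∈ Set.range c' ∩ Set.range l' := by rw [hx']; exact rfl
  obtain ⟨⟨ζ', hζ'⟩, ⟨s', hs'⟩⟩ := hx1'
  have hcs' : c' ζ' = l' s' := by rw [hζ', hs']
  obtain ⟨f, g, hf, hg, mf, mg⟩ := h_FOL L s ⟨0, le_refl _, hL.le⟩ hL rfl
  obtain ⟨f', g', hf', hg', mf', mg'⟩ := h_FOL L s' ⟨0, le_refl _, hL.le⟩ hL rfl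
  have m1 : Measure.map (f'.comp g) (vL L) = vL L := by
    rw [ContinuousMap.coe_comp, ← Measure.map_map f'.continuous.measurable g.continuous.measurable,
      mg, mf']
  have m2 : Measure.map (f.comp g') (vL L) = vL L := by
    rw [ContinuousMap.coe_comp, ← Measure.map_map f.continuous.measurable g'.continuous.measurable,
      mg', mf]
  obtain ⟨a, ha⟩ : ∃ a : S1, rot a ζ = ζ' := by
    refine ⟨rot ζ' (inv1 ζ), ?_⟩
    apply Subtype.ext
    rw [rot_coe, rot_coe]
    change (ζ' : ℂ) * (ζ : ℂ)⁻¹ * (ζ : ℂ) = ζ'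
    rw [mul_assoc, inv_mul_cancel₀ (ne0 ζ), mul_one]
  have ha' : rot (inv1 a) ζ' = ζ := by rw [← ha, inv_rot]
  obtain ⟨G, G1, G2, GM⟩ := mk_map h_GLU h_MSX X X' L c l c' l' hX hX' ζ s hcs a (f'.comp g)
    (by rw [ha, hcs', ContinuousMap.comp_apply, hg, hf']) m1
  obtain ⟨F, F1, F2, FM⟩ := mk_map h_GLU h_MSX X' X L c' l' c l hX' hX ζ' s' hcs' (inv1 a)
    (f.comp g') (by rw [ha', hcs, ContinuousMap.comp_apply, hg', hf]) m2
  refine ⟨F, G, FM, GM, ?_, ?_⟩
  · refine hom_id h_GLU X L c l hX (F.comp G) ?_ ?_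
    · intro z
      rw [ContinuousMap.comp_apply, G1, F1, inv_rot]
    · intro t
      exact ⟨_, by rw [ContinuousMap.comp_apply, G2, F2]⟩
  · refine hom_id h_GLU X' L c' l' hX' (G.comp F) ?_ ?_
    · intro z
      rw [ContinuousMap.comp_apply, F1, G1, rot_inv]
    · intro t
      exact ⟨_, by rw [ContinuousMap.comp_apply, F2, G2]⟩

end Pool.Agent.FPZ
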