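import Pool.Agent.FPZ.Targets2

set_option autoImplicit false

/-!
# FPZ: T_GFN, cut-off functions
-/

open MeasureTheory

namespace Pool.Agent.FPZ

theorem p_GFN : T_GFN := by
  intro Z _ _ _ _ μ _ O s hO hs
  rcases lt_or_ge s 0 with h0 | h0
  · refine ⟨0, 0, ?_, ?_, ?_, ?_, ?_⟩
    · intro z; simp
    · intro z; simp
    · intro z; simp
    · intro z _; simp
    · simpa using h0
  have hs' : ENNReal.ofReal s < μ O := by
    rw [ENNReal.ofReal_lt_iff_lt_toReal h0 (measure_ne_top μ O)]
    exact hs
  obtain ⟨K, hKO, hKc, hK⟩ := hO.exists_lt_isCompact hs'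
  obtain ⟨U, hUo, hKU, hUO⟩ := normal_exists_closure_subset hKc.isClosed hO hKO
  obtain ⟨g, hg0, hg1, hg⟩ := exists_continuous_zero_one_of_isClosed (s := Uᶜ) (t := K)
    hUo.isClosed_compl hKc.isClosed (Set.disjoint_compl_left_iff_subset.2 hKU)
  obtain ⟨g', hg0', hg1', hg'⟩ := exists_continuous_zero_one_of_isClosed (s := Oᶜ) (t := closure U)
    hO.isClosed_compl isClosed_closure (Set.disjoint_compl_left_iff_subset.2 hUO)
  refine ⟨g, g', fun z => hg z, fun z => hg' z, ?_, ?_, ?_⟩
  · intro z
    by_cases hz : z ∈ U
    · have := hg1' (subset_closure hz)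
      simp only [Pi.one_apply] at this
      rw [this, one_mul]
    · have := hg0 (Set.mem_compl hz)
      simp only [Pi.zero_apply] at this
      rw [this, mul_zero]
  · intro z hz
    have := hg0' (Set.mem_compl hz)
    simpa using this
  · have hsK : s < (μ K).toReal := by
      rwa [ENNReal.ofReal_lt_iff_lt_toReal h0 (measure_ne_top μ K)] at hK
    refine hsK.trans_le ?_
    have h1 : (μ K).toReal = ∫ z, K.indicator (fun _ => (1 : ℝ)) z ∂μ := by
      rw [integral_indicator_const _ hKc.isClosed.measurableSet]
      simp [Measure.real]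
    rw [h1]
    refine integral_mono ?_ ?_ ?_
    · exact (integrable_const (1 : ℝ)).indicator hKc.isClosed.measurableSet
    · exact (BoundedContinuousFunction.mkOfCompact g).integrable μ
    · intro z
      by_cases hz : z ∈ K
      · simp only [Set.indicator_of_mem hz]
        have := hg1 hz
        simp only [Pi.one_apply] at this
        rw [this]
      · simp only [Set.indicator_of_notMem hz]
        exact (hg z).1

end Pool.Agent.FPZ
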