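import Pool.Agent.FPZ.Targets5

set_option autoImplicit false

/-!
# FPZ, target GLU: pasting maps on the circle with a segment
-/

open scoped Classical unitInterval
open MeasureTheory

noncomputable section

namespace Pool.Agent.FPZ

theorem p_GLU : T_GLU := by
  intro X _ L c l hCS W P _ _ u v ζ₀ s₀ h0 huv
  obtain ⟨hc, hl, hcov, x₀, hx₀⟩ := hCS
  have hmeet : ∀ z s, c z = l s → z = ζ₀ ∧ s = s₀ := by
    intro z s h
    have h1 : c z ∈ Set.range c ∩ Set.range l := ⟨⟨z, rfl⟩, ⟨s, h.symm⟩⟩
    have h2 : c ζ₀ ∈ Set.range c ∩ Set.range l := ⟨⟨ζ₀, rfl⟩, ⟨s₀, h0.symm⟩⟩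
    rw [hx₀, Set.mem_singleton_iff] at h1 h2
    refine ⟨hc.injective (h1.trans h2.symm), hl.injective ?_⟩
    rw [← h, ← h0, h1, h2]
  have hl' : ∀ x, x ∉ Set.range c → x ∈ Set.range l := by
    intro x hx
    have h1 : x ∈ Set.range c ∪ Set.range l := by
      rw [hcov]
      trivial
    exact h1.resolve_left hx
  let Uf : P × X → W := fun q =>
    if h : q.2 ∈ Set.range c then u (q.1, Classical.choose h)
    else v (q.1, Classical.choose (hl' q.2 h))
  have hUc : ∀ p z, Uf (p, c z) = u (p, z) := by
    intro p z
    have hz : c z ∈ Set.range c := ⟨z, rfl⟩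
    have h1 : Classical.choose hz = z := hc.injective (Classical.choose_spec hz)
    show (if h : c z ∈ Set.range c then u (p, Classical.choose h)
      else v (p, Classical.choose (hl' (c z) h))) = u (p, z)
    rw [dif_pos hz, h1]
  have hUl : ∀ p s, Uf (p, l s) = v (p, s) := by
    intro p s
    show (if h : l s ∈ Set.range c then u (p, Classical.choose h)
      else v (p, Classical.choose (hl' (l s) h))) = v (p, s)
    by_cases hs : l s ∈ Set.range c
    · obtain ⟨h1, h2⟩ := hmeet (Classical.choose hs) s (Classical.choose_spec hs)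
      rw [dif_pos hs, h1, h2]
      exact huv p
    · rw [dif_neg hs]
      have h1 : Classical.choose (hl' (l s) hs) = s :=
        hl.injective (Classical.choose_spec (hl' (l s) hs))
      rw [h1]
  have hcc : IsClosedMap (Prod.map (id : P → P) c) :=
    (Topology.IsClosedEmbedding.id.prodMap hc.isClosedEmbedding).isClosedMap
  have hlc : IsClosedMap (Prod.map (id : P → P) l) :=
    (Topology.IsClosedEmbedding.id.prodMap hl.isClosedEmbedding).isClosedMap
  have hcont : Continuous Uf := by
    rw [continuous_iff_isClosed]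
    intro C hC
    have h1 : Uf ⁻¹' C = Prod.map (id : P → P) c '' (u ⁻¹' C) ∪
        Prod.map (id : P → P) l '' (v ⁻¹' C) := by
      ext ⟨p, x⟩
      constructor
      · intro h
        by_cases hx : x ∈ Set.range c
        · obtain ⟨z, rfl⟩ := hx
          left
          refine ⟨(p, z), ?_, rfl⟩
          show u (p, z) ∈ C
          rw [← hUc]
          exact h
        · obtain ⟨s, rfl⟩ := hl' x hx
          right
          refine ⟨(p, s), ?_, rfl⟩
          show v (p, s) ∈ C
          rw [← hUl]
          exact h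
      · rintro (⟨⟨p', z⟩, h, he⟩ | ⟨⟨p', s⟩, h, he⟩)
        · rw [← he]
          show Uf (p', c z) ∈ C
          rw [hUc]
          exact h
        · rw [← he]
          show Uf (p', l s) ∈ C
          rw [hUl]
          exact h
    rw [h1]
    exact (hcc _ (hC.preimage u.continuous)).union (hlc _ (hC.preimage v.continuous))
  exact ⟨⟨Uf, hcont⟩, hUc, hUl⟩

end Pool.Agent.FPZ
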