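import Pool.Agent.FPZ.Targets1

set_option autoImplicit false

/-!
# FPZ (MP_32d866_an): grouping a free family in two blocks (T_GRP)
-/

open scoped Classical
open MeasureTheory

noncomputable section

namespace Pool.Agent.FPZ

namespace GRP_

/-- The set of indices of the block `b`. -/
def K {I : Type} (J : Set I) (b : Bool) : Set I := bif b then J else Jᶜ

/-- Reduced words with all letters in the block `b`. -/
def Wb {I R : Type} [Monoid R] (f : R → ℂ) (S : I → Set R) (J : Set I) (b : Bool) : Set R :=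
  {w | ∃ l : List (I × R), l ≠ [] ∧ l.IsChain (fun x y => x.1 ≠ y.1) ∧
    (∀ x ∈ l, x.1 ∈ K J b) ∧ (∀ x ∈ l, x.2 ∈ S x.1 ∧ f x.2 = 0) ∧ w = (l.map Prod.snd).prod}

/-- Reduced words whose first letter is in the block `b`. -/
def Wf {I R : Type} [Monoid R] (f : R → ℂ) (S : I → Set R) (J : Set I) (b : Bool) : Set R :=
  {w | ∃ l : List (I × R), l ≠ [] ∧ l.IsChain (fun x y => x.1 ≠ y.1) ∧
    (∀ x ∈ l.head?, x.1 ∈ K J b) ∧ (∀ x ∈ l, x.2 ∈ S x.1 ∧ f x.2 = 0) ∧
      w = (l.map Prod.snd).prod}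

lemma Wb_sub {I R : Type} [Monoid R] (f : R → ℂ) (S : I → Set R) (J : Set I) (b : Bool) :
    Wb f S J b ⊆ Wf f S J b := by
  rintro w ⟨l, h1, h2, h3, h4, h5⟩
  exact ⟨l, h1, h2, fun x hx => h3 x (List.mem_of_mem_head? hx), h4, h5⟩

lemma Wb_mul {I R : Type} [Monoid R] (f : R → ℂ) (S : I → Set R) (J : Set I) (b b' : Bool)
    (hb : b ≠ b') {w w' : R} (hw : w ∈ Wb f S J b) (hw' : w' ∈ Wf f S J b') :
    w * w' ∈ Wf f S J b := by
  obtain ⟨l, h1, h2, h3, h4, h5⟩ := hw
  obtain ⟨l', g1, g2, g3, g4, g5⟩ := hw'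
  refine ⟨l ++ l', by simp [h1], ?_, ?_, ?_, ?_⟩
  · rw [List.isChain_append]
    refine ⟨h2, g2, fun x hx y hy hxy => ?_⟩
    have hx' := h3 x (List.mem_of_mem_getLast? hx)
    have hy' := g3 y hy
    rw [hxy] at hx'
    cases b <;> cases b' <;> simp_all [K]
  · intro x hx
    rw [List.head?_append_of_ne_nil l h1] at hx
    exact h3 x (List.mem_of_mem_head? hx)
  · intro x hx
    rcases List.mem_append.mp hx with hx | hx
    · exact h4 x hx
    · exact g4 x hx
  · rw [List.map_append, List.prod_append, h5, g5]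

lemma Wf_zero {I R : Type} [Monoid R] (f : R → ℂ) (S : I → Set R) (J : Set I) (b : Bool)
    (hf : Free f S) {w : R} (hw : w ∈ Wf f S J b) : f w = 0 := by
  obtain ⟨l, h1, h2, _, h4, h5⟩ := hw
  rw [h5]
  exact hf l h1 h2 h4

lemma block (hS : T_SPN) {I R : Type} [Ring R] [Algebra ℂ R] (f : R →ₗ[ℂ] ℂ)
    (S : I → Subalgebra ℂ R) (J : Set I) (h1 : f 1 = 1) (hf : Free f (fun i => (S i : Set R)))
    (b : Bool) (x : R) (hx : x ∈ (⨆ i ∈ K J b, S i : Subalgebra ℂ R)) (h0 : f x = 0) :
    x ∈ Submodule.span ℂ (Wb f (fun i => (S i : Set R)) J b) := by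
  have hx' : x ∈ (⨆ i : ↥(K J b), S i : Subalgebra ℂ R) := by
    rwa [iSup_subtype'']
  have h2 := hS (↥(K J b)) R f (fun i => S i) h1 x hx'
  have hsub : RW f (fun i : ↥(K J b) => (S i : Set R)) ⊆ Wb f (fun i => (S i : Set R)) J b := by
    rintro w ⟨l, g1, g2, g3, g4⟩
    refine ⟨l.map (fun y => ((y.1 : I), y.2)), by simp [g1], ?_, ?_, ?_, ?_⟩
    · rw [List.isChain_map]
      refine g2.imp fun y z hyz h => hyz (Subtype.ext h)
    · intro y hy
      obtain ⟨z, _, rfl⟩ := List.mem_map.mp hy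
      exact z.1.2
    · intro y hy
      obtain ⟨z, hz, rfl⟩ := List.mem_map.mp hy
      exact g3 z hz
    · rw [g4, List.map_map]
      rfl
  rw [Submodule.mem_span_insert] at h2
  obtain ⟨c, y, hy, hxy⟩ := h2
  have hy' := Submodule.span_mono hsub hy
  have hy0 : f y = 0 := by
    have : Submodule.span ℂ (Wb f (fun i => (S i : Set R)) J b) ≤ LinearMap.ker f := by
      rw [Submodule.span_le]
      intro w hw
      exact Wf_zero f _ J b hf (Wb_sub _ _ _ _ hw)
    exact this hy'
  have hc : c = 0 := by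
    have h3 := congrArg f hxy
    rw [h0, map_add, map_smul, h1, hy0] at h3
    simpa using h3.symm
  rw [hxy, hc, zero_smul, zero_add]
  exact hy'

end GRP_

open GRP_ in
theorem p_GRP (h_SPN : T_SPN) : T_GRP := by
  intro I R _ _ f S J h1 hf
  have hK : ∀ b : Bool, (bif b then ((⨆ i ∈ J, S i : Subalgebra ℂ R) : Set R) else
      ((⨆ i ∈ Jᶜ, S i : Subalgebra ℂ R) : Set R)) = ((⨆ i ∈ K J b, S i : Subalgebra ℂ R) : Set R) := by
    intro b
    cases b <;> rfl
  have key : ∀ l : List (Bool × R), l.IsChain (fun x y => x.1 ≠ y.1) →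
      (∀ x ∈ l, x.2 ∈ ((⨆ i ∈ K J x.1, S i : Subalgebra ℂ R) : Set R) ∧ f x.2 = 0) →
      ∀ y ∈ l.head?, (l.map Prod.snd).prod ∈
        Submodule.span ℂ (Wf f (fun i => (S i : Set R)) J y.1) := by
    intro l
    induction l with
    | nil => intro _ _ y hy; simp at hy
    | cons a l ih =>
      intro hch hl y hy
      have hy' : y = a := by simpa using hy.symm
      subst hy'
      have ha := hl y List.mem_cons_self
      have hblk := block h_SPN f S J h1 hf y.1 y.2 ha.1 ha.2
      rw [List.map_cons, List.prod_cons]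
      cases l with
      | nil =>
        simp only [List.map_nil, List.prod_nil, mul_one]
        exact Submodule.span_mono (Wb_sub _ _ _ _) hblk
      | cons z l =>
        have hne : y.1 ≠ z.1 := by
          rw [List.isChain_cons_cons] at hch
          exact hch.1
        have hch' : (z :: l).IsChain (fun x y => x.1 ≠ y.1) := by
          rw [List.isChain_cons_cons] at hch
          exact hch.2
        have htail := ih hch' (fun x hx => hl x (List.mem_cons_of_mem _ hx)) z (by simp)
        have hm := Submodule.mul_mem_mul hblk htail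
        rw [Submodule.span_mul_span] at hm
        refine Submodule.span_mono ?_ hm
        rintro w ⟨w1, hw1, w2, hw2, rfl⟩
        exact Wb_mul f _ J y.1 z.1 hne hw1 hw2
  intro l hl hch hx
  obtain ⟨a, l', rfl⟩ := List.exists_cons_of_ne_nil hl
  have h2 := key (a :: l') hch (fun x hxm => by
    have := hx x hxm
    beta_reduce at this
    rw [hK] at this
    exact this) a (by simp)
  have h3 : Submodule.span ℂ (Wf f (fun i => (S i : Set R)) J a.1) ≤ LinearMap.ker f := by
    rw [Submodule.span_le]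
    intro w hw
    exact Wf_zero f _ J a.1 hf hw
  exact h3 h2

end Pool.Agent.FPZ
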