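import Pool.Agent.FPZ.Targets3

set_option autoImplicit false

/-!
# FPZ, target GRS: groups of slots
-/

open scoped Classical
open MeasureTheory

noncomputable section

namespace Pool.Agent.FPZ

namespace GRS_

theorem bound {K m N : ℕ} (i : Fin m) (j : Fin N) (b : Fin (K + 1)) :
    ((i : ℕ) * N + j) * (K + 1) + b < m * N * (K + 1) := by
  have h1 : ((i : ℕ) * N + j) * (K + 1) + b < ((i : ℕ) * N + j + 1) * (K + 1) := by
    have := b.2
    nlinarith
  have h2 : (i : ℕ) * N + j + 1 ≤ m * N := by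
    have hi : (i : ℕ) + 1 ≤ m := i.2
    have hj : (j : ℕ) + 1 ≤ N := j.2
    have h3 : ((i : ℕ) + 1) * N ≤ m * N := Nat.mul_le_mul_right N hi
    rw [Nat.add_mul, Nat.one_mul] at h3
    omega
  exact h1.trans_le (Nat.mul_le_mul_right _ h2)

theorem div_eq {K N : ℕ} (i : ℕ) (j : ℕ) (b : Fin (K + 1)) :
    ((i * N + j) * (K + 1) + b) / (K + 1) = i * N + j := by
  rw [Nat.mul_comm, Nat.mul_add_div (Nat.succ_pos K), Nat.div_eq_of_lt b.2, Nat.add_zero]

theorem pair_eq {N i j i' j' : ℕ} (hj : j < N) (hj' : j' < N)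
    (h : i * N + j = i' * N + j') : i = i' ∧ j = j' := by
  have hN : 0 < N := Nat.lt_of_le_of_lt (Nat.zero_le _) hj
  have h1 : (i * N + j) / N = i := by
    rw [Nat.mul_comm, Nat.mul_add_div hN, Nat.div_eq_of_lt hj, Nat.add_zero]
  have h2 : (i' * N + j') / N = i' := by
    rw [Nat.mul_comm, Nat.mul_add_div hN, Nat.div_eq_of_lt hj', Nat.add_zero]
  have h3 : i = i' := by rw [← h1, ← h2, h]
  subst h3
  exact ⟨rfl, Nat.add_left_cancel h⟩

end GRS_

theorem p_GRS : T_GRS := by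
  intro K m N n k hn
  let g : Fin m → Fin N → Fin (K + 1) → (Σ a : Fin K, Fin (n a)) := fun i j b =>
    ⟨k j, ⟨((i : ℕ) * N + j) * (K + 1) + b, (GRS_.bound i j b).trans_le (hn (k j))⟩⟩
  have hg : ∀ i j b, ((g i j b).2 : ℕ) = ((i : ℕ) * N + j) * (K + 1) + b := fun i j b => rfl
  have hinj : ∀ i j, Function.Injective (g i j) := by
    intro i j b b' hbb
    have h1 : ((g i j b).2 : ℕ) = ((g i j b').2 : ℕ) := by rw [hbb]
    rw [hg, hg] at h1
    exact Fin.ext (Nat.add_left_cancel h1)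
  refine ⟨fun i j => Finset.univ.map ⟨g i j, hinj i j⟩, ?_, ?_, ?_⟩
  · intro i j
    rw [Finset.card_map, Finset.card_univ, Fintype.card_fin]
  · intro i j s hs
    rw [Finset.mem_map] at hs
    obtain ⟨b, _, rfl⟩ := hs
    rfl
  · intro i j i' j' hne
    rw [Finset.disjoint_left]
    intro s hs hs'
    rw [Finset.mem_map] at hs hs'
    obtain ⟨b, _, hb⟩ := hs
    obtain ⟨b', _, hb'⟩ := hs'
    have h1 : g i j b = g i' j' b' := by
      have h0 : g i j b = s := hb
      have h0' : g i' j' b' = s := hb'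
      rw [h0, h0']
    have h2 : ((g i j b).2 : ℕ) = ((g i' j' b').2 : ℕ) := by rw [h1]
    rw [hg, hg] at h2
    have h3 : (i : ℕ) * N + j = (i' : ℕ) * N + j' := by
      rw [← GRS_.div_eq (i : ℕ) (j : ℕ) b, ← GRS_.div_eq (i' : ℕ) (j' : ℕ) b', h2]
    obtain ⟨h4, h5⟩ := GRS_.pair_eq j.2 j'.2 h3
    exact hne (Prod.ext (Fin.ext h4) (Fin.ext h5))

end Pool.Agent.FPZ
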