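import Pool.Agent.FPZ.Targets2

set_option autoImplicit false

/-!
# FPZ: Hall matching of slots
-/

open scoped Classical
open MeasureTheory

noncomputable section

namespace Pool.Agent.FPZ

namespace HAL_

/-- a lower bound for the measures of the balls of radius `r` -/
theorem ball_lower {Z : Type} [MetricSpace Z] [CompactSpace Z] [Nonempty Z] [MeasurableSpace Z]
    [BorelSpace Z] (μ : Measure Z) [IsProbabilityMeasure μ] [μ.IsOpenPosMeasure] (r : ℝ)
    (hr : 0 < r) : ∃ m : ℝ, 0 < m ∧ ∀ x : Z, m ≤ (μ (Metric.ball x r)).toReal := by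
  obtain ⟨t, ht⟩ := isCompact_univ.elim_finite_subcover (fun x : Z => Metric.ball x (r / 2))
    (fun x => Metric.isOpen_ball)
    (fun x _ => Set.mem_iUnion.2 ⟨x, Metric.mem_ball_self (half_pos hr)⟩)
  have hne : t.Nonempty := by
    obtain ⟨x⟩ := ‹Nonempty Z›
    have := ht (Set.mem_univ x)
    simp only [Set.mem_iUnion] at this
    obtain ⟨i, hi, _⟩ := this
    exact ⟨i, hi⟩
  obtain ⟨y, hy, hmin⟩ := t.exists_min_image (fun x => (μ (Metric.ball x (r / 2))).toReal) hne
  refine ⟨(μ (Metric.ball y (r / 2))).toReal, ?_, fun x => ?_⟩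
  · refine ENNReal.toReal_pos ?_ (measure_ne_top _ _)
    exact (Metric.isOpen_ball.measure_pos μ ⟨y, Metric.mem_ball_self (half_pos hr)⟩).ne'
  · have := ht (Set.mem_univ x)
    simp only [Set.mem_iUnion] at this
    obtain ⟨i, hi, hx⟩ := this
    refine (hmin i hi).trans ?_
    refine ENNReal.toReal_mono (measure_ne_top _ _) (measure_mono fun w hw => ?_)
    rw [Metric.mem_ball] at hw hx ⊢
    have := dist_triangle w i x
    rw [dist_comm x i] at hx
    linarith

/-- the measure of a finite disjoint union -/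
theorem union_measure {Z : Type} [MeasurableSpace Z] [TopologicalSpace Z] [BorelSpace Z]
    (μ : Measure Z) [IsProbabilityMeasure μ] {K : ℕ} (O : Fin K → Set Z)
    (hO : ∀ k, IsOpen (O k)) (hd : ∀ k k', k ≠ k' → Disjoint (O k) (O k')) (F : Finset (Fin K)) :
    (μ (⋃ k ∈ F, O k)).toReal = ∑ k ∈ F, (μ (O k)).toReal := by
  rw [measure_biUnion_finset (fun k _ k' _ h => hd k k' h) (fun k _ => (hO k).measurableSet)]
  exact ENNReal.toReal_sum fun k _ => measure_ne_top _ _

end HAL_

open HAL_ in
theorem p_HAL : T_HAL := by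
  intro Z _ _ _ _ _ μ _ _ f ρ hf hρ
  obtain ⟨m₀, hm₀, hball⟩ := ball_lower μ (ρ / 8) (by positivity)
  obtain ⟨δ₁, hδ₁, hfu⟩ := Metric.uniformContinuous_iff.1
    (CompactSpace.uniformContinuous_of_continuous f.continuous) (ρ / 8) (by positivity)
  refine ⟨min δ₁ (ρ / 8), lt_min hδ₁ (by positivity), ?_⟩
  intro K O z hO hd hz hdist hsum
  refine ⟨m₀ / (K + 1), by positivity, ?_⟩
  intro η n hη hη₀ hn
  have hKη : (K + 1) * η < m₀ := by
    rw [lt_div_iff₀ (by positivity)] at hη₀
    linarith
  -- the sets of admissible sources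
  let t : (Σ k : Fin K, Fin (n k)) → Finset (Σ k : Fin K, Fin (n k)) := fun s' =>
    Finset.univ.filter fun s => dist (f (z s.1)) (z s'.1) < ρ
  have hall : ∀ T : Finset (Σ k : Fin K, Fin (n k)), T.card ≤ (T.biUnion t).card := by
    intro T
    rcases T.eq_empty_or_nonempty with rfl | hT
    · simp
    set 𝒦 : Finset (Fin K) := T.image Sigma.fst with h𝒦
    have h𝒦ne : 𝒦.Nonempty := hT.image _
    set S : Set Z := ⋃ k ∈ 𝒦, O k with hS
    have hSne : S.Nonempty := by
      obtain ⟨k, hk⟩ := h𝒦ne
      exact ⟨z k, Set.mem_biUnion hk (hz k)⟩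
    set S' : Set Z := {x | Metric.infDist x S < ρ / 2} with hS'
    set N : Finset (Fin K) := Finset.univ.filter fun k' => ∃ k ∈ 𝒦, dist (f (z k')) (z k) < ρ
      with hN
    have hmem : ∀ k', (∃ x ∈ O k', f x ∈ S') → k' ∈ N := by
      rintro k' ⟨x, hx, hfx⟩
      obtain ⟨y, hy, hxy⟩ := (Metric.infDist_lt_iff hSne).1 hfx
      obtain ⟨k, hk, hyk⟩ := Set.mem_iUnion₂.1 hy
      rw [hN, Finset.mem_filter]
      refine ⟨Finset.mem_univ _, k, hk, ?_⟩
      have h1 : dist (f (z k')) (f x) < ρ / 8 :=
        hfu ((hdist k' _ (hz k') _ hx).trans_le (min_le_left _ _))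
      have h2 : dist y (z k) < ρ / 8 := (hdist k _ hyk _ (hz k)).trans_le (min_le_right _ _)
      have h3 := dist_triangle4 (f (z k')) (f x) y (z k)
      linarith
    -- the cardinality of the union
    have hcard : (T.biUnion t).card = ∑ k ∈ N, n k := by
      have : T.biUnion t = N.sigma fun k => (Finset.univ : Finset (Fin (n k))) := by
        ext s
        simp only [Finset.mem_biUnion, Finset.mem_sigma, Finset.mem_univ, and_true, hN,
          Finset.mem_filter, true_and, t, h𝒦, Finset.mem_image]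
        constructor
        · rintro ⟨a, ha, h⟩
          exact ⟨a.1, ⟨a, ha, rfl⟩, h⟩
        · rintro ⟨k, ⟨a, ha, rfl⟩, h⟩
          exact ⟨a, ha, h⟩
      rw [this, Finset.card_sigma]
      simp
    have hcardT : T.card ≤ ∑ k ∈ 𝒦, n k := by
      have : T ⊆ 𝒦.sigma fun k => (Finset.univ : Finset (Fin (n k))) := by
        intro s hs
        simp only [Finset.mem_sigma, Finset.mem_univ, and_true]
        exact Finset.mem_image_of_mem _ hs
      refine (Finset.card_le_card this).trans ?_
      rw [Finset.card_sigma]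
      simp
    by_cases hall : ∀ x, Metric.infDist x S ≤ ρ / 4
    · -- every index is in `N`
      have hNu : N = Finset.univ := by
        refine Finset.eq_univ_of_forall fun k' => hmem k' ⟨z k', hz k', ?_⟩
        have := hall (f (z k'))
        rw [hS', Set.mem_ofPred_eq]
        linarith
      rw [hcard, hNu]
      refine hcardT.trans (Finset.sum_le_sum_of_subset (Finset.subset_univ _))
    · push Not at hall
      obtain ⟨x₁, hx₁⟩ := hall
      obtain ⟨s₀, hs₀⟩ := hSne
      have hcont : Continuous fun x => Metric.infDist x S := Metric.continuous_infDist_pt S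
      have h0 : Metric.infDist s₀ S = 0 := Metric.infDist_zero_of_mem hs₀
      obtain ⟨x₀, hx₀⟩ : ρ / 4 ∈ Set.range fun x => Metric.infDist x S := by
        refine mem_range_of_exists_le_of_exists_ge hcont ⟨s₀, ?_⟩ ⟨x₁, hx₁.le⟩
        rw [h0]; positivity
      have hx₀' : Metric.infDist x₀ S = ρ / 4 := hx₀
      have hdisj : Disjoint S (Metric.ball x₀ (ρ / 8)) := by
        rw [Set.disjoint_left]
        intro w hw hw'
        rw [Metric.mem_ball] at hw'
        have := Metric.infDist_le_dist_of_mem (x := x₀) hw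
        rw [dist_comm] at this
        linarith
      have hsub : S ∪ Metric.ball x₀ (ρ / 8) ⊆ S' := by
        rintro w (hw | hw)
        · rw [hS', Set.mem_ofPred_eq, Metric.infDist_zero_of_mem hw]
          positivity
        · rw [Metric.mem_ball] at hw
          rw [hS', Set.mem_ofPred_eq]
          have := Metric.infDist_le_infDist_add_dist (s := S) (x := w) (y := x₀)
          linarith
      have hS'o : IsOpen S' := isOpen_lt hcont continuous_const
      have hSS' : (μ S).toReal + m₀ ≤ (μ S').toReal := by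
        have h1 := measure_mono (μ := μ) hsub
        rw [measure_union hdisj Metric.isOpen_ball.measurableSet] at h1
        have h2 := ENNReal.toReal_mono (measure_ne_top _ _) h1
        rw [ENNReal.toReal_add (measure_ne_top _ _) (measure_ne_top _ _)] at h2
        have := hball x₀
        linarith
      have hpre : (μ S').toReal = (μ (f ⁻¹' S')).toReal := by
        conv_lhs => rw [← hf]
        rw [Measure.map_apply f.continuous.measurable hS'o.measurableSet]
      have hall1 : (μ (⋃ k ∈ (Finset.univ : Finset (Fin K)), O k)) = 1 := by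
        have h1 := union_measure μ O hO hd Finset.univ
        rw [hsum] at h1
        rw [← ENNReal.toReal_eq_one_iff]
        exact h1
      have hcompl : μ (⋃ k ∈ (Finset.univ : Finset (Fin K)), O k)ᶜ = 0 := by
        rw [prob_compl_eq_zero_iff]
        · exact hall1
        · exact (Finset.measurableSet_biUnion _ fun k _ => (hO k).measurableSet)
      have hle : (μ (f ⁻¹' S')).toReal ≤ ∑ k ∈ N, (μ (O k)).toReal := by
        rw [← union_measure μ O hO hd N]
        refine ENNReal.toReal_mono (measure_ne_top _ _) ?_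
        have hsub2 : f ⁻¹' S' ⊆ (⋃ k ∈ N, O k) ∪ (⋃ k ∈ (Finset.univ : Finset (Fin K)), O k)ᶜ := by
          intro x hx
          by_cases h : x ∈ (⋃ k ∈ (Finset.univ : Finset (Fin K)), O k)
          · obtain ⟨k, _, hk⟩ := Set.mem_iUnion₂.1 h
            exact Or.inl (Set.mem_biUnion (hmem k ⟨x, hk, hx⟩) hk)
          · exact Or.inr h
        refine (measure_mono hsub2).trans ((measure_union_le _ _).trans ?_)
        rw [hcompl, add_zero]
      have hSm : (μ S).toReal = ∑ k ∈ 𝒦, (μ (O k)).toReal := union_measure μ O hO hd 𝒦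
      have h1 : ∑ k ∈ N, (μ (O k)).toReal ≤ ∑ k ∈ N, ((n k : ℝ) + 1) * η :=
        Finset.sum_le_sum fun k _ => (hn k).2
      have h2 : ∑ k ∈ 𝒦, (n k : ℝ) * η ≤ ∑ k ∈ 𝒦, (μ (O k)).toReal :=
        Finset.sum_le_sum fun k _ => (hn k).1.le
      have h3 : ∑ k ∈ N, ((n k : ℝ) + 1) * η = (∑ k ∈ N, (n k : ℝ)) * η + N.card * η := by
        rw [← Finset.sum_mul, Finset.sum_add_distrib, add_mul]
        simp
      have h4 : (N.card : ℝ) ≤ K := by
        have := N.card_le_univ
        rw [Fintype.card_fin] at this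
        exact_mod_cast this
      have h5 : ∑ k ∈ 𝒦, (n k : ℝ) * η = (∑ k ∈ 𝒦, (n k : ℝ)) * η := by
        rw [Finset.sum_mul]
      have h6 : (∑ k ∈ 𝒦, (n k : ℝ)) * η ≤ (∑ k ∈ N, (n k : ℝ)) * η := by
        have h7 : (N.card : ℝ) * η ≤ K * η := mul_le_mul_of_nonneg_right h4 hη.le
        nlinarith [hSS', hpre, hle, hSm, h1, h2, h3, h5, hKη]
      have h8 : (∑ k ∈ 𝒦, (n k : ℝ)) ≤ ∑ k ∈ N, (n k : ℝ) := le_of_mul_le_mul_right h6 hη
      rw [hcard]
      refine hcardT.trans ?_
      exact_mod_cast h8
  obtain ⟨g, hg, hgt⟩ := (Finset.all_card_le_biUnion_card_iff_exists_injective t).1 hall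
  have hbij : Function.Bijective g := Finite.injective_iff_bijective.1 hg
  refine ⟨(Equiv.ofBijective g hbij).symm, fun s => ?_⟩
  have h := hgt ((Equiv.ofBijective g hbij).symm s)
  have h' : g ((Equiv.ofBijective g hbij).symm s) = s :=
    (Equiv.ofBijective g hbij).apply_symm_apply s
  rw [h'] at h
  exact (Finset.mem_filter.1 h).2

end Pool.Agent.FPZ
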