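import Pool.Agent.FPZ.Targets4

/-!
# FPZ-HIL: a measure preserving Hilbert curve

The curve is built on the whole line: `γ s = 0` for `s ≤ 0`, `γ s = (1, 0)` for `s ≥ 1`; the
operator of the Hilbert curve is then linear.
-/

set_option autoImplicit false

noncomputable section

open MeasureTheory Set
open scoped BoundedContinuousFunction NNReal ENNReal unitInterval

namespace Pool.Agent.FPZ

namespace HIL_

/-! ## The curve -/

/-- the three linear maps -/
def L0 (v : ℝ × ℝ) : ℝ × ℝ := (v.2 / 2, v.1 / 2)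

def L1 (v : ℝ × ℝ) : ℝ × ℝ := (v.1 / 2, v.2 / 2)

def L3 (v : ℝ × ℝ) : ℝ × ℝ := (-v.2 / 2, -v.1 / 2)

theorem cL0 : Continuous L0 := by unfold L0; fun_prop

theorem cL1 : Continuous L1 := by unfold L1; fun_prop

theorem cL3 : Continuous L3 := by unfold L3; fun_prop

theorem dL0 (v w : ℝ × ℝ) : dist (L0 v) (L0 w) ≤ 1 / 2 * dist v w := by
  rw [Prod.dist_eq, Prod.dist_eq, Real.dist_eq, Real.dist_eq, Real.dist_eq, Real.dist_eq]
  simp only [L0]
  have h1 : v.2 / 2 - w.2 / 2 = (v.2 - w.2) * (1 / 2) := by ring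
  have h2 : v.1 / 2 - w.1 / 2 = (v.1 - w.1) * (1 / 2) := by ring
  rw [h1, h2, abs_mul, abs_mul, abs_of_pos (by norm_num : (0 : ℝ) < 1 / 2)]
  refine max_le ?_ ?_
  · nlinarith [le_max_right |v.1 - w.1| |v.2 - w.2|]
  · nlinarith [le_max_left |v.1 - w.1| |v.2 - w.2|]

theorem dL1 (v w : ℝ × ℝ) : dist (L1 v) (L1 w) ≤ 1 / 2 * dist v w := by
  rw [Prod.dist_eq, Prod.dist_eq, Real.dist_eq, Real.dist_eq, Real.dist_eq, Real.dist_eq]
  simp only [L1]
  have h1 : v.2 / 2 - w.2 / 2 = (v.2 - w.2) * (1 / 2) := by ring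
  have h2 : v.1 / 2 - w.1 / 2 = (v.1 - w.1) * (1 / 2) := by ring
  rw [h1, h2, abs_mul, abs_mul, abs_of_pos (by norm_num : (0 : ℝ) < 1 / 2)]
  refine max_le ?_ ?_
  · nlinarith [le_max_left |v.1 - w.1| |v.2 - w.2|]
  · nlinarith [le_max_right |v.1 - w.1| |v.2 - w.2|]

theorem dL3 (v w : ℝ × ℝ) : dist (L3 v) (L3 w) ≤ 1 / 2 * dist v w := by
  rw [Prod.dist_eq, Prod.dist_eq, Real.dist_eq, Real.dist_eq, Real.dist_eq, Real.dist_eq]
  simp only [L3]
  have h1 : -v.2 / 2 - -w.2 / 2 = (v.2 - w.2) * (-1 / 2) := by ring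
  have h2 : -v.1 / 2 - -w.1 / 2 = (v.1 - w.1) * (-1 / 2) := by ring
  have h3 : |(-1 / 2 : ℝ)| = 1 / 2 := by rw [abs_of_neg (by norm_num)]; norm_num
  rw [h1, h2, abs_mul, abs_mul, h3]
  refine max_le ?_ ?_
  · nlinarith [le_max_right |v.1 - w.1| |v.2 - w.2|]
  · nlinarith [le_max_left |v.1 - w.1| |v.2 - w.2|]

theorem nL0 (v : ℝ × ℝ) : ‖L0 v‖ ≤ 1 / 2 * ‖v‖ := by
  have h := dL0 v 0
  rwa [show L0 (0 : ℝ × ℝ) = 0 by simp [L0], dist_zero_right, dist_zero_right] at h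

theorem nL1 (v : ℝ × ℝ) : ‖L1 v‖ ≤ 1 / 2 * ‖v‖ := by
  have h := dL1 v 0
  rwa [show L1 (0 : ℝ × ℝ) = 0 by simp [L1], dist_zero_right, dist_zero_right] at h

theorem nL3 (v : ℝ × ℝ) : ‖L3 v‖ ≤ 1 / 2 * ‖v‖ := by
  have h := dL3 v 0
  rwa [show L3 (0 : ℝ × ℝ) = 0 by simp [L3], dist_zero_right, dist_zero_right] at h

/-- the operator on functions -/
def op (γ : ℝ → ℝ × ℝ) (s : ℝ) : ℝ × ℝ :=
  L0 (γ (4 * s)) + L1 (γ (4 * s - 1)) + L1 (γ (4 * s - 2)) + L3 (γ (4 * s - 3))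

/-- the operator -/
def Op (γ : ℝ →ᵇ ℝ × ℝ) : ℝ →ᵇ ℝ × ℝ :=
  BoundedContinuousFunction.ofNormedAddCommGroup (op γ)
    (by
      have h := γ.continuous
      have h0 := cL0
      have h1 := cL1
      have h3 := cL3
      unfold op
      fun_prop)
    (2 * ‖γ‖)
    (by
      intro s
      have e : ∀ r, ‖γ r‖ ≤ ‖γ‖ := γ.norm_coe_le_norm
      unfold op
      refine (norm_add_le _ _).trans ?_
      refine (add_le_add_left ((norm_add_le _ _).trans
        (add_le_add_left (norm_add_le _ _) _)) _).trans ?_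
      have a0 := nL0 (γ (4 * s))
      have a1 := nL1 (γ (4 * s - 1))
      have a2 := nL1 (γ (4 * s - 2))
      have a3 := nL3 (γ (4 * s - 3))
      have b0 := e (4 * s)
      have b1 := e (4 * s - 1)
      have b2 := e (4 * s - 2)
      have b3 := e (4 * s - 3)
      linarith)

theorem Op_apply (γ : ℝ →ᵇ ℝ × ℝ) (s : ℝ) : Op γ s = op γ s := rfl

/-- admissible curves -/
structure Adm (γ : ℝ → ℝ × ℝ) : Prop where
  l : ∀ s, s ≤ 0 → γ s = 0
  r : ∀ s, 1 ≤ s → γ s = (1, 0)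
  q : ∀ s, γ s ∈ Icc (0 : ℝ) 1 ×ˢ Icc (0 : ℝ) 1

/-- the four similarities -/
def S0 (v : ℝ × ℝ) : ℝ × ℝ := (v.2 / 2, v.1 / 2)

def S1 (v : ℝ × ℝ) : ℝ × ℝ := (v.1 / 2, v.2 / 2 + 1 / 2)

def S2 (v : ℝ × ℝ) : ℝ × ℝ := (v.1 / 2 + 1 / 2, v.2 / 2 + 1 / 2)

def S3 (v : ℝ × ℝ) : ℝ × ℝ := (1 - v.2 / 2, 1 / 2 - v.1 / 2)

section
variable {γ : ℝ → ℝ × ℝ} (h : Adm γ)
include h

theorem op0 {s : ℝ} (hs : s ≤ 1) : op γ (s / 4) = S0 (γ s) := by
  unfold op
  rw [show 4 * (s / 4) = s by ring, h.l (s - 1) (by linarith), h.l (s - 2) (by linarith),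
    h.l (s - 3) (by linarith)]
  simp [L0, L1, L3, S0]

theorem op1 {s : ℝ} (hs0 : 0 ≤ s) (hs : s ≤ 1) : op γ (s / 4 + 1 / 4) = S1 (γ s) := by
  unfold op
  rw [show 4 * (s / 4 + 1 / 4) = s + 1 by ring, show s + 1 - 1 = s by ring,
    show s + 1 - 2 = s - 1 by ring, show s + 1 - 3 = s - 2 by ring, h.r (s + 1) (by linarith),
    h.l (s - 1) (by linarith), h.l (s - 2) (by linarith)]
  simp [L0, L1, L3, S1]
  ring

theorem op2 {s : ℝ} (hs0 : 0 ≤ s) (hs : s ≤ 1) : op γ (s / 4 + 1 / 2) = S2 (γ s) := by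
  unfold op
  rw [show 4 * (s / 4 + 1 / 2) = s + 2 by ring, show s + 2 - 1 = s + 1 by ring,
    show s + 2 - 2 = s by ring, show s + 2 - 3 = s - 1 by ring, h.r (s + 2) (by linarith),
    h.r (s + 1) (by linarith), h.l (s - 1) (by linarith)]
  simp [L0, L1, L3, S2]
  constructor <;> ring

theorem op3 {s : ℝ} (hs0 : 0 ≤ s) : op γ (s / 4 + 3 / 4) = S3 (γ s) := by
  unfold op
  rw [show 4 * (s / 4 + 3 / 4) = s + 3 by ring, show s + 3 - 1 = s + 2 by ring,
    show s + 3 - 2 = s + 1 by ring, show s + 3 - 3 = s by ring, h.r (s + 3) (by linarith),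
    h.r (s + 2) (by linarith), h.r (s + 1) (by linarith)]
  simp only [L0, L1, L3, S3, Prod.mk_add_mk]
  ext <;> simp <;> ring

theorem adm_op : Adm (op γ) := by
  refine ⟨?_, ?_, ?_⟩
  · intro s hs
    have h1 := op0 h (s := 4 * s) (by linarith)
    rw [show 4 * s / 4 = s by ring, h.l (4 * s) (by linarith)] at h1
    rw [h1]
    simp [S0]
  · intro s hs
    have h1 := op3 h (s := 4 * s - 3) (by linarith)
    rw [show (4 * s - 3) / 4 + 3 / 4 = s by ring, h.r (4 * s - 3) (by linarith)] at h1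
    rw [h1]
    simp [S3]
  · intro s
    have hS : ∀ v ∈ Icc (0 : ℝ) 1 ×ˢ Icc (0 : ℝ) 1, S0 v ∈ Icc (0 : ℝ) 1 ×ˢ Icc (0 : ℝ) 1 ∧
        S1 v ∈ Icc (0 : ℝ) 1 ×ˢ Icc (0 : ℝ) 1 ∧ S2 v ∈ Icc (0 : ℝ) 1 ×ˢ Icc (0 : ℝ) 1 ∧
        S3 v ∈ Icc (0 : ℝ) 1 ×ˢ Icc (0 : ℝ) 1 := by
      rintro ⟨a, b⟩ ⟨⟨ha, ha'⟩, ⟨hb, hb'⟩⟩
      simp only at ha ha' hb hb'
      refine ⟨⟨⟨?_, ?_⟩, ⟨?_, ?_⟩⟩, ⟨⟨?_, ?_⟩, ⟨?_, ?_⟩⟩, ⟨⟨?_, ?_⟩, ⟨?_, ?_⟩⟩,
        ⟨⟨?_, ?_⟩, ⟨?_, ?_⟩⟩⟩ <;> simp only [S0, S1, S2, S3] <;> linarith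
    rcases le_total s (1 / 4) with h1 | h1
    · have h2 := op0 h (s := 4 * s) (by linarith)
      rw [show 4 * s / 4 = s by ring] at h2
      rw [h2]
      exact (hS _ (h.q _)).1
    rcases le_total s (1 / 2) with h2 | h2
    · have h3 := op1 h (s := 4 * s - 1) (by linarith) (by linarith)
      rw [show (4 * s - 1) / 4 + 1 / 4 = s by ring] at h3
      rw [h3]
      exact (hS _ (h.q _)).2.1
    rcases le_total s (3 / 4) with h3 | h3
    · have h4 := op2 h (s := 4 * s - 2) (by linarith) (by linarith)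
      rw [show (4 * s - 2) / 4 + 1 / 2 = s by ring] at h4
      rw [h4]
      exact (hS _ (h.q _)).2.2.1
    · have h4 := op3 h (s := 4 * s - 3) (by linarith)
      rw [show (4 * s - 3) / 4 + 3 / 4 = s by ring] at h4
      rw [h4]
      exact (hS _ (h.q _)).2.2.2

end

theorem dist_op {γ γ' : ℝ →ᵇ ℝ × ℝ} (h : Adm γ) (h' : Adm γ') (s : ℝ) :
    dist (op γ s) (op γ' s) ≤ 1 / 2 * dist γ γ' := by
  have e : ∀ r, dist (γ r) (γ' r) ≤ dist γ γ' := fun r =>
    BoundedContinuousFunction.dist_coe_le_dist r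
  have el : ∀ r, r ≤ 0 → γ r = γ' r := fun r hr => by rw [h.l r hr, h'.l r hr]
  have er : ∀ r, 1 ≤ r → γ r = γ' r := fun r hr => by rw [h.r r hr, h'.r r hr]
  unfold op
  rcases le_total s (1 / 4) with h1 | h1
  · rw [el (4 * s - 1) (by linarith), el (4 * s - 2) (by linarith), el (4 * s - 3) (by linarith),
      dist_add_right, dist_add_right, dist_add_right]
    exact (dL0 _ _).trans (by nlinarith [e (4 * s)])
  rw [er (4 * s) (by linarith)]
  rcases le_total s (1 / 2) with h2 | h2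
  · rw [el (4 * s - 2) (by linarith), el (4 * s - 3) (by linarith), dist_add_right, dist_add_right,
      dist_add_left]
    exact (dL1 _ _).trans (by nlinarith [e (4 * s - 1)])
  rw [er (4 * s - 1) (by linarith)]
  rcases le_total s (3 / 4) with h3 | h3
  · rw [el (4 * s - 3) (by linarith), dist_add_right, dist_add_left]
    exact (dL1 _ _).trans (by nlinarith [e (4 * s - 2)])
  · rw [er (4 * s - 2) (by linarith), dist_add_left]
    exact (dL3 _ _).trans (by nlinarith [e (4 * s - 3)])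

/-- the start of the iteration -/
def start : ℝ →ᵇ ℝ × ℝ :=
  BoundedContinuousFunction.ofNormedAddCommGroup (fun s : ℝ => ((max 0 (min s 1), 0) : ℝ × ℝ))
    (by fun_prop) 1
    (by
      intro s
      rw [Prod.norm_def]
      refine max_le ?_ ?_
      · rw [Real.norm_eq_abs, abs_of_nonneg (le_max_left _ _)]
        exact max_le zero_le_one (min_le_right _ _)
      · simp)

theorem adm_start : Adm start := by
  refine ⟨?_, ?_, ?_⟩
  · intro s hs
    change ((max 0 (min s 1), 0) : ℝ × ℝ) = 0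
    rw [min_eq_left (by linarith), max_eq_left hs]
    rfl
  · intro s hs
    change ((max 0 (min s 1), 0) : ℝ × ℝ) = (1, 0)
    rw [min_eq_right hs, max_eq_right zero_le_one]
  · intro s
    change ((max 0 (min s 1), 0) : ℝ × ℝ) ∈ _
    refine ⟨⟨le_max_left _ _, max_le zero_le_one (min_le_right _ _)⟩, ⟨le_refl _, zero_le_one⟩⟩

theorem closed_adm : IsClosed {γ : ℝ →ᵇ ℝ × ℝ | Adm γ} := by
  have e : {γ : ℝ →ᵇ ℝ × ℝ | Adm γ} =
      (⋂ s : ℝ, {γ : ℝ →ᵇ ℝ × ℝ | γ s ∈ Icc (0 : ℝ) 1 ×ˢ Icc (0 : ℝ) 1}) ∩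
      ((⋂ s ∈ Iic (0 : ℝ), {γ : ℝ →ᵇ ℝ × ℝ | γ s = 0}) ∩
        ⋂ s ∈ Ici (1 : ℝ), {γ : ℝ →ᵇ ℝ × ℝ | γ s = (1, 0)}) := by
    ext γ
    simp only [mem_ofPred_eq, mem_inter_iff, mem_iInter, mem_Iic, mem_Ici]
    exact ⟨fun h => ⟨h.q, h.l, h.r⟩, fun h => ⟨h.2.1, h.2.2, h.1⟩⟩
  have c : ∀ s : ℝ, Continuous fun γ : ℝ →ᵇ ℝ × ℝ => γ s := fun s =>
    continuous_eval_const s
  rw [e]
  refine IsClosed.inter (isClosed_iInter fun s => ?_) (IsClosed.inter
    (isClosed_biInter fun s _ => ?_) (isClosed_biInter fun s _ => ?_))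
  · exact (isClosed_Icc.prod isClosed_Icc).preimage (c s)
  · exact isClosed_singleton.preimage (c s)
  · exact isClosed_singleton.preimage (c s)

theorem exists_curve : ∃ γ : ℝ →ᵇ ℝ × ℝ, Adm γ ∧ ∀ s, op γ s = γ s := by
  have hm : MapsTo Op {γ : ℝ →ᵇ ℝ × ℝ | Adm γ} {γ : ℝ →ᵇ ℝ × ℝ | Adm γ} := fun γ hγ =>
    adm_op hγ
  have hc : ContractingWith (1 / 2 : ℝ≥0) (hm.restrict Op _ _) := by
    refine ⟨by
      rw [← NNReal.coe_lt_coe]
      push_cast
      norm_num, LipschitzWith.of_dist_le_mul ?_⟩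
    rintro ⟨γ, hγ⟩ ⟨γ', hγ'⟩
    change dist (Op γ) (Op γ') ≤ ((1 / 2 : ℝ≥0) : ℝ) * dist γ γ'
    rw [show ((1 / 2 : ℝ≥0) : ℝ) = 1 / 2 by push_cast; rfl]
    rw [BoundedContinuousFunction.dist_le (by positivity)]
    exact dist_op hγ hγ'
  obtain ⟨γ, h1, h2, -⟩ := ContractingWith.exists_fixedPoint' closed_adm.isComplete hm hc
    (x := start) adm_start (edist_ne_top _ _)
  exact ⟨γ, h1, fun s => by
    rw [← Op_apply]
    exact DFunLike.congr_fun h2 s⟩

/-! ## Measures -/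

/-- Lebesgue measure on the unit interval -/
def lam : Measure ℝ := volume.restrict (Ioo 0 1)

instance : IsProbabilityMeasure lam := ⟨by simp [lam]⟩

theorem map_aff (a b : ℝ) (ha : a ≠ 0) (J : Set ℝ) (hJ : MeasurableSet J)
    (hJ' : (fun x => a * x + b) ⁻¹' J = Ioo 0 1) :
    lam.map (fun x => a * x + b) = ENNReal.ofReal |a⁻¹| • volume.restrict J := by
  have hm : Measurable (fun x : ℝ => a * x + b) := by fun_prop
  have h1 : Measure.map (fun x : ℝ => a * x + b) volume = ENNReal.ofReal |a⁻¹| • volume := by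
    have h2 : (fun x : ℝ => a * x + b) = (fun y => y + b) ∘ fun x => a * x := rfl
    rw [h2, ← Measure.map_map (by fun_prop) (by fun_prop), Real.map_volume_mul_left ha,
      Measure.map_smul, MeasureTheory.map_add_right_eq_self]
  rw [lam, ← hJ', ← Measure.restrict_map hm hJ, h1, Measure.restrict_smul]

def la : Measure ℝ := volume.restrict (Ioo 0 (1 / 2))

def lb : Measure ℝ := volume.restrict (Ioo (1 / 2) 1)

instance : IsFiniteMeasure la := by unfold la; infer_instance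

instance : IsFiniteMeasure lb := by unfold lb; infer_instance

theorem two_eq : ENNReal.ofReal |(1 / 2 : ℝ)⁻¹| = 2 := by
  rw [show |(1 / 2 : ℝ)⁻¹| = 2 by rw [abs_of_pos (by norm_num)]; norm_num]
  simp

theorem two_eq' : ENNReal.ofReal |(-1 / 2 : ℝ)⁻¹| = 2 := by
  rw [show |(-1 / 2 : ℝ)⁻¹| = 2 by rw [abs_of_neg (by norm_num)]; norm_num]
  simp

theorem map_f0 : lam.map (fun x => 1 / 2 * x + 0) = (2 : ℝ≥0∞) • la := by
  rw [map_aff (1 / 2) 0 (by norm_num) (Ioo 0 (1 / 2)) measurableSet_Ioo, two_eq, la]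
  ext x
  simp only [mem_preimage, mem_Ioo]
  constructor <;> rintro ⟨h1, h2⟩ <;> constructor <;> linarith

theorem map_f1 : lam.map (fun x => 1 / 2 * x + 1 / 2) = (2 : ℝ≥0∞) • lb := by
  rw [map_aff (1 / 2) (1 / 2) (by norm_num) (Ioo (1 / 2) 1) measurableSet_Ioo, two_eq, lb]
  ext x
  simp only [mem_preimage, mem_Ioo]
  constructor <;> rintro ⟨h1, h2⟩ <;> constructor <;> linarith

theorem map_r0 : lam.map (fun x => -1 / 2 * x + 1 / 2) = (2 : ℝ≥0∞) • la := by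
  rw [map_aff (-1 / 2) (1 / 2) (by norm_num) (Ioo 0 (1 / 2)) measurableSet_Ioo, two_eq', la]
  ext x
  simp only [mem_preimage, mem_Ioo]
  constructor <;> rintro ⟨h1, h2⟩ <;> constructor <;> linarith

theorem map_r1 : lam.map (fun x => -1 / 2 * x + 1) = (2 : ℝ≥0∞) • lb := by
  rw [map_aff (-1 / 2) 1 (by norm_num) (Ioo (1 / 2) 1) measurableSet_Ioo, two_eq', lb]
  ext x
  simp only [mem_preimage, mem_Ioo]
  constructor <;> rintro ⟨h1, h2⟩ <;> constructor <;> linarith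

theorem lam_eq : lam = la + lb := by
  unfold lam la lb
  rw [← Measure.restrict_union (by
    rw [Set.disjoint_left]
    rintro x ⟨-, h1⟩ ⟨h2, -⟩
    linarith) measurableSet_Ioo]
  refine Measure.restrict_congr_set ?_
  have h1 : (Ioo (0 : ℝ) (1 / 2) ∪ Ioo (1 / 2) 1 : Set ℝ) = Ioo 0 1 \ {1 / 2} := by
    ext x
    simp only [mem_union, mem_Ioo, mem_sdiff, mem_singleton_iff]
    constructor
    · rintro (⟨h1, h2⟩ | ⟨h1, h2⟩)
      · exact ⟨⟨h1, by linarith⟩, by intro h; linarith⟩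
      · exact ⟨⟨by linarith, h2⟩, by intro h; linarith⟩
    · rintro ⟨⟨h1, h2⟩, h3⟩
      rcases lt_or_gt_of_ne h3 with h4 | h4
      · exact Or.inl ⟨h1, h4⟩
      · exact Or.inr ⟨h4, h2⟩
  rw [h1]
  exact (sdiff_null_ae_eq_self (by simp)).symm

theorem two_lam : (2 : ℝ≥0∞) • lam =
    lam.map (fun x => 1 / 2 * x + 0) + lam.map (fun x => 1 / 2 * x + 1 / 2) := by
  rw [map_f0, map_f1, lam_eq, smul_add]

theorem four_lam : (4 : ℝ≥0∞) • lam = lam.map (fun s => s / 4) + lam.map (fun s => s / 4 + 1 / 4) +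
    lam.map (fun s => s / 4 + 1 / 2) + lam.map (fun s => s / 4 + 3 / 4) := by
  have h4 : (4 : ℝ≥0∞) = 2 * 2 := by norm_num
  have key : ∀ b : ℝ, (2 : ℝ≥0∞) • lam.map (fun x => 1 / 2 * x + b) =
      lam.map (fun s => s / 4 + b) + lam.map (fun s => s / 4 + (b + 1 / 4)) := by
    intro b
    rw [← Measure.map_smul, two_lam, Measure.map_add _ _ (by fun_prop),
      Measure.map_map (by fun_prop) (by fun_prop), Measure.map_map (by fun_prop) (by fun_prop)]
    have e1 : ((fun x : ℝ => 1 / 2 * x + b) ∘ fun x => 1 / 2 * x + 0) = fun s => s / 4 + b := by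
      funext x
      simp only [Function.comp]
      ring
    have e2 : ((fun x : ℝ => 1 / 2 * x + b) ∘ fun x => 1 / 2 * x + 1 / 2) =
        fun s => s / 4 + (b + 1 / 4) := by
      funext x
      simp only [Function.comp]
      ring
    rw [e1, e2]
  have k0 := key 0
  have k1 := key (1 / 2)
  rw [h4, mul_smul, two_lam, smul_add, k0, k1]
  have e3 : (fun s : ℝ => s / 4 + 0) = fun s => s / 4 := by funext s; ring
  have e4 : (fun s : ℝ => s / 4 + (0 + 1 / 4)) = fun s => s / 4 + 1 / 4 := by funext s; ring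
  have e5 : (fun s : ℝ => s / 4 + (1 / 2 + 1 / 4)) = fun s => s / 4 + 3 / 4 := by funext s; ring
  rw [e3, e4, e5]
  simp only [add_assoc]

/-- the four similarities together -/
def Tm (ρ : Measure (ℝ × ℝ)) : Measure (ℝ × ℝ) := ρ.map S0 + ρ.map S1 + ρ.map S2 + ρ.map S3

theorem cS0 : Continuous S0 := by unfold S0; fun_prop

theorem cS1 : Continuous S1 := by unfold S1; fun_prop

theorem cS2 : Continuous S2 := by unfold S2; fun_prop

theorem cS3 : Continuous S3 := by unfold S3; fun_prop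

theorem four_mu : (4 : ℝ≥0∞) • (lam.prod lam) = Tm (lam.prod lam) := by
  have m : ∀ a b : ℝ, Measurable (fun x : ℝ => a * x + b) := fun a b => by fun_prop
  have p : ∀ a b c d : ℝ, (lam.prod lam).map (Prod.map (fun x => a * x + b) fun x => c * x + d) =
      (lam.map fun x => a * x + b).prod (lam.map fun x => c * x + d) := fun a b c d =>
    (Measure.map_prod_map lam lam (m a b) (m c d)).symm
  have h22 : ∀ (ρ ρ₂ : Measure ℝ) [SFinite ρ] [SFinite ρ₂],
      ((2 : ℝ≥0∞) • ρ).prod ((2 : ℝ≥0∞) • ρ₂) = (4 : ℝ≥0∞) • ρ.prod ρ₂ := by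
    intro ρ ρ₂ _ _
    rw [Measure.prod_smul_left, Measure.prod_smul_right, smul_smul]
    norm_num
  have e0 : S0 = Prod.map (fun x : ℝ => 1 / 2 * x + 0) (fun x : ℝ => 1 / 2 * x + 0) ∘ Prod.swap := by
    funext v
    simp only [S0, Function.comp, Prod.map, Prod.swap]
    ext <;> simp only <;> ring
  have e1 : S1 = Prod.map (fun x : ℝ => 1 / 2 * x + 0) (fun x : ℝ => 1 / 2 * x + 1 / 2) := by
    funext v
    simp only [S1, Prod.map]
    ext <;> simp only <;> ring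
  have e2 : S2 = Prod.map (fun x : ℝ => 1 / 2 * x + 1 / 2) (fun x : ℝ => 1 / 2 * x + 1 / 2) := by
    funext v
    simp only [S2, Prod.map]
    ext <;> simp only <;> ring
  have e3 : S3 = Prod.map (fun x : ℝ => -1 / 2 * x + 1) (fun x : ℝ => -1 / 2 * x + 1 / 2) ∘
      Prod.swap := by
    funext v
    simp only [S3, Function.comp, Prod.map, Prod.swap]
    ext <;> simp only <;> ring
  have hT : Tm (lam.prod lam) = (4 : ℝ≥0∞) • (la.prod la) + (4 : ℝ≥0∞) • (la.prod lb) +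
      (4 : ℝ≥0∞) • (lb.prod lb) + (4 : ℝ≥0∞) • (lb.prod la) := by
    unfold Tm
    rw [e0, e1, e2, e3, ← Measure.map_map (Measurable.prodMap (m _ _) (m _ _)) measurable_swap,
      ← Measure.map_map (Measurable.prodMap (m _ _) (m _ _)) measurable_swap, Measure.prod_swap,
      p, p, p, p, map_f0, map_f1, map_r0, map_r1, h22, h22, h22, h22]
  rw [hT]
  conv_lhs => rw [lam_eq]
  rw [Measure.add_prod, Measure.prod_add, Measure.prod_add]
  simp only [smul_add]
  abel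

theorem four_nu {γ : ℝ →ᵇ ℝ × ℝ} (h : Adm γ) (h' : ∀ s, op γ s = γ s) :
    (4 : ℝ≥0∞) • lam.map γ = Tm (lam.map γ) := by
  have mγ : Measurable γ := γ.continuous.measurable
  rw [← Measure.map_smul, four_lam, Measure.map_add _ _ mγ, Measure.map_add _ _ mγ,
    Measure.map_add _ _ mγ, Measure.map_map mγ (by fun_prop), Measure.map_map mγ (by fun_prop),
    Measure.map_map mγ (by fun_prop), Measure.map_map mγ (by fun_prop)]
  unfold Tm
  rw [Measure.map_map cS0.measurable mγ, Measure.map_map cS1.measurable mγ,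
    Measure.map_map cS2.measurable mγ, Measure.map_map cS3.measurable mγ]
  have ae : ∀ P : ℝ → Prop, (∀ s, 0 < s → s < 1 → P s) → ∀ᵐ s ∂lam, P s := by
    intro P hP
    unfold lam
    rw [ae_restrict_iff' measurableSet_Ioo]
    exact Filter.Eventually.of_forall fun s hs => hP s hs.1 hs.2
  congr 1
  · congr 1
    · congr 1
      · refine Measure.map_congr (ae _ fun s h0 h1 => ?_)
        simp only [Function.comp]
        rw [← h', op0 h h1.le]
      · refine Measure.map_congr (ae _ fun s h0 h1 => ?_)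
        simp only [Function.comp]
        rw [← h', op1 h h0.le h1.le]
    · refine Measure.map_congr (ae _ fun s h0 h1 => ?_)
      simp only [Function.comp]
      rw [← h', op2 h h0.le h1.le]
  · refine Measure.map_congr (ae _ fun s h0 h1 => ?_)
    simp only [Function.comp]
    rw [← h', op3 h h0.le]

/-- the unit square -/
def Q : Set (ℝ × ℝ) := Icc 0 1 ×ˢ Icc 0 1

/-- probability measures on the square with the self-similarity -/
structure Ss (ρ : Measure (ℝ × ℝ)) : Prop where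
  p : IsProbabilityMeasure ρ
  q : ∀ᵐ v ∂ρ, v ∈ Q
  s : (4 : ℝ≥0∞) • ρ = Tm ρ

theorem dS (v w : ℝ × ℝ) : dist (S0 v) (S0 w) ≤ 1 / 2 * dist v w ∧
    dist (S1 v) (S1 w) ≤ 1 / 2 * dist v w ∧ dist (S2 v) (S2 w) ≤ 1 / 2 * dist v w ∧
    dist (S3 v) (S3 w) ≤ 1 / 2 * dist v w := by
  have a0 := dL0 v w
  have a1 := dL1 v w
  have a3 := dL3 v w
  have e1 : ∀ z, S1 z = L1 z + (0, 1 / 2) := fun z => by
    simp only [S1, L1, Prod.mk_add_mk, add_zero]
  have e2 : ∀ z, S2 z = L1 z + (1 / 2, 1 / 2) := fun z => by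
    simp only [S2, L1, Prod.mk_add_mk]
  have e3 : ∀ z, S3 z = L3 z + (1, 1 / 2) := fun z => by
    simp only [S3, L3, Prod.mk_add_mk]
    ext <;> simp only <;> ring
  refine ⟨a0, ?_, ?_, ?_⟩
  · rw [e1, e1, dist_add_right]
    exact a1
  · rw [e2, e2, dist_add_right]
    exact a1
  · rw [e3, e3, dist_add_right]
    exact a3

theorem mS (v : ℝ × ℝ) (hv : v ∈ Q) : S0 v ∈ Q ∧ S1 v ∈ Q ∧ S2 v ∈ Q ∧ S3 v ∈ Q := by
  obtain ⟨a, b⟩ := v
  obtain ⟨⟨ha, ha'⟩, ⟨hb, hb'⟩⟩ := hv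
  simp only at ha ha' hb hb'
  refine ⟨⟨⟨?_, ?_⟩, ⟨?_, ?_⟩⟩, ⟨⟨?_, ?_⟩, ⟨?_, ?_⟩⟩, ⟨⟨?_, ?_⟩, ⟨?_, ?_⟩⟩,
    ⟨⟨?_, ?_⟩, ⟨?_, ?_⟩⟩⟩ <;> simp only [S0, S1, S2, S3] <;> linarith

/-- the recursion for integrals -/
theorem int_rec {ρ : Measure (ℝ × ℝ)} (h : Ss ρ) (g : ℝ × ℝ →ᵇ ℝ) :
    4 * ∫ v, g v ∂ρ = ∫ v, g (S0 v) ∂ρ + ∫ v, g (S1 v) ∂ρ + ∫ v, g (S2 v) ∂ρ +
      ∫ v, g (S3 v) ∂ρ := by
  have := h.p
  have h1 : ∫ v, g v ∂((4 : ℝ≥0∞) • ρ) = 4 * ∫ v, g v ∂ρ := by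
    rw [integral_smul_measure]
    simp
  have gc := g.continuous
  have pr : ∀ S : ℝ × ℝ → ℝ × ℝ, Continuous S → IsProbabilityMeasure (ρ.map S) := fun S hS =>
    Measure.isProbabilityMeasure_map hS.aemeasurable
  have := pr S0 cS0
  have := pr S1 cS1
  have := pr S2 cS2
  have := pr S3 cS3
  have i : ∀ S : ℝ × ℝ → ℝ × ℝ, Continuous S → ∫ v, g v ∂(ρ.map S) = ∫ v, g (S v) ∂ρ :=
    fun S hS => integral_map hS.aemeasurable gc.aestronglyMeasurable
  rw [← h1, h.s, Tm, integral_add_measure (g.integrable _) (g.integrable _),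
    integral_add_measure (g.integrable _) (g.integrable _),
    integral_add_measure (g.integrable _) (g.integrable _), i S0 cS0, i S1 cS1, i S2 cS2, i S3 cS3]

theorem diff_le {ρ ρ₂ : Measure (ℝ × ℝ)} (h : Ss ρ) (h' : Ss ρ₂) (ε : ℝ) (n : ℕ) :
    ∀ g : ℝ × ℝ →ᵇ ℝ, (∀ v ∈ Q, ∀ w ∈ Q, dist v w ≤ (1 / 2) ^ n → |g v - g w| ≤ ε) →
      |∫ v, g v ∂ρ - ∫ v, g v ∂ρ₂| ≤ 2 * ε := by
  induction n with
  | zero =>
    intro g hg
    have hp := h.p
    have hp' := h'.p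
    have h0 : (0 : ℝ × ℝ) ∈ Q := ⟨⟨le_refl _, zero_le_one⟩, ⟨le_refl _, zero_le_one⟩⟩
    have key : ∀ τ : Measure (ℝ × ℝ), Ss τ → |∫ v, g v ∂τ - g 0| ≤ ε := by
      intro τ hτ
      have := hτ.p
      have e1 : ∫ v, g v ∂τ - g 0 = ∫ v, (g v - g 0) ∂τ := by
        rw [integral_sub (g.integrable _) (integrable_const _)]
        simp
      rw [e1, ← Real.norm_eq_abs]
      have h2 := norm_integral_le_of_norm_le_const (μ := τ) (f := fun v => g v - g 0) (C := ε)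
        (by
          filter_upwards [hτ.q] with v hv
          rw [Real.norm_eq_abs]
          refine hg v hv 0 h0 ?_
          rw [pow_zero, Prod.dist_eq, Real.dist_eq, Real.dist_eq]
          refine max_le ?_ ?_
          · simp only [Prod.fst_zero, sub_zero]
            rw [abs_of_nonneg hv.1.1]
            exact hv.1.2
          · simp only [Prod.snd_zero, sub_zero]
            rw [abs_of_nonneg hv.2.1]
            exact hv.2.2)
      simpa using h2
    have a := key ρ h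
    have b := key ρ₂ h'
    rw [abs_le] at a b ⊢
    constructor <;> linarith
  | succ n ih =>
    intro g hg
    have step : ∀ S : ℝ × ℝ → ℝ × ℝ, Continuous S → (∀ v w, dist (S v) (S w) ≤ 1 / 2 * dist v w) →
        (∀ v ∈ Q, S v ∈ Q) → |∫ v, g (S v) ∂ρ - ∫ v, g (S v) ∂ρ₂| ≤ 2 * ε := by
      intro S hS hd hQ
      refine ih (g.compContinuous ⟨S, hS⟩) ?_
      intro v hv w hw hvw
      refine hg (S v) (hQ v hv) (S w) (hQ w hw) ((hd v w).trans ?_)
      rw [pow_succ]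
      nlinarith
    have k0 := step S0 cS0 (fun v w => (dS v w).1) fun v hv => (mS v hv).1
    have k1 := step S1 cS1 (fun v w => (dS v w).2.1) fun v hv => (mS v hv).2.1
    have k2 := step S2 cS2 (fun v w => (dS v w).2.2.1) fun v hv => (mS v hv).2.2.1
    have k3 := step S3 cS3 (fun v w => (dS v w).2.2.2) fun v hv => (mS v hv).2.2.2
    have r := int_rec h g
    have r' := int_rec h' g
    rw [abs_le] at k0 k1 k2 k3 ⊢
    constructor <;> linarith

theorem ss_unique {ρ ρ₂ : Measure (ℝ × ℝ)} (h : Ss ρ) (h' : Ss ρ₂) : ρ = ρ₂ := by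
  have := h.p
  have := h'.p
  refine ext_of_forall_integral_eq_of_IsFiniteMeasure fun g => ?_
  have hQ : IsCompact Q := isCompact_Icc.prod isCompact_Icc
  have hu := hQ.uniformContinuousOn_of_continuous g.continuous.continuousOn
  rw [Metric.uniformContinuousOn_iff_le] at hu
  have key : ∀ ε > 0, |∫ v, g v ∂ρ - ∫ v, g v ∂ρ₂| ≤ 2 * ε := by
    intro ε hε
    obtain ⟨δ, hδ, hd⟩ := hu ε hε
    obtain ⟨n, hn⟩ := exists_pow_lt_of_lt_one hδ (by norm_num : (1 / 2 : ℝ) < 1)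
    refine diff_le h h' ε n g fun v hv w hw hvw => ?_
    have h2 := hd v hv w hw (hvw.trans hn.le)
    rwa [Real.dist_eq] at h2
  have h0 : |∫ v, g v ∂ρ - ∫ v, g v ∂ρ₂| ≤ 0 := by
    refine le_of_forall_pos_le_add fun ε hε => ?_
    have := key (ε / 2) (by positivity)
    linarith
  exact sub_eq_zero.1 (abs_eq_zero.1 (le_antisymm h0 (abs_nonneg _)))

theorem lam_mem : ∀ᵐ s ∂lam, s ∈ Ioo (0 : ℝ) 1 := by
  unfold lam
  exact ae_restrict_mem measurableSet_Ioo

theorem main {γ : ℝ →ᵇ ℝ × ℝ} (h : Adm γ) (h' : ∀ s, op γ s = γ s) :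
    lam.map γ = lam.prod lam := by
  refine ss_unique ⟨?_, ?_, four_nu h h'⟩ ⟨inferInstance, ?_, four_mu⟩
  · exact Measure.isProbabilityMeasure_map γ.continuous.aemeasurable
  · have hQm : MeasurableSet {v : ℝ × ℝ | v ∈ Q} := measurableSet_Icc.prod measurableSet_Icc
    rw [ae_map_iff γ.continuous.aemeasurable hQm]
    exact Filter.Eventually.of_forall h.q
  · have h1 : ∀ᵐ v ∂(lam.prod lam), v ∈ Ioo (0 : ℝ) 1 ×ˢ Ioo (0 : ℝ) 1 := by
      unfold lam
      rw [Measure.prod_restrict]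
      exact ae_restrict_mem (measurableSet_Ioo.prod measurableSet_Ioo)
    filter_upwards [h1] with v hv
    exact ⟨Ioo_subset_Icc_self hv.1, Ioo_subset_Icc_self hv.2⟩

end HIL_

open HIL_ in
theorem p_HIL : T_HIL := by
  obtain ⟨γ, h, h'⟩ := exists_curve
  have hγ := γ.continuous
  refine ⟨⟨fun s => ⟨(γ s).1, (h.q s).1⟩, by fun_prop⟩, ⟨fun s => ⟨(γ s).2, (h.q s).2⟩, by fun_prop⟩,
    ?_, ?_, ?_, ?_, ?_⟩
  · exact Subtype.ext (by change (γ 0).1 = 0; rw [h.l 0 le_rfl]; rfl)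
  · exact Subtype.ext (by change (γ 1).1 = 1; rw [h.r 1 le_rfl])
  · exact Subtype.ext (by change (γ 0).2 = 0; rw [h.l 0 le_rfl]; rfl)
  · exact Subtype.ext (by change (γ 1).2 = 0; rw [h.r 1 le_rfl])
  · have hv : Measure.map (Subtype.val : I → ℝ) volume = lam := by
      rw [MeasurableSet.map_coe_volume measurableSet_Icc, lam]
      exact Measure.restrict_congr_set Ioo_ae_eq_Icc.symm
    have hE : MeasurableEmbedding (Prod.map (Subtype.val : I → ℝ) (Subtype.val : I → ℝ)) :=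
      (MeasurableEmbedding.subtype_coe measurableSet_Icc).prodMap
        (MeasurableEmbedding.subtype_coe measurableSet_Icc)
    rw [← hE.comap_map (Measure.map _ volume), ← hE.comap_map (volume : Measure (I × I))]
    congr 1
    have e1 : Measure.map (Prod.map (Subtype.val : I → ℝ) (Subtype.val : I → ℝ))
        (volume : Measure (I × I)) = lam.prod lam := by
      rw [Measure.volume_eq_prod, ← Measure.map_prod_map _ _ measurable_subtype_coe
        measurable_subtype_coe, hv]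
    rw [e1, ← main h h', ← hv, Measure.map_map γ.continuous.measurable measurable_subtype_coe,
      Measure.map_map hE.measurable]
    · rfl
    · refine Measurable.prodMk ?_ ?_
      · exact (ContinuousMap.continuous _).measurable
      · exact (ContinuousMap.continuous _).measurable

end Pool.Agent.FPZ
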