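import Pool.Agent.FPZ.Targets4

set_option autoImplicit false

/-!
# FPZ: Hausdorff measure on the circle
-/

open MeasureTheory unitInterval

noncomputable section

namespace Pool.Agent.FPZ

namespace HSC_

/-- the parametrisation of the circle -/
def e (s : ℝ) : ℂ := Complex.exp (2 * Real.pi * s * Complex.I)

theorem norm_e (s : ℝ) : ‖e s‖ = 1 := by
  unfold e
  simp [Complex.norm_exp]

theorem dist_e (s t : ℝ) : dist (e s) (e t) = 2 * |Real.sin (Real.pi * (s - t))| := by
  rw [dist_eq_norm]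
  have h1 : e s - e t = e t * (Complex.exp (Complex.I * ((2 * (Real.pi * (s - t)) : ℝ) : ℂ)) - 1) := by
    unfold e
    rw [mul_sub, ← Complex.exp_add, mul_one]
    congr 2
    push_cast
    ring
  rw [h1, norm_mul, norm_e, one_mul, Complex.norm_exp_I_mul_ofReal_sub_one, norm_mul,
    Real.norm_eq_abs, Real.norm_eq_abs, abs_of_pos (by norm_num : (0 : ℝ) < 2)]
  congr 3
  ring

theorem continuous_e : Continuous e := by
  unfold e
  fun_prop

theorem lip : LipschitzWith (Real.toNNReal (2 * Real.pi)) e := by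
  apply LipschitzWith.of_dist_le_mul
  intro s t
  rw [dist_e, Real.coe_toNNReal _ (by positivity), Real.dist_eq]
  have h1 : |Real.sin (Real.pi * (s - t))| ≤ |Real.pi * (s - t)| := Real.abs_sin_le_abs
  rw [abs_mul, abs_of_pos Real.pi_pos] at h1
  linarith

/-- the constant -/
def c (n : ℕ) : ℝ := 2 * Real.pi - Real.pi ^ 3 / 3 * (1 / n) ^ 2

theorem lower (n : ℕ) (s t : ℝ) (h : |s - t| ≤ 1 / n) : c n * |s - t| ≤ dist (e s) (e t) := by
  rw [dist_e]
  by_cases h0 : s = t
  · subst h0
    simp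
  · have hp : 0 < |s - t| := abs_pos.mpr (sub_ne_zero.mpr h0)
    have h1 : |Real.sin (Real.pi * (s - t))| = |Real.sin (Real.pi * |s - t|)| := by
      rcases abs_choice (s - t) with h2 | h2
      · rw [h2]
      · rw [h2, mul_neg, Real.sin_neg, abs_neg]
    have h2 := Real.sin_gt_sub_cube (mul_pos Real.pi_pos hp)
    have h3 := le_abs_self (Real.sin (Real.pi * |s - t|))
    rw [h1]
    have h4 : |s - t| ^ 2 ≤ (1 / (n : ℝ)) ^ 2 := pow_le_pow_left₀ hp.le h 2
    have h5 : Real.pi ^ 3 / 3 * |s - t| ^ 3 ≤ Real.pi ^ 3 / 3 * (1 / (n : ℝ)) ^ 2 * |s - t| := by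
      have e1 : Real.pi ^ 3 / 3 * |s - t| ^ 3 = Real.pi ^ 3 / 3 * (|s - t| ^ 2) * |s - t| := by ring
      rw [e1]
      gcongr
    have h6 : (Real.pi * |s - t|) ^ 3 = Real.pi ^ 3 * |s - t| ^ 3 := by ring
    rw [h6] at h2
    unfold c
    linarith

theorem c_pos (n : ℕ) (hn : 2 ≤ n) : 0 < c n := by
  unfold c
  have h1 : (1 : ℝ) / n ≤ 1 / 2 := by
    apply one_div_le_one_div_of_le (by norm_num)
    exact_mod_cast hn
  have h2 : ((1 : ℝ) / n) ^ 2 ≤ (1 / 2) ^ 2 := pow_le_pow_left₀ (by positivity) h1 2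
  have h3 := Real.pi_pos
  have h4 : Real.pi < 4 := by
    have := Real.pi_lt_d2
    linarith
  have h5 : Real.pi ^ 3 / 3 * (1 / (n : ℝ)) ^ 2 ≤ Real.pi ^ 3 / 3 * (1 / 2) ^ 2 := by gcongr
  have h6 : Real.pi ^ 3 ≤ 16 * Real.pi := by
    have : Real.pi ^ 2 ≤ 4 ^ 2 := pow_le_pow_left₀ h3.le h4.le 2
    nlinarith
  linarith

theorem piece (n : ℕ) (hn : 2 ≤ n) (E : Set ℝ) (hE : ∀ s ∈ E, ∀ t ∈ E, |s - t| ≤ 1 / n) :
    ENNReal.ofReal (c n) * volume E ≤ (Measure.hausdorffMeasure 1 : Measure ℂ) (e '' E) := by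
  have hc := c_pos n hn
  have hinj : Set.InjOn e E := by
    intro s hs t ht hst
    have h1 := lower n s t (hE s hs t ht)
    rw [hst, dist_self] at h1
    have h2 : |s - t| ≤ 0 := by
      by_contra h3
      push Not at h3
      have := mul_pos hc h3
      linarith
    have h3 := abs_nonpos_iff.mp h2
    linarith
  obtain ⟨g, hg⟩ : ∃ g : ℂ → ℝ, g = Function.invFunOn e E := ⟨_, rfl⟩
  have hg1 : ∀ s ∈ E, g (e s) = s := by
    intro s hs
    rw [hg]
    exact hinj.leftInvOn_invFunOn hs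
  have hlip : LipschitzOnWith (Real.toNNReal (1 / c n)) g (e '' E) := by
    apply LipschitzOnWith.of_dist_le_mul
    rintro _ ⟨s, hs, rfl⟩ _ ⟨t, ht, rfl⟩
    rw [hg1 s hs, hg1 t ht, Real.coe_toNNReal _ (by positivity), Real.dist_eq]
    have h1 := lower n s t (hE s hs t ht)
    rw [one_div, inv_mul_eq_div, le_div_iff₀ hc]
    linarith
  have h1 := hlip.hausdorffMeasure_image_le (d := 1) (by norm_num)
  have h2 : g '' (e '' E) = E := by
    ext s
    constructor
    · rintro ⟨_, ⟨t, ht, rfl⟩, rfl⟩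
      rw [hg1 t ht]
      exact ht
    · intro hs
      exact ⟨e s, ⟨s, hs, rfl⟩, hg1 s hs⟩
  rw [h2, hausdorffMeasure_real, ENNReal.rpow_one] at h1
  calc ENNReal.ofReal (c n) * volume E
      ≤ ENNReal.ofReal (c n) * (ENNReal.ofReal (1 / c n) *
        (Measure.hausdorffMeasure 1 : Measure ℂ) (e '' E)) := by
        gcongr
        exact h1
    _ = (Measure.hausdorffMeasure 1 : Measure ℂ) (e '' E) := by
      rw [← mul_assoc, ← ENNReal.ofReal_mul hc.le, mul_one_div_cancel hc.ne', ENNReal.ofReal_one,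
        one_mul]

theorem inj : Set.InjOn e (Set.Ico 0 1) := by
  intro s hs t ht h
  unfold e at h
  rw [Complex.exp_eq_exp_iff_exists_int] at h
  obtain ⟨k, hk⟩ := h
  have hpi : (2 * Real.pi * Complex.I : ℂ) ≠ 0 := by
    simp [Real.pi_ne_zero]
  have h1 : ((s : ℝ) : ℂ) = ((t + k : ℝ) : ℂ) := by
    apply mul_left_cancel₀ hpi
    push_cast
    linear_combination hk
  have h2 : s = t + k := by exact_mod_cast h1
  have h3 : (k : ℝ) < 1 := by linarith [hs.2, ht.1]
  have h4 : (-1 : ℝ) < k := by linarith [hs.1, ht.2]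
  have h5 : k < 1 := by exact_mod_cast h3
  have h6 : -1 < k := by exact_mod_cast h4
  have h7 : k = 0 := by omega
  rw [h7] at h2
  simpa using h2

theorem sum_pieces (n : ℕ) (hn : 2 ≤ n) (E : Set ℝ) (hE : MeasurableSet E)
    (hE1 : E ⊆ Set.Ico 0 1) :
    ENNReal.ofReal (c n) * volume E ≤ (Measure.hausdorffMeasure 1 : Measure ℂ) (e '' E) := by
  have hn0 : (0 : ℝ) < n := by exact_mod_cast (by omega : 0 < n)
  obtain ⟨F, hF⟩ : ∃ F : ℕ → Set ℝ, F = fun i => E ∩ {s | ⌊(n : ℝ) * s⌋₊ = i} := ⟨_, rfl⟩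
  have hFm : ∀ i, MeasurableSet (F i) := by
    intro i
    rw [hF]
    apply hE.inter
    have : Measurable (fun s : ℝ => ⌊(n : ℝ) * s⌋₊) :=
      Nat.measurable_floor.comp (measurable_const.mul measurable_id)
    exact this (measurableSet_singleton i)
  have hFE : ∀ i, F i ⊆ E := by
    intro i
    rw [hF]
    exact Set.inter_subset_left
  have hEF : E = ⋃ i ∈ Finset.range n, F i := by
    ext s
    simp only [Set.mem_iUnion, Finset.mem_range]
    constructor
    · intro hs
      have h1 := hE1 hs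
      refine ⟨⌊(n : ℝ) * s⌋₊, ?_, ?_⟩
      · rw [Nat.floor_lt (mul_nonneg hn0.le h1.1)]
        nlinarith [h1.2]
      · rw [hF]
        exact ⟨hs, rfl⟩
    · rintro ⟨i, _, hs⟩
      exact hFE i hs
  have hdisj : ∀ i j, i ≠ j → Disjoint (F i) (F j) := by
    intro i j hij
    rw [Set.disjoint_left]
    intro s hs ht
    rw [hF] at hs ht
    exact hij (hs.2.symm.trans ht.2)
  have hvol : volume E = ∑ i ∈ Finset.range n, volume (F i) := by
    conv_lhs => rw [hEF]
    exact measure_biUnion_finset (fun i _ j _ hij => hdisj i j hij) (fun i _ => hFm i)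
  have himg : e '' E = ⋃ i ∈ Finset.range n, e '' (F i) := by
    conv_lhs => rw [hEF]
    simp only [Set.image_iUnion]
  have hmu : (Measure.hausdorffMeasure 1 : Measure ℂ) (e '' E) =
      ∑ i ∈ Finset.range n, (Measure.hausdorffMeasure 1 : Measure ℂ) (e '' (F i)) := by
    rw [himg]
    apply measure_biUnion_finset
    · intro i _ j _ hij
      show Disjoint (e '' F i) (e '' F j)
      rw [Set.disjoint_left]
      rintro _ ⟨s, hs, rfl⟩ ⟨t, ht, hst⟩
      have h1 := inj (hE1 (hFE j ht)) (hE1 (hFE i hs)) hst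
      rw [h1] at ht
      exact Set.disjoint_left.mp (hdisj i j hij) hs ht
    · intro i _
      exact (hFm i).image_of_continuousOn_injOn continuous_e.continuousOn
        (inj.mono ((hFE i).trans hE1))
  rw [hvol, hmu, Finset.mul_sum]
  apply Finset.sum_le_sum
  intro i _
  apply piece n hn
  intro s hs t ht
  rw [hF] at hs ht
  have hs1 := hE1 hs.1
  have ht1 := hE1 ht.1
  have a1 := Nat.floor_le (mul_nonneg hn0.le hs1.1)
  have a2 := Nat.lt_floor_add_one ((n : ℝ) * s)
  have a3 := Nat.floor_le (mul_nonneg hn0.le ht1.1)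
  have a4 := Nat.lt_floor_add_one ((n : ℝ) * t)
  have b1 : ⌊(n : ℝ) * s⌋₊ = i := hs.2
  have b2 : ⌊(n : ℝ) * t⌋₊ = i := ht.2
  rw [b1] at a1 a2
  rw [b2] at a3 a4
  rw [le_div_iff₀ hn0]
  have h8 : |s - t| * n = |n * s - n * t| := by
    rw [← mul_sub, abs_mul, abs_of_pos hn0, mul_comm]
  rw [h8, abs_le]
  constructor <;> linarith

end HSC_

open HSC_

theorem p_HSC : T_HSC := by
  intro E hE hE1
  show (Measure.hausdorffMeasure 1 : Measure ℂ) (e '' E) = ENNReal.ofReal (2 * Real.pi) * volume E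
  apply le_antisymm
  · have h1 := lip.hausdorffMeasure_image_le (d := 1) (by norm_num) E
    rw [hausdorffMeasure_real, ENNReal.rpow_one] at h1
    exact h1
  · obtain ⟨E', hE'⟩ : ∃ E' : Set ℝ, E' = E ∩ Set.Ico 0 1 := ⟨_, rfl⟩
    have hvol : volume E = volume E' := by
      apply le_antisymm
      · have h1 : E ⊆ E' ∪ {1} := by
          intro s hs
          by_cases h : s = 1
          · right
            exact h
          · left
            rw [hE']
            exact ⟨hs, (hE1 hs).1, lt_of_le_of_ne (hE1 hs).2 h⟩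
        calc volume E ≤ volume (E' ∪ {1}) := measure_mono h1
          _ ≤ volume E' + volume ({1} : Set ℝ) := measure_union_le _ _
          _ = volume E' := by rw [Real.volume_singleton, add_zero]
      · rw [hE']
        exact measure_mono Set.inter_subset_left
    have himg : (Measure.hausdorffMeasure 1 : Measure ℂ) (e '' E') ≤
        (Measure.hausdorffMeasure 1 : Measure ℂ) (e '' E) := by
      apply measure_mono
      rw [hE']
      exact Set.image_mono Set.inter_subset_left
    rw [hvol]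
    refine le_trans ?_ himg
    have hE'm : MeasurableSet E' := by
      rw [hE']
      exact hE.inter measurableSet_Ico
    have hE'1 : E' ⊆ Set.Ico 0 1 := by
      rw [hE']
      exact Set.inter_subset_right
    have hfin : volume E' ≠ ⊤ := by
      apply ne_top_of_le_ne_top _ (measure_mono hE'1)
      rw [Real.volume_Ico]
      exact ENNReal.ofReal_ne_top
    have hc : Filter.Tendsto c Filter.atTop (nhds (2 * Real.pi)) := by
      have h1 : Filter.Tendsto (fun n : ℕ => (1 : ℝ) / n) Filter.atTop (nhds 0) :=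
        tendsto_one_div_atTop_nhds_zero_nat
      have h2 := ((h1.pow 2).const_mul (Real.pi ^ 3 / 3)).const_sub (2 * Real.pi)
      have h3 : 2 * Real.pi - Real.pi ^ 3 / 3 * 0 ^ 2 = 2 * Real.pi := by ring
      rw [h3] at h2
      exact h2
    have ht : Filter.Tendsto (fun n => ENNReal.ofReal (c n) * volume E') Filter.atTop
        (nhds (ENNReal.ofReal (2 * Real.pi) * volume E')) :=
      ENNReal.Tendsto.mul_const (ENNReal.tendsto_ofReal hc) (Or.inr hfin)
    apply le_of_tendsto ht
    rw [Filter.eventually_atTop]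
    exact ⟨2, fun n hn => sum_pieces n hn E' hE'm hE'1⟩

end Pool.Agent.FPZ
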