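import Pool.Agent.FPZ.Targets4

set_option autoImplicit false

/-!
# FPZ: homotopies of maps of the circle
-/

open MeasureTheory unitInterval

noncomputable section

namespace Pool.Agent.FPZ

namespace HTC_

theorem continuous_cpt : Continuous cpt := by
  unfold cpt
  apply Continuous.subtype_mk
  fun_prop

theorem cpt_zero_one : cpt 0 = cpt 1 := by
  apply Subtype.ext
  show Complex.exp (2 * Real.pi * ((0 : ℝ) : ℂ) * Complex.I) =
    Complex.exp (2 * Real.pi * ((1 : ℝ) : ℂ) * Complex.I)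
  rw [Complex.ofReal_zero, mul_zero, zero_mul, Complex.exp_zero, Complex.ofReal_one, mul_one,
    Complex.exp_two_pi_mul_I]

theorem cpt_surj (w : S1) : ∃ s : I, cpt s = w := by
  have hw : ‖(w : ℂ)‖ = 1 := by
    have := w.2
    rwa [mem_sphere_zero_iff_norm] at this
  have h1 : Complex.exp (Complex.arg w * Complex.I) = w := by
    have := Complex.norm_mul_exp_arg_mul_I (w : ℂ)
    rw [hw, Complex.ofReal_one, one_mul] at this
    exact this
  refine ⟨⟨Int.fract (Complex.arg w / (2 * Real.pi)), Int.fract_nonneg _,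
    (Int.fract_lt_one _).le⟩, ?_⟩
  apply Subtype.ext
  show Complex.exp (2 * Real.pi * ((Int.fract (Complex.arg w / (2 * Real.pi)) : ℝ) : ℂ) *
    Complex.I) = w
  rw [← h1]
  rw [Complex.exp_eq_exp_iff_exists_int]
  refine ⟨-⌊Complex.arg w / (2 * Real.pi)⌋, ?_⟩
  rw [h1]
  have h2 : (Int.fract (Complex.arg w / (2 * Real.pi)) : ℝ) =
      Complex.arg w / (2 * Real.pi) - ⌊Complex.arg w / (2 * Real.pi)⌋ := rfl
  rw [h2]
  push_cast
  have hpi : (Real.pi : ℂ) ≠ 0 := by exact_mod_cast Real.pi_ne_zero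
  field_simp
  ring

end HTC_

open HTC_

theorem p_HTC (h_LFC : T_LFC) : T_HTC := by
  intro u hu0 hu1
  obtain ⟨H, hH⟩ := h_LFC S1 I
    ⟨fun q => cpt ((1 - (q.1 : ℝ)) * u q.2 + q.1 * q.2), by
      apply continuous_cpt.comp
      fun_prop⟩ (by
      intro q
      show cpt ((1 - (q : ℝ)) * (u 0 : I) + q * ((0 : I) : ℝ)) =
        cpt ((1 - (q : ℝ)) * (u 1 : I) + q * ((1 : I) : ℝ))
      rw [hu0, hu1]
      have e1 : (1 - (q : ℝ)) * ((0 : I) : ℝ) + q * ((0 : I) : ℝ) = 0 := by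
        rw [Set.Icc.coe_zero]
        ring
      have e2 : (1 - (q : ℝ)) * ((1 : I) : ℝ) + q * ((1 : I) : ℝ) = 1 := by
        rw [Set.Icc.coe_one]
        ring
      rw [e1, e2]
      exact cpt_zero_one)
  have hH' : ∀ τ s : I, H (τ, cpt s) = cpt ((1 - (τ : ℝ)) * u s + τ * s) := fun τ s => hH τ s
  refine ⟨⟨fun w => H (0, w), by fun_prop⟩, H, ?_, fun w => rfl, ?_, ?_, hH'⟩
  · intro s
    show H (0, cpt s) = cpt (u s)
    rw [hH']
    congr 1
    rw [Set.Icc.coe_zero]
    ring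
  · intro w
    obtain ⟨s, rfl⟩ := cpt_surj w
    rw [hH']
    congr 1
    rw [Set.Icc.coe_one]
    ring
  · intro τ
    have := hH' τ 0
    rw [Set.Icc.coe_zero, hu0, Set.Icc.coe_zero] at this
    rw [this]
    congr 1
    ring

end Pool.Agent.FPZ
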