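import Pool.Agent.FPZ.Targets1

set_option autoImplicit false

/-!
# FPZ: extension of maps on free pieces (T_ISO)
-/

open scoped Classical
open MeasureTheory

noncomputable section

namespace Pool.Agent.FPZ

namespace ISO_

section

variable {I A A' : Type} [CStarAlgebra A] [CStarAlgebra A'] {C : I → Type} [∀ i, Ring (C i)]
  [∀ i, StarRing (C i)] [∀ i, Algebra ℂ (C i)]

/-- The map into the product. -/
def gg (ι : ∀ i, C i →⋆ₐ[ℂ] A) (ι' : ∀ i, C i →⋆ₐ[ℂ] A') (i : I) : C i →⋆ₐ[ℂ] A × A' :=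
  (ι i).prod (ι' i)

theorem gg_apply (ι : ∀ i, C i →⋆ₐ[ℂ] A) (ι' : ∀ i, C i →⋆ₐ[ℂ] A') (i : I) (c : C i) :
    gg ι ι' i c = (ι i c, ι' i c) := rfl

/-- The pieces in the product. -/
def SS (ι : ∀ i, C i →⋆ₐ[ℂ] A) (ι' : ∀ i, C i →⋆ₐ[ℂ] A') (i : I) : Subalgebra ℂ (A × A') :=
  (gg ι ι' i).toAlgHom.range

theorem mem_SS (ι : ∀ i, C i →⋆ₐ[ℂ] A) (ι' : ∀ i, C i →⋆ₐ[ℂ] A') (i : I) (y : A × A') :
    y ∈ SS ι ι' i ↔ ∃ c, (ι i c, ι' i c) = y := by
  constructor
  · rintro ⟨c, hc⟩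
    exact ⟨c, hc⟩
  · rintro ⟨c, hc⟩
    exact ⟨c, hc⟩

/-- The first functional. -/
def f1 (A' : Type) [CStarAlgebra A'] (φ : A →L[ℂ] ℂ) : A × A' →ₗ[ℂ] ℂ :=
  φ.toLinearMap.comp (LinearMap.fst ℂ A A')

/-- The second functional. -/
def f2 (A : Type) [CStarAlgebra A] (φ' : A' →L[ℂ] ℂ) : A × A' →ₗ[ℂ] ℂ :=
  φ'.toLinearMap.comp (LinearMap.snd ℂ A A')

theorem f1_apply (φ : A →L[ℂ] ℂ) (y : A × A') : f1 A' φ y = φ y.1 := rfl

theorem f2_apply (φ' : A' →L[ℂ] ℂ) (y : A × A') : f2 A φ' y = φ' y.2 := rfl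

theorem prod_fst (l : List (I × (A × A'))) :
    ((l.map Prod.snd).prod).1 = ((l.map (fun x => (x.1, x.2.1))).map Prod.snd).prod := by
  induction l with
  | nil => simp
  | cons a l ih =>
    simp only [List.map_cons, List.prod_cons, Prod.fst_mul, ih]

theorem prod_snd (l : List (I × (A × A'))) :
    ((l.map Prod.snd).prod).2 = ((l.map (fun x => (x.1, x.2.2))).map Prod.snd).prod := by
  induction l with
  | nil => simp
  | cons a l ih =>
    simp only [List.map_cons, List.prod_cons, Prod.snd_mul, ih]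

theorem free1 (φ : A →L[ℂ] ℂ) (ι : ∀ i, C i →⋆ₐ[ℂ] A) (ι' : ∀ i, C i →⋆ₐ[ℂ] A')
    (h : Free φ (fun i => Set.range (ι i))) :
    Free (f1 A' φ) (fun i => (SS ι ι' i : Set (A × A'))) := by
  intro l hl hc hx
  rw [f1_apply, prod_fst]
  apply h
  · simpa using hl
  · rw [List.isChain_map]
    exact hc
  · intro x hx'
    obtain ⟨y, hy, rfl⟩ := List.mem_map.1 hx'
    obtain ⟨h1, h2⟩ := hx y hy
    obtain ⟨c, hc⟩ := (mem_SS ι ι' _ _).1 h1
    refine ⟨⟨c, ?_⟩, h2⟩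
    rw [← hc]

theorem free2 (φ' : A' →L[ℂ] ℂ) (ι : ∀ i, C i →⋆ₐ[ℂ] A) (ι' : ∀ i, C i →⋆ₐ[ℂ] A')
    (h : Free φ' (fun i => Set.range (ι' i))) :
    Free (f2 A φ') (fun i => (SS ι ι' i : Set (A × A'))) := by
  intro l hl hc hx
  rw [f2_apply, prod_snd]
  apply h
  · simpa using hl
  · rw [List.isChain_map]
    exact hc
  · intro x hx'
    obtain ⟨y, hy, rfl⟩ := List.mem_map.1 hx'
    obtain ⟨h1, h2⟩ := hx y hy
    obtain ⟨c, hc⟩ := (mem_SS ι ι' _ _).1 h1
    refine ⟨⟨c, ?_⟩, h2⟩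
    rw [← hc]

/-- The star subalgebra generated by the pieces in the product. -/
def G (ι : ∀ i, C i →⋆ₐ[ℂ] A) (ι' : ∀ i, C i →⋆ₐ[ℂ] A') : StarSubalgebra ℂ (A × A') :=
  StarAlgebra.adjoin ℂ (⋃ i, Set.range (gg ι ι' i))

theorem G_le (ι : ∀ i, C i →⋆ₐ[ℂ] A) (ι' : ∀ i, C i →⋆ₐ[ℂ] A') (y : A × A') (hy : y ∈ G ι ι') :
    y ∈ (⨆ i, SS ι ι' i : Subalgebra ℂ (A × A')) := by
  have h1 : y ∈ (G ι ι').toSubalgebra := hy
  rw [G, StarAlgebra.adjoin_toSubalgebra] at h1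
  refine Algebra.adjoin_le (S := (⨆ i, SS ι ι' i : Subalgebra ℂ (A × A'))) ?_ h1
  have key : ∀ (i : I) (c : C i), gg ι ι' i c ∈ (⨆ i, SS ι ι' i : Subalgebra ℂ (A × A')) := by
    intro i c
    exact (le_iSup (SS ι ι') i) ((mem_SS ι ι' i _).2 ⟨c, rfl⟩)
  rintro z (hz | hz)
  · obtain ⟨i, c, rfl⟩ := Set.mem_iUnion.1 hz
    exact key i c
  · obtain ⟨i, c, hc⟩ := Set.mem_iUnion.1 (Set.mem_star.1 hz)
    have : z = gg ι ι' i (star c) := by
      rw [map_star, hc, star_star]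
    rw [this]
    exact key i _

end

end ISO_

open ISO_ in
theorem p_ISO (h_UNQ : T_UNQ) (h_NRM : T_NRM) : T_ISO := by
  intro I A A' _ _ C _ _ _ φ φ' ι ι' hφ hφ' hfr hfr' hag hgen
  have hU : ∀ y ∈ G ι ι', φ y.1 = φ' y.2 := by
    intro y hy
    exact h_UNQ I (A × A') (f1 A' φ) (f2 A φ') (SS ι ι') (by rw [f1_apply]; exact hφ.one)
      (by rw [f2_apply]; exact hφ'.one)
      (by
        intro i a ha
        obtain ⟨c, hc⟩ := (mem_SS ι ι' _ _).1 ha
        rw [f1_apply, f2_apply, ← hc]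
        exact hag i c)
      (free1 φ ι ι' hfr) (free2 φ' ι ι' hfr') y (G_le ι ι' y hy)
  have hN : ∀ y ∈ G ι ι', ‖y.1‖ = ‖y.2‖ := by
    intro y hy
    apply h_NRM A A' φ φ' y.1 y.2 hφ hφ'
    intro n
    exact hU ((star y * y) ^ n) (pow_mem (mul_mem (star_mem hy) hy) n)
  set K : StarSubalgebra ℂ (A × A') := (G ι ι').topologicalClosure with hK
  have hKc : IsClosed (K : Set (A × A')) := StarSubalgebra.isClosed_topologicalClosure _
  have hUK : ∀ y ∈ K, φ y.1 = φ' y.2 := by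
    intro y hy
    have hcl : IsClosed {y : A × A' | φ y.1 = φ' y.2} :=
      isClosed_eq (φ.continuous.comp continuous_fst) (φ'.continuous.comp continuous_snd)
    exact closure_minimal (fun z hz => hU z hz) hcl hy
  have hNK : ∀ y ∈ K, ‖y.1‖ = ‖y.2‖ := by
    intro y hy
    have hcl : IsClosed {y : A × A' | ‖y.1‖ = ‖y.2‖} :=
      isClosed_eq (continuous_norm.comp continuous_fst) (continuous_norm.comp continuous_snd)
    exact closure_minimal (fun z hz => hN z hz) hcl hy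
  have hgK : ∀ i c, (ι i c, ι' i c) ∈ K := by
    intro i c
    apply StarSubalgebra.le_topologicalClosure
    exact StarAlgebra.subset_adjoin _ _ (Set.mem_iUnion.2 ⟨i, c, rfl⟩)
  have hsurj : ∀ x : A, ∃ x' : A', (x, x') ∈ K := by
    let M : StarSubalgebra ℂ A := K.map (StarAlgHom.fst ℂ A A')
    have hMc : IsClosed (M : Set A) := by
      have hM : (M : Set A) = Set.range (fun y : K => (y : A × A').1) := by
        ext x
        constructor
        · rintro ⟨y, hy, rfl⟩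
          exact ⟨⟨y, hy⟩, rfl⟩
        · rintro ⟨y, rfl⟩
          exact ⟨y, y.2, rfl⟩
      rw [hM]
      have hiso : Isometry (fun y : K => (y : A × A').1) := by
        refine Isometry.of_dist_eq ?_
        intro y z
        have h1 := hNK ((y : A × A') - z) (sub_mem y.2 z.2)
        rw [Subtype.dist_eq, dist_eq_norm, dist_eq_norm, Prod.norm_def, ← h1, max_self]
        rfl
      have : CompleteSpace K := hKc.completeSpace_coe
      exact hiso.isClosedEmbedding.isClosed_range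
    have hM : M = ⊤ := by
      rw [eq_top_iff, ← hgen]
      refine StarSubalgebra.topologicalClosure_minimal ?_ hMc
      refine StarAlgebra.adjoin_le ?_
      intro x hx
      obtain ⟨i, c, rfl⟩ := Set.mem_iUnion.1 hx
      exact ⟨(ι i c, ι' i c), hgK i c, rfl⟩
    intro x
    have hx : x ∈ M := by rw [hM]; trivial
    obtain ⟨y, hy, hyx⟩ := hx
    refine ⟨y.2, ?_⟩
    have : (x, y.2) = y := Prod.ext hyx.symm rfl
    rw [this]
    exact hy
  have huniq : ∀ (x : A) (x' x'' : A'), (x, x') ∈ K → (x, x'') ∈ K → x' = x'' := by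
    intro x x' x'' h1 h2
    have h3 := hNK _ (sub_mem h1 h2)
    rw [Prod.fst_sub, Prod.snd_sub, sub_self, norm_zero] at h3
    exact sub_eq_zero.1 (norm_eq_zero.1 h3.symm)
  choose Θ hΘ using hsurj
  let T : A →⋆ₐ[ℂ] A' :=
    { toFun := Θ
      map_one' := huniq 1 _ _ (hΘ 1) (one_mem K)
      map_mul' := fun a b => huniq (a * b) _ _ (hΘ (a * b)) (mul_mem (hΘ a) (hΘ b))
      map_zero' := huniq 0 _ _ (hΘ 0) (zero_mem K)
      map_add' := fun a b => huniq (a + b) _ _ (hΘ (a + b)) (add_mem (hΘ a) (hΘ b))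
      commutes' := fun r => huniq _ _ _ (hΘ _) (K.algebraMap_mem r)
      map_star' := fun a => huniq (star a) _ _ (hΘ (star a)) (star_mem (hΘ a)) }
  refine ⟨T, ?_, ?_, ?_⟩
  · intro i c
    exact huniq _ _ _ (hΘ _) (hgK i c)
  · intro a
    exact (hUK _ (hΘ a)).symm
  · refine AddMonoidHomClass.isometry_of_norm T ?_
    intro a
    exact (hNK _ (hΘ a)).symm

end Pool.Agent.FPZ
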