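import Pool.Agent.FPZ.Targets4

set_option autoImplicit false

/-!
# FPZ (MP_32d866_an): continuous maps of the circle from maps of the interval (T_LFC)
-/

open scoped Classical unitInterval
open MeasureTheory

noncomputable section

namespace Pool.Agent.FPZ

namespace LFC_

lemma cpt_cont : Continuous (fun s : I => cpt (s : ℝ)) := by
  refine Continuous.subtype_mk ?_ _
  fun_prop

lemma cpt_surj (w : S1) : ∃ s : I, cpt (s : ℝ) = w := by
  obtain ⟨z, hz⟩ := w
  have hz1 : ‖z‖ = 1 := by simpa using hz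
  have hexp : Complex.exp (Complex.arg z * Complex.I) = z := by
    have := Complex.norm_mul_exp_arg_mul_I z
    rwa [hz1, Complex.ofReal_one, one_mul] at this
  have hpi := Real.pi_pos
  by_cases h : 0 ≤ Complex.arg z
  · refine ⟨⟨Complex.arg z / (2 * Real.pi), by positivity, ?_⟩, ?_⟩
    · rw [div_le_one (by positivity)]
      have := Complex.arg_le_pi z
      linarith
    · apply Subtype.ext
      show Complex.exp (2 * Real.pi * ((Complex.arg z / (2 * Real.pi) : ℝ) : ℂ) * Complex.I) = z
      rw [← hexp]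
      congr 1
      rw [hexp]
      have h2 : (Real.pi : ℂ) ≠ 0 := by exact_mod_cast hpi.ne'
      push_cast
      field_simp
  · push Not at h
    refine ⟨⟨Complex.arg z / (2 * Real.pi) + 1, ?_, ?_⟩, ?_⟩
    · have h1 : -1 ≤ Complex.arg z / (2 * Real.pi) := by
        rw [le_div_iff₀ (by positivity)]
        have := Complex.neg_pi_lt_arg z
        linarith
      linarith
    · have h1 : Complex.arg z / (2 * Real.pi) ≤ 0 := by
        apply div_nonpos_of_nonpos_of_nonneg h.le (by positivity)
      linarith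
    · apply Subtype.ext
      show Complex.exp (2 * Real.pi * ((Complex.arg z / (2 * Real.pi) + 1 : ℝ) : ℂ) * Complex.I) = z
      have h2 : (Real.pi : ℂ) ≠ 0 := by exact_mod_cast hpi.ne'
      have h3 : 2 * Real.pi * ((Complex.arg z / (2 * Real.pi) + 1 : ℝ) : ℂ) * Complex.I =
          Complex.arg z * Complex.I + 2 * Real.pi * Complex.I := by
        push_cast
        field_simp
      rw [h3, Complex.exp_add, Complex.exp_two_pi_mul_I, mul_one, hexp]

lemma cpt_inj (s s' : I) (h : cpt (s : ℝ) = cpt (s' : ℝ)) :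
    s = s' ∨ (s = 0 ∧ s' = 1) ∨ (s = 1 ∧ s' = 0) := by
  have h1 : Complex.exp (2 * Real.pi * ((s : ℝ) : ℂ) * Complex.I) =
      Complex.exp (2 * Real.pi * ((s' : ℝ) : ℂ) * Complex.I) := congrArg Subtype.val h
  rw [Complex.exp_eq_exp_iff_exists_int] at h1
  obtain ⟨n, hn⟩ := h1
  have hpi : (Real.pi : ℂ) ≠ 0 := by exact_mod_cast Real.pi_pos.ne'
  have h2 : ((s : ℝ) : ℂ) = ((s' : ℝ) : ℂ) + n := by
    have h3 : (2 * Real.pi * Complex.I) * ((s : ℝ) : ℂ) =
        (2 * Real.pi * Complex.I) * (((s' : ℝ) : ℂ) + n) := by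
      linear_combination hn
    exact mul_left_cancel₀ (by simp [hpi]) h3
  have h3 : (s : ℝ) = s' + n := by exact_mod_cast h2
  have a1 := s.2.1
  have a2 := s.2.2
  have b1 := s'.2.1
  have b2 := s'.2.2
  have c1 : (-2 : ℝ) < n := by linarith
  have c2 : (n : ℝ) < 2 := by linarith
  have d1 : -2 < n := by exact_mod_cast c1
  have d2 : n < 2 := by exact_mod_cast c2
  have : n = -1 ∨ n = 0 ∨ n = 1 := by omega
  rcases this with rfl | rfl | rfl
  · right; left
    push_cast at h3
    exact ⟨Subtype.ext (by show (s : ℝ) = 0; linarith), Subtype.ext (by show (s' : ℝ) = 1; linarith)⟩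
  · left
    push_cast at h3
    exact Subtype.ext (by linarith)
  · right; right
    push_cast at h3
    exact ⟨Subtype.ext (by show (s : ℝ) = 1; linarith), Subtype.ext (by show (s' : ℝ) = 0; linarith)⟩

end LFC_

open LFC_ in
theorem p_LFC : T_LFC := by
  intro W P _ _ _ _ u hu
  let q : C(P × I, P × S1) := ⟨fun x => (x.1, cpt (x.2 : ℝ)),
    continuous_fst.prodMk (cpt_cont.comp continuous_snd)⟩
  have hsurj : Function.Surjective q := by
    rintro ⟨p, w⟩
    obtain ⟨s, hs⟩ := cpt_surj w
    exact ⟨(p, s), by show (p, cpt (s : ℝ)) = (p, w); rw [hs]⟩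
  have hq : Topology.IsQuotientMap q := q.continuous.isClosedMap.isQuotientMap q.continuous hsurj
  have hfac : Function.FactorsThrough u q := by
    rintro ⟨p, s⟩ ⟨p', s'⟩ h
    have h1 : p = p' := congrArg Prod.fst h
    have h2 : cpt (s : ℝ) = cpt (s' : ℝ) := congrArg Prod.snd h
    subst h1
    rcases cpt_inj s s' h2 with rfl | ⟨rfl, rfl⟩ | ⟨rfl, rfl⟩
    · rfl
    · exact hu p
    · exact (hu p).symm
  refine ⟨hq.lift u hfac, fun p s => ?_⟩
  exact congrFun (congrArg DFunLike.coe (hq.lift_comp u hfac)) (p, s)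

end Pool.Agent.FPZ
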