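import Pool.Agent.FPZ.Targets3

set_option autoImplicit false

open scoped Classical
open MeasureTheory

noncomputable section

namespace Pool.Agent.FPZ

theorem p_MNT (h_EXT : T_EXT) (h_APX : T_APX) (h_SEP : T_SEP) (h_INT : T_INT) : T_MNT := by
  intro Z Z' A A' _ _ _ _ _ _ _ _ _ _ _ _ μ μ' _ _ _ _ t φ ι κ φ' ι' κ' F G hFS hFS' hirr hF hG hFG hGF
  obtain ⟨α, hα1, hα2, hα3⟩ := h_EXT Z Z' A A' μ μ' t φ ι κ φ' ι' κ' F hFS hFS' hF
  obtain ⟨β, hβ1, hβ2, hβ3⟩ := h_EXT Z' Z A' A μ' μ t φ' ι' κ' φ ι κ G hFS' hFS hG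
  obtain ⟨d, hd⟩ := h_SEP Z A ι κ hFS.gen
  obtain ⟨d', hd'⟩ := h_SEP Z' A' ι' κ' hFS'.gen
  have hm1 : Measure.map (F.comp G) μ = μ := by
    have : ((F.comp G : C(Z, Z)) : Z → Z) = F ∘ G := rfl
    rw [this, ← Measure.map_map F.continuous.measurable G.continuous.measurable, hG, hF]
  have hm2 : Measure.map (G.comp F) μ' = μ' := by
    have : ((G.comp F : C(Z', Z')) : Z' → Z') = G ∘ F := rfl
    rw [this, ← Measure.map_map G.continuous.measurable F.continuous.measurable, hF, hG]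
  refine h_INT A A' d d' α β hd hd' hα3 hβ3 ?_ ?_
  · intro E ε hε
    refine h_APX Z A μ t φ ι κ hFS hirr (F.comp G) (β.comp α) hm1 hFG ?_ ?_ E ε hε
    · intro g
      rw [StarAlgHom.comp_apply, hα1, hβ1]
      rfl
    · intro i x
      rw [StarAlgHom.comp_apply, hα2, hβ2]
  · intro E ε hε
    refine h_APX Z' A' μ' t φ' ι' κ' hFS' hirr (G.comp F) (α.comp β) hm2 hGF ?_ ?_ E ε hε
    · intro g
      rw [StarAlgHom.comp_apply, hβ1, hα1]
      rfl
    · intro i x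
      rw [StarAlgHom.comp_apply, hβ2, hα2]

end Pool.Agent.FPZ
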