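import Pool.Agent.FPZ.Targets5

set_option autoImplicit false

/-!
# FPZ: the length measure of the circle with a segment
-/

open scoped Classical unitInterval
open MeasureTheory

noncomputable section

namespace Pool.Agent.FPZ

namespace MSX_

theorem vL_eq (L : ℝ) : vL L = (Measure.hausdorffMeasure 1 : Measure (Set.Icc (0 : ℝ) L)) := by
  unfold vL
  rw [← hausdorffMeasure_real]
  have hme : MeasurableEmbedding (Subtype.val : Set.Icc (0 : ℝ) L → ℝ) :=
    MeasurableEmbedding.subtype_coe measurableSet_Icc
  refine Measure.ext fun s hs => ?_
  rw [hme.comap_apply, isometry_subtype_coe.hausdorffMeasure_image (Or.inl zero_le_one)]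

end MSX_

theorem p_MSX : T_MSX := by
  intro X _ _ _ L c l h
  rw [MSX_.vL_eq, h.isoc.map_hausdorffMeasure (Or.inl zero_le_one),
    h.isol.map_hausdorffMeasure (Or.inl zero_le_one)]
  have hl : MeasurableSet (Set.range l) := (isCompact_range h.isol.continuous).measurableSet
  have hna : NullSingletonClass (Measure.hausdorffMeasure 1 : Measure X) :=
    Measure.nullSingletonClass_hausdorff X zero_lt_one
  rw [← Measure.restrict_union_add_inter (Set.range c) hl, h.cover]
  obtain ⟨x, hx⟩ := h.inter
  have h0 : (Measure.hausdorffMeasure 1 : Measure X).restrict (Set.range c ∩ Set.range l) = 0 := by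
    rw [hx, Measure.restrict_eq_zero]
    exact hna.measure_singleton x
  rw [h0, add_zero, Measure.restrict_univ]

end Pool.Agent.FPZ
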