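import Pool.Agent.FPZ.Targets2

set_option autoImplicit false

open scoped Classical
open MeasureTheory

noncomputable section

namespace Pool.Agent.FPZ

namespace NET_

theorem unif {Z : Type} [MetricSpace Z] [CompactSpace Z] (F : Finset C(Z, ℂ)) (ε : ℝ) (hε : 0 < ε) :
    ∃ r : ℝ, 0 < r ∧ ∀ g ∈ F, ∀ x y : Z, dist x y < r → ‖g x - g y‖ ≤ ε := by
  induction F using Finset.induction_on with
  | empty => exact ⟨1, one_pos, by simp⟩
  | insert g F hg ih =>
    obtain ⟨r, hr, h⟩ := ih
    have hu : UniformContinuous g := CompactSpace.uniformContinuous_of_continuous g.continuous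
    obtain ⟨δ, hδ, hd⟩ := Metric.uniformContinuous_iff.mp hu ε hε
    refine ⟨min r δ, lt_min hr hδ, ?_⟩
    intro g' hg' x y hxy
    rcases Finset.mem_insert.mp hg' with h1 | h1
    · subst h1
      have := hd (lt_of_lt_of_le hxy (min_le_right _ _))
      rw [dist_eq_norm] at this
      exact this.le
    · exact h g' h1 x y (lt_of_lt_of_le hxy (min_le_left _ _))

theorem cover (Z : Type) [MetricSpace Z] [CompactSpace Z] (r : ℝ) (hr : 0 < r) :
    ∃ (N : ℕ) (y : Fin N → Z), ∀ z : Z, ∃ j, dist z (y j) < r := by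
  obtain ⟨t, -, ht, hc⟩ := finite_cover_balls_of_compact (isCompact_univ : IsCompact (Set.univ : Set Z)) hr
  refine ⟨ht.toFinset.card, fun j => (ht.toFinset.equivFin.symm j : Z), fun z => ?_⟩
  have hz := hc (Set.mem_univ z)
  simp only [Set.mem_iUnion] at hz
  obtain ⟨x, hx, hzx⟩ := hz
  refine ⟨ht.toFinset.equivFin ⟨x, by simpa using hx⟩, ?_⟩
  simp only [Equiv.symm_apply_apply]
  exact hzx

end NET_

open NET_

theorem p_NET : T_NET := by
  intro Z _ _ F ε hε
  obtain ⟨r, hr, hF⟩ := unif F ε hε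
  obtain ⟨N, y, hy⟩ := cover Z r hr
  refine ⟨r, hr, hF, N, y, ?_⟩
  have hψc : ∀ j : Fin N, Continuous fun z : Z => max 0 (r - dist z (y j)) := fun j => by fun_prop
  have hψ0 : ∀ (j : Fin N) (z : Z), 0 ≤ max 0 (r - dist z (y j)) := fun j z => le_max_left _ _
  have hS : ∀ z : Z, 0 < ∑ j, max 0 (r - dist z (y j)) := by
    intro z
    obtain ⟨j, hj⟩ := hy z
    refine lt_of_lt_of_le (lt_of_lt_of_le (sub_pos.mpr hj) (le_max_right 0 (r - dist z (y j)))) ?_
    exact Finset.single_le_sum (f := fun j => max 0 (r - dist z (y j))) (fun i _ => hψ0 i z) (Finset.mem_univ j)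
  refine ⟨fun j => ⟨fun z => Real.sqrt (max 0 (r - dist z (y j)) / ∑ i, max 0 (r - dist z (y i))), ?_⟩, ?_, ?_, ?_⟩
  · refine Real.continuous_sqrt.comp ?_
    refine (hψc j).div ?_ (fun z => (hS z).ne')
    exact continuous_finset_sum _ (fun i _ => hψc i)
  · intro j z
    exact Real.sqrt_nonneg _
  · intro z
    simp only [ContinuousMap.coe_mk]
    have h1 : ∀ j : Fin N, Real.sqrt (max 0 (r - dist z (y j)) / ∑ i, max 0 (r - dist z (y i))) ^ 2 =
        max 0 (r - dist z (y j)) / ∑ i, max 0 (r - dist z (y i)) := fun j =>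
      Real.sq_sqrt (div_nonneg (hψ0 j z) (hS z).le)
    simp only [h1]
    rw [← Finset.sum_div]
    exact div_self (hS z).ne'
  · intro j z hz
    by_contra hc
    apply hz
    simp only [ContinuousMap.coe_mk]
    rw [max_eq_left (by linarith), zero_div, Real.sqrt_zero]

end Pool.Agent.FPZ
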