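import Pool.Agent.FPZ.Targets5
import Pool.Agent.FPZ.P_CIR

set_option autoImplicit false

/-!
# FPZ, target NHI: the measures `nH` are intrinsic
-/

open scoped Classical unitInterval
open MeasureTheory

noncomputable section

namespace Pool.Agent.FPZ

namespace NHI_

theorem image_val (K : Set ℂ) (S : Set K) :
    (Measure.hausdorffMeasure 1 : Measure ℂ) (Subtype.val '' S) =
      (Measure.hausdorffMeasure 1 : Measure K) S :=
  isometry_subtype_coe.hausdorffMeasure_image (Or.inl zero_le_one) S

theorem comap_eq (K : Set ℂ) (hK : MeasurableSet K) :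
    (Measure.hausdorffMeasure 1 : Measure ℂ).comap (Subtype.val : K → ℂ) =
      (Measure.hausdorffMeasure 1 : Measure K) := by
  have hm : MeasurableEmbedding (Subtype.val : K → ℂ) := MeasurableEmbedding.subtype_coe hK
  ext S _
  rw [hm.comap_apply, image_val]

theorem total (K : Set ℂ) : (Measure.hausdorffMeasure 1 : Measure ℂ) K =
    (Measure.hausdorffMeasure 1 : Measure K) Set.univ := by
  rw [← image_val, Set.image_univ, Subtype.range_coe_subtype]
  rfl

end NHI_

theorem p_NHI (h_HSC : T_HSC) : T_NHI := by
  constructor
  · intro K hK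
    unfold nH nHX
    rw [NHI_.comap_eq K hK, NHI_.total K]
  · have h0 : (Measure.hausdorffMeasure 1 : Measure S1) Set.univ =
        (Measure.hausdorffMeasure 1 : Measure ℂ) (Subtype.val '' (Set.univ : Set S1)) :=
      (NHI_.image_val _ _).symm
    rw [h0, CIR_.image_eq Set.univ, h_HSC]
    · have h1 : (Subtype.val '' ((fun s : I => cpt s) ⁻¹' (Set.univ : Set S1)) : Set ℝ) =
          Set.Icc 0 1 := by
        rw [Set.preimage_univ, Set.image_univ, Subtype.range_coe_subtype]
        rfl
      rw [h1, Real.volume_Icc]
      simp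
    · rw [Set.preimage_univ, Set.image_univ, Subtype.range_coe_subtype]
      exact measurableSet_Icc
    · rintro _ ⟨s, -, rfl⟩
      exact s.2

end Pool.Agent.FPZ
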