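import Pool.Agent.FPZ.Targets1

set_option autoImplicit false

/-!
# FPZ: T_NRM (the norm is determined by the moments)
-/

open scoped Classical
open MeasureTheory

noncomputable section

namespace Pool.Agent.FPZ

namespace NRM_

lemma cfc_sq {A : Type} [CStarAlgebra A] (h : A) (f : ℝ → ℝ) (hf : Continuous f)
    (hpos : ∀ x ∈ spectrum ℝ h, 0 ≤ f x) :
    star (cfc (fun x => Real.sqrt (f x)) h) * cfc (fun x => Real.sqrt (f x)) h = cfc f h := by
  have hc : ContinuousOn (fun x => Real.sqrt (f x)) (spectrum ℝ h) :=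
    (Real.continuous_sqrt.comp hf).continuousOn
  have h1 : star (cfc (fun x => Real.sqrt (f x)) h) = cfc (fun x => Real.sqrt (f x)) h :=
    (cfc_predicate (fun x => Real.sqrt (f x)) h : IsSelfAdjoint _).star_eq
  rw [h1, ← cfc_mul (fun x => Real.sqrt (f x)) (fun x => Real.sqrt (f x)) h hc hc]
  exact cfc_congr fun x hx => Real.mul_self_sqrt (hpos x hx)

lemma pos_cfc {A : Type} [CStarAlgebra A] (φ : A →L[ℂ] ℂ) (hφ : TS φ) (h : A)
    (f : ℝ → ℝ) (hf : Continuous f) (hpos : ∀ x ∈ spectrum ℝ h, 0 ≤ f x) : 0 ≤ (φ (cfc f h)).re := by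
  rw [← cfc_sq h f hf hpos]
  exact (hφ.pos _).1

lemma aux (h_STB : T_STB) (A A' : Type) [CStarAlgebra A] [CStarAlgebra A'] (φ : A →L[ℂ] ℂ)
    (φ' : A' →L[ℂ] ℂ) (a : A) (a' : A') (hφ : TS φ) (hφ' : TS φ')
    (hm : ∀ n : ℕ, φ ((star a * a) ^ n) = φ' ((star a' * a') ^ n)) : ¬ ‖a‖ < ‖a'‖ := by
  intro hlt
  obtain ⟨-, -, hb1, hb2, -⟩ := h_STB A φ hφ.toSt
  set h := star a * a with hh
  set h' := star a' * a' with hh'
  have hn : ‖h‖ = ‖a‖ ^ 2 := by rw [hh, CStarRing.norm_star_mul_self, sq]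
  have hn' : ‖h'‖ = ‖a'‖ ^ 2 := by rw [hh', CStarRing.norm_star_mul_self, sq]
  have hlt2 : ‖h‖ < ‖h'‖ := by
    rw [hn, hn']
    exact pow_lt_pow_left₀ hlt (norm_nonneg _) (by norm_num)
  obtain ⟨c, hc1, hc2⟩ := exists_between hlt2
  have hc0 : 0 < c := lt_of_le_of_lt (norm_nonneg _) hc1
  have hs' : IsSelfAdjoint h' := IsSelfAdjoint.star_mul_self a'
  have hsp : ∀ x ∈ spectrum ℝ h', 0 ≤ x := fun x hx => spectrum_star_mul_self_nonneg x hx
  -- a point of the spectrum above `c`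
  obtain ⟨x, hx, hcx⟩ : ∃ x ∈ spectrum ℝ h', c < x := by
    by_contra hno
    push Not at hno
    have h1 : ‖cfc (fun x : ℝ => x) h'‖ ≤ c := by
      refine norm_cfc_le hc0.le fun x hx => ?_
      rw [Real.norm_of_nonneg (hsp x hx)]
      exact hno x hx
    rw [cfc_id' ℝ h'] at h1
    linarith
  let g : ℝ → ℝ := fun x => min 1 (max 0 (x - c))
  have hg : Continuous g := by
    show Continuous fun x : ℝ => min 1 (max 0 (x - c))
    fun_prop
  have hg0 : ∀ x, 0 ≤ g x := fun x => le_min zero_le_one (le_max_left _ _)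
  have hgx : 0 < g x := lt_min zero_lt_one (lt_max_of_lt_right (by linarith))
  have hy : cfc (fun x => Real.sqrt (g x)) h' ≠ 0 := by
    intro h0
    have h1 := norm_apply_le_norm_cfc (fun x => Real.sqrt (g x)) h' hx
      (Real.continuous_sqrt.comp hg).continuousOn
    rw [h0, norm_zero] at h1
    have h2 : 0 < Real.sqrt (g x) := Real.sqrt_pos.mpr hgx
    have h3 : ‖Real.sqrt (g x)‖ = Real.sqrt (g x) := Real.norm_of_nonneg h2.le
    linarith
  have hd : 0 < (φ' (cfc g h')).re := by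
    rw [← cfc_sq h' g hg fun x _ => hg0 x]
    refine lt_of_le_of_ne (hφ'.pos _).1 fun h0 => hy (hφ'.fth _ ?_)
    exact Complex.ext h0.symm (hφ'.pos _).2
  set δ := (φ' (cfc g h')).re with hδ
  have hmain : ∀ n : ℕ, c ^ n * δ ≤ ‖h‖ ^ n := by
    intro n
    have h1 : 0 ≤ (φ' (cfc (fun x => x ^ n - c ^ n * g x) h')).re := by
      refine pos_cfc φ' hφ' h' _ (by fun_prop) fun x hx => ?_
      have hx0 := hsp x hx
      rcases le_total x c with hxc | hxc
      · have : g x = 0 := by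
          show min 1 (max 0 (x - c)) = 0
          rw [max_eq_left (by linarith)]
          simp
        rw [this]
        simpa using pow_nonneg hx0 n
      · have h2 : g x ≤ 1 := min_le_left _ _
        have h3 : c ^ n ≤ x ^ n := pow_le_pow_left₀ hc0.le hxc n
        have h4 : c ^ n * g x ≤ c ^ n := mul_le_of_le_one_right (pow_nonneg hc0.le n) h2
        linarith
    have h2 : cfc (fun x => x ^ n - c ^ n * g x) h' = h' ^ n - (c ^ n : ℝ) • cfc g h' := by
      rw [cfc_sub (fun x => x ^ n) (fun x => c ^ n * g x) h' (by fun_prop) (by fun_prop),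
        cfc_pow_id h' n, cfc_const_mul (c ^ n) g h' hg.continuousOn]
    rw [h2, map_sub, Complex.sub_re] at h1
    have h3 : (φ' ((c ^ n : ℝ) • cfc g h')).re = c ^ n * δ := by
      have : ((c ^ n : ℝ) • cfc g h' : A') = (((c ^ n : ℝ) : ℂ)) • cfc g h' := by
        rw [Complex.coe_smul]
      rw [this, map_smul, smul_eq_mul, Complex.re_ofReal_mul]
    rw [h3, ← hm n] at h1
    have h4 : (φ (h ^ n)).re ≤ ‖h‖ ^ n := by
      rcases Nat.eq_zero_or_pos n with rfl | hn0
      · simp [hφ.one]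
      · calc (φ (h ^ n)).re ≤ ‖φ (h ^ n)‖ := Complex.re_le_norm _
          _ ≤ n2 φ (h ^ n) := hb1 _
          _ ≤ ‖h ^ n‖ := hb2 _
          _ ≤ ‖h‖ ^ n := norm_pow_le' h hn0
    linarith
  have hr0 : 0 ≤ ‖h‖ / c := div_nonneg (norm_nonneg _) hc0.le
  have hr1 : ‖h‖ / c < 1 := (div_lt_one hc0).mpr hc1
  obtain ⟨n, hn⟩ := exists_pow_lt_of_lt_one hd hr1
  have h1 := hmain n
  rw [div_pow, div_lt_iff₀ (pow_pos hc0 n)] at hn
  linarith [mul_comm (c ^ n) δ]

end NRM_

theorem p_NRM (h_STB : T_STB) : T_NRM := by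
  intro A A' _ _ φ φ' a a' hφ hφ' hm
  exact le_antisymm (not_lt.mp (NRM_.aux h_STB A' A φ' φ a' a hφ' hφ fun n => (hm n).symm))
    (not_lt.mp (NRM_.aux h_STB A A' φ φ' a a' hφ hφ' hm))

end Pool.Agent.FPZ
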