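import Pool.Agent.FPZ.Targets1

set_option autoImplicit false

/-!
# FPZ: the norm from the `2`-norm
-/

noncomputable section

namespace Pool.Agent.FPZ

namespace NRT_

/-- The cut off function. -/
def g (c x : ℝ) : ℝ := max 0 (x - c)

lemma g_nonneg (c x : ℝ) : 0 ≤ g c x := le_max_left _ _

lemma g_cont (c : ℝ) : Continuous (g c) := by unfold g; fun_prop

lemma g_id (c x : ℝ) : x * (g c x * g c x) = c * (g c x * g c x) + (g c x * Real.sqrt (g c x)) * (g c x * Real.sqrt (g c x)) := by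
  have hs : Real.sqrt (g c x) * Real.sqrt (g c x) = g c x := Real.mul_self_sqrt (g_nonneg c x)
  have h2 : (x - c) * g c x = g c x * g c x := by
    unfold g
    rcases le_total (x - c) 0 with h | h
    · rw [max_eq_left h]; simp
    · rw [max_eq_right h]
  have e1 : (g c x * Real.sqrt (g c x)) * (g c x * Real.sqrt (g c x)) = g c x * g c x * (Real.sqrt (g c x) * Real.sqrt (g c x)) := by ring
  rw [e1, hs]
  linear_combination g c x * h2

/-- The main estimate. -/
lemma main {A : Type} [CStarAlgebra A] (h_STB : T_STB) (φ : A →L[ℂ] ℂ) (D : StarSubalgebra ℂ A) (z : A) (M : ℝ) (hφ : TS φ)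
    (hz : z ∈ D) (hM : 0 ≤ M) (hD : ∀ ξ ∈ D, n2 φ (z * ξ) ≤ M * n2 φ ξ) (hlt : M < ‖z‖) : False := by
  obtain ⟨-, -, -, -, -, -, hsq, -, -, hnn, hcont⟩ := h_STB A φ hφ.toSt
  have hD' : ∀ ξ ∈ D.topologicalClosure, n2 φ (z * ξ) ≤ M * n2 φ ξ := by
    intro ξ hξ
    have hcl : IsClosed {ξ : A | n2 φ (z * ξ) ≤ M * n2 φ ξ} := by
      refine isClosed_le ?_ ?_
      · exact hcont.comp (by fun_prop)
      · exact continuous_const.mul hcont
    have hsub : closure (D : Set A) ⊆ {ξ : A | n2 φ (z * ξ) ≤ M * n2 φ ξ} :=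
      closure_minimal (fun ξ hξ => hD ξ hξ) hcl
    exact hsub hξ
  letI : PartialOrder A := CStarAlgebra.spectralOrder A
  have : StarOrderedRing A := CStarAlgebra.spectralOrderedRing A
  have : Nontrivial A := by
    refine ⟨z, 0, ?_⟩
    rintro rfl
    rw [norm_zero] at hlt
    linarith
  obtain ⟨c, hc1, hc2⟩ : ∃ c, M ^ 2 < c ∧ c < ‖z‖ ^ 2 := exists_between (by nlinarith)
  set h : A := star z * z with hh
  have hh0 : 0 ≤ h := star_mul_self_nonneg z
  have hhs : IsSelfAdjoint h := IsSelfAdjoint.star_mul_self z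
  have hnorm : ‖h‖ = ‖z‖ ^ 2 := by rw [hh, CStarRing.norm_star_mul_self, pow_two]
  have hgc : Continuous (g c) := g_cont c
  set ξ : A := cfc (g c) h with hξ
  have hξs : star ξ = ξ := (cfc_predicate (g c) h : IsSelfAdjoint (cfc (g c) h)).star_eq
  have : IsClosed ((D.topologicalClosure : StarSubalgebra ℂ A) : Set A) := StarSubalgebra.isClosed_topologicalClosure _
  have hhD : h ∈ D.topologicalClosure :=
    D.le_topologicalClosure (mul_mem (star_mem hz) hz)
  have hξD : ξ ∈ D.topologicalClosure := cfc_mem (g c) hhD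
  set k : A := cfc (fun x => g c x * Real.sqrt (g c x)) h with hk
  have hks : star k = k := (cfc_predicate (fun x => g c x * Real.sqrt (g c x)) h : IsSelfAdjoint (cfc (fun x => g c x * Real.sqrt (g c x)) h)).star_eq
  have hkc : Continuous (fun x => g c x * Real.sqrt (g c x)) := hgc.mul (Real.continuous_sqrt.comp hgc)
  have key : ξ * h * ξ = (c : ℂ) • (ξ * ξ) + k * k := by
    have e0 : h = cfc (fun x : ℝ => x) h := (cfc_id' ℝ h).symm
    have e1 : ξ * ξ = cfc (fun x => g c x * g c x) h := by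
      rw [hξ, ← cfc_mul (g c) (g c) h hgc.continuousOn hgc.continuousOn]
    have e2 : k * k = cfc (fun x => (g c x * Real.sqrt (g c x)) * (g c x * Real.sqrt (g c x))) h := by
      rw [hk, ← cfc_mul _ _ h hkc.continuousOn hkc.continuousOn]
    have e3 : ξ * h = cfc (fun x => g c x * x) h := by
      rw [hξ]
      conv_lhs => rw [e0]
      rw [cfc_id' ℝ h, cfc_mul (g c) (fun x => x) h hgc.continuousOn continuous_id.continuousOn, cfc_id' ℝ h]
    have e4 : ξ * h * ξ = cfc (fun x => g c x * x * g c x) h := by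
      rw [e3, hξ, ← cfc_mul (fun x => g c x * x) (g c) h (hgc.mul continuous_id).continuousOn hgc.continuousOn]
    have e5 : (c : ℂ) • (ξ * ξ) = cfc (fun x => c * (g c x * g c x)) h := by
      rw [cfc_const_mul c (fun x => g c x * g c x) h (hgc.mul hgc).continuousOn, ← e1]
      exact Complex.coe_smul c (ξ * ξ)
    have hc5 : Continuous (fun x => c * (g c x * g c x)) := continuous_const.mul (hgc.mul hgc)
    have hc6 : Continuous (fun x => (g c x * Real.sqrt (g c x)) * (g c x * Real.sqrt (g c x))) := hkc.mul hkc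
    rw [e4, e5, e2, ← cfc_add h (fun x => c * (g c x * g c x)) (fun x => (g c x * Real.sqrt (g c x)) * (g c x * Real.sqrt (g c x))) hc5.continuousOn hc6.continuousOn]
    refine cfc_congr fun x _ => ?_
    show g c x * x * g c x = c * (g c x * g c x) + (g c x * Real.sqrt (g c x)) * (g c x * Real.sqrt (g c x))
    rw [← g_id c x]; ring
  have h1 : n2 φ (z * ξ) ≤ M * n2 φ ξ := hD' ξ hξD
  have h2 : n2 φ (z * ξ) ^ 2 ≤ M ^ 2 * n2 φ ξ ^ 2 := by
    rw [← mul_pow]
    exact pow_le_pow_left₀ (hnn _) h1 2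
  have h3 : star (z * ξ) * (z * ξ) = ξ * h * ξ := by
    rw [star_mul, hξs, hh]; simp only [mul_assoc]
  have h4 : (φ (k * k)).re ≥ 0 := by
    have := (hφ.toSt.pos k).1
    rwa [hks] at this
  have h5 : (φ (ξ * ξ)).re = n2 φ ξ ^ 2 := by rw [hsq, hξs]
  have h6 : n2 φ (z * ξ) ^ 2 = c * n2 φ ξ ^ 2 + (φ (k * k)).re := by
    rw [hsq, h3, key, map_add, map_smul, Complex.add_re, smul_eq_mul, Complex.re_ofReal_mul, h5]
  have h7 : n2 φ ξ ^ 2 = 0 := by
    have : 0 ≤ n2 φ ξ ^ 2 := sq_nonneg _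
    nlinarith
  have h8 : ξ = 0 := by
    apply hφ.fth
    apply Complex.ext
    · rw [← hsq, h7]; rfl
    · exact (hφ.toSt.pos ξ).2
  have h9 : ‖h‖ ∈ spectrum ℝ h := CStarAlgebra.norm_mem_spectrum_of_nonneg hh0
  have h10 : g c ‖h‖ = 0 := by
    have : cfc (g c) h = cfc (fun _ : ℝ => (0 : ℝ)) h := by
      rw [cfc_const_zero ℝ h]; exact h8
    have h11 := (cfc_eq_cfc_iff_eqOn (a := h) (f := g c) (g := fun _ : ℝ => (0 : ℝ)) hhs hgc.continuousOn continuousOn_const).1 this
    exact h11 h9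
  rw [hnorm] at h10
  have : ‖z‖ ^ 2 - c ≤ g c (‖z‖ ^ 2) := le_max_right _ _
  linarith

end NRT_

theorem p_NRT (h_STB : T_STB) : T_NRT := by
  intro A _ φ D z M hφ hz hM hD
  by_contra hlt
  exact NRT_.main h_STB φ D z M hφ hz hM hD (not_le.1 hlt)

end Pool.Agent.FPZ
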