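import Pool.Agent.FPZ.Targets1

set_option autoImplicit false

/-!
# FPZ: T_ORT (orthogonality of words)
-/

open scoped Classical
open MeasureTheory

noncomputable section

namespace Pool.Agent.FPZ

namespace ORT_

variable {A : Type} [CStarAlgebra A]

/-- reduced centered lists -/
def OK (φ : A →L[ℂ] ℂ) (S : Bool → StarSubalgebra ℂ A) (l : List (Bool × A)) : Prop :=
  l.IsChain (fun x y => x.1 ≠ y.1) ∧ ∀ x ∈ l, x.2 ∈ S x.1 ∧ φ x.2 = 0

/-- the product -/
def P (l : List (Bool × A)) : A := (l.map Prod.snd).prod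

/-- the reversed list of adjoints -/
def rv (l : List (Bool × A)) : List (Bool × A) := (l.map fun x => (x.1, star x.2)).reverse

theorem P_nil : P ([] : List (Bool × A)) = 1 := rfl

theorem P_cons (x : Bool × A) (l : List (Bool × A)) : P (x :: l) = x.2 * P l := by
  simp [P]

theorem P_append (l l' : List (Bool × A)) : P (l ++ l') = P l * P l' := by
  simp [P]

theorem P_rv (l : List (Bool × A)) : P (rv l) = star (P l) := by
  induction l with
  | nil => simp [rv, P]
  | cons x l ih =>
    have h : rv (x :: l) = rv l ++ [(x.1, star x.2)] := by simp [rv]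
    rw [h, P_append, ih, P_cons x l, star_mul]
    simp [P]

theorem OK_rv {φ : A →L[ℂ] ℂ} {S : Bool → StarSubalgebra ℂ A} (hs : ∀ a, φ (star a) = star (φ a))
    {l : List (Bool × A)} (h : OK φ S l) : OK φ S (rv l) := by
  refine ⟨?_, ?_⟩
  · unfold rv
    rw [List.isChain_reverse, List.isChain_map]
    exact h.1.imp fun x y hxy => Ne.symm hxy
  · intro x hx
    unfold rv at hx
    rw [List.mem_reverse, List.mem_map] at hx
    obtain ⟨y, hy, rfl⟩ := hx
    obtain ⟨h1, h2⟩ := h.2 y hy
    refine ⟨star_mem h1, ?_⟩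
    show φ (star y.2) = 0
    rw [hs, h2, star_zero]

theorem last_rv (l : List (Bool × A)) (x : Bool × A) (hx : x ∈ (rv l).getLast?) :
    ∃ y ∈ l.head?, x.1 = y.1 := by
  unfold rv at hx
  rw [List.getLast?_reverse] at hx
  cases l with
  | nil => simp at hx
  | cons y l =>
    refine ⟨y, by simp, ?_⟩
    simp at hx
    rw [← hx]

theorem OK_append {φ : A →L[ℂ] ℂ} {S : Bool → StarSubalgebra ℂ A} {l l' : List (Bool × A)}
    (h : OK φ S l) (h' : OK φ S l') (hd : ∀ x ∈ l.getLast?, ∀ y ∈ l'.head?, x.1 ≠ y.1) :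
    OK φ S (l ++ l') := by
  refine ⟨List.isChain_append.2 ⟨h.1, h'.1, hd⟩, ?_⟩
  intro x hx
  rcases List.mem_append.1 hx with hx | hx
  · exact h.2 x hx
  · exact h'.2 x hx

theorem OK_cons {φ : A →L[ℂ] ℂ} {S : Bool → StarSubalgebra ℂ A} {x : Bool × A}
    {l : List (Bool × A)} (h1 : x.2 ∈ S x.1) (h2 : φ x.2 = 0) (h : OK φ S l)
    (hd : ∀ y ∈ l.head?, x.1 ≠ y.1) : OK φ S (x :: l) := by
  have h3 : OK φ S [x] := ⟨List.isChain_singleton x, by
    intro y hy
    rw [List.mem_singleton] at hy
    subst hy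
    exact ⟨h1, h2⟩⟩
  have h4 := OK_append h3 h (by
    intro z hz y hy
    simp at hz
    subst hz
    exact hd y hy)
  simpa using h4

theorem OK_tail {φ : A →L[ℂ] ℂ} {S : Bool → StarSubalgebra ℂ A} {x : Bool × A}
    {l : List (Bool × A)} (h : OK φ S (x :: l)) :
    OK φ S l ∧ ∀ y ∈ l.head?, x.1 ≠ y.1 := by
  obtain ⟨h1, h2⟩ := h
  have h3 : ([x] ++ l).IsChain (fun x y => x.1 ≠ y.1) := h1
  rw [List.isChain_append] at h3
  refine ⟨⟨h3.2.1, fun y hy => h2 y (List.mem_cons_of_mem _ hy)⟩, ?_⟩
  intro y hy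
  exact h3.2.2 x (by simp) y hy

theorem bne {x b : Bool} (h : b ≠ x) : x = !b := by
  cases x <;> cases b <;> simp_all

/-- the generators of `U` -/
theorem mem_UW {φ : A →L[ℂ] ℂ} {S : Bool → StarSubalgebra ℂ A} {i : Bool} {w : A} :
    w ∈ insert 1 (RWi φ (fun i => (S i : Set A)) i) ↔
      ∃ l, OK φ S l ∧ (∀ y ∈ l.head?, y.1 = i) ∧ w = P l := by
  constructor
  · rintro (rfl | ⟨a, l, h1, h2, rfl⟩)
    · exact ⟨[], ⟨List.isChain_nil, by simp⟩, by simp, rfl⟩
    · exact ⟨(i, a) :: l, ⟨h1, h2⟩, by simp, by rw [P_cons]; rfl⟩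
  · rintro ⟨l, h1, h2, rfl⟩
    cases l with
    | nil => exact Or.inl rfl
    | cons x l =>
      right
      have h3 : x.1 = i := h2 x (by simp)
      subst h3
      exact ⟨x.2, l, h1.1, h1.2, by rw [P_cons]; rfl⟩

/-- the generators of `V` -/
theorem mem_VW {φ : A →L[ℂ] ℂ} {S : Bool → StarSubalgebra ℂ A} {i : Bool} {w : A} :
    w ∈ RWi φ (fun i => (S i : Set A)) i ↔ ∃ a l, OK φ S ((i, a) :: l) ∧ w = a * P l := by
  constructor
  · rintro ⟨a, l, h1, h2, rfl⟩
    exact ⟨a, l, ⟨h1, h2⟩, rfl⟩
  · rintro ⟨a, l, h, rfl⟩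
    exact ⟨a, l, h.1, h.2, rfl⟩

end ORT_

open ORT_

theorem p_ORT (h_STB : T_STB) : T_ORT := by
  intro A _ φ S b U V hst hfree hU hV
  have hs : ∀ a, φ (star a) = star (φ a) := (h_STB A φ hst).1
  have hF : ∀ l : List (Bool × A), l ≠ [] → OK φ S l → φ (P l) = 0 :=
    fun l hl h => hfree l hl h.1 h.2
  have e1 : ∀ u : A, ∀ c : ℂ, ∀ v : A, φ (star (c • u) * v) = star c * φ (star u * v) := by
    intro u c v
    rw [star_smul, smul_mul_assoc, map_smul, smul_eq_mul]
  refine ⟨?_, ?_, ?_, ?_⟩
  · intro u hu v hv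
    rw [hU] at hu
    rw [hV] at hv
    induction hu using Submodule.span_induction with
    | zero => simp
    | add x y _ _ hx hy => rw [star_add, add_mul, map_add, hx, hy, add_zero]
    | smul c x _ hx => rw [e1, hx, mul_zero]
    | mem u hu =>
      obtain ⟨l, hl1, hl2, rfl⟩ := mem_UW.1 hu
      induction hv using Submodule.span_induction with
      | zero => simp
      | add x y _ _ hx hy => rw [mul_add, map_add, hx, hy, add_zero]
      | smul c x _ hx => rw [mul_smul_comm, map_smul, hx, smul_zero]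
      | mem v hv =>
        obtain ⟨a, l', hl', rfl⟩ := mem_VW.1 hv
        have e2 : star (P l) * (a * P l') = P (rv l ++ (b, a) :: l') := by
          rw [P_append, P_rv, P_cons]
        rw [e2]
        refine hF _ (by simp) (OK_append (OK_rv hs hl1) hl' ?_)
        intro x hx y hy
        obtain ⟨z, hz, hxz⟩ := last_rv l x hx
        simp at hy
        subst hy
        rw [hxz, hl2 z hz]
        simp
  · intro a ha ha0 u hu u' hu'
    rw [hU] at hu hu'
    induction hu using Submodule.span_induction with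
    | zero => simp
    | add x y _ _ hx hy => rw [star_add, add_mul, add_mul, map_add, hx, hy, add_zero]
    | smul c x _ hx => rw [mul_assoc, e1, ← mul_assoc, hx, mul_zero]
    | mem u hu =>
      obtain ⟨l, hl1, hl2, rfl⟩ := mem_UW.1 hu
      induction hu' using Submodule.span_induction with
      | zero => simp
      | add x y _ _ hx hy => rw [mul_add, map_add, hx, hy, add_zero]
      | smul c x _ hx => rw [mul_smul_comm, map_smul, hx, smul_zero]
      | mem v hv =>
        obtain ⟨l', hl'1, hl'2, rfl⟩ := mem_UW.1 hv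
        have e2 : star (P l) * a * P l' = P (rv l ++ (b, a) :: l') := by
          rw [P_append, P_rv, P_cons, mul_assoc]
        rw [e2]
        have hc : OK φ S ((b, a) :: l') := OK_cons ha ha0 hl'1 (by
          intro y hy
          rw [hl'2 y hy]
          simp)
        refine hF _ (by simp) (OK_append (OK_rv hs hl1) hc ?_)
        intro x hx y hy
        obtain ⟨z, hz, hxz⟩ := last_rv l x hx
        simp at hy
        subst hy
        rw [hxz, hl2 z hz]
        simp
  · intro a ha ha0 u hu
    rw [hU] at hu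
    rw [hV]
    induction hu using Submodule.span_induction with
    | zero => rw [mul_zero]; exact Submodule.zero_mem _
    | add x y _ _ hx hy => rw [mul_add]; exact Submodule.add_mem _ hx hy
    | smul c x _ hx => rw [mul_smul_comm]; exact Submodule.smul_mem _ c hx
    | mem u hu =>
      obtain ⟨l, hl1, hl2, rfl⟩ := mem_UW.1 hu
      refine Submodule.subset_span (mem_VW.2 ⟨a, l, OK_cons ha ha0 hl1 ?_, rfl⟩)
      intro y hy
      rw [hl2 y hy]
      simp
  · intro a ha v hv
    rw [hV] at hv
    induction hv using Submodule.span_induction with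
    | zero => rw [mul_zero]; exact Submodule.zero_mem _
    | add x y _ _ hx hy => rw [mul_add]; exact Submodule.add_mem _ hx hy
    | smul c x _ hx => rw [mul_smul_comm]; exact Submodule.smul_mem _ c hx
    | mem v hv =>
      obtain ⟨c, l, hl, rfl⟩ := mem_VW.1 hv
      obtain ⟨hl1, hl2⟩ := OK_tail hl
      have hc : c ∈ S b := (hl.2 (b, c) (by simp)).1
      have e2 : a * (c * P l) = φ (a * c) • P l + (a * c - φ (a * c) • 1) * P l := by
        rw [sub_mul, smul_mul_assoc, one_mul, mul_assoc]
        abel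
      rw [e2]
      refine Submodule.add_mem _ ?_ ?_
      · refine Submodule.smul_mem _ _ (Submodule.mem_sup_left ?_)
        rw [hU]
        refine Submodule.subset_span (mem_UW.2 ⟨l, hl1, ?_, rfl⟩)
        intro y hy
        exact bne (hl2 y hy)
      · refine Submodule.mem_sup_right ?_
        rw [hV]
        refine Submodule.subset_span (mem_VW.2
          ⟨a * c - φ (a * c) • 1, l, OK_cons ?_ ?_ hl1 hl2, rfl⟩)
        · exact sub_mem (mul_mem ha hc) ((S b).smul_mem (one_mem _) _)
        · show φ (a * c - φ (a * c) • 1) = 0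
          rw [map_sub, map_smul, hst.one, smul_eq_mul, mul_one, sub_self]

end Pool.Agent.FPZ
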