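import Pool.Agent.FPZ.Targets4

set_option autoImplicit false

/-!
# FPZ: T_PHX, arc length parametrisation of the circle with a segment
-/

open scoped unitInterval ENNReal
open MeasureTheory

noncomputable section

namespace Pool.Agent.FPZ

namespace PHX_

/-- the circle part -/
def ex (s : ℝ) : ℂ := Complex.exp (2 * Real.pi * s * Complex.I)

theorem ex_norm (s : ℝ) : ‖ex s‖ = 1 := by
  unfold ex
  have : (2 * Real.pi * s * Complex.I : ℂ) = ((2 * Real.pi * s : ℝ) : ℂ) * Complex.I := by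
    push_cast; ring
  rw [this, Complex.norm_exp_ofReal_mul_I]

theorem ex_cont : Continuous ex := by
  unfold ex; fun_prop

theorem ex_one : ex 1 = 1 := by
  unfold ex
  rw [Complex.ofReal_one, mul_one, Complex.exp_two_pi_mul_I]

/-- the point where the circle part ends -/
def c0 (L : ℝ) : ℝ := 2 * Real.pi / (2 * Real.pi + L)

variable {L : ℝ}

theorem tot_pos (hL : 0 < L) : 0 < 2 * Real.pi + L := by
  have := Real.pi_pos; positivity

theorem c0_pos (hL : 0 < L) : 0 < c0 L := by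
  have := Real.pi_pos
  unfold c0; positivity

theorem c0_lt (hL : 0 < L) : c0 L < 1 := by
  unfold c0
  rw [div_lt_one (tot_pos hL)]
  linarith

/-- the parametrisation -/
def ph (L : ℝ) (s : ℝ) : ℂ :=
  if s ≤ c0 L then ex (s / c0 L) else 1 + L * (((s - c0 L) / (1 - c0 L) : ℝ) : ℂ)

theorem ph_cont (hL : 0 < L) : Continuous (ph L) := by
  have h1 := c0_pos hL
  have h2 := c0_lt hL
  unfold ph
  refine Continuous.if_le (ex_cont.comp (continuous_id.div_const _)) ?_ continuous_id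
    continuous_const ?_
  · have : Continuous fun s : ℝ => (((s - c0 L) / (1 - c0 L) : ℝ) : ℂ) :=
      Complex.continuous_ofReal.comp (by fun_prop)
    fun_prop
  · intro s hs
    rw [hs, div_self h1.ne', ex_one]
    simp

theorem ph_left {s : ℝ} (hs : s ≤ c0 L) : ph L s = ex (s / c0 L) := if_pos hs

theorem ph_right (hL : 0 < L) {s : ℝ} (hs : c0 L ≤ s) :
    ph L s = 1 + L * (((s - c0 L) / (1 - c0 L) : ℝ) : ℂ) := by
  rcases eq_or_lt_of_le hs with h | h
  · rw [ph_left h.ge, ← h, div_self (c0_pos hL).ne', ex_one]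
    simp
  · exact if_neg (not_le.2 h)

theorem seg_mem {r : ℝ} (h0 : 0 ≤ r) (h1 : r ≤ 1) :
    (1 + L * (r : ℂ)) ∈ segment ℝ (1 : ℂ) (1 + L) := by
  rw [segment_eq_image']
  refine ⟨r, ⟨h0, h1⟩, ?_⟩
  simp only [add_sub_cancel_left, Complex.real_smul]
  ring

theorem seg_norm (hL : 0 < L) {r : ℝ} (h0 : 0 ≤ r) : ‖(1 + L * (r : ℂ))‖ = 1 + L * r := by
  have : (1 + L * (r : ℂ)) = ((1 + L * r : ℝ) : ℂ) := by push_cast; ring
  rw [this, Complex.norm_real, Real.norm_of_nonneg (by positivity)]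

theorem ph_mem (hL : 0 < L) {s : ℝ} (hs : s ∈ Set.Icc (0 : ℝ) 1) : ph L s ∈ XS L := by
  have h1 := c0_pos hL
  have h2 := c0_lt hL
  rcases le_total s (c0 L) with h | h
  · left
    rw [ph_left h, mem_sphere_zero_iff_norm]
    exact ex_norm _
  · right
    rw [ph_right hL h]
    refine seg_mem (div_nonneg (by linarith) (by linarith)) ?_
    rw [div_le_one (by linarith)]
    linarith [hs.2]

theorem sphere_eq (z : ℂ) (hz : ‖z‖ = 1) : ∃ s ∈ Set.Ico (0 : ℝ) 1, ex s = z := by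
  have hpi := Real.pi_pos
  have h1 : Complex.exp (Complex.arg z * Complex.I) = z := by
    have := Complex.norm_mul_exp_arg_mul_I z
    rw [hz] at this
    simpa using this
  rcases lt_or_ge (Complex.arg z) 0 with h | h
  · refine ⟨Complex.arg z / (2 * Real.pi) + 1, ⟨?_, ?_⟩, ?_⟩
    · have := Complex.neg_pi_lt_arg z
      have h3 : -1 ≤ Complex.arg z / (2 * Real.pi) := by
        rw [le_div_iff₀ (by positivity)]; linarith
      linarith
    · have h3 : Complex.arg z / (2 * Real.pi) < 0 := div_neg_of_neg_of_pos h (by positivity)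
      linarith
    · unfold ex
      have : (2 * Real.pi * ((Complex.arg z / (2 * Real.pi) + 1 : ℝ) : ℂ) * Complex.I : ℂ) =
          Complex.arg z * Complex.I + 2 * Real.pi * Complex.I := by
        push_cast
        have h5 : (Real.pi : ℂ) ≠ 0 := by exact_mod_cast hpi.ne'
        field_simp
      rw [this, Complex.exp_add, Complex.exp_two_pi_mul_I, mul_one, h1]
  · refine ⟨Complex.arg z / (2 * Real.pi), ⟨by positivity, ?_⟩, ?_⟩
    · rw [div_lt_one (by positivity)]
      have := Complex.arg_le_pi z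
      linarith
    · unfold ex
      have : (2 * Real.pi * ((Complex.arg z / (2 * Real.pi) : ℝ) : ℂ) * Complex.I : ℂ) =
          Complex.arg z * Complex.I := by
        push_cast
        have h5 : (Real.pi : ℂ) ≠ 0 := by exact_mod_cast hpi.ne'
        field_simp
      rw [this, h1]

theorem circle_part (h_HSC : T_HSC) (hL : 0 < L) {B : Set ℂ} (hB : MeasurableSet B) :
    (Measure.hausdorffMeasure 1 : Measure ℂ) (B ∩ Metric.sphere 0 1) =
      ENNReal.ofReal (2 * Real.pi + L) * volume {s : ℝ | s ∈ Set.Ico 0 (c0 L) ∧ ph L s ∈ B} := by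
  have h1 := c0_pos hL
  have h2 := c0_lt hL
  set E : Set ℝ := {s | s ∈ Set.Ico (0 : ℝ) 1 ∧ ex s ∈ B} with hE
  have hEm : MeasurableSet E := by
    rw [hE]
    exact measurableSet_Ico.inter (ex_cont.measurable hB)
  have h3 : B ∩ Metric.sphere 0 1 = ex '' E := by
    ext z
    constructor
    · rintro ⟨hz, hz'⟩
      rw [mem_sphere_zero_iff_norm] at hz'
      obtain ⟨s, hs, rfl⟩ := sphere_eq z hz'
      exact ⟨s, ⟨hs, hz⟩, rfl⟩
    · rintro ⟨s, ⟨hs, hs'⟩, rfl⟩
      exact ⟨hs', by rw [mem_sphere_zero_iff_norm]; exact ex_norm s⟩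
  have h4 : {s : ℝ | s ∈ Set.Ico 0 (c0 L) ∧ ph L s ∈ B} = (fun s : ℝ => s * (c0 L)⁻¹) ⁻¹' E := by
    ext s
    simp only [Set.mem_ofPred_eq, hE, Set.mem_preimage, Set.mem_Ico, ← div_eq_mul_inv]
    constructor
    · rintro ⟨⟨h5, h6⟩, h7⟩
      refine ⟨⟨by positivity, by rwa [div_lt_one h1]⟩, ?_⟩
      rwa [ph_left h6.le] at h7
    · rintro ⟨⟨h5, h6⟩, h7⟩
      rw [div_lt_one h1] at h6
      refine ⟨⟨?_, h6⟩, ?_⟩
      · have := mul_nonneg h5 h1.le
        rwa [div_mul_cancel₀ _ h1.ne'] at this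
      · rwa [ph_left h6.le]
  rw [h3, h4, Real.volume_preimage_mul_right (inv_ne_zero h1.ne'), inv_inv, abs_of_pos h1]
  have h5 : E ⊆ Set.Icc 0 1 := fun s hs => ⟨hs.1.1, hs.1.2.le⟩
  have h6 := h_HSC E hEm h5
  show (Measure.hausdorffMeasure 1 : Measure ℂ)
    ((fun s : ℝ => Complex.exp (2 * Real.pi * s * Complex.I)) '' E) = _
  rw [h6, ← mul_assoc, ← ENNReal.ofReal_mul (tot_pos hL).le]
  congr 2
  unfold c0
  rw [mul_div_cancel₀ _ (tot_pos hL).ne']

theorem seg_iso : Isometry fun t : ℝ => (1 + (t : ℂ)) := by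
  refine Isometry.of_dist_eq fun x y => ?_
  rw [dist_add_left, Complex.dist_eq, ← Complex.ofReal_sub, Complex.norm_real, Real.dist_eq,
    Real.norm_eq_abs]

theorem seg_part (hL : 0 < L) {B : Set ℂ} (hBX : B ⊆ XS L) :
    (Measure.hausdorffMeasure 1 : Measure ℂ) (B \ Metric.sphere 0 1) =
      ENNReal.ofReal (2 * Real.pi + L) * volume {s : ℝ | s ∈ Set.Ioc (c0 L) 1 ∧ ph L s ∈ B} := by
  have h1 := c0_pos hL
  have h2 := c0_lt hL
  have h2' : 0 < 1 - c0 L := by linarith
  set F : Set ℝ := {t | t ∈ Set.Ioc (0 : ℝ) L ∧ (1 + (t : ℂ)) ∈ B} with hF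
  have h3 : B \ Metric.sphere 0 1 = (fun t : ℝ => (1 + (t : ℂ))) '' F := by
    ext z
    constructor
    · rintro ⟨hz, hz'⟩
      have h4 : z ∈ segment ℝ (1 : ℂ) (1 + L) := by
        rcases hBX hz with h | h
        · exact absurd h hz'
        · exact h
      rw [segment_eq_image'] at h4
      obtain ⟨r, ⟨hr0, hr1⟩, rfl⟩ := h4
      simp only [add_sub_cancel_left, Complex.real_smul] at hz hz' ⊢
      rcases eq_or_lt_of_le hr0 with h | h
      · exfalso
        apply hz'
        rw [← h]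
        simp
      · refine ⟨r * L, ⟨⟨by positivity, by nlinarith⟩, ?_⟩, ?_⟩
        · push_cast; exact hz
        · push_cast; rfl
    · rintro ⟨t, ⟨ht, ht'⟩, rfl⟩
      refine ⟨ht', ?_⟩
      rw [mem_sphere_zero_iff_norm]
      show ¬ ‖(1 + (t : ℂ))‖ = 1
      have h5 : (1 + (t : ℂ)) = ((1 + t : ℝ) : ℂ) := by push_cast; ring
      rw [h5, Complex.norm_real, Real.norm_of_nonneg (by linarith [ht.1])]
      linarith [ht.1]
  have h4 : {s : ℝ | s ∈ Set.Ioc (c0 L) 1 ∧ ph L s ∈ B} =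
      (fun s : ℝ => s + -(c0 L)) ⁻¹' ((fun s : ℝ => s * (L / (1 - c0 L))) ⁻¹' F) := by
    ext s
    simp only [Set.mem_ofPred_eq, hF, Set.mem_preimage, Set.mem_Ioc, ← sub_eq_add_neg]
    have h5 : (s - c0 L) * (L / (1 - c0 L)) = L * ((s - c0 L) / (1 - c0 L)) := by ring
    constructor
    · rintro ⟨⟨h6, h7⟩, h8⟩
      have h9 : 0 < (s - c0 L) / (1 - c0 L) := div_pos (by linarith) h2'
      have h10 : (s - c0 L) / (1 - c0 L) ≤ 1 := by rw [div_le_one h2']; linarith
      rw [h5]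
      refine ⟨⟨by positivity, by nlinarith⟩, ?_⟩
      rw [ph_right hL h6.le] at h8
      push_cast at h8 ⊢
      exact h8
    · rintro ⟨⟨h6, h7⟩, h8⟩
      rw [h5] at h6 h7 h8
      have h9 : 0 < (s - c0 L) / (1 - c0 L) := (mul_pos_iff_of_pos_left hL).1 h6
      have h10 : (s - c0 L) / (1 - c0 L) ≤ 1 := by
        by_contra h
        push Not at h
        nlinarith
      have h11 : c0 L < s := by
        by_contra h
        push Not at h
        have : (s - c0 L) / (1 - c0 L) ≤ 0 := div_nonpos_of_nonpos_of_nonneg (by linarith) h2'.le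
        linarith
      rw [div_le_one h2'] at h10
      refine ⟨⟨h11, by linarith⟩, ?_⟩
      rw [ph_right hL h11.le]
      push_cast at h8 ⊢
      exact h8
  have h5 : 0 < L / (1 - c0 L) := by positivity
  rw [h3, h4, seg_iso.hausdorffMeasure_image (Or.inl zero_le_one), hausdorffMeasure_real,
    measure_preimage_add_right, Real.volume_preimage_mul_right h5.ne', abs_of_pos (by positivity),
    ← mul_assoc, ← ENNReal.ofReal_mul (tot_pos hL).le]
  have h6 : (2 * Real.pi + L) * (L / (1 - c0 L))⁻¹ = 1 := by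
    have h7 : 1 - c0 L = L / (2 * Real.pi + L) := by
      unfold c0
      field_simp [(tot_pos hL).ne']
      ring
    rw [h7]
    have := tot_pos hL
    field_simp
  rw [h6, ENNReal.ofReal_one, one_mul]

theorem total (h_HSC : T_HSC) (hL : 0 < L) {B : Set ℂ} (hB : MeasurableSet B) (hBX : B ⊆ XS L) :
    (Measure.hausdorffMeasure 1 : Measure ℂ) B =
      ENNReal.ofReal (2 * Real.pi + L) * volume {s : ℝ | s ∈ Set.Icc 0 1 ∧ ph L s ∈ B} := by
  have h1 := c0_pos hL
  have h2 := c0_lt hL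
  have hs : MeasurableSet (Metric.sphere (0 : ℂ) 1) := Metric.isClosed_sphere.measurableSet
  rw [← measure_inter_add_sdiff B hs, circle_part h_HSC hL hB, seg_part hL hBX, ← mul_add]
  congr 1
  have hm : MeasurableSet {s : ℝ | s ∈ Set.Ioc (c0 L) 1 ∧ ph L s ∈ B} :=
    measurableSet_Ioc.inter ((ph_cont hL).measurable hB)
  rw [← measure_union _ hm]
  · refine le_antisymm (measure_mono ?_) ?_
    · rintro s (⟨h3, h4⟩ | ⟨h3, h4⟩)
      · exact ⟨⟨h3.1, by linarith [h3.2]⟩, h4⟩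
      · exact ⟨⟨by linarith [h3.1], h3.2⟩, h4⟩
    · have h3 : {s : ℝ | s ∈ Set.Icc 0 1 ∧ ph L s ∈ B} ⊆
          ({s : ℝ | s ∈ Set.Ico 0 (c0 L) ∧ ph L s ∈ B} ∪
            {s : ℝ | s ∈ Set.Ioc (c0 L) 1 ∧ ph L s ∈ B}) ∪ {c0 L} := by
        rintro s ⟨⟨h5, h6⟩, h7⟩
        rcases lt_trichotomy s (c0 L) with h | h | h
        · exact Or.inl (Or.inl ⟨⟨h5, h⟩, h7⟩)
        · exact Or.inr h
        · exact Or.inl (Or.inr ⟨⟨h, h6⟩, h7⟩)
      refine (measure_mono h3).trans ((measure_union_le _ _).trans ?_)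
      rw [Real.volume_singleton, add_zero]
  · rw [Set.disjoint_left]
    rintro s ⟨h3, -⟩ ⟨h4, -⟩
    exact absurd h3.2 (not_lt.2 h4.1.le)

theorem X_closed (L : ℝ) : IsClosed (XS L) :=
  (isCompact_iff_compactSpace.2 (XS_compact L)).isClosed

end PHX_

open PHX_

theorem p_PHX (h_HSC : T_HSC) : T_PHX := by
  intro L hL
  have hpi := Real.pi_pos
  let Φ : C(I, XS L) := ⟨fun s => ⟨ph L s, ph_mem hL s.2⟩,
    ((ph_cont hL).comp continuous_subtype_val).subtype_mk _⟩
  have hval : ∀ s : I, (Φ s : ℂ) = ph L s := fun _ => rfl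
  refine ⟨Φ, ?_, ?_, ?_⟩
  · have hXm : MeasurableSet (XS L) := (X_closed L).measurableSet
    have hX : (Measure.hausdorffMeasure 1 : Measure ℂ) (XS L) = ENNReal.ofReal (2 * Real.pi + L) := by
      rw [total h_HSC hL hXm le_rfl]
      have : {s : ℝ | s ∈ Set.Icc 0 1 ∧ ph L s ∈ XS L} = Set.Icc 0 1 := by
        ext s
        exact ⟨fun h => h.1, fun h => ⟨h, ph_mem hL h⟩⟩
      rw [this, Real.volume_Icc, sub_zero, ENNReal.ofReal_one, mul_one]
    refine Measure.ext fun B hB => ?_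
    have hBm : MeasurableSet (Subtype.val '' B : Set ℂ) := hXm.subtype_image hB
    have hBX : (Subtype.val '' B : Set ℂ) ⊆ XS L := by
      rintro _ ⟨x, -, rfl⟩; exact x.2
    rw [Measure.map_apply Φ.continuous.measurable hB]
    unfold nH
    rw [Measure.smul_apply, (MeasurableEmbedding.subtype_coe hXm).comap_apply, hX,
      total h_HSC hL hBm hBX, smul_eq_mul, ← mul_assoc,
      ENNReal.inv_mul_cancel (by simpa using tot_pos hL) ENNReal.ofReal_ne_top, one_mul]
    have h1 : (volume : Measure I) (Φ ⁻¹' B) = volume (Subtype.val '' (Φ ⁻¹' B) : Set ℝ) :=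
      (MeasurableEmbedding.subtype_coe measurableSet_Icc).comap_apply volume _
    rw [h1]
    congr 1
    ext s
    constructor
    · rintro ⟨x, hx, rfl⟩
      exact ⟨x.2, ⟨Φ x, hx, rfl⟩⟩
    · rintro ⟨hs, ⟨y, hy, hy'⟩⟩
      refine ⟨⟨s, hs⟩, ?_, rfl⟩
      have : Φ ⟨s, hs⟩ = y := Subtype.ext hy'.symm
      rw [Set.mem_preimage, this]
      exact hy
  · intro s hs
    rw [hval, ph_left hs]
    unfold ex cpt c0
    simp only
  · intro s hs
    rw [hval, ph_right hL hs]
    rfl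

end Pool.Agent.FPZ
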