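import Pool.Agent.FPZ.Targets4

set_option autoImplicit false

open scoped Classical unitInterval ENNReal
open MeasureTheory Set

noncomputable section

namespace Pool.Agent.FPZ

namespace PHY_

/-- the point with polar coordinates `r`, `θ` -/
def pol (r θ : ℝ) : ℂ := (r : ℂ) * Complex.exp (θ * Complex.I)

lemma pol_meas : Measurable (fun p : ℝ × ℝ => pol p.1 p.2) := by
  unfold pol
  fun_prop

lemma norm_pol (r θ : ℝ) : ‖pol r θ‖ = |r| := by
  simp [pol, Complex.norm_exp]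

lemma symm_eq (p : ℝ × ℝ) : Complex.polarCoord.symm p = pol p.1 p.2 := by
  rw [Complex.polarCoord_symm_apply, pol, Complex.exp_mul_I]
  push_cast
  rfl

/-- a full period -/
lemma period (g : ℝ → ℝ≥0∞) (hg : ∀ θ, g (θ + 2 * Real.pi) = g θ) :
    ∫⁻ θ in Ioo (-Real.pi) Real.pi, g θ =
      ENNReal.ofReal (2 * Real.pi) * ∫⁻ x in Icc (0 : ℝ) 1, g (2 * Real.pi * x) := by
  have h2 : (0 : ℝ) < 2 * Real.pi := by positivity
  have h1 : ∫⁻ θ in Ioo (-Real.pi) Real.pi, g θ = ∫⁻ θ in Ioc (-Real.pi) (-Real.pi + 2 * Real.pi), g θ := by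
    rw [show -Real.pi + 2 * Real.pi = Real.pi by ring]
    exact setLIntegral_congr Ioo_ae_eq_Ioc
  have h3 : ∫⁻ θ in Ioc (-Real.pi) (-Real.pi + 2 * Real.pi), g θ = ∫⁻ θ in Ioc (0 : ℝ) (0 + 2 * Real.pi), g θ := by
    refine (isAddFundamentalDomain_Ioc h2 (-Real.pi)).setLIntegral_eq (isAddFundamentalDomain_Ioc h2 0) g ?_
    rintro ⟨w, hw⟩ x
    obtain ⟨n, rfl⟩ := AddSubgroup.mem_zmultiples_iff.mp hw
    have hper : Function.Periodic g (2 * Real.pi) := hg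
    change g (n • (2 * Real.pi) + x) = g x
    rw [add_comm]
    exact hper.zsmul n x
  have h4 : ∫⁻ θ in Ioc (0 : ℝ) (0 + 2 * Real.pi), g θ = ∫⁻ θ in Icc (0 : ℝ) (2 * Real.pi), g θ := by
    rw [zero_add]
    exact setLIntegral_congr Ioc_ae_eq_Icc
  have h5 : (fun x : ℝ => 2 * Real.pi * x) '' Icc (0 : ℝ) 1 = Icc 0 (2 * Real.pi) := by
    rw [Set.image_mul_left_Icc h2.le (by norm_num)]
    simp
  rw [h1, h3, h4, ← h5, lintegral_image_eq_lintegral_abs_deriv_mul measurableSet_Icc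
    (f' := fun _ => 2 * Real.pi) (fun x _ => by
      simpa using ((hasDerivAt_id x).const_mul (2 * Real.pi)).hasDerivWithinAt)
    (fun x _ y _ h => by
      have h' : 2 * Real.pi * x = 2 * Real.pi * y := h
      exact mul_left_cancel₀ h2.ne' h')]
  simp only [abs_of_pos h2]
  rw [lintegral_const_mul' _ _ ENNReal.ofReal_ne_top]

/-- the radius -/
def Rr (r₁ r₂ y : ℝ) : ℝ := Real.sqrt (r₁ ^ 2 + (r₂ ^ 2 - r₁ ^ 2) * y)

lemma pos_in {r₁ r₂ y : ℝ} (h1 : 0 < r₁) (h2 : r₁ < r₂) (hy : 0 ≤ y) : 0 < r₁ ^ 2 + (r₂ ^ 2 - r₁ ^ 2) * y := by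
  have : 0 < r₂ ^ 2 - r₁ ^ 2 := by nlinarith
  positivity

lemma Rr_le {r₁ r₂ y : ℝ} (h1 : 0 < r₁) (h2 : r₁ < r₂) (hy : 0 ≤ y) (hy1 : y ≤ 1) :
    r₁ ≤ Rr r₁ r₂ y ∧ Rr r₁ r₂ y ≤ r₂ := by
  have h3 : 0 < r₂ ^ 2 - r₁ ^ 2 := by nlinarith
  constructor
  · refine Real.le_sqrt_of_sq_le ?_
    nlinarith [mul_nonneg h3.le hy]
  · refine Real.sqrt_le_iff.mpr ⟨by linarith, ?_⟩
    nlinarith [mul_le_mul_of_nonneg_left hy1 h3.le]

lemma radial {r₁ r₂ : ℝ} (h1 : 0 < r₁) (h2 : r₁ < r₂) (h : ℝ → ℝ≥0∞) :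
    ∫⁻ r in Icc r₁ r₂, ENNReal.ofReal r * h r =
      ENNReal.ofReal ((r₂ ^ 2 - r₁ ^ 2) / 2) * ∫⁻ y in Icc (0 : ℝ) 1, h (Rr r₁ r₂ y) := by
  have h3 : 0 < r₂ ^ 2 - r₁ ^ 2 := by nlinarith
  have him : Rr r₁ r₂ '' Icc (0 : ℝ) 1 = Icc r₁ r₂ := by
    ext r
    constructor
    · rintro ⟨y, hy, rfl⟩
      exact ⟨(Rr_le h1 h2 hy.1 hy.2).1, (Rr_le h1 h2 hy.1 hy.2).2⟩
    · intro hr
      have hr0 : 0 < r := lt_of_lt_of_le h1 hr.1
      refine ⟨(r ^ 2 - r₁ ^ 2) / (r₂ ^ 2 - r₁ ^ 2), ⟨?_, ?_⟩, ?_⟩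
      · have : r₁ ^ 2 ≤ r ^ 2 := by nlinarith [hr.1]
        exact div_nonneg (by linarith) h3.le
      · rw [div_le_one h3]
        nlinarith [hr.2]
      · unfold Rr
        rw [mul_div_cancel₀ _ h3.ne', add_sub_cancel, Real.sqrt_sq hr0.le]
  have hinj : InjOn (Rr r₁ r₂) (Icc (0 : ℝ) 1) := by
    intro x hx y hy hxy
    have hx' := Real.sq_sqrt (pos_in h1 h2 hx.1).le
    have hy' := Real.sq_sqrt (pos_in h1 h2 hy.1).le
    unfold Rr at hxy
    rw [hxy, hy'] at hx'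
    have : (r₂ ^ 2 - r₁ ^ 2) * y = (r₂ ^ 2 - r₁ ^ 2) * x := by linarith
    exact (mul_left_cancel₀ h3.ne' this).symm
  have hder : ∀ y ∈ Icc (0 : ℝ) 1, HasDerivWithinAt (Rr r₁ r₂)
      ((r₂ ^ 2 - r₁ ^ 2) / (2 * Rr r₁ r₂ y)) (Icc 0 1) y := by
    intro y hy
    have hp := pos_in h1 h2 hy.1
    have ha : HasDerivAt (fun y : ℝ => r₁ ^ 2 + (r₂ ^ 2 - r₁ ^ 2) * y) (r₂ ^ 2 - r₁ ^ 2) y := by
      simpa using ((hasDerivAt_id y).const_mul (r₂ ^ 2 - r₁ ^ 2)).const_add (r₁ ^ 2)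
    exact (ha.sqrt hp.ne').hasDerivWithinAt
  rw [← him, lintegral_image_eq_lintegral_abs_deriv_mul measurableSet_Icc hder hinj,
    ← lintegral_const_mul' _ _ ENNReal.ofReal_ne_top]
  refine setLIntegral_congr_fun measurableSet_Icc ?_
  intro y hy
  have hR : 0 < Rr r₁ r₂ y := Real.sqrt_pos.mpr (pos_in h1 h2 hy.1)
  simp only
  rw [← mul_assoc, ← ENNReal.ofReal_mul (abs_nonneg _), abs_of_pos (by positivity)]
  congr 2
  field_simp

/-- the integral of a function which vanishes outside the annulus -/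
lemma main {r₁ r₂ : ℝ} (h1 : 0 < r₁) (h2 : r₁ < r₂) (f : ℂ → ℝ≥0∞) (hf : Measurable f)
    (h0 : ∀ z, z ∉ YS r₁ r₂ → f z = 0) :
    ∫⁻ z, f z = ENNReal.ofReal (Real.pi * (r₂ ^ 2 - r₁ ^ 2)) *
      ∫⁻ y in Icc (0 : ℝ) 1, ∫⁻ x in Icc (0 : ℝ) 1, f (pol (Rr r₁ r₂ y) (2 * Real.pi * x)) := by
  have hmF : Measurable (fun p : ℝ × ℝ => f (pol p.1 p.2)) := hf.comp pol_meas
  rw [← Complex.lintegral_comp_polarCoord_symm f]
  have ha : ∫⁻ p in polarCoord.target, ENNReal.ofReal p.1 • f (Complex.polarCoord.symm p) =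
      ∫⁻ r in Ioi (0 : ℝ), ∫⁻ θ in Ioo (-Real.pi) Real.pi, ENNReal.ofReal r * f (pol r θ) := by
    rw [polarCoord_target, Measure.volume_eq_prod, ← Measure.prod_restrict, lintegral_prod]
    · simp only [symm_eq, smul_eq_mul]
    · simp only [symm_eq, smul_eq_mul]
      exact ((ENNReal.measurable_ofReal.comp measurable_fst).mul hmF).aemeasurable
  rw [ha]
  have hb : ∀ r : ℝ, ∫⁻ θ in Ioo (-Real.pi) Real.pi, ENNReal.ofReal r * f (pol r θ) =
      ENNReal.ofReal r * (ENNReal.ofReal (2 * Real.pi) * ∫⁻ x in Icc (0 : ℝ) 1, f (pol r (2 * Real.pi * x))) := by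
    intro r
    rw [lintegral_const_mul' _ _ ENNReal.ofReal_ne_top, period]
    intro θ
    congr 1
    unfold pol
    have : Complex.exp (((θ + 2 * Real.pi : ℝ) : ℂ) * Complex.I) = Complex.exp (θ * Complex.I) := by
      push_cast
      rw [add_mul, Complex.exp_add, Complex.exp_two_pi_mul_I, mul_one]
    rw [this]
  simp_rw [hb]
  have hc : ∫⁻ r in Ioi (0 : ℝ), ENNReal.ofReal r * (ENNReal.ofReal (2 * Real.pi) *
        ∫⁻ x in Icc (0 : ℝ) 1, f (pol r (2 * Real.pi * x))) =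
      ∫⁻ r in Icc r₁ r₂, ENNReal.ofReal r * (ENNReal.ofReal (2 * Real.pi) *
        ∫⁻ x in Icc (0 : ℝ) 1, f (pol r (2 * Real.pi * x))) := by
    rw [← lintegral_indicator measurableSet_Ioi, ← lintegral_indicator measurableSet_Icc]
    congr 1
    funext r
    by_cases hr : r ∈ Icc r₁ r₂
    · rw [indicator_of_mem hr, indicator_of_mem (show r ∈ Ioi (0 : ℝ) from lt_of_lt_of_le h1 hr.1)]
    · rw [indicator_of_notMem hr]
      by_cases hr0 : r ∈ Ioi (0 : ℝ)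
      · rw [indicator_of_mem hr0]
        have hz : ∀ x : ℝ, f (pol r (2 * Real.pi * x)) = 0 := by
          intro x
          apply h0
          intro hz
          have hn := norm_pol r (2 * Real.pi * x)
          rw [abs_of_pos (show 0 < r from hr0)] at hn
          apply hr
          unfold YS at hz
          rw [mem_ofPred_eq, hn] at hz
          exact hz
        simp [hz]
      · rw [indicator_of_notMem hr0]
  rw [hc, radial h1 h2 (fun r => ENNReal.ofReal (2 * Real.pi) *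
        ∫⁻ x in Icc (0 : ℝ) 1, f (pol r (2 * Real.pi * x))),
    lintegral_const_mul' _ _ ENNReal.ofReal_ne_top, ← mul_assoc,
    ← ENNReal.ofReal_mul (by nlinarith)]
  congr 2
  ring

end PHY_

open PHY_

theorem p_PHY : T_PHY := by
  intro r₁ r₂ h1 h2
  have h3 : 0 < r₂ ^ 2 - r₁ ^ 2 := by nlinarith
  have hmem : ∀ p : I × I, ((Rr r₁ r₂ (p.2 : ℝ) : ℝ) : ℂ) * (cpt (p.1 : ℝ) : ℂ) ∈ YS r₁ r₂ := by
    intro p
    have hn : ‖((Rr r₁ r₂ (p.2 : ℝ) : ℝ) : ℂ) * (cpt (p.1 : ℝ) : ℂ)‖ = Rr r₁ r₂ p.2 := by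
      have : ‖(cpt (p.1 : ℝ) : ℂ)‖ = 1 := by simp
      rw [norm_mul, this, mul_one, Complex.norm_real, Real.norm_eq_abs,
        abs_of_nonneg (show 0 ≤ Rr r₁ r₂ (p.2 : ℝ) from Real.sqrt_nonneg _)]
    unfold YS
    rw [mem_ofPred_eq, hn]
    exact Rr_le h1 h2 p.2.2.1 p.2.2.2
  have hcont : Continuous fun p : I × I => ((Rr r₁ r₂ (p.2 : ℝ) : ℝ) : ℂ) * (cpt (p.1 : ℝ) : ℂ) := by
    unfold Rr cpt
    simp only
    fun_prop
  let Φ : C(I × I, YS r₁ r₂) := ⟨fun p => ⟨_, hmem p⟩, hcont.subtype_mk _⟩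
  have hYm : MeasurableSet (YS r₁ r₂) := by
    unfold YS
    exact (measurableSet_le measurable_const measurable_norm).inter (measurableSet_le measurable_norm measurable_const)
  have key : ∀ E : Set ℂ, MeasurableSet E → E ⊆ YS r₁ r₂ →
      (volume : Measure ℂ) E = ENNReal.ofReal (Real.pi * (r₂ ^ 2 - r₁ ^ 2)) *
        (volume : Measure (I × I)) {p | ((Rr r₁ r₂ (p.2 : ℝ) : ℝ) : ℂ) * (cpt (p.1 : ℝ) : ℂ) ∈ E} := by
    intro E hE hEY
    have hpm : MeasurableSet {p : I × I | ((Rr r₁ r₂ (p.2 : ℝ) : ℝ) : ℂ) * (cpt (p.1 : ℝ) : ℂ) ∈ E} :=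
      hcont.measurable hE
    have hm := main h1 h2 (E.indicator 1) (measurable_one.indicator hE)
      (fun z hz => indicator_of_notMem (fun h => hz (hEY h)) _)
    rw [lintegral_indicator_one hE] at hm
    rw [hm]
    congr 1
    rw [← lintegral_indicator_one hpm, Measure.volume_eq_prod, lintegral_prod_symm]
    · have e1 : ∀ g : ℝ → ℝ≥0∞, ∫⁻ y in Icc (0 : ℝ) 1, g y = ∫⁻ y : I, g (y : ℝ) := by
        intro g
        exact (lintegral_subtype_comap measurableSet_Icc g).symm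
      rw [e1]
      refine lintegral_congr fun y => ?_
      rw [e1]
      refine lintegral_congr fun x => ?_
      have hz : pol (Rr r₁ r₂ (y : ℝ)) (2 * Real.pi * (x : ℝ)) =
          ((Rr r₁ r₂ (y : ℝ) : ℝ) : ℂ) * (cpt (x : ℝ) : ℂ) := by
        unfold pol cpt
        push_cast
        rfl
      rw [hz]
      rfl
    · exact (measurable_one.indicator hpm).aemeasurable
  refine ⟨Φ, ?_, fun x y => rfl⟩
  have hvol : (volume : Measure ℂ) (YS r₁ r₂) = ENNReal.ofReal (Real.pi * (r₂ ^ 2 - r₁ ^ 2)) := by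
    rw [key _ hYm le_rfl]
    have : {p : I × I | ((Rr r₁ r₂ (p.2 : ℝ) : ℝ) : ℂ) * (cpt (p.1 : ℝ) : ℂ) ∈ YS r₁ r₂} = univ :=
      eq_univ_of_forall hmem
    rw [this, measure_univ, mul_one]
  refine Measure.ext fun A hA => ?_
  rw [Measure.map_apply Φ.continuous.measurable hA]
  have hE : MeasurableSet ((Subtype.val : YS r₁ r₂ → ℂ) '' A) := (MeasurableEmbedding.subtype_coe hYm).measurableSet_image.mpr hA
  have hk := key _ hE (by rintro _ ⟨z, _, rfl⟩; exact z.2)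
  have hset : {p : I × I | ((Rr r₁ r₂ (p.2 : ℝ) : ℝ) : ℂ) * (cpt (p.1 : ℝ) : ℂ) ∈ (Subtype.val : YS r₁ r₂ → ℂ) '' A} = Φ ⁻¹' A := by
    ext p
    constructor
    · rintro ⟨z, hz, hzp⟩
      have : z = Φ p := Subtype.ext hzp
      change Φ p ∈ A
      rw [← this]
      exact hz
    · intro hp
      exact ⟨Φ p, hp, rfl⟩
  rw [hset] at hk
  have hpos : ENNReal.ofReal (Real.pi * (r₂ ^ 2 - r₁ ^ 2)) ≠ 0 := by
    rw [Ne, ENNReal.ofReal_eq_zero, not_le]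
    positivity
  unfold nL
  rw [Measure.smul_apply, (MeasurableEmbedding.subtype_coe hYm).comap_apply, hk, hvol, smul_eq_mul, ← mul_assoc,
    ENNReal.inv_mul_cancel hpos ENNReal.ofReal_ne_top, one_mul]

end Pool.Agent.FPZ
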