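import Pool.Agent.FPZ.Targets2

set_option autoImplicit false

/-!
# FPZ: T_PLE, making an approximate isometry exact
-/

namespace Pool.Agent.FPZ

namespace PLE_

theorem scalar_bound (s δ : ℝ) (hs : |s - 1| ≤ δ) (hδ : δ ≤ 1 / 4) :
    |(Real.sqrt s)⁻¹ - 1| ≤ 2 * δ := by
  have h1 := abs_le.1 hs
  have hs34 : 3 / 4 ≤ s := by linarith [h1.1]
  have hsq : (1 / 2 : ℝ) ≤ Real.sqrt s := by
    refine Real.le_sqrt_of_sq_le ?_
    nlinarith
  have hsq0 : 0 < Real.sqrt s := by linarith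
  have hss : Real.sqrt s * Real.sqrt s = s := Real.mul_self_sqrt (by linarith)
  have h2 : (Real.sqrt s)⁻¹ - 1 = (1 - s) / (Real.sqrt s * (1 + Real.sqrt s)) := by
    rw [eq_div_iff (by positivity)]
    field_simp
    nlinarith
  have hden : (1 / 2 : ℝ) ≤ Real.sqrt s * (1 + Real.sqrt s) := by nlinarith
  rw [h2, abs_div, abs_of_pos (show 0 < Real.sqrt s * (1 + Real.sqrt s) by positivity),
    div_le_iff₀ (by positivity), abs_sub_comm]
  have hδ0 : 0 ≤ δ := (abs_nonneg _).trans hs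
  nlinarith

end PLE_

theorem p_PLE : T_PLE := by
  intro A _ e c δ he hce hn hδ
  have hese : star e = e := he.isSelfAdjoint
  have hee : e * e = e := he.isIdempotentElem
  have hec : e * star c = star c := by
    have h1 := congrArg star hce
    rw [star_mul, hese] at h1
    exact h1
  obtain ⟨h, hh⟩ : ∃ h : A, h = star c * c + (1 - e) := ⟨_, rfl⟩
  have hsa : IsSelfAdjoint h := by
    rw [hh]
    refine (IsSelfAdjoint.star_mul_self c).add ?_
    exact (IsSelfAdjoint.one A).sub he.isSelfAdjoint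
  have hcom : Commute h e := by
    show h * e = e * h
    rw [hh, add_mul, mul_add, mul_assoc, hce, ← mul_assoc, hec, sub_mul, mul_sub, one_mul, mul_one]
  have hn1 : ‖h - 1‖ ≤ δ := by
    have h1 : h - 1 = star c * c - e := by
      rw [hh]
      abel
    rw [h1]
    exact hn
  have hspec : ∀ s ∈ spectrum ℝ h, |s - 1| ≤ δ := by
    intro s hs
    have h1 : cfc (fun t : ℝ => t - 1) h = h - 1 := by
      rw [cfc_sub (fun t : ℝ => t) (fun _ => (1 : ℝ)) h, cfc_id' ℝ h, cfc_const_one ℝ h]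
    have h2 := norm_apply_le_norm_cfc (fun t : ℝ => t - 1) h hs
    rw [h1] at h2
    exact h2.trans hn1
  have hpos : ∀ s ∈ spectrum ℝ h, 3 / 4 ≤ s := by
    intro s hs
    have h1 := (abs_le.1 (hspec s hs)).1
    linarith
  have hcont : ContinuousOn (fun s : ℝ => (Real.sqrt s)⁻¹) (spectrum ℝ h) := by
    refine (Real.continuous_sqrt.continuousOn).inv₀ ?_
    intro s hs
    exact (Real.sqrt_pos.2 (by linarith [hpos s hs])).ne'
  obtain ⟨x, hx⟩ : ∃ x : A, x = cfc (fun s : ℝ => (Real.sqrt s)⁻¹) h := ⟨_, rfl⟩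
  have hxsa : star x = x := by
    rw [hx]
    exact cfc_predicate (fun s : ℝ => (Real.sqrt s)⁻¹) h
  have hxe : x * e = e * x := by
    rw [hx]
    exact hcom.cfc_real _
  have hx1 : ‖x - 1‖ ≤ 2 * δ := by
    have hδ0 : 0 ≤ δ := (norm_nonneg _).trans hn
    have h1 : x - 1 = cfc (fun s : ℝ => (Real.sqrt s)⁻¹ - 1) h := by
      rw [cfc_sub (fun s : ℝ => (Real.sqrt s)⁻¹) (fun _ => (1 : ℝ)) h hcont, cfc_const_one ℝ h, hx]
    rw [h1]
    refine norm_cfc_le (by linarith) ?_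
    intro s hs
    exact PLE_.scalar_bound s δ (hspec s hs) hδ
  have hxhx : x * h * x = 1 := by
    have h1 : x * h * x = cfc (fun s : ℝ => (Real.sqrt s)⁻¹ * s * (Real.sqrt s)⁻¹) h := by
      rw [cfc_mul (fun s : ℝ => (Real.sqrt s)⁻¹ * s) (fun s : ℝ => (Real.sqrt s)⁻¹) h
        (hcont.mul continuousOn_id) hcont, cfc_mul (fun s : ℝ => (Real.sqrt s)⁻¹) (fun s : ℝ => s) h
        hcont continuousOn_id, cfc_id' ℝ h, ← hx]
    rw [h1, ← cfc_const_one ℝ h]
    refine cfc_congr ?_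
    intro s hs
    have h2 : 0 < Real.sqrt s := Real.sqrt_pos.2 (by linarith [hpos s hs])
    have h3 : Real.sqrt s * Real.sqrt s = s := Real.mul_self_sqrt (by linarith [hpos s hs])
    show (Real.sqrt s)⁻¹ * s * (Real.sqrt s)⁻¹ = 1
    field_simp
    nlinarith
  refine ⟨x, hx1, hxe, ?_, ?_⟩
  · have h1 : star c * c = h * e := by
      rw [hh, add_mul, mul_assoc, hce, sub_mul, one_mul, hee, sub_self, add_zero]
    rw [star_mul, hxsa, mul_assoc, ← mul_assoc (star c), h1, mul_assoc h, ← hxe, ← mul_assoc,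
      ← mul_assoc, hxhx, one_mul]
  · rw [mul_assoc, hxe, ← mul_assoc, hce]

end Pool.Agent.FPZ
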