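import Pool.Agent.FPZ.Targets3

set_option autoImplicit false

/-!
# FPZ: the permutation unitary (T_PRM)
-/

open scoped Classical

noncomputable section

namespace Pool.Agent.FPZ

namespace PRM_

variable {A S : Type} [CStarAlgebra A] [Fintype S]

/-- `v s * p = v s`. -/
theorem vp {p v : A} (hp : IsStarProjection p) (h : star v * v = p) : v * p = v := by
  have h1 : p * p = p := hp.isIdempotentElem
  have h2 : star p = p := hp.isSelfAdjoint
  have h3 : star (v * p - v) * (v * p - v) = 0 := by
    rw [star_sub, star_mul, h2, sub_mul, mul_sub, mul_sub]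
    rw [show p * star v * (v * p) = p * (star v * v) * p by noncomm_ring,
      show p * star v * v = p * (star v * v) by noncomm_ring,
      show star v * (v * p) = (star v * v) * p by noncomm_ring, h, h1, h1, sub_self]
  exact sub_eq_zero.mp (CStarRing.star_mul_self_eq_zero_iff _ |>.mp h3)

theorem mulW (p : A) (v : S → A) (h1 : ∀ s, star (v s) * v s = p)
    (h2 : ∀ s s', s ≠ s' → star (v s) * v s' = 0) (f g : S → A) :
    (∑ s, f s * star (v s)) * (∑ s, v s * g s) = ∑ s, f s * p * g s := by
  rw [Finset.sum_mul_sum]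
  refine Finset.sum_congr rfl fun s _ => ?_
  rw [Finset.sum_eq_single s]
  · rw [← h1 s]; noncomm_ring
  · intro s' _ hs
    rw [show f s * star (v s) * (v s' * g s') = f s * (star (v s) * v s') * g s' by noncomm_ring,
      h2 s s' (Ne.symm hs)]
    simp
  · intro h; exact absurd (Finset.mem_univ s) h

end PRM_

open PRM_ in
theorem p_PRM : T_PRM := by
  intro A S _ _ p v π hp h1 h2
  have hvp : ∀ s, v s * p = v s := fun s => vp hp (h1 s)
  have hm := mulW p v h1 h2
  -- diagonal element
  have hsE : star (∑ s, v s * star (v s)) = ∑ s, v s * star (v s) := by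
    rw [star_sum]; exact Finset.sum_congr rfl fun s _ => by simp
  have hsW : star (∑ s, v (π s) * star (v s)) = ∑ s, v s * star (v (π s)) := by
    rw [star_sum]; exact Finset.sum_congr rfl fun s _ => by simp
  have hW' : (∑ s, v s * star (v (π s))) = ∑ s, v (π.symm s) * star (v s) := by
    rw [← Equiv.sum_comp π (fun s => v (π.symm s) * star (v s))]
    exact Finset.sum_congr rfl fun s _ => by simp
  have hW : (∑ s, v (π s) * star (v s)) = ∑ s, v s * star (v (π.symm s)) := by
    rw [← Equiv.sum_comp π (fun s => v s * star (v (π.symm s)))]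
    exact Finset.sum_congr rfl fun s _ => by simp
  have hEE : (∑ s, v s * star (v s)) * (∑ s, v s * star (v s)) = ∑ s, v s * star (v s) := by
    rw [hm]; exact Finset.sum_congr rfl fun s _ => by rw [hvp]
  have hWE : (∑ s, v (π s) * star (v s)) * (∑ s, v s * star (v s)) = ∑ s, v (π s) * star (v s) := by
    rw [hm]; exact Finset.sum_congr rfl fun s _ => by rw [hvp]
  have hEW : (∑ s, v s * star (v s)) * (∑ s, v (π s) * star (v s)) = ∑ s, v (π s) * star (v s) := by
    rw [hW, hm]; exact Finset.sum_congr rfl fun s _ => by rw [hvp]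
  have hW'E : (∑ s, v s * star (v (π s))) * (∑ s, v s * star (v s)) = ∑ s, v s * star (v (π s)) := by
    rw [hW', hm]; exact Finset.sum_congr rfl fun s _ => by rw [hvp]
  have hEW' : (∑ s, v s * star (v s)) * (∑ s, v s * star (v (π s))) = ∑ s, v s * star (v (π s)) := by
    rw [hm]; exact Finset.sum_congr rfl fun s _ => by rw [hvp]
  have hW'W : (∑ s, v s * star (v (π s))) * (∑ s, v (π s) * star (v s)) = ∑ s, v s * star (v s) := by
    rw [hW', hW, hm]
    rw [← Equiv.sum_comp π]
    exact Finset.sum_congr rfl fun s _ => by simp [hvp]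
  have hWW' : (∑ s, v (π s) * star (v s)) * (∑ s, v s * star (v (π s))) = ∑ s, v s * star (v s) := by
    rw [hm, ← Equiv.sum_comp π (fun s => v s * star (v s))]
    exact Finset.sum_congr rfl fun s _ => by rw [hvp]
  refine ⟨(1 - ∑ s, v s * star (v s)) + ∑ s, v (π s) * star (v s), ?_, ?_, ?_, ?_, ?_⟩
  · rw [star_add, star_sub, star_one, hsE, hsW]
    simp only [add_mul, mul_add, sub_mul, mul_sub, one_mul, mul_one, hEE, hEW, hW'E, hW'W]
    abel
  · rw [star_add, star_sub, star_one, hsE, hsW]
    simp only [add_mul, mul_add, sub_mul, mul_sub, one_mul, mul_one, hEE, hWE, hEW', hWW']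
    abel
  · simp only [add_mul, sub_mul, mul_sub, one_mul, mul_one, hEE, hWE]
    abel
  · simp only [mul_add, sub_mul, mul_sub, one_mul, mul_one, hEE, hEW]
    abel
  · intro c
    have hX : (∑ s, c s • (v s * star (v s))) = ∑ s, v s * (c s • star (v s)) :=
      Finset.sum_congr rfl fun s _ => by rw [mul_smul_comm]
    have hX' : (∑ s, c s • (v s * star (v s))) = ∑ s, (c s • v s) * star (v s) :=
      Finset.sum_congr rfl fun s _ => by rw [smul_mul_assoc]
    have hEX : (∑ s, v s * star (v s)) * (∑ s, c s • (v s * star (v s))) = ∑ s, c s • (v s * star (v s)) := by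
      rw [hX, hm]; exact Finset.sum_congr rfl fun s _ => by rw [hvp]
    have hWX : (∑ s, v (π s) * star (v s)) * (∑ s, c s • (v s * star (v s))) =
        ∑ s, (c s • v (π s)) * star (v s) := by
      rw [hX, hm]
      exact Finset.sum_congr rfl fun s _ => by rw [hvp, mul_smul_comm, smul_mul_assoc]
    have hWXE : (∑ s, (c s • v (π s)) * star (v s)) * (∑ s, v s * star (v s)) =
        ∑ s, (c s • v (π s)) * star (v s) := by
      rw [hm]; exact Finset.sum_congr rfl fun s _ => by rw [smul_mul_assoc, hvp]
    have hWXW : (∑ s, (c s • v (π s)) * star (v s)) * (∑ s, v s * star (v (π s))) =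
        ∑ s, c s • (v (π s) * star (v (π s))) := by
      rw [hm]; exact Finset.sum_congr rfl fun s _ => by rw [smul_mul_assoc, hvp, smul_mul_assoc]
    have hUX : ((1 - ∑ s, v s * star (v s)) + ∑ s, v (π s) * star (v s)) * (∑ s, c s • (v s * star (v s))) =
        ∑ s, (c s • v (π s)) * star (v s) := by
      rw [add_mul, sub_mul, one_mul, hEX, hWX, sub_self, zero_add]
    rw [hUX, star_add, star_sub, star_one, hsE, hsW, mul_add, mul_sub, mul_one, hWXE, hWXW,
      sub_self, zero_add]

end Pool.Agent.FPZ
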