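import Pool.Agent.FPZ.Targets2

set_option autoImplicit false

/-!
# FPZ, target PRT: approximation of projections in a closed subalgebra
-/

noncomputable section

namespace Pool.Agent.FPZ

namespace PRT_

/-- the cut-off function -/
def g (x : ℝ) : ℝ := max 0 (min 1 (2 * x - 1 / 2))

theorem g_cont : Continuous g := by
  unfold g
  fun_prop

theorem g_low {x : ℝ} (hx : x ≤ 1 / 4) : g x = 0 := by
  unfold g
  have h1 : min 1 (2 * x - 1 / 2) ≤ 0 := (min_le_right _ _).trans (by linarith)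
  exact max_eq_left h1

theorem g_high {x : ℝ} (hx : 3 / 4 ≤ x) : g x = 1 := by
  unfold g
  have h1 : min 1 (2 * x - 1 / 2) = 1 := min_eq_left (by linarith)
  rw [h1]
  norm_num

theorem two_sub_one {A : Type} [CStarAlgebra A] {P : A} (hP : IsStarProjection P) :
    ‖2 * P - 1‖ ≤ 1 := by
  have hPP : P * P = P := hP.isIdempotentElem
  have hPs : star P = P := hP.isSelfAdjoint
  have hs : star (2 * P - 1) = 2 * P - 1 := by
    rw [star_sub, star_mul, hPs, star_one, star_ofNat]
    noncomm_ring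
  have h1 : star (2 * P - 1) * (2 * P - 1) = 1 := by
    rw [hs]
    have : (2 * P - 1) * (2 * P - 1) = 4 * (P * P) - 4 * P + 1 := by noncomm_ring
    rw [this, hPP]
    noncomm_ring
  have h2 : ‖(1 : A)‖ ≤ 1 := by
    rcases subsingleton_or_nontrivial A with h | h
    · rw [Subsingleton.elim (1 : A) 0, norm_zero]
      norm_num
    · rw [CStarRing.norm_one]
  have h3 := CStarRing.norm_star_mul_self (x := 2 * P - 1)
  rw [h1] at h3
  nlinarith [norm_nonneg (2 * P - 1)]

/-- the quadratic estimate -/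
theorem quad {A : Type} [CStarAlgebra A] {P a : A} (hP : IsStarProjection P)
    (h : ‖P - a‖ ≤ 1 / 8) : ‖a ^ 2 - a‖ ≤ 9 / 64 := by
  have hPP : P * P = P := hP.isIdempotentElem
  set e := P - a with he
  have ha : a = P - e := by rw [he]; noncomm_ring
  have h1 : (2 : ℂ) • (a ^ 2 - a) =
      (2 : ℂ) • (e * e) - (2 * P - 1) * e - e * (2 * P - 1) := by
    rw [ha, two_smul, two_smul]
    have : (P - e) ^ 2 = P * P - P * e - e * P + e * e := by noncomm_ring
    rw [this, hPP]
    noncomm_ring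
  have h2 := two_sub_one hP
  have h3 : ‖(2 : ℂ) • (a ^ 2 - a)‖ ≤ 2 * (1 / 8 * (1 / 8)) + 1 * (1 / 8) + 1 / 8 * 1 := by
    rw [h1]
    refine (norm_sub_le _ _).trans (add_le_add ((norm_sub_le _ _).trans (add_le_add ?_ ?_)) ?_)
    · rw [norm_smul]
      have : ‖(2 : ℂ)‖ = 2 := by norm_num
      rw [this]
      refine mul_le_mul_of_nonneg_left ?_ (by norm_num)
      exact (norm_mul_le _ _).trans (mul_le_mul h h (norm_nonneg _) (by norm_num))
    · exact (norm_mul_le _ _).trans (mul_le_mul h2 h (norm_nonneg _) (by norm_num))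
    · exact (norm_mul_le _ _).trans (mul_le_mul h h2 (norm_nonneg _) (by norm_num))
  rw [norm_smul] at h3
  have : ‖(2 : ℂ)‖ = 2 := by norm_num
  rw [this] at h3
  linarith

end PRT_

open PRT_ in
theorem p_PRT : T_PRT := by
  intro A _ D P d hD hP hd hPd
  have hPs : star P = P := hP.isSelfAdjoint
  set a : A := (2 : ℝ)⁻¹ • (d + star d) with ha_def
  have ha : IsSelfAdjoint a := by
    rw [isSelfAdjoint_iff, ha_def, star_smul, star_add, star_star, star_trivial, add_comm]
  have haD : a ∈ D := by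
    have h1 : (((2 : ℝ)⁻¹ : ℝ) : ℂ) • (d + star d) ∈ D :=
      D.smul_mem (D.add_mem hd (D.star_mem' hd)) _
    have h2 : a = (((2 : ℝ)⁻¹ : ℝ) : ℂ) • (d + star d) := by
      rw [ha_def, Complex.coe_smul]
    rw [h2]
    exact h1
  have hPa : ‖P - a‖ ≤ 1 / 8 := by
    have h1 : P - a = (2 : ℝ)⁻¹ • ((P - d) + star (P - d)) := by
      rw [ha_def, star_sub, hPs]
      module
    rw [h1, norm_smul]
    have h2 : ‖(P - d) + star (P - d)‖ ≤ 1 / 8 + 1 / 8 :=
      (norm_add_le _ _).trans (add_le_add hPd.le (by rw [norm_star]; exact hPd.le))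
    have h3 : ‖(2 : ℝ)⁻¹‖ = 2⁻¹ := by norm_num
    rw [h3]
    linarith
  have hq := quad hP hPa
  have hcf : cfc (fun x : ℝ => x ^ 2 - x) a = a ^ 2 - a := by
    rw [cfc_sub (R := ℝ) (fun x => x ^ 2) (fun x => x) a, cfc_pow_id (R := ℝ) a 2, cfc_id' ℝ a]
  have hspec : ∀ x ∈ spectrum ℝ a, (-(1 / 4) ≤ x ∧ x ≤ 1 / 4) ∨ (3 / 4 ≤ x ∧ x ≤ 5 / 4) := by
    intro x hx
    have h1 := norm_apply_le_norm_cfc (𝕜 := ℝ) (fun x : ℝ => x ^ 2 - x) a hx
    rw [hcf, Real.norm_eq_abs] at h1
    have h2 := abs_le.mp (h1.trans hq)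
    obtain ⟨h3, h4⟩ := h2
    by_cases hx1 : x ≤ 1 / 2
    · left
      constructor <;> nlinarith
    · right
      rw [not_le] at hx1
      constructor <;> nlinarith
  have hg : ContinuousOn g (spectrum ℝ a) := g_cont.continuousOn
  refine ⟨cfc g a, ?_, ⟨?_, ?_⟩, ?_⟩
  · have : IsClosed (D : Set A) := hD
    exact cfc_mem (𝕜' := ℂ) g haD
  · show cfc g a * cfc g a = cfc g a
    rw [← cfc_mul g g a]
    apply cfc_congr
    intro x hx
    show g x * g x = g x
    rcases hspec x hx with h | h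
    · rw [g_low h.2, mul_zero]
    · rw [g_high h.1, mul_one]
  · exact cfc_predicate g a
  · have h1 : ‖a - cfc g a‖ ≤ 1 / 4 := by
      have h2 : a - cfc g a = cfc (fun x : ℝ => x - g x) a := by
        rw [cfc_sub (R := ℝ) (fun x => x) g a, cfc_id' ℝ a]
      rw [h2]
      apply norm_cfc_le (by norm_num)
      intro x hx
      rw [Real.norm_eq_abs, abs_le]
      rcases hspec x hx with h | h
      · rw [g_low h.2]
        constructor <;> linarith [h.1, h.2]
      · rw [g_high h.1]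
        constructor <;> linarith [h.1, h.2]
    have h3 : P - cfc g a = (P - a) + (a - cfc g a) := by noncomm_ring
    rw [h3]
    calc ‖(P - a) + (a - cfc g a)‖ ≤ ‖P - a‖ + ‖a - cfc g a‖ := norm_add_le _ _
      _ ≤ 1 / 8 + 1 / 4 := add_le_add hPa h1
      _ < 1 := by norm_num

end Pool.Agent.FPZ
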