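import Pool.Agent.FPZ.Targets4

set_option autoImplicit false

open scoped Classical unitInterval
open MeasureTheory Set

noncomputable section

namespace Pool.Agent.FPZ

namespace PWL_

lemma map_eq_of_Iic {f : I → I} (hf : Measurable f)
    (h : ∀ a : I, (volume : Measure I) (f ⁻¹' Iic a) = ENNReal.ofReal a) :
    Measure.map f (volume : Measure I) = volume := by
  have : IsProbabilityMeasure (Measure.map f (volume : Measure I)) :=
    Measure.isProbabilityMeasure_map hf.aemeasurable
  refine Measure.ext_of_Iic _ _ fun a => ?_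
  rw [Measure.map_apply hf measurableSet_Iic, h a, unitInterval.volume_Iic]

/-- the real formula of `T` -/
def tf (c : ℝ) (s : ℝ) : ℝ := min s c + (1 - c) * max 0 (1 - |2 * ((s - c) / (1 - c)) - 1|)

lemma tf_cont (c : ℝ) : Continuous (tf c) := by
  unfold tf
  fun_prop

lemma tf_le {c s : ℝ} (hc : c < 1) (hs : s ≤ c) : tf c s = s := by
  have h1 : (s - c) / (1 - c) ≤ 0 := div_nonpos_of_nonpos_of_nonneg (by linarith) (by linarith)
  unfold tf
  rw [min_eq_left hs, abs_of_nonpos (by linarith), max_eq_left (by linarith)]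
  ring

lemma tf_ge {c s : ℝ} (hc : c < 1) (hs : c ≤ s) (hs1 : s ≤ 1) :
    tf c s = c + (1 - c) * (1 - |2 * ((s - c) / (1 - c)) - 1|) := by
  have h0 : 0 ≤ (s - c) / (1 - c) := div_nonneg (by linarith) (by linarith)
  have h1 : (s - c) / (1 - c) ≤ 1 := by
    rw [div_le_one (by linarith)]; linarith
  unfold tf
  rw [min_eq_right hs, max_eq_right]
  rw [sub_nonneg, abs_le]
  constructor <;> linarith

lemma tf_nonneg {c s : ℝ} (hc0 : 0 < c) (hc : c < 1) (hs : 0 ≤ s) : 0 ≤ tf c s := by
  unfold tf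
  have : 0 ≤ (1 - c) * max 0 (1 - |2 * ((s - c) / (1 - c)) - 1|) :=
    mul_nonneg (by linarith) (le_max_left _ _)
  have h2 : 0 ≤ min s c := le_min hs hc0.le
  linarith

lemma tf_le_one {c s : ℝ} (hc : c < 1) (hs1 : s ≤ 1) : tf c s ≤ 1 := by
  rcases le_total s c with h | h
  · rw [tf_le hc h]; exact hs1
  · rw [tf_ge hc h hs1]
    have := abs_nonneg (2 * ((s - c) / (1 - c)) - 1)
    nlinarith

/-- the map `T` -/
def Tm (c : ℝ) (hc0 : 0 < c) (hc : c < 1) : C(I, I) :=
  ⟨fun s => ⟨tf c s, tf_nonneg hc0 hc s.2.1, tf_le_one hc s.2.2⟩,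
    ((tf_cont c).comp continuous_subtype_val).subtype_mk _⟩

lemma Tm_coe (c : ℝ) (hc0 : 0 < c) (hc : c < 1) (s : I) :
    ((Tm c hc0 hc s : I) : ℝ) = tf c s := rfl

lemma Tm_vol (c : ℝ) (hc0 : 0 < c) (hc : c < 1) (a : I) :
    (volume : Measure I) (Tm c hc0 hc ⁻¹' Iic a) = ENNReal.ofReal a := by
  rcases lt_or_ge (a : ℝ) c with h | h
  · have : Tm c hc0 hc ⁻¹' Iic a = Iic a := by
      ext s
      simp only [mem_preimage, mem_Iic, ← Subtype.coe_le_coe, Tm_coe]
      rcases le_total (s : ℝ) c with hs | hs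
      · rw [tf_le hc hs]
      · rw [tf_ge hc hs s.2.2]
        have h0 : 0 ≤ ((s : ℝ) - c) / (1 - c) := div_nonneg (by linarith) (by linarith)
        have h1 : ((s : ℝ) - c) / (1 - c) ≤ 1 := by
          rw [div_le_one (by linarith)]; linarith [s.2.2]
        have h2 : |2 * (((s : ℝ) - c) / (1 - c)) - 1| ≤ 1 := by
          rw [abs_le]; constructor <;> linarith
        constructor
        · intro h3; nlinarith
        · intro h3; linarith
    rw [this, unitInterval.volume_Iic]
  · -- the two points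
    have ha1 : (a : ℝ) ≤ 1 := a.2.2
    let p : I := ⟨c + (a - c) / 2, by linarith, by linarith⟩
    let q : I := ⟨1 - (a - c) / 2, by linarith, by linarith⟩
    have hpq : p ≤ q := by
      rw [← Subtype.coe_le_coe]
      show c + (a - c) / 2 ≤ 1 - (a - c) / 2
      linarith
    have key : Tm c hc0 hc ⁻¹' Iic a = Iic p ∪ Ici q := by
      ext s
      simp only [mem_preimage, mem_union, mem_Iic, mem_Ici, ← Subtype.coe_le_coe, Tm_coe]
      show tf c s ≤ a ↔ ((s : ℝ) ≤ c + (a - c) / 2 ∨ 1 - (a - c) / 2 ≤ (s : ℝ))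
      rcases le_total (s : ℝ) c with hs | hs
      · rw [tf_le hc hs]
        constructor
        · intro _; left; linarith
        · intro _; linarith
      · rw [tf_ge hc hs s.2.2]
        have hc1 : 0 < 1 - c := by linarith
        have e1 : (1 - c) * |2 * (((s : ℝ) - c) / (1 - c)) - 1| = |2 * ((s : ℝ) - c) - (1 - c)| := by
          rw [← abs_of_pos hc1, ← abs_mul, abs_of_pos hc1]
          congr 1
          field_simp
        have e2 : c + (1 - c) * (1 - |2 * (((s : ℝ) - c) / (1 - c)) - 1|) =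
            1 - |2 * ((s : ℝ) - c) - (1 - c)| := by
          rw [← e1]; ring
        rw [e2]
        constructor
        · intro h3
          have h4 : 1 - (a : ℝ) ≤ |2 * ((s : ℝ) - c) - (1 - c)| := by linarith
          rcases le_abs.mp h4 with h5 | h5
          · right; linarith
          · left; linarith
        · rintro (h3 | h3)
          · have := neg_le_abs (2 * ((s : ℝ) - c) - (1 - c))
            linarith
          · have := le_abs_self (2 * ((s : ℝ) - c) - (1 - c))
            linarith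
    have key2 : (volume : Measure I) (Iic p ∪ Ici q) = (volume : Measure I) (Iic p ∪ Ioi q) := by
      apply measure_congr
      exact (ae_eq_refl _).union (Ioi_ae_eq_Ici (μ := (volume : Measure I)) (a := q)).symm
    rw [key, key2, measure_union _ measurableSet_Ioi, unitInterval.volume_Iic, unitInterval.volume_Ioi]
    · show ENNReal.ofReal (c + (a - c) / 2) + ENNReal.ofReal (1 - (1 - (a - c) / 2)) = _
      rw [← ENNReal.ofReal_add (by linarith) (by linarith)]
      congr 1
      ring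
    · rw [Set.disjoint_left]
      intro x hx hx2
      exact absurd (lt_of_lt_of_le (mem_Ioi.mp hx2) (le_trans (mem_Iic.mp hx) hpq)) (lt_irrefl _)

/-- the real formula of `T'` -/
def tf' (c : ℝ) (s : ℝ) : ℝ := if s ≤ c then s / c else (s - c) / (1 - c)

lemma tf'_meas (c : ℝ) : Measurable (tf' c) := by
  unfold tf'
  exact Measurable.ite measurableSet_Iic (by fun_prop) (by fun_prop)

lemma tf'_nonneg {c s : ℝ} (hc0 : 0 < c) (hc : c < 1) (hs : 0 ≤ s) : 0 ≤ tf' c s := by
  unfold tf'
  split_ifs with h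
  · positivity
  · exact div_nonneg (by linarith) (by linarith)

lemma tf'_le_one {c s : ℝ} (hc0 : 0 < c) (hc : c < 1) (hs : s ≤ 1) : tf' c s ≤ 1 := by
  unfold tf'
  split_ifs with h
  · rw [div_le_one hc0]; exact h
  · rw [div_le_one (by linarith)]; linarith

/-- the map `T'` -/
def Tm' (c : ℝ) (hc0 : 0 < c) (hc : c < 1) (s : I) : I :=
  ⟨tf' c s, tf'_nonneg hc0 hc s.2.1, tf'_le_one hc0 hc s.2.2⟩

lemma Tm'_coe (c : ℝ) (hc0 : 0 < c) (hc : c < 1) (s : I) :
    ((Tm' c hc0 hc s : I) : ℝ) = tf' c s := rfl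

lemma Tm'_meas (c : ℝ) (hc0 : 0 < c) (hc : c < 1) : Measurable (Tm' c hc0 hc) :=
  ((tf'_meas c).comp measurable_subtype_coe).subtype_mk

lemma Tm'_vol (c : ℝ) (hc0 : 0 < c) (hc : c < 1) (a : I) :
    (volume : Measure I) (Tm' c hc0 hc ⁻¹' Iic a) = ENNReal.ofReal a := by
  have ha0 : 0 ≤ (a : ℝ) := a.2.1
  have ha1 : (a : ℝ) ≤ 1 := a.2.2
  have hc1 : 0 < 1 - c := by linarith
  have hca : c * a ≤ c := by nlinarith
  have hca0 : 0 ≤ c * (a : ℝ) := by positivity
  have h1ca : (1 - c) * (a : ℝ) ≤ 1 - c := by nlinarith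
  have h1ca0 : 0 ≤ (1 - c) * (a : ℝ) := by positivity
  let p : I := ⟨c * a, by linarith, by linarith⟩
  let m : I := ⟨c, hc0.le, hc.le⟩
  let q : I := ⟨c + (1 - c) * a, by linarith, by linarith⟩
  have key : Tm' c hc0 hc ⁻¹' Iic a = Iic p ∪ Ioc m q := by
    ext s
    simp only [mem_preimage, mem_union, mem_Iic, mem_Ioc, ← Subtype.coe_le_coe, ← Subtype.coe_lt_coe,
      Tm'_coe]
    show tf' c s ≤ a ↔ ((s : ℝ) ≤ c * a ∨ (c < (s : ℝ) ∧ (s : ℝ) ≤ c + (1 - c) * a))
    unfold tf'
    split_ifs with h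
    · rw [div_le_iff₀ hc0]
      constructor
      · intro h3; left; linarith
      · rintro (h3 | h3)
        · linarith
        · linarith [h3.1]
    · push Not at h
      rw [div_le_iff₀ hc1]
      constructor
      · intro h3; right; exact ⟨h, by linarith⟩
      · rintro (h3 | h3)
        · linarith
        · linarith [h3.2]
  rw [key, measure_union _ measurableSet_Ioc, unitInterval.volume_Iic, unitInterval.volume_Ioc]
  · show ENNReal.ofReal (c * a) + ENNReal.ofReal (c + (1 - c) * a - c) = _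
    rw [← ENNReal.ofReal_add (by linarith) (by linarith)]
    congr 1
    ring
  · rw [Set.disjoint_left]
    intro x hx hx2
    have h1 : (x : ℝ) ≤ c * a := hx
    have h2 : c < (x : ℝ) := hx2.1
    linarith

end PWL_

open PWL_ in
theorem p_PWL : T_PWL := by
  intro c hc0 hc
  refine ⟨Tm c hc0 hc, Tm' c hc0 hc, Tm'_meas c hc0 hc, ?_, ?_, ?_, ?_, ?_, ?_⟩
  · exact map_eq_of_Iic (Tm c hc0 hc).continuous.measurable (Tm_vol c hc0 hc)
  · exact map_eq_of_Iic (Tm'_meas c hc0 hc) (Tm'_vol c hc0 hc)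
  · intro s hs
    apply Subtype.ext
    rw [Tm_coe, tf_le hc hs]
  · intro s hs
    rw [Tm_coe, tf_ge hc hs s.2.2]
  · intro s hs
    rw [Tm'_coe, tf', if_pos hs]
  · intro s hs
    rw [Tm'_coe, tf', if_neg (not_le.mpr hs)]

end Pool.Agent.FPZ
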