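import Pool.Agent.FPZ.Targets3

set_option autoImplicit false

/-!
# FPZ, target QCO: cut-down by an almost commuting projection
-/

open scoped Classical
open MeasureTheory

noncomputable section

namespace Pool.Agent.FPZ

namespace QCO_

theorem norm_le_one {A : Type} [CStarAlgebra A] {P : A} (hP : IsStarProjection P) : ‖P‖ ≤ 1 := by
  have h1 : ‖star P * P‖ = ‖P‖ * ‖P‖ := CStarRing.norm_star_mul_self
  rw [hP.isSelfAdjoint.star_eq, hP.isIdempotentElem.eq] at h1
  by_contra h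
  push Not at h
  nlinarith

end QCO_

theorem p_QCO : T_QCO := by
  intro A _ Q a D ε hQ hQD hDQ h1 h2
  have hs : star Q = Q := hQ.isSelfAdjoint.star_eq
  have h3 : ‖Q * a - D‖ ≤ ε := by
    have h4 : star (star a * Q - star D) = Q * a - D := by
      rw [star_sub, star_mul, star_star, star_star, hs]
    rw [← h4, norm_star]
    exact h2
  have hε : 0 ≤ ε := le_trans (norm_nonneg _) h1
  constructor
  · have e : a * (1 - Q) - (1 - Q) * a = (Q * a - D) - (a * Q - D) := by noncomm_ring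
    rw [e]
    calc ‖(Q * a - D) - (a * Q - D)‖ ≤ ‖Q * a - D‖ + ‖a * Q - D‖ := norm_sub_le _ _
      _ ≤ 2 * ε := by linarith
  · have e : a - ((1 - Q) * a * (1 - Q) + D) = (a * Q - D) + (Q * a - D) * (1 - Q) := by
      have e1 : (Q * a - D) * (1 - Q) = Q * a - Q * a * Q - D + D * Q := by noncomm_ring
      have e2 : (1 - Q) * a * (1 - Q) = a - Q * a - a * Q + Q * a * Q := by noncomm_ring
      rw [e1, e2, hDQ]
      abel
    rw [e]
    have hP : ‖(1 : A) - Q‖ ≤ 1 := QCO_.norm_le_one hQ.one_sub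
    have h5 : ‖(Q * a - D) * (1 - Q)‖ ≤ ε := by
      calc ‖(Q * a - D) * (1 - Q)‖ ≤ ‖Q * a - D‖ * ‖(1 : A) - Q‖ := norm_mul_le _ _
        _ ≤ ε * 1 := mul_le_mul h3 hP (norm_nonneg _) hε
        _ = ε := mul_one ε
    calc ‖(a * Q - D) + (Q * a - D) * (1 - Q)‖ ≤ ‖a * Q - D‖ + ‖(Q * a - D) * (1 - Q)‖ :=
          norm_add_le _ _
      _ ≤ 2 * ε := by linarith

end Pool.Agent.FPZ
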