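import Pool.Agent.FPZ.Targets1

set_option autoImplicit false

/-!
# FPZ: RTS, a reduced free product of tracial pieces has a faithful trace
-/

noncomputable section

namespace Pool.Agent.FPZ

namespace RTS_

/-- The star algebra generated by star subalgebras is contained in their supremum. -/
lemma adjoin_sub {I A : Type} [CStarAlgebra A] (S : I → StarSubalgebra ℂ A) (x : A)
    (hx : x ∈ StarAlgebra.adjoin ℂ (⋃ i, (S i : Set A))) :
    x ∈ (⨆ i, (S i).toSubalgebra : Subalgebra ℂ A) := by
  have h1 : x ∈ (StarAlgebra.adjoin ℂ (⋃ i, (S i : Set A))).toSubalgebra := hx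
  rw [StarAlgebra.adjoin_toSubalgebra] at h1
  have h2 : Algebra.adjoin ℂ ((⋃ i, (S i : Set A)) ∪ star (⋃ i, (S i : Set A))) ≤
      (⨆ i, (S i).toSubalgebra : Subalgebra ℂ A) := by
    rw [Algebra.adjoin_le_iff]
    rintro y (hy | hy)
    · obtain ⟨i, hi⟩ := Set.mem_iUnion.mp hy
      exact (le_iSup (fun i => (S i).toSubalgebra) i) hi
    · have hy' : star y ∈ ⋃ i, (S i : Set A) := hy
      obtain ⟨i, hi⟩ := Set.mem_iUnion.mp hy'
      have hi' : star y ∈ S i := hi
      have hi2 : y ∈ S i := by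
        have := star_mem hi'
        rwa [star_star] at this
      exact (le_iSup (fun i => (S i).toSubalgebra) i) hi2
  exact h2 h1

/-- The trace property. -/
lemma trace (h_TRC : T_TRC) {I A : Type} [CStarAlgebra A] (φ : A →L[ℂ] ℂ)
    (S : I → StarSubalgebra ℂ A) (h : RFP φ S)
    (hS : ∀ i, ∀ a ∈ S i, ∀ b ∈ S i, φ (a * b) = φ (b * a)) (a b : A) :
    φ (a * b) = φ (b * a) := by
  have key := h_TRC I A (φ : A →ₗ[ℂ] ℂ) (fun i => (S i).toSubalgebra) h.st.one h.free
    (fun i x hx y hy => hS i x hx y hy)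
  have hcl : IsClosed {p : A × A | φ (p.1 * p.2) = φ (p.2 * p.1)} := by
    apply isClosed_eq
    · exact φ.continuous.comp (continuous_fst.mul continuous_snd)
    · exact φ.continuous.comp (continuous_snd.mul continuous_fst)
  have hsub : ((StarAlgebra.adjoin ℂ (⋃ i, (S i : Set A)) : StarSubalgebra ℂ A) : Set A) ×ˢ
      ((StarAlgebra.adjoin ℂ (⋃ i, (S i : Set A)) : StarSubalgebra ℂ A) : Set A) ⊆
      {p : A × A | φ (p.1 * p.2) = φ (p.2 * p.1)} := by
    rintro ⟨x, y⟩ ⟨hx, hy⟩
    exact key x (adjoin_sub S x hx) y (adjoin_sub S y hy)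
  have hclos := closure_minimal hsub hcl
  rw [closure_prod_eq] at hclos
  have hall : ∀ z : A, z ∈ closure
      ((StarAlgebra.adjoin ℂ (⋃ i, (S i : Set A)) : StarSubalgebra ℂ A) : Set A) := by
    intro z
    have hz : z ∈ cal (⋃ i, (S i : Set A)) := by
      rw [h.gen]
      exact StarSubalgebra.mem_top
    have hz' : z ∈ (((StarAlgebra.adjoin ℂ (⋃ i, (S i : Set A))).topologicalClosure :
      StarSubalgebra ℂ A) : Set A) := hz
    rwa [StarSubalgebra.topologicalClosure_coe] at hz'
  have hab : ((a, b) : A × A) ∈ {p : A × A | φ (p.1 * p.2) = φ (p.2 * p.1)} :=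
    hclos ⟨hall a, hall b⟩
  exact hab

end RTS_

open RTS_

theorem p_RTS (h_TRC : T_TRC) (h_STB : T_STB) : T_RTS := by
  intro I A _ φ S h hS
  have htr := trace h_TRC φ S h hS
  obtain ⟨-, hcs, -⟩ := h_STB A φ h.st
  refine { toSt := h.st, tr := htr, fth := ?_ }
  intro a ha
  apply h.gns
  intro b
  have h1 : φ (star b * (star a * a) * b) = φ (star a * (a * b * star b)) := by
    have h2 := htr (star b) (star a * a * b)
    have e1 : star b * (star a * a) * b = star b * (star a * a * b) := by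
      simp only [mul_assoc]
    have e2 : star a * (a * b * star b) = star a * a * b * star b := by
      simp only [mul_assoc]
    rw [e1, e2]
    exact h2
  rw [h1]
  have h3 := hcs a (a * b * star b)
  have h4 : n2 φ a = 0 := by
    unfold n2
    rw [ha]
    simp
  rw [h4, zero_mul] at h3
  exact norm_le_zero_iff.mp h3

end Pool.Agent.FPZ
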