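import Pool.Agent.FPZ.Targets3

set_option autoImplicit false

open scoped Classical
open MeasureTheory TopologicalSpace

noncomputable section

namespace Pool.Agent.FPZ

theorem SEP_countable {M : Type} [Monoid M] (s : Set M) (hs : s.Countable) :
    (Submonoid.closure s : Set M).Countable := by
  rw [Submonoid.closure_eq_image_prod]
  apply Set.Countable.image
  have := hs.to_subtype
  rw [← Set.range_list_map_coe]
  exact Set.countable_range _

theorem SEP_mon {A : Type} [CStarAlgebra A] (S : Set A) (hS : IsSeparable S) :
    IsSeparable (Submonoid.closure S : Set A) := by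
  obtain ⟨c, hc, hSc⟩ := hS
  have h1 : IsSeparable (Submonoid.closure c : Set A) := (SEP_countable c hc).isSeparable
  have h2 : IsSeparable (closure (Submonoid.closure c : Set A)) := h1.closure
  refine h2.mono ?_
  have h3 : Submonoid.closure S ≤ (Submonoid.closure c).topologicalClosure := by
    rw [Submonoid.closure_le]
    exact hSc.trans (closure_mono Submonoid.subset_closure)
  exact h3

theorem p_SEP : T_SEP := by
  intro Z A _ _ _ ι κ hgen
  have hι : Continuous ι := AddMonoidHomClass.continuous_of_bound ι 1
    (fun g => by simpa using NonUnitalStarAlgHom.norm_apply_le ι g)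
  have hκ : ∀ i, Continuous (κ i) := fun i => by
    have : Continuous (fun x : ℂ × ℂ => κ i x) := by
      exact LinearMap.continuous_of_finiteDimensional ((κ i).toAlgHom.toLinearMap)
    exact this
  set S : Set A := Set.range ι ∪ ⋃ i, Set.range (κ i) with hS
  have hsep : IsSeparable S := by
    refine IsSeparable.union ?_ ?_
    · exact isSeparable_range hι
    · exact IsSeparable.iUnion fun i => isSeparable_range (hκ i)
  have hstar : star S = S := by
    ext x
    rw [Set.mem_star]
    constructor
    · rintro (⟨g, hg⟩ | h)
      · left
        exact ⟨star g, by rw [map_star, hg, star_star]⟩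
      · rw [Set.mem_iUnion] at h
        obtain ⟨i, g, hg⟩ := h
        right
        rw [Set.mem_iUnion]
        exact ⟨i, star g, by rw [map_star, hg, star_star]⟩
    · rintro (⟨g, hg⟩ | h)
      · left
        exact ⟨star g, by rw [map_star, hg]⟩
      · rw [Set.mem_iUnion] at h
        obtain ⟨i, g, hg⟩ := h
        right
        rw [Set.mem_iUnion]
        exact ⟨i, star g, by rw [map_star, hg]⟩
  have h1 : IsSeparable ((StarAlgebra.adjoin ℂ S : StarSubalgebra ℂ A) : Set A) := by
    have h2 : ((StarAlgebra.adjoin ℂ S : StarSubalgebra ℂ A) : Set A) =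
        (Submodule.span ℂ (Submonoid.closure S : Set A) : Set A) := by
      have h3 := StarAlgebra.adjoin_toSubalgebra ℂ S
      rw [hstar, Set.union_self] at h3
      have h4 := Algebra.adjoin_eq_span ℂ S
      rw [← h4, ← h3]
      rfl
    rw [h2]
    exact (SEP_mon S hsep).span
  have h5 : IsSeparable ((cal S : StarSubalgebra ℂ A) : Set A) := by
    have : ((cal S : StarSubalgebra ℂ A) : Set A) = closure ((StarAlgebra.adjoin ℂ S : StarSubalgebra ℂ A) : Set A) :=
      StarSubalgebra.topologicalClosure_coe _
    rw [this]
    exact h1.closure
  rw [hgen] at h5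
  have h6 : SeparableSpace A := by
    rw [← isSeparable_univ_iff]
    exact h5
  have : Nonempty A := ⟨0⟩
  exact exists_dense_seq A

end Pool.Agent.FPZ
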