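import Pool.Agent.FPZ.Targets4

set_option autoImplicit false

/-!
# FPZ: the spaces `S1`, `XS L`, `YS r₁ r₂` are connected and carry probability measures of full
support (SPC)
-/

open scoped Classical unitInterval
open MeasureTheory

noncomputable section

namespace Pool.Agent.FPZ

namespace SPC_

instance volume_open_pos : (volume : Measure I).IsOpenPosMeasure := by
  refine ⟨fun U hU hne => ?_⟩
  obtain ⟨V, hV, rfl⟩ := isOpen_induced_iff.mp hU
  obtain ⟨x, hx⟩ := hne
  have hcl : (x : ℝ) ∈ closure (Set.Ioo (0 : ℝ) 1) := by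
    rw [closure_Ioo zero_ne_one]
    exact x.2
  have hW : (V ∩ Set.Ioo (0 : ℝ) 1).Nonempty := mem_closure_iff.mp hcl V hV hx
  have h0 : (volume : Measure ℝ) (V ∩ Set.Ioo (0 : ℝ) 1) ≠ 0 := (hV.inter isOpen_Ioo).measure_ne_zero volume hW
  rw [unitInterval.volume_apply]
  intro h
  refine h0 (measure_mono_null ?_ h)
  rintro y ⟨hy, hy0, hy1⟩
  exact ⟨⟨y, hy0.le, hy1.le⟩, hy, rfl⟩

/-- transport along a continuous surjection -/
theorem push {P Q : Type} [TopologicalSpace P] [TopologicalSpace Q] [MeasurableSpace P] [MeasurableSpace Q]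
    [OpensMeasurableSpace P] [BorelSpace Q] [ConnectedSpace P] (μ : Measure P) (ν : Measure Q)
    [IsProbabilityMeasure μ] [μ.IsOpenPosMeasure] (f : P → Q) (hf : Continuous f) (hs : Function.Surjective f)
    (h : Measure.map f μ = ν) : ConnectedSpace Q ∧ IsProbabilityMeasure ν ∧ ν.IsOpenPosMeasure := by
  refine ⟨hs.connectedSpace hf, ?_, ?_⟩
  · rw [← h]
    exact Measure.isProbabilityMeasure_map hf.measurable.aemeasurable
  · refine ⟨fun U hU hne => ?_⟩
    rw [← h, Measure.map_apply hf.measurable hU.measurableSet]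
    obtain ⟨q, hq⟩ := hne
    obtain ⟨p, hp⟩ := hs q
    exact (hU.preimage hf).measure_ne_zero μ ⟨p, by simpa [hp] using hq⟩

theorem cpt_continuous : Continuous cpt := by
  refine Continuous.subtype_mk ?_ _
  fun_prop

/-- every point of the circle is `cpt s` -/
theorem cpt_surj (w : ℂ) (hw : ‖w‖ = 1) : ∃ s : I, ((cpt s : S1) : ℂ) = w := by
  have hpi := Real.pi_pos
  have hw' : w = Complex.exp (Complex.arg w * Complex.I) := by
    have := Complex.norm_mul_exp_arg_mul_I w
    rw [hw] at this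
    simpa using this.symm
  rcases le_or_gt 0 (Complex.arg w) with h0 | h0
  · refine ⟨⟨Complex.arg w / (2 * Real.pi), by positivity, ?_⟩, ?_⟩
    · rw [div_le_one (by positivity)]
      linarith [Complex.arg_le_pi w]
    · show Complex.exp (2 * Real.pi * ((Complex.arg w / (2 * Real.pi) : ℝ) : ℂ) * Complex.I) = w
      conv_rhs => rw [hw']
      congr 2
      push_cast
      field_simp
  · refine ⟨⟨(Complex.arg w + 2 * Real.pi) / (2 * Real.pi), ?_, ?_⟩, ?_⟩
    · have := Complex.neg_pi_lt_arg w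
      apply div_nonneg <;> linarith
    · rw [div_le_one (by positivity)]
      linarith
    · show Complex.exp (2 * Real.pi * (((Complex.arg w + 2 * Real.pi) / (2 * Real.pi) : ℝ) : ℂ) * Complex.I) = w
      conv_rhs => rw [hw']
      have : (2 * Real.pi * (((Complex.arg w + 2 * Real.pi) / (2 * Real.pi) : ℝ) : ℂ) * Complex.I) =
          Complex.arg w * Complex.I + 2 * Real.pi * Complex.I := by
        push_cast
        field_simp
      rw [this, Complex.exp_add, Complex.exp_two_pi_mul_I, mul_one]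

end SPC_

open SPC_ in
theorem p_SPC (h_CIR : T_CIR) (h_PHX : T_PHX) (h_PHY : T_PHY) : T_SPC := by
  refine ⟨?_, ?_, ?_⟩
  · refine push (volume : Measure I) _ (fun s : I => cpt s) (cpt_continuous.comp continuous_subtype_val) ?_ h_CIR
    intro q
    obtain ⟨s, hs⟩ := cpt_surj q.1 (by simpa using q.2)
    exact ⟨s, Subtype.ext hs⟩
  · intro L hL
    obtain ⟨Φ, hm, h1, h2⟩ := h_PHX L hL
    have hpi := Real.pi_pos
    set c : ℝ := 2 * Real.pi / (2 * Real.pi + L) with hc
    have hc0 : 0 < c := by positivity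
    have hc1 : c < 1 := by
      rw [hc, div_lt_one (by positivity)]
      linarith
    refine push (volume : Measure I) _ Φ Φ.continuous ?_ hm
    rintro ⟨q, hq⟩
    rcases hq with hq | hq
    · obtain ⟨s, hs⟩ := cpt_surj q (mem_sphere_zero_iff_norm.mp hq)
      have hs0 : (s : ℝ) * c ≤ c := by
        nlinarith [s.2.2]
      refine ⟨⟨s * c, mul_nonneg s.2.1 hc0.le, hs0.trans hc1.le⟩, Subtype.ext ?_⟩
      rw [h1 _ hs0]
      show ((cpt ((s : ℝ) * c / c) : S1) : ℂ) = q
      rw [mul_div_cancel_right₀ _ hc0.ne']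
      exact hs
    · rw [segment_eq_image'] at hq
      obtain ⟨θ, ⟨hθ0, hθ1⟩, hθ⟩ := hq
      have hb : c ≤ c + θ * (1 - c) := by nlinarith
      refine ⟨⟨c + θ * (1 - c), by nlinarith, by nlinarith⟩, Subtype.ext ?_⟩
      rw [h2 _ hb]
      show 1 + (L : ℂ) * (((c + θ * (1 - c)) - c) / (1 - c) : ℝ) = q
      have : ((c + θ * (1 - c)) - c) / (1 - c) = θ := by
        have : 1 - c ≠ 0 := by linarith
        field_simp
        ring
      rw [this, ← hθ]
      simp only [add_sub_cancel_left, Complex.real_smul]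
      ring
  · intro r₁ r₂ h0 h12
    obtain ⟨Φ, hm, h1⟩ := h_PHY r₁ r₂ h0 h12
    refine push (volume : Measure (I × I)) _ Φ Φ.continuous ?_ hm
    rintro ⟨q, hq1, hq2⟩
    have hq0 : 0 < ‖q‖ := lt_of_lt_of_le h0 hq1
    have hd : 0 < r₂ ^ 2 - r₁ ^ 2 := by nlinarith
    obtain ⟨x, hx⟩ := cpt_surj ((‖q‖ : ℂ)⁻¹ * q) (by
      rw [norm_mul, norm_inv, Complex.norm_real, norm_norm, inv_mul_cancel₀ hq0.ne'])
    refine ⟨(x, ⟨(‖q‖ ^ 2 - r₁ ^ 2) / (r₂ ^ 2 - r₁ ^ 2), ?_, ?_⟩), Subtype.ext ?_⟩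
    · apply div_nonneg _ hd.le
      nlinarith
    · rw [div_le_one hd]
      nlinarith
    · rw [h1, hx]
      show ((Real.sqrt (r₁ ^ 2 + (r₂ ^ 2 - r₁ ^ 2) * ((‖q‖ ^ 2 - r₁ ^ 2) / (r₂ ^ 2 - r₁ ^ 2))) : ℝ) : ℂ) * ((‖q‖ : ℂ)⁻¹ * q) = q
      rw [mul_div_cancel₀ _ hd.ne', add_sub_cancel, Real.sqrt_sq hq0.le, ← mul_assoc,
        mul_inv_cancel₀ (by exact_mod_cast hq0.ne'), one_mul]

end Pool.Agent.FPZ
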