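import Pool.Agent.FPZ.Targets1

set_option autoImplicit false

/-!
# FPZ SPN: reduced words and `1` span the generated algebra
-/

open scoped Classical

noncomputable section

namespace Pool.Agent.FPZ

namespace SPN_

variable {I R : Type} [Ring R] [Algebra ℂ R] (f : R →ₗ[ℂ] ℂ) (S : I → Subalgebra ℂ R)

/-- the span of `1` and the reduced words -/
def W : Submodule ℂ R := Submodule.span ℂ (insert 1 (RW f (fun i => (S i : Set R))))

lemma one_mem : (1 : R) ∈ W f S := Submodule.subset_span (Set.mem_insert _ _)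

lemma list_mem (l : List (I × R)) (hc : l.IsChain (fun x y => x.1 ≠ y.1))
    (hl : ∀ x ∈ l, x.2 ∈ S x.1 ∧ f x.2 = 0) : (l.map Prod.snd).prod ∈ W f S := by
  by_cases h : l = []
  · subst h
    simpa using one_mem f S
  · refine Submodule.subset_span (Set.mem_insert_of_mem _ ?_)
    exact ⟨l, h, hc, fun x hx => ⟨(hl x hx).1, (hl x hx).2⟩, rfl⟩

lemma cent (hf : f 1 = 1) (i : I) (a : R) (ha : a ∈ S i) :
    a - f a • (1 : R) ∈ S i ∧ f (a - f a • (1 : R)) = 0 := by
  refine ⟨(S i).sub_mem ha ((S i).smul_mem (S i).one_mem _), ?_⟩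
  rw [map_sub, map_smul, hf]
  simp

lemma letter_mul (hf : f 1 = 1) (i : I) (a : R) (ha : a ∈ S i) (l : List (I × R))
    (hc : l.IsChain (fun x y => x.1 ≠ y.1)) (hl : ∀ x ∈ l, x.2 ∈ S x.1 ∧ f x.2 = 0) :
    a * (l.map Prod.snd).prod ∈ W f S := by
  have hpre : ∀ (l : List (I × R)) (b : R), b ∈ S i → (∀ x ∈ l.head?, i ≠ x.1) →
      l.IsChain (fun x y => x.1 ≠ y.1) → (∀ x ∈ l, x.2 ∈ S x.1 ∧ f x.2 = 0) →
      b * (l.map Prod.snd).prod ∈ W f S := by
    intro l b hb hh hc hl
    have h1 : b * (l.map Prod.snd).prod =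
        f b • (l.map Prod.snd).prod + (b - f b • (1 : R)) * (l.map Prod.snd).prod := by
      rw [sub_mul, smul_mul_assoc, one_mul]
      abel
    rw [h1]
    refine (W f S).add_mem ((W f S).smul_mem _ (list_mem f S l hc hl)) ?_
    have h2 := list_mem f S ((i, b - f b • (1 : R)) :: l) ?_ ?_
    · simpa using h2
    · rw [List.isChain_cons]
      exact ⟨fun x hx => hh x hx, hc⟩
    · intro x hx
      rcases List.mem_cons.1 hx with h | h
      · subst h
        exact cent f S hf i b hb
      · exact hl x h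
  rcases l with _ | ⟨⟨k, b⟩, l'⟩
  · exact hpre [] a ha (by simp) hc hl
  · by_cases hk : k = i
    · subst hk
      have hb := hl (k, b) (by simp)
      have h1 := hpre l' (a * b) ((S k).mul_mem ha hb.1) ?_ ?_ ?_
      · simpa [mul_assoc] using h1
      · intro x hx
        exact (List.isChain_cons.1 hc).1 x hx
      · exact (List.isChain_cons.1 hc).2
      · exact fun x hx => hl x (List.mem_cons_of_mem _ hx)
    · refine hpre _ a ha ?_ hc hl
      intro x hx
      simp only [List.head?_cons, Option.mem_def, Option.some.injEq] at hx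
      subst hx
      exact fun h => hk h.symm

lemma mul_mem (hf : f 1 = 1) (i : I) (a : R) (ha : a ∈ S i) (w : R) (hw : w ∈ W f S) :
    a * w ∈ W f S := by
  refine Submodule.span_induction (p := fun w _ => a * w ∈ W f S) ?_ ?_ ?_ ?_ hw
  · intro x hx
    rcases hx with h | ⟨l, -, hc, hl, rfl⟩
    · rw [h]
      simpa using letter_mul f S hf i a ha [] (by simp) (by simp)
    · exact letter_mul f S hf i a ha l hc hl
  · simp
  · intro x y _ _ hx hy
    rw [mul_add]
    exact (W f S).add_mem hx hy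
  · intro c x _ hx
    rw [mul_smul_comm]
    exact (W f S).smul_mem _ hx

/-- the multipliers of `W` -/
def M : Subalgebra ℂ R where
  carrier := {x | ∀ w ∈ W f S, x * w ∈ W f S}
  mul_mem' := by
    intro a b ha hb w hw
    rw [mul_assoc]
    exact ha _ (hb w hw)
  add_mem' := by
    intro a b ha hb w hw
    rw [add_mul]
    exact (W f S).add_mem (ha w hw) (hb w hw)
  algebraMap_mem' := by
    intro c w hw
    rw [← Algebra.smul_def]
    exact (W f S).smul_mem _ hw

end SPN_

theorem p_SPN : T_SPN := by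
  intro I R _ _ f S hf x hx
  have h1 : (⨆ i, S i : Subalgebra ℂ R) ≤ SPN_.M f S :=
    iSup_le fun i a ha w hw => SPN_.mul_mem f S hf i a ha w hw
  have h2 := h1 hx 1 (SPN_.one_mem f S)
  rw [mul_one] at h2
  exact h2

end Pool.Agent.FPZ
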