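import Pool.Agent.FPZ.Targets2

set_option autoImplicit false

/-!
# FPZ: target SQP (comparison of free projections)
-/

open scoped Classical

noncomputable section

namespace Pool.Agent.FPZ

namespace SQP_

theorem proj {A : Type} [CStarAlgebra A] {φ : A →L[ℂ] ℂ} (h : TS φ) {Q : A}
    (hQ : IsStarProjection Q) : 0 ≤ (φ Q).re ∧ (φ Q).im = 0 := by
  have h1 : star Q * Q = Q := by rw [hQ.isSelfAdjoint.star_eq, hQ.isIdempotentElem.eq]
  have h2 := h.pos Q
  rwa [h1] at h2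

theorem le_one {A : Type} [CStarAlgebra A] {φ : A →L[ℂ] ℂ} (h : TS φ) {Q : A}
    (hQ : IsStarProjection Q) : (φ Q).re ≤ 1 := by
  have h1 := (proj h hQ.one_sub).1
  rw [map_sub, h.one, Complex.sub_re, Complex.one_re] at h1
  linarith

end SQP_

theorem p_SQP (h_COM : T_COM) (h_POL : T_POL) : T_SQP := by
  intro A _ φ X Y D R Q hφ hfree hD hR hQ hRX hQY hRD hQD hlt
  obtain ⟨hR0, _⟩ := SQP_.proj hφ hR
  obtain ⟨_, hQim⟩ := SQP_.proj hφ hQ
  have hQ1 := SQP_.le_one hφ hQ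
  set q : ℝ := (φ Q).re with hq
  have hq0 : 0 < q := lt_of_le_of_lt hR0 hlt
  have hφQ : φ Q = (q : ℂ) := by
    apply Complex.ext
    · rw [Complex.ofReal_re]
    · rw [Complex.ofReal_im, hQim]
  have hqc : (q : ℂ) ≠ 0 := by exact_mod_cast hq0.ne'
  set f : A := ((q⁻¹ : ℝ) : ℂ) • Q with hf
  have hfs : star f = f := by
    rw [hf, star_smul, hQ.isSelfAdjoint.star_eq]
    congr 1
    exact Complex.conj_ofReal _
  have hφf : φ f = 1 := by
    rw [hf, map_smul, hφQ, smul_eq_mul, ← Complex.ofReal_mul, inv_mul_cancel₀ hq0.ne',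
      Complex.ofReal_one]
  have hff : f * f = ((q⁻¹ : ℝ) : ℂ) • f := by
    rw [hf, smul_mul_smul_comm, hQ.isIdempotentElem.eq, smul_smul]
  have hφff : (φ (f * f)).re = q⁻¹ := by
    rw [hff, map_smul, hφf, smul_eq_mul, mul_one, Complex.ofReal_re]
  have hfY : f ∈ Y := Y.smul_mem hQY _
  have hfD : f ∈ D := D.smul_mem hQD _
  obtain ⟨y, hy⟩ := h_COM A φ X Y R f hφ hfree hR hRX hfY hfs hφf (lt_of_lt_of_le hlt hQ1) (by
    rw [hφff, inv_mul_lt_one₀ hq0]
    exact hlt)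
  obtain ⟨x, hx, hxx⟩ := h_POL A D R f y hD hR hRD hfD hy
  refine ⟨f * R * x, D.mul_mem (D.mul_mem hfD hRD) hx, hxx, ?_⟩
  have hQf : Q * f = f := by
    rw [hf, mul_smul_comm, hQ.isIdempotentElem.eq]
  rw [← mul_assoc, ← mul_assoc, hQf]

end Pool.Agent.FPZ
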