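import Pool.Agent.FPZ.Targets1

set_option autoImplicit false

/-!
# FPZ (MP_32d866_an), target SRD: the key norm estimate (helper80)
-/

open scoped Classical
open MeasureTheory

noncomputable section

namespace Pool.Agent.FPZ

namespace SRD_

variable {A : Type} [CStarAlgebra A]

/-- `1` and the words whose first letter has index `!b` -/
def Ub (φ : A →L[ℂ] ℂ) (S : Bool → StarSubalgebra ℂ A) (b : Bool) : Submodule ℂ A :=
  Submodule.span ℂ (insert 1 (RWi φ (fun i => (S i : Set A)) (!b)))

/-- the words whose first letter has index `b` -/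
def Vb (φ : A →L[ℂ] ℂ) (S : Bool → StarSubalgebra ℂ A) (b : Bool) : Submodule ℂ A :=
  Submodule.span ℂ (RWi φ (fun i => (S i : Set A)) b)

/-- `1` and all reduced words -/
def Wd (φ : A →L[ℂ] ℂ) (S : Bool → StarSubalgebra ℂ A) : Submodule ℂ A :=
  Submodule.span ℂ (insert 1 (RW φ (fun i => (S i : Set A))))

theorem Vb_le_Ub (φ : A →L[ℂ] ℂ) (S : Bool → StarSubalgebra ℂ A) (b : Bool) :
    Vb φ S b ≤ Ub φ S (!b) := by
  unfold Vb Ub
  rw [Bool.not_not]
  exact Submodule.span_mono (Set.subset_insert _ _)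

theorem RWi_sub_RW (φ : A →L[ℂ] ℂ) (S : Bool → StarSubalgebra ℂ A) (b : Bool) :
    RWi φ (fun i => (S i : Set A)) b ⊆ RW φ (fun i => (S i : Set A)) := by
  rintro w ⟨a, l, h1, h2, h3⟩
  exact ⟨(b, a) :: l, List.cons_ne_nil _ _, h1, h2, by simpa using h3⟩

theorem Ub_le_Wd (φ : A →L[ℂ] ℂ) (S : Bool → StarSubalgebra ℂ A) (b : Bool) :
    Ub φ S b ≤ Wd φ S :=
  Submodule.span_mono (Set.insert_subset_insert (RWi_sub_RW φ S (!b)))

theorem Wd_le (φ : A →L[ℂ] ℂ) (S : Bool → StarSubalgebra ℂ A) (b : Bool) :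
    Wd φ S ≤ Ub φ S b ⊔ Vb φ S b := by
  refine Submodule.span_le.2 ?_
  rintro w (h | ⟨l, h0, h1, h2, h3⟩)
  · refine Submodule.mem_sup_left (Submodule.subset_span ?_)
    exact Or.inl h
  · cases l with
    | nil => exact absurd rfl h0
    | cons p l =>
      obtain ⟨i, a⟩ := p
      have hw : w ∈ RWi φ (fun i => (S i : Set A)) i := ⟨a, l, h1, h2, by simpa using h3⟩
      by_cases hi : i = b
      · subst hi
        exact Submodule.mem_sup_right (Submodule.subset_span hw)
      · have hi' : i = !b := by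
          cases i <;> cases b <;> simp_all
        subst hi'
        exact Submodule.mem_sup_left (Submodule.subset_span (Or.inr hw))

/-- the alternating product of `m` letters whose last letter is the one with index `b` -/
def Q (x y : A) : ℕ → Bool → A
  | 0, _ => 1
  | m + 1, b => Q x y m (!b) * (if b then x else y)

theorem Q_two (x y : A) : ∀ n : ℕ, Q x y (2 * n) false = (x * y) ^ n
  | 0 => by simp [Q]
  | n + 1 => by
    rw [show 2 * (n + 1) = 2 * n + 1 + 1 by ring]
    have h : Q x y (2 * n + 1 + 1) false = Q x y (2 * n) false * x * y := by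
      simp [Q]
    rw [h, Q_two x y n, pow_succ, mul_assoc]

end SRD_

open SRD_ in
theorem p_SRD (h_ORT : T_ORT) (h_STB : T_STB) (h_TSB : T_TSB) (h_SPN : T_SPN) (h_NRT : T_NRT) :
    T_SRD := by
  intro A _ φ S x y s M hφ hfree hx hy hφx hφy hxs hys hs hs1 hxM hyM n
  obtain ⟨hst, hcs, -, -, hmul, hadd, hsq, -, hpyth, hnn, -⟩ := h_STB A φ hφ.toSt
  obtain ⟨-, hns, -, -, -⟩ := h_TSB A φ hφ
  have hM : 0 ≤ M := (norm_nonneg x).trans hxM
  -- the letters
  have hL : ∀ b : Bool, (if b then x else y) ∈ S b ∧ φ (if b then x else y) = 0 ∧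
      n2 φ (if b then x else y) ≤ s ∧ ‖(if b then x else y : A)‖ ≤ M := by
    intro b
    cases b
    · exact ⟨hy, hφy, hys, hyM⟩
    · exact ⟨hx, hφx, hxs, hxM⟩
  have hO := fun b => h_ORT A φ S b (Ub φ S b) (Vb φ S b) hφ.toSt hfree rfl rfl
  -- (i)
  have hi : ∀ b, ∀ l ∈ S b, φ l = 0 → ∀ u ∈ Ub φ S b, n2 φ (l * u) = n2 φ l * n2 φ u := by
    intro b l hl hl0 u hu
    have hc := (hO b).2.1 (star l * l - φ (star l * l) • 1)
      (sub_mem (mul_mem (star_mem hl) hl) (SMulMemClass.smul_mem _ (one_mem _)))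
      (by rw [map_sub, map_smul, hφ.one]; simp) u hu u hu
    have h1 : star (l * u) * (l * u) = star u * (star l * l - φ (star l * l) • 1) * u
        + φ (star l * l) • (star u * u) := by
      rw [star_mul]
      simp only [mul_sub, sub_mul, mul_smul_comm, smul_mul_assoc, mul_one, mul_assoc]
      abel
    have h2 : φ (star (l * u) * (l * u)) = φ (star l * l) * φ (star u * u) := by
      rw [h1, map_add, hc, map_smul, zero_add, smul_eq_mul]
    have h3 : n2 φ (l * u) ^ 2 = (n2 φ l * n2 φ u) ^ 2 := by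
      rw [mul_pow, hsq, hsq, hsq, h2, Complex.mul_re, (hφ.pos l).2, zero_mul, sub_zero]
    exact (sq_eq_sq₀ (hnn _) (mul_nonneg (hnn _) (hnn _))).1 h3
  -- creation
  have hcr : ∀ (m : ℕ) (b : Bool), ∀ v ∈ Vb φ S b, n2 φ (Q x y m (!b) * v) ≤ s ^ m * n2 φ v := by
    intro m
    induction m with
    | zero =>
      intro b v _
      simp [Q]
    | succ m ih =>
      intro b v hv
      obtain ⟨hl1, hl2, hl3, hl4⟩ := hL (!b)
      have hvU := Vb_le_Ub φ S b hv
      have h1 := (hO (!b)).2.2.1 _ hl1 hl2 v hvU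
      have h2 := ih (!b) _ h1
      have h3 := hi (!b) _ hl1 hl2 v hvU
      have h4 : Q x y (m + 1) (!b) * v
          = Q x y m (!(!b)) * ((if (!b) = true then x else y) * v) := by
        rw [Q, mul_assoc]
      rw [h4]
      calc n2 φ (Q x y m (!(!b)) * ((if (!b) = true then x else y) * v))
          ≤ s ^ m * n2 φ ((if (!b) = true then x else y) * v) := h2
        _ = s ^ m * (n2 φ (if (!b) = true then x else y) * n2 φ v) := by rw [h3]
        _ ≤ s ^ m * (s * n2 φ v) := by
            gcongr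
            exact hnn v
        _ = s ^ (m + 1) * n2 φ v := by ring
  -- main claim
  have hmain : ∀ (m : ℕ) (b : Bool), ∀ ξ ∈ Wd φ S,
      n2 φ (Q x y m b * ξ) ≤ (s ^ m + m * M * s ^ (m - 1)) * n2 φ ξ := by
    intro m
    induction m with
    | zero =>
      intro b ξ _
      simp [Q]
    | succ m ih =>
      intro b ξ hξ
      obtain ⟨hl1, hl2, hl3, hl4⟩ := hL b
      obtain ⟨u, hu, v, hv, huv⟩ := Submodule.mem_sup.1 (Wd_le φ S b hξ)
      have h1 : (if b = true then x else y) * ξ ∈ Ub φ S b ⊔ Vb φ S b := by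
        rw [← huv, mul_add]
        exact add_mem (Submodule.mem_sup_right ((hO b).2.2.1 _ hl1 hl2 u hu))
          ((hO b).2.2.2 _ hl1 v hv)
      obtain ⟨α, hα, β, hβ, hαβ⟩ := Submodule.mem_sup.1 h1
      have hort : φ (star α * β) = 0 := (hO b).1 α hα β hβ
      -- (ii)
      have hb1 : n2 φ β ≤ M * n2 φ ξ := by
        have h2 := hpyth α β hort
        rw [hαβ] at h2
        have h3 : n2 φ ((if b = true then x else y) * ξ) ≤ M * n2 φ ξ :=
          (hmul _ _).trans (mul_le_mul_of_nonneg_right hl4 (hnn ξ))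
        have h4 : n2 φ β ≤ n2 φ ((if b = true then x else y) * ξ) := by
          refine (sq_le_sq₀ (hnn _) (hnn _)).1 ?_
          rw [h2]
          nlinarith [sq_nonneg (n2 φ α)]
        exact h4.trans h3
      -- (iii)
      have ha1 : n2 φ α ≤ s * n2 φ ξ := by
        have hsl : star (if b = true then x else y) ∈ S b := star_mem hl1
        have hsl0 : φ (star (if b = true then x else y)) = 0 := by
          rw [hst, hl2, star_zero]
        have h2 : φ (star α * ((if b = true then x else y) * ξ)) = φ (star α * α) := by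
          rw [← hαβ, mul_add, map_add, hort, add_zero]
        have h3 : star α * ((if b = true then x else y) * ξ)
            = star (star (if b = true then x else y) * α) * ξ := by
          rw [star_mul, star_star, mul_assoc]
        have h4 := hcs (star (if b = true then x else y) * α) ξ
        rw [← h3, h2, hi b _ hsl hsl0 α hα, hns] at h4
        have h5 : n2 φ α ^ 2 ≤ ‖φ (star α * α)‖ := by
          rw [hsq]
          exact Complex.re_le_norm _
        have h6 : n2 φ α * n2 φ α ≤ (s * n2 φ ξ) * n2 φ α := by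
          calc n2 φ α * n2 φ α = n2 φ α ^ 2 := by ring
            _ ≤ _ := h5.trans h4
            _ = n2 φ (if b = true then x else y) * (n2 φ ξ * n2 φ α) := by ring
            _ ≤ s * (n2 φ ξ * n2 φ α) :=
                mul_le_mul_of_nonneg_right hl3 (mul_nonneg (hnn _) (hnn _))
            _ = _ := by ring
        by_cases h0 : n2 φ α = 0
        · rw [h0]
          exact mul_nonneg hs (hnn _)
        · exact le_of_mul_le_mul_right h6 (lt_of_le_of_ne (hnn _) (Ne.symm h0))
      have hc1 := hcr m b β hβ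
      have hd1 := ih (!b) α (Ub_le_Wd φ S b hα)
      have hfac : 0 ≤ s ^ m + m * M * s ^ (m - 1) := by positivity
      have hsm : (m : ℝ) * M * s ^ (m - 1) * s = m * M * s ^ m := by
        cases m with
        | zero => simp
        | succ k =>
          rw [Nat.add_sub_cancel, pow_succ s k]
          ring
      have h7 : Q x y (m + 1) b * ξ = Q x y m (!b) * α + Q x y m (!b) * β := by
        rw [← mul_add, hαβ, Q, mul_assoc]
      rw [h7, Nat.add_sub_cancel]
      calc n2 φ (Q x y m (!b) * α + Q x y m (!b) * β)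
          ≤ n2 φ (Q x y m (!b) * α) + n2 φ (Q x y m (!b) * β) := hadd _ _
        _ ≤ (s ^ m + m * M * s ^ (m - 1)) * n2 φ α + s ^ m * n2 φ β := add_le_add hd1 hc1
        _ ≤ (s ^ m + m * M * s ^ (m - 1)) * (s * n2 φ ξ) + s ^ m * (M * n2 φ ξ) := by
            gcongr
        _ = (s ^ m * s + m * M * s ^ (m - 1) * s + M * s ^ m) * n2 φ ξ := by ring
        _ = (s ^ m * s + m * M * s ^ m + M * s ^ m) * n2 φ ξ := by rw [hsm]
        _ = (s ^ (m + 1) + ((m + 1 : ℕ) : ℝ) * M * s ^ m) * n2 φ ξ := by
            rw [pow_succ, Nat.cast_add, Nat.cast_one]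
            ring
  -- the star subalgebra
  have hD : ∀ ξ ∈ StarAlgebra.adjoin ℂ ((S true : Set A) ∪ (S false : Set A)), ξ ∈ Wd φ S := by
    intro ξ hξ
    have h1 : ξ ∈ (⨆ i, (S i).toSubalgebra : Subalgebra ℂ A) := by
      have h2 : ξ ∈ (StarAlgebra.adjoin ℂ ((S true : Set A) ∪ (S false : Set A))).toSubalgebra := hξ
      rw [StarAlgebra.adjoin_toSubalgebra] at h2
      refine (Algebra.adjoin_le ?_ : Algebra.adjoin ℂ _ ≤ _) h2
      rintro z ((hz | hz) | hz)
      · exact (le_iSup (fun i => (S i).toSubalgebra) true) hz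
      · exact (le_iSup (fun i => (S i).toSubalgebra) false) hz
      · rcases hz with hz | hz
        · refine (le_iSup (fun i => (S i).toSubalgebra) true) ?_
          have := star_mem (S := StarSubalgebra ℂ A) (s := S true) hz
          rwa [star_star] at this
        · refine (le_iSup (fun i => (S i).toSubalgebra) false) ?_
          have := star_mem (S := StarSubalgebra ℂ A) (s := S false) hz
          rwa [star_star] at this
    exact h_SPN Bool A (φ : A →ₗ[ℂ] ℂ) (fun i => (S i).toSubalgebra) hφ.one ξ h1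
  have hxD : x ∈ StarAlgebra.adjoin ℂ ((S true : Set A) ∪ (S false : Set A)) :=
    StarAlgebra.subset_adjoin ℂ _ (Or.inl hx)
  have hyD : y ∈ StarAlgebra.adjoin ℂ ((S true : Set A) ∪ (S false : Set A)) :=
    StarAlgebra.subset_adjoin ℂ _ (Or.inr hy)
  refine h_NRT A φ (StarAlgebra.adjoin ℂ ((S true : Set A) ∪ (S false : Set A))) _ _ hφ
    (pow_mem (mul_mem hxD hyD) n) (by positivity) ?_
  intro ξ hξ
  have h8 := hmain (2 * n) false ξ (hD ξ hξ)
  rw [Q_two] at h8
  have h9 : ((2 * n : ℕ) : ℝ) = 2 * n := by push_cast; ring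
  rw [h9] at h8
  exact h8

end Pool.Agent.FPZ
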