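import Pool.Agent.FPZ.Targets2

set_option autoImplicit false

/-!
# FPZ, target SUT: transitivity of subequivalence
-/

namespace Pool.Agent.FPZ

theorem p_SUT : T_SUT := by
  rintro A _ p q r _ _ ⟨v, hv1, hv2⟩ ⟨w, hw1, hw2⟩
  refine ⟨w * v, ?_, ?_⟩
  · rw [star_mul, mul_assoc, ← mul_assoc (star w), hw1, hv2, hv1]
  · rw [← mul_assoc, hw2]

end Pool.Agent.FPZ
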