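import Pool.Agent.FPZ.Targets1
import Pool.Agent.FPZ.Targets2
import Pool.Agent.FPZ.Targets3

set_option autoImplicit false

/-!
# FPZ: the cell system (T_SYS)
-/

open scoped Classical
open MeasureTheory

noncomputable section

namespace Pool.Agent.FPZ

namespace SYS_

/-- A common modulus of uniform continuity. -/
theorem modulus (Z : Type) [MetricSpace Z] [CompactSpace Z] (H : Finset C(Z, ℂ)) (ε : ℝ) (hε : 0 < ε) :
    ∃ r : ℝ, 0 < r ∧ ∀ h ∈ H, ∀ x y : Z, dist x y < r → ‖h x - h y‖ ≤ ε := by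
  induction H using Finset.induction_on with
  | empty => exact ⟨1, one_pos, by simp⟩
  | insert g s hg ih =>
    obtain ⟨r, hr, hrs⟩ := ih
    have hu : UniformContinuous (g : Z → ℂ) := CompactSpace.uniformContinuous_of_continuous g.continuous
    obtain ⟨d, hd, hdg⟩ := Metric.uniformContinuous_iff.mp hu ε hε
    refine ⟨min r d, lt_min hr hd, ?_⟩
    intro h hh x y hxy
    rcases Finset.mem_insert.mp hh with rfl | hh
    · have := hdg (lt_of_lt_of_le hxy (min_le_right _ _))
      rw [dist_eq_norm] at this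
      exact this.le
    · exact hrs h hh x y (lt_of_lt_of_le hxy (min_le_left _ _))

/-- Numbers of slots. -/
theorem slots (a η : ℝ) (M : ℕ) (hη : 0 < η) (h : (M + 2 : ℝ) * η < a) :
    ∃ n : ℕ, n * η < a ∧ a ≤ (n + 1) * η ∧ M ≤ n := by
  have ha : 0 < a := lt_of_le_of_lt (by positivity) h
  have hpos : 0 < ⌈a / η⌉₊ := Nat.ceil_pos.mpr (by positivity)
  obtain ⟨n, hn⟩ := Nat.exists_eq_succ_of_ne_zero hpos.ne'
  have h1 : (⌈a / η⌉₊ : ℝ) < a / η + 1 := Nat.ceil_lt_add_one (by positivity)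
  have h2 : a / η ≤ (⌈a / η⌉₊ : ℝ) := Nat.le_ceil _
  rw [hn] at h1 h2
  push_cast at h1 h2
  have h3 : (n : ℝ) < a / η := by linarith
  have h4 : (n : ℝ) * η < a := (lt_div_iff₀ hη).mp h3
  have h5 : a ≤ (n + 1) * η := by
    have := (div_le_iff₀ hη).mp h2
    simpa using this
  refine ⟨n, h4, h5, ?_⟩
  have h6 : ((M : ℝ) + 2) * η < (n + 1) * η := lt_of_lt_of_le h h5
  have h7 : ((M : ℝ) + 2) < (n + 1) := lt_of_mul_lt_mul_right h6 hη.le
  have h8 : (M : ℝ) < n := by linarith
  exact_mod_cast h8.le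

/-- Orthogonal ranges: sums are projections. -/
theorem sumProj {A S : Type} [CStarAlgebra A] (p : A) (v : S → A) (hp : IsStarProjection p)
    (h1 : ∀ s, star (v s) * v s = p) (h2 : ∀ s s', s ≠ s' → star (v s) * v s' = 0) (T : Finset S) :
    IsStarProjection (∑ s ∈ T, v s * star (v s)) := by
  have hvp : ∀ s, v s * p = v s := by
    intro s
    have e : star (v s - v s * p) * (v s - v s * p) = 0 := by
      have hps : star p = p := hp.isSelfAdjoint
      have hpp : p * p = p := hp.isIdempotentElem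
      have e1 : star (v s - v s * p) = star (v s) - p * star (v s) := by
        rw [star_sub, star_mul, hps]
      rw [e1]
      have : (star (v s) - p * star (v s)) * (v s - v s * p)
        = star (v s) * v s - star (v s) * v s * p - p * (star (v s) * v s) + p * (star (v s) * v s) * p := by
        noncomm_ring
      rw [this, h1 s, hpp, hpp]
      abel
    have := CStarRing.star_mul_self_eq_zero_iff (v s - v s * p)
    have h := this.mp e
    exact (sub_eq_zero.mp h).symm
  constructor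
  · -- idempotent
    show (∑ s ∈ T, v s * star (v s)) * (∑ s ∈ T, v s * star (v s)) = ∑ s ∈ T, v s * star (v s)
    rw [Finset.sum_mul_sum]
    refine Finset.sum_congr rfl fun s hs => ?_
    rw [Finset.sum_eq_single s]
    · have : v s * star (v s) * (v s * star (v s)) = v s * (star (v s) * v s) * star (v s) := by
        noncomm_ring
      rw [this, h1 s, hvp s]
    · intro s' _ hne
      have : v s * star (v s) * (v s' * star (v s')) = v s * (star (v s) * v s') * star (v s') := by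
        noncomm_ring
      rw [this, h2 s s' (Ne.symm hne)]
      simp
    · intro h
      exact absurd hs h
  · show star _ = _
    rw [star_sum]
    refine Finset.sum_congr rfl fun s _ => ?_
    rw [star_mul, star_star]

end SYS_

theorem p_SYS (h_HAL : T_HAL) (h_CEL : T_CEL) (h_DEN : T_DEN) (h_CPJ : T_CPJ) (h_CUT : T_CUT)
    (h_CMP : T_CMP) (h_TSB : T_TSB) : T_SYS := by
  intro Z A _ _ _ _ _ _ μ _ _ t φ ι κ hFS ht f H ε₃ δ₁ ρ L hmap hε₃ hδ₁ hρ
  obtain ⟨δH, hδH, HAL⟩ := h_HAL Z μ f ρ hmap hρ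
  obtain ⟨δu, hδu, hmod⟩ := SYS_.modulus Z H ε₃ hε₃
  have hδ : 0 < min δ₁ (min δH δu) := lt_min hδ₁ (lt_min hδH hδu)
  obtain ⟨K, O, z, hOo, hOd, hzO, hdiam, hsum⟩ := h_CEL Z μ (min δ₁ (min δH δu)) hδ
  obtain ⟨η₀, hη₀, HAL'⟩ := HAL K O z hOo hOd hzO
    (fun k x hx y hy => lt_of_lt_of_le (hdiam k x hx y hy)
      (le_trans (min_le_right _ _) (min_le_left _ _))) hsum
  -- positive measures
  have hfin : ∀ k, μ (O k) ≠ ⊤ := fun k => measure_ne_top μ _
  have hpos : ∀ k, 0 < (μ (O k)).toReal := fun k =>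
    ENNReal.toReal_pos ((hOo k).measure_pos μ ⟨z k, hzO k⟩).ne' (hfin k)
  have hK : 0 < K := by
    rcases Nat.eq_zero_or_pos K with h | h
    · subst h
      simp at hsum
    · exact h
  have : Nonempty (Fin K) := ⟨⟨0, hK⟩⟩
  obtain ⟨k₀, hk₀⟩ := Finite.exists_min (fun k => (μ (O k)).toReal)
  have hc : 0 < (μ (O k₀)).toReal / ((L * (K + 1) : ℕ) + 2 : ℝ) := div_pos (hpos k₀) (by positivity)
  obtain ⟨p, _, hp, hp1, hp2⟩ := h_DEN Z A μ t φ ι κ hFS ht 0 0
    (min 1 (min η₀ ((μ (O k₀)).toReal / ((L * (K + 1) : ℕ) + 2 : ℝ)))) le_rfl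
    (lt_min one_pos (lt_min hη₀ hc)) (min_le_left _ _)
  have hη1 : (φ p).re < η₀ := lt_of_lt_of_le hp2 (le_trans (min_le_right _ _) (min_le_left _ _))
  have hη2 : (φ p).re < (μ (O k₀)).toReal / ((L * (K + 1) : ℕ) + 2 : ℝ) :=
    lt_of_lt_of_le hp2 (le_trans (min_le_right _ _) (min_le_right _ _))
  have hη3 : ∀ k, (((L * (K + 1) : ℕ) : ℝ) + 2) * (φ p).re < (μ (O k)).toReal := by
    intro k
    have h1 := (lt_div_iff₀ (by positivity)).mp hη2
    have h2 := hk₀ k
    nlinarith
  have hn := fun k => SYS_.slots ((μ (O k)).toReal) (φ p).re (L * (K + 1)) hp1 (hη3 k)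
  choose n hn1 hn2 hn3 using hn
  obtain ⟨π, hπ⟩ := HAL' (φ p).re n hp1 hη1 (fun k => ⟨hn1 k, hn2 k⟩)
  obtain ⟨v, g', hv1, hv2, hg1, hg2, hg3⟩ := h_CPJ Z A μ t φ ι κ hFS ht K O n p hOo hOd hp hn1
  obtain ⟨hT1, hT2, hT3, hT4, hT5⟩ := h_TSB A φ hFS.ts
  have hproj : ∀ T : Finset (Σ k : Fin K, Fin (n k)), IsStarProjection (∑ s ∈ T, v s * star (v s)) :=
    fun T => SYS_.sumProj p v hp hv1 hv2 T
  have htr : ∀ T : Finset (Σ k : Fin K, Fin (n k)), φ (∑ s ∈ T, v s * star (v s)) = T.card * φ p := by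
    intro T
    rw [map_sum]
    have : ∀ s ∈ T, φ (v s * star (v s)) = φ p := fun s _ => (hT4 p (v s) hp (hv1 s)).2
    rw [Finset.sum_congr rfl this, Finset.sum_const, nsmul_eq_mul]
  have htr' : ∀ T : Finset (Σ k : Fin K, Fin (n k)),
      (φ (∑ s ∈ T, v s * star (v s))).re = T.card * (φ p).re := by
    intro T
    rw [htr T]
    simp
  have hone : IsStarProjection (1 - ∑ s, v s * star (v s)) := (hproj Finset.univ).one_sub
  refine ⟨K, z, n, p, v, π, hp, hv1, hv2, ?_, ?_, hn3, hπ, ?_⟩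
  · intro h hh
    refine h_CUT Z A ι K O z n p v g' h ε₃ hOd hp hv1 hv2 hg1 hg2 hg3 hε₃.le ?_
    intro k x hx
    exact hmod h hh x (z k) (lt_of_lt_of_le (hdiam k x hx (z k) (hzO k))
      (le_trans (min_le_right _ _) (min_le_right _ _)))
  · intro T hT
    refine h_CMP Z A μ t φ ι κ hFS ht _ _ hone (hproj T) ?_
    rw [htr' T]
    have e1 : (φ (1 - ∑ s, v s * star (v s))).re = 1 - (∑ k, (n k : ℝ)) * (φ p).re := by
      rw [map_sub, hFS.ts.one, Complex.sub_re, htr' Finset.univ]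
      simp
    rw [e1]
    have e2 : (1 : ℝ) ≤ (∑ k, ((n k : ℝ) + 1)) * (φ p).re := by
      rw [Finset.sum_mul]
      calc (1 : ℝ) = ∑ k, (μ (O k)).toReal := hsum.symm
        _ ≤ _ := Finset.sum_le_sum fun k _ => hn2 k
    rw [Finset.sum_add_distrib] at e2
    simp only [Finset.sum_const, Finset.card_univ, Fintype.card_fin, nsmul_eq_mul, mul_one] at e2
    have e3 : ((K : ℝ) + 1) ≤ T.card := by exact_mod_cast hT
    nlinarith
  · intro y
    by_contra hcon
    push Not at hcon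
    have hdisj : Disjoint (⋃ k, O k) (Metric.ball y δ₁) := by
      rw [Set.disjoint_left]
      intro x hx hxy
      obtain ⟨k, hk⟩ := Set.mem_iUnion.mp hx
      have h1 : dist (z k) x < δ₁ := lt_of_lt_of_le (hdiam k (z k) (hzO k) x hk) (min_le_left _ _)
      have h2 : dist x y < δ₁ := hxy
      have h3 := dist_triangle (z k) x y
      have h4 := hcon k
      linarith
    have hmu : μ (⋃ k, O k) = 1 := by
      rw [measure_iUnion (fun k k' hkk => hOd k k' hkk) (fun k => (hOo k).measurableSet), tsum_fintype]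
      have : ∑ k, μ (O k) = ENNReal.ofReal (∑ k, (μ (O k)).toReal) := by
        rw [ENNReal.ofReal_sum_of_nonneg (fun k _ => ENNReal.toReal_nonneg)]
        exact Finset.sum_congr rfl fun k _ => (ENNReal.ofReal_toReal (hfin k)).symm
      rw [this, hsum]
      simp
    have hball : 0 < μ (Metric.ball y δ₁) := Metric.isOpen_ball.measure_pos μ ⟨y, Metric.mem_ball_self hδ₁⟩
    have hun : μ ((⋃ k, O k) ∪ Metric.ball y δ₁) = 1 + μ (Metric.ball y δ₁) := by
      rw [measure_union hdisj Metric.isOpen_ball.measurableSet, hmu]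
    have hle : μ ((⋃ k, O k) ∪ Metric.ball y δ₁) ≤ 1 := prob_le_one
    rw [hun] at hle
    have : (1 : ENNReal) < 1 + μ (Metric.ball y δ₁) := ENNReal.lt_add_right ENNReal.one_ne_top hball.ne'
    exact absurd hle (not_le.mpr this)

end Pool.Agent.FPZ
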