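import Pool.Agent.FPZ.Targets1

set_option autoImplicit false

/-!
# FPZ: the trace property of free families (target TRC)
-/

open scoped Classical
open MeasureTheory

noncomputable section

namespace Pool.Agent.FPZ

namespace TRC_

variable {I R : Type} [Ring R] [Algebra ℂ R] (f : R →ₗ[ℂ] ℂ) (S : I → Subalgebra ℂ R)

/-- The letters are centered elements of the right algebras. -/
def Cen (l : List (I × R)) : Prop := ∀ x ∈ l, x.2 ∈ S x.1 ∧ f x.2 = 0

/-- Neighbours have different indices. -/
def Ch (l : List (I × R)) : Prop := l.IsChain (fun x y => x.1 ≠ y.1)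

/-- The closed form of the pairing. -/
def Q (la lb : List (I × R)) : ℂ :=
  if la.map Prod.fst = lb.map Prod.fst then (List.zipWith (fun x y => f (x.2 * y.2)) la lb).prod else 0

lemma ch_reverse {l : List (I × R)} (h : Ch l) : Ch l.reverse := by
  unfold Ch
  rw [List.isChain_reverse]
  exact List.IsChain.imp (fun a b hab => Ne.symm hab) h

lemma cen_reverse {l : List (I × R)} (h : Cen f S l) : Cen f S l.reverse := by
  intro x hx
  exact h x (List.mem_reverse.mp hx)

lemma cen_append {l l' : List (I × R)} (h : Cen f S l) (h' : Cen f S l') : Cen f S (l ++ l') := by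
  intro x hx
  rcases List.mem_append.mp hx with hx | hx
  · exact h x hx
  · exact h' x hx

lemma ch_cons {x : I × R} {l : List (I × R)} :
    Ch (x :: l) ↔ (∀ y ∈ l.head?, x.1 ≠ y.1) ∧ Ch l := List.isChain_cons

/-- Concatenation of the reversed first list and the second list is a chain. -/
lemma ch_join {la lb : List (I × R)} (ha : Ch la) (hb : Ch lb)
    (hab : ∀ x ∈ la.head?, ∀ y ∈ lb.head?, x.1 ≠ y.1) : Ch (la.reverse ++ lb) := by
  unfold Ch
  rw [List.isChain_append]
  refine ⟨ch_reverse ha, hb, ?_⟩
  intro x hx y hy
  rw [List.getLast?_reverse] at hx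
  exact hab x hx y hy

lemma pair (h1 : f 1 = 1) (hF : Free f (fun i => (S i : Set R))) :
    ∀ la lb : List (I × R), Ch la → Ch lb → Cen f S la → Cen f S lb →
      f ((la.reverse.map Prod.snd).prod * (lb.map Prod.snd).prod) = Q f la lb := by
  intro la
  induction la with
  | nil =>
    intro lb _ hb _ hb'
    cases lb with
    | nil => simp [Q, h1]
    | cons y lb =>
      have h := hF (y :: lb) (List.cons_ne_nil _ _) hb hb'
      simp only [List.reverse_nil, List.map_nil, List.prod_nil, one_mul]
      rw [h]
      simp [Q]
  | cons x la ih =>
    intro lb ha hb ha' hb'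
    cases lb with
    | nil =>
      have h := hF ((x :: la).reverse) (by simp) (ch_reverse ha) (cen_reverse f S ha')
      simp only [List.map_nil, List.prod_nil, mul_one]
      rw [h]
      simp [Q]
    | cons y lb =>
      by_cases hxy : x.1 = y.1
      · have hax : Cen f S la := fun z hz => ha' z (List.mem_cons_of_mem _ hz)
        have hby : Cen f S lb := fun z hz => hb' z (List.mem_cons_of_mem _ hz)
        have hca : Ch la := (ch_cons.mp ha).2
        have hcb : Ch lb := (ch_cons.mp hb).2
        have hi := ih lb hca hcb hax hby
        set c : R := x.2 * y.2 - f (x.2 * y.2) • (1 : R) with hc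
        have hcS : c ∈ S x.1 := by
          have hx := (ha' x List.mem_cons_self).1
          have hy := (hb' y List.mem_cons_self).1
          rw [← hxy] at hy
          exact (S x.1).sub_mem ((S x.1).mul_mem hx hy) ((S x.1).smul_mem (S x.1).one_mem _)
        have hc0 : f c = 0 := by
          rw [hc, map_sub, map_smul, h1, smul_eq_mul, mul_one, sub_self]
        have hzero : f (((la.reverse ++ ((x.1, c) :: lb)).map Prod.snd).prod) = 0 := by
          apply hF
          · simp
          · apply ch_join hca
            · refine ch_cons.mpr ⟨?_, hcb⟩
              intro z hz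
              have := (ch_cons.mp hb).1 z hz
              intro h
              exact this (hxy.symm.trans h)
            · intro z hz w hw
              simp only [List.head?_cons, Option.mem_def, Option.some.injEq] at hw
              rw [← hw]
              exact fun h => (ch_cons.mp ha).1 z hz h.symm
          · apply cen_append f S (cen_reverse f S hax)
            intro z hz
            rcases List.mem_cons.mp hz with rfl | hz
            · exact ⟨hcS, hc0⟩
            · exact hby z hz
        have hsplit : ((x :: la).reverse.map Prod.snd).prod * ((y :: lb).map Prod.snd).prod =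
            f (x.2 * y.2) • ((la.reverse.map Prod.snd).prod * (lb.map Prod.snd).prod) +
              ((la.reverse ++ ((x.1, c) :: lb)).map Prod.snd).prod := by
          have hxy2 : x.2 * y.2 = f (x.2 * y.2) • (1 : R) + c := by rw [hc]; abel
          simp only [List.reverse_cons, List.map_append, List.map_cons, List.map_nil,
            List.prod_append, List.prod_cons, List.prod_nil, mul_one]
          calc (la.reverse.map Prod.snd).prod * x.2 * (y.2 * (lb.map Prod.snd).prod)
              = (la.reverse.map Prod.snd).prod * (x.2 * y.2) * (lb.map Prod.snd).prod := by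
                noncomm_ring
            _ = (la.reverse.map Prod.snd).prod * (f (x.2 * y.2) • (1 : R) + c) *
                  (lb.map Prod.snd).prod := by rw [← hxy2]
            _ = _ := by
                rw [mul_add, add_mul, mul_smul_comm, mul_one, smul_mul_assoc, mul_assoc _ c]
        rw [hsplit, map_add, map_smul, hi, hzero, add_zero, smul_eq_mul]
        unfold Q
        by_cases hm : la.map Prod.fst = lb.map Prod.fst
        · rw [if_pos hm, if_pos (by simp [hm, hxy])]
          simp
        · rw [if_neg hm, if_neg (by simp [hm]), mul_zero]
      · have h := hF ((x :: la).reverse ++ (y :: lb)) (by simp)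
          (ch_join ha hb (by
            intro z hz w hw
            simp only [List.head?_cons, Option.mem_def, Option.some.injEq] at hz hw
            rw [← hz, ← hw]
            exact hxy))
          (cen_append f S (cen_reverse f S ha') hb')
        rw [List.map_append, List.prod_append] at h
        rw [h]
        simp [Q, hxy]

lemma Q_reverse (la lb : List (I × R)) : Q f la.reverse lb.reverse = Q f la lb := by
  unfold Q
  by_cases hm : la.map Prod.fst = lb.map Prod.fst
  · have hlen : la.length = lb.length := by
      have := congrArg List.length hm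
      simpa using this
    rw [if_pos hm, if_pos (by simp [List.map_reverse, hm]), ← List.reverse_zipWith hlen,
      List.prod_reverse]
  · rw [if_neg hm, if_neg]
    intro h
    rw [List.map_reverse, List.map_reverse] at h
    exact hm (List.reverse_injective h)

lemma Q_comm (htr : ∀ i, ∀ a ∈ S i, ∀ b ∈ S i, f (a * b) = f (b * a)) :
    ∀ la lb : List (I × R), Cen f S la → Cen f S lb → Q f la lb = Q f lb la := by
  intro la
  induction la with
  | nil =>
    intro lb _ _
    cases lb with
    | nil => rfl
    | cons y lb => simp [Q]
  | cons x la ih =>
    intro lb ha hb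
    cases lb with
    | nil => simp [Q]
    | cons y lb =>
      have hi := ih lb (fun z hz => ha z (List.mem_cons_of_mem _ hz))
        (fun z hz => hb z (List.mem_cons_of_mem _ hz))
      unfold Q at hi ⊢
      by_cases hxy : x.1 = y.1
      · by_cases hm : la.map Prod.fst = lb.map Prod.fst
        · rw [if_pos hm, if_pos hm.symm] at hi
          rw [if_pos (by simp [hm, hxy]), if_pos (by simp [hm, hxy])]
          simp only [List.zipWith_cons_cons, List.prod_cons]
          rw [hi]
          congr 1
          have hx := (ha x List.mem_cons_self).1
          have hy := (hb y List.mem_cons_self).1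
          rw [← hxy] at hy
          exact htr x.1 x.2 hx y.2 hy
        · rw [if_neg (by simp [hm]), if_neg (by
            simp only [List.map_cons, List.cons.injEq, not_and]
            exact fun _ h => hm h.symm)]
      · rw [if_neg (by simp [hxy]), if_neg (by
          simp only [List.map_cons, List.cons.injEq, not_and]
          exact fun h => absurd h.symm hxy)]

lemma word (h1 : f 1 = 1) (hF : Free f (fun i => (S i : Set R)))
    (htr : ∀ i, ∀ a ∈ S i, ∀ b ∈ S i, f (a * b) = f (b * a)) {x y : R}
    (hx : x ∈ RW f (fun i => (S i : Set R))) (hy : y ∈ RW f (fun i => (S i : Set R))) :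
    f (x * y) = f (y * x) := by
  obtain ⟨l, _, hc, hl, rfl⟩ := hx
  obtain ⟨l', _, hc', hl', rfl⟩ := hy
  have hl : Cen f S l := hl
  have hl' : Cen f S l' := hl'
  have hc : Ch l := hc
  have hc' : Ch l' := hc'
  have e1 := pair f S h1 hF l.reverse l' (ch_reverse hc) hc' (cen_reverse f S hl) hl'
  have e2 := pair f S h1 hF l'.reverse l (ch_reverse hc') hc (cen_reverse f S hl') hl
  rw [List.reverse_reverse] at e1 e2
  rw [e1, e2, Q_comm f S htr l.reverse l' (cen_reverse f S hl) hl']
  have := Q_reverse f l'.reverse l
  rw [List.reverse_reverse] at this
  rw [← this]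

end TRC_

theorem p_TRC (h_SPN : T_SPN) : T_TRC := by
  intro I R _ _ f S h1 hF htr x hx y hy
  have hx' := h_SPN I R f S h1 x hx
  have hy' := h_SPN I R f S h1 y hy
  have key : ∀ u ∈ insert (1 : R) (RW f (fun i => (S i : Set R))),
      ∀ v ∈ insert (1 : R) (RW f (fun i => (S i : Set R))), f (u * v) = f (v * u) := by
    intro u hu v hv
    rcases Set.mem_insert_iff.mp hu with rfl | hu
    · rw [one_mul, mul_one]
    rcases Set.mem_insert_iff.mp hv with rfl | hv
    · rw [one_mul, mul_one]
    exact TRC_.word f S h1 hF htr hu hv
  have step : ∀ u ∈ insert (1 : R) (RW f (fun i => (S i : Set R))), f (u * y) = f (y * u) := by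
    intro u hu
    refine Submodule.span_induction (p := fun v _ => f (u * v) = f (v * u)) ?_ ?_ ?_ ?_ hy'
    · intro v hv
      exact key u hu v hv
    · simp
    · intro a b _ _ ha hb
      rw [mul_add, add_mul, map_add, map_add, ha, hb]
    · intro c a _ ha
      rw [mul_smul_comm, smul_mul_assoc, map_smul, map_smul, ha]
  refine Submodule.span_induction (p := fun u _ => f (u * y) = f (y * u)) ?_ ?_ ?_ ?_ hx'
  · intro u hu
    exact step u hu
  · simp
  · intro a b _ _ ha hb
    rw [mul_add, add_mul, map_add, map_add, ha, hb]
  · intro c a _ ha
    rw [mul_smul_comm, smul_mul_assoc, map_smul, map_smul, ha]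

end Pool.Agent.FPZ
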