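import Pool.Agent.FPZ.Targets2
import Pool.Agent.FPZ.Targets3

set_option autoImplicit false

/-!
# FPZ: UNI, uniqueness up to approximate unitary equivalence
-/

open scoped Classical
open MeasureTheory

noncomputable section

namespace Pool.Agent.FPZ

namespace UNI_

/-- A finite family of orthogonal projections. -/
structure OP {A S : Type} [CStarAlgebra A] (q : S → A) : Prop where
  sa : ∀ s, star (q s) = q s
  idem : ∀ s, q s * q s = q s
  orth : ∀ s s', s ≠ s' → q s * q s' = 0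

/-- The diagonal element. -/
def DD {A S : Type} [CStarAlgebra A] [Fintype S] (q : S → A) (c : S → ℂ) : A :=
  ∑ s, c s • q s

section alg

variable {A S : Type} [CStarAlgebra A]

lemma vp {p v : A} (hp : IsStarProjection p) (h : star v * v = p) : v * p = v := by
  have hpp : p * p = p := hp.isIdempotentElem
  have hps : star p = p := hp.isSelfAdjoint
  have h1 : star (v * p - v) * (v * p - v) = 0 := by
    rw [star_sub, star_mul, hps]
    have e1 : (p * star v - star v) * (v * p - v) = p * (star v * v) * p - p * (star v * v)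
        - (star v * v) * p + star v * v := by noncomm_ring
    rw [e1, h]
    simp [hpp]
  exact sub_eq_zero.mp ((CStarRing.star_mul_self_eq_zero_iff _).mp h1)

lemma mk_op {p : A} {v : S → A} (hp : IsStarProjection p) (hv : ∀ s, star (v s) * v s = p)
    (ho : ∀ s s', s ≠ s' → star (v s) * v s' = 0) : OP (fun s => v s * star (v s)) where
  sa s := by simp
  idem s := by
    have e1 : v s * star (v s) * (v s * star (v s)) = v s * (star (v s) * v s) * star (v s) := by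
      noncomm_ring
    rw [e1, hv s, vp hp (hv s)]
  orth s s' h := by
    have e1 : v s * star (v s) * (v s' * star (v s')) = v s * (star (v s) * v s') * star (v s') := by
      noncomm_ring
    rw [e1, ho s s' h]
    simp

lemma mul_sum {q : S → A} (hq : OP q) (T : Finset S) (s : S) :
    q s * ∑ x ∈ T, q x = if s ∈ T then q s else 0 := by
  rw [Finset.mul_sum]
  split_ifs with h
  · rw [Finset.sum_eq_single s]
    · exact hq.idem s
    · intro b _ hb
      exact hq.orth s b hb.symm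
    · intro h'
      exact absurd h h'
  · refine Finset.sum_eq_zero fun x hx => hq.orth s x ?_
    rintro rfl
    exact h hx

lemma sum_star {q : S → A} (hq : OP q) (T : Finset S) : star (∑ x ∈ T, q x) = ∑ x ∈ T, q x := by
  rw [star_sum]
  exact Finset.sum_congr rfl fun x _ => hq.sa x

lemma sum_mul {q : S → A} (hq : OP q) (T : Finset S) (s : S) :
    (∑ x ∈ T, q x) * q s = if s ∈ T then q s else 0 := by
  have h := congrArg star (mul_sum hq T s)
  rw [star_mul, sum_star hq, hq.sa] at h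
  rw [h]
  split_ifs
  · exact hq.sa s
  · simp

lemma sum_disj {q : S → A} (hq : OP q) (T T' : Finset S) (h : Disjoint T T') :
    (∑ x ∈ T, q x) * ∑ x ∈ T', q x = 0 := by
  rw [Finset.sum_mul]
  refine Finset.sum_eq_zero fun x hx => ?_
  rw [mul_sum hq, if_neg]
  exact Finset.disjoint_left.mp h hx

variable [Fintype S]

lemma proj_sum {q : S → A} (hq : OP q) : IsStarProjection (∑ x, q x) where
  isIdempotentElem := by
    change (∑ x, q x) * (∑ x, q x) = _
    rw [Finset.sum_mul]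
    refine Finset.sum_congr rfl fun x _ => ?_
    rw [mul_sum hq, if_pos (Finset.mem_univ x)]
  isSelfAdjoint := sum_star hq _

lemma proj_e {q : S → A} (hq : OP q) : IsStarProjection (1 - ∑ x, q x) :=
  (proj_sum hq).one_sub

lemma e_q {q : S → A} (hq : OP q) (s : S) : (1 - ∑ x, q x) * q s = 0 := by
  rw [sub_mul, one_mul, sum_mul hq, if_pos (Finset.mem_univ s), sub_self]

lemma q_e {q : S → A} (hq : OP q) (s : S) : q s * (1 - ∑ x, q x) = 0 := by
  rw [mul_sub, mul_one, mul_sum hq, if_pos (Finset.mem_univ s), sub_self]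

lemma e_D {q : S → A} (hq : OP q) (c : S → ℂ) : (1 - ∑ x, q x) * DD q c = 0 := by
  unfold DD
  rw [Finset.mul_sum]
  refine Finset.sum_eq_zero fun x _ => ?_
  rw [mul_smul_comm, e_q hq, smul_zero]

lemma D_e {q : S → A} (hq : OP q) (c : S → ℂ) : DD q c * (1 - ∑ x, q x) = 0 := by
  unfold DD
  rw [Finset.sum_mul]
  refine Finset.sum_eq_zero fun x _ => ?_
  rw [smul_mul_assoc, q_e hq, smul_zero]

lemma Q_D {q : S → A} (hq : OP q) (c : S → ℂ) : (∑ x, q x) * DD q c = DD q c := by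
  have h := e_D hq c
  rw [sub_mul, one_mul, sub_eq_zero] at h
  exact h.symm

lemma D_Q {q : S → A} (hq : OP q) (c : S → ℂ) : DD q c * (∑ x, q x) = DD q c := by
  have h := D_e hq c
  rw [mul_sub, mul_one, sub_eq_zero] at h
  exact h.symm

lemma star_D {q : S → A} (hq : OP q) (c : S → ℂ) :
    star (DD q c) = DD q (fun s => star (c s)) := by
  unfold DD
  rw [star_sum]
  refine Finset.sum_congr rfl fun x _ => ?_
  rw [star_smul, hq.sa]

lemma D_sub {q : S → A} (c c' : S → ℂ) : DD q c - DD q c' = DD q (fun s => c s - c' s) := by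
  unfold DD
  rw [← Finset.sum_sub_distrib]
  exact Finset.sum_congr rfl fun x _ => (sub_smul _ _ _).symm

/-- Norms are not changed by unitaries. -/
lemma norm_conj {U : A} (h1 : star U * U = 1) (h2 : U * star U = 1) (a : A) :
    ‖U * a * star U‖ = ‖a‖ := by
  have hU : U ∈ unitary A := by
    rw [Unitary.mem_iff]; exact ⟨h1, h2⟩
  have hU' : star U ∈ unitary A := Unitary.star_mem hU
  rw [CStarRing.norm_mul_mem_unitary _ hU', CStarRing.norm_mem_unitary_mul _ hU]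

/-- Cutting by a projection is contractive. -/
lemma norm_cut {e : A} (he : IsStarProjection e) (a : A) : ‖e * a * e‖ ≤ ‖a‖ := by
  have h1 : ‖e‖ ≤ 1 := he.norm_le
  calc ‖e * a * e‖ ≤ ‖e‖ * ‖a‖ * ‖e‖ := (norm_mul_le _ _).trans
        (mul_le_mul_of_nonneg_right (norm_mul_le _ _) (norm_nonneg _))
    _ ≤ 1 * ‖a‖ * 1 := by
        gcongr
    _ = ‖a‖ := by ring

end alg

section top

variable {Z A S : Type} [TopologicalSpace Z] [CompactSpace Z] [CStarAlgebra A] [Fintype S]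

omit [CompactSpace Z] in
/-- T_QCO for functions. -/
lemma near (h_QCO : T_QCO) (ι : C(Z, ℂ) →⋆ₐ[ℂ] A) {q : S → A} (hq : OP q) (zz : S → Z)
    (h : C(Z, ℂ)) (ε₃ : ℝ)
    (h1 : ‖ι h * (∑ s, q s) - DD q (fun s => h (zz s))‖ ≤ ε₃)
    (h2 : ‖ι (star h) * (∑ s, q s) - DD q (fun s => (star h) (zz s))‖ ≤ ε₃) :
    ‖ι h * (1 - ∑ s, q s) - (1 - ∑ s, q s) * ι h‖ ≤ 2 * ε₃ ∧
    ‖ι h - ((1 - ∑ s, q s) * ι h * (1 - ∑ s, q s) + DD q (fun s => h (zz s)))‖ ≤ 2 * ε₃ := by
  apply h_QCO A (∑ s, q s) (ι h) (DD q fun s => h (zz s)) ε₃ (proj_sum hq) (Q_D hq _) (D_Q hq _) h1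
  rw [star_D hq, ← map_star]
  exact h2

/-- Step (i). -/
lemma stepI (h_PRM : T_PRM) (h_DGN : T_DGN) (p : A) (v : S → A) (π : S ≃ S)
    (hp : IsStarProjection p)
    (hv : ∀ s, star (v s) * v s = p) (ho : ∀ s s', s ≠ s' → star (v s) * v s' = 0) :
    ∃ U : A, star U * U = 1 ∧ U * star U = 1 ∧
      ∀ (a : A) (c c' : S → ℂ) (ε₃ θ : ℝ), 0 ≤ θ → (∀ s, ‖c s - c' (π s)‖ ≤ θ) →
        ‖a - ((1 - ∑ s, v s * star (v s)) * a * (1 - ∑ s, v s * star (v s)) +
          DD (fun s => v s * star (v s)) c)‖ ≤ ε₃ →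
        ‖U * a * star U - ((1 - ∑ s, v s * star (v s)) * a * (1 - ∑ s, v s * star (v s)) +
          DD (fun s => v s * star (v s)) c')‖ ≤ ε₃ + θ := by
  obtain ⟨U, h1, h2, h3, _, h5⟩ := h_PRM A S p v π hp hv ho
  refine ⟨U, h1, h2, fun a c c' ε₃ θ hθ hc ha => ?_⟩
  have hes : star (1 - ∑ s, v s * star (v s)) = 1 - ∑ s, v s * star (v s) :=
    (proj_e (mk_op hp hv ho)).isSelfAdjoint
  generalize he : 1 - ∑ s, v s * star (v s) = e at *
  have h6 : e * star U = e := by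
    have := congrArg star h3
    rw [star_mul, hes] at this
    exact this
  have h7 : U * (e * a * e + DD (fun s => v s * star (v s)) c) * star U =
      e * a * e + DD (fun s => v s * star (v s)) (fun s => c (π.symm s)) := by
    rw [mul_add, add_mul]
    congr 1
    · calc U * (e * a * e) * star U = (U * e) * a * (e * star U) := by noncomm_ring
        _ = e * a * e := by rw [h3, h6]
    · unfold DD
      rw [h5 c]
      exact Fintype.sum_equiv π _ _ (fun s => by simp)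
  have h8 : U * a * star U - (e * a * e + DD (fun s => v s * star (v s)) c') =
      U * (a - (e * a * e + DD (fun s => v s * star (v s)) c)) * star U +
      (DD (fun s => v s * star (v s)) (fun s => c (π.symm s)) -
        DD (fun s => v s * star (v s)) c') := by
    rw [mul_sub, sub_mul, h7]
    abel
  rw [h8]
  refine (norm_add_le _ _).trans (add_le_add ?_ ?_)
  · rw [norm_conj h1 h2]
    exact ha
  · rw [D_sub]
    exact h_DGN A S p v _ θ hp hθ hv ho (fun s => by simpa using hc (π.symm s))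

lemma D_T {q : S → A} (hq : OP q) (c : S → ℂ) (T : Finset S) :
    DD q c * ∑ x ∈ T, q x = ∑ x ∈ T, c x • q x := by
  unfold DD
  rw [Finset.sum_mul, ← Finset.sum_filter_add_sum_filter_not Finset.univ (fun x => x ∈ T)]
  have h2 : ∑ x ∈ Finset.univ.filter (fun x => x ∉ T), (c x • q x * ∑ x ∈ T, q x) = 0 := by
    refine Finset.sum_eq_zero fun x hx => ?_
    rw [smul_mul_assoc, mul_sum hq, if_neg (Finset.mem_filter.mp hx).2, smul_zero]
  rw [h2, add_zero]
  have h3 : Finset.univ.filter (fun x => x ∈ T) = T := by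
    ext x; simp
  rw [h3]
  refine Finset.sum_congr rfl fun x hx => ?_
  rw [smul_mul_assoc, mul_sum hq, if_pos hx]

lemma D_s {q : S → A} (hq : OP q) (c m : S → ℂ) (γ : ℂ) (T : Finset S) (s : A)
    (hs : (∑ x ∈ T, q x) * s = s) (hc : ∀ x ∈ T, c x = γ + m x) :
    DD q c * s = γ • s + DD q m * s := by
  have h1 : ∀ c : S → ℂ, DD q c * s = (∑ x ∈ T, c x • q x) * s := by
    intro c
    rw [← D_T hq, mul_assoc, hs]
  rw [h1 c, h1 m]
  have h2 : ∑ x ∈ T, c x • q x = γ • (∑ x ∈ T, q x) + ∑ x ∈ T, m x • q x := by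
    rw [Finset.smul_sum, ← Finset.sum_add_distrib]
    refine Finset.sum_congr rfl fun x hx => ?_
    rw [hc x hx, add_smul]
  rw [h2, add_mul, smul_mul_assoc, hs]

/-- The function estimate. -/
lemma fun_est (ι : C(Z, ℂ) →⋆ₐ[ℂ] A) (N : ℕ) (G : C(Z, ℂ)) (l : Fin N → C(Z, ℝ)) (γ : Fin N → ℂ)
    (θ : ℝ) (hl : ∀ z, ∑ j, l j z ^ 2 = 1)
    (hg : ∀ j z, l j z ≠ 0 → ‖G z - γ j‖ ≤ θ) :
    ‖∑ j, star ((ι G - γ j • 1) * ι (toC (l j))) * ((ι G - γ j • 1) * ι (toC (l j)))‖ ≤ θ ^ 2 := by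
  have h1 : ∑ j, star ((ι G - γ j • 1) * ι (toC (l j))) * ((ι G - γ j • 1) * ι (toC (l j))) =
      ι (∑ j, star ((G - γ j • (1 : C(Z, ℂ))) * toC (l j)) *
        ((G - γ j • (1 : C(Z, ℂ))) * toC (l j))) := by
    rw [map_sum]
    refine Finset.sum_congr rfl fun j _ => ?_
    rw [map_mul, map_star, map_mul, map_sub, map_smul, map_one]
  rw [h1]
  refine (NonUnitalStarAlgHom.norm_apply_le ι _).trans ?_
  rw [ContinuousMap.norm_le _ (by positivity)]
  intro z
  rw [ContinuousMap.sum_apply]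
  have h2 : ∀ j, ‖(star ((G - γ j • (1 : C(Z, ℂ))) * toC (l j)) *
      ((G - γ j • (1 : C(Z, ℂ))) * toC (l j))) z‖ ≤ θ ^ 2 * l j z ^ 2 := by
    intro j
    have e1 : ((G - γ j • (1 : C(Z, ℂ))) * toC (l j)) z = (G z - γ j) * (l j z : ℂ) := by
      simp [toC]
    rw [ContinuousMap.mul_apply, ContinuousMap.star_apply, e1, norm_mul, norm_star, norm_mul,
      Complex.norm_real, Real.norm_eq_abs]
    by_cases h0 : l j z = 0
    · rw [h0]; simp
    · have h3 := hg j z h0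
      have h4 : |l j z| * |l j z| = l j z ^ 2 := by rw [← sq, sq_abs]
      calc ‖G z - γ j‖ * |l j z| * (‖G z - γ j‖ * |l j z|)
          = ‖G z - γ j‖ ^ 2 * (|l j z| * |l j z|) := by ring
        _ ≤ θ ^ 2 * (|l j z| * |l j z|) := by
            gcongr
        _ = θ ^ 2 * l j z ^ 2 := by rw [h4]
  calc _ ≤ ∑ j, ‖(star ((G - γ j • (1 : C(Z, ℂ))) * toC (l j)) *
      ((G - γ j • (1 : C(Z, ℂ))) * toC (l j))) z‖ := norm_sum_le _ _
    _ ≤ ∑ j, θ ^ 2 * l j z ^ 2 := Finset.sum_le_sum fun j _ => h2 j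
    _ = θ ^ 2 := by rw [← Finset.mul_sum, hl z, mul_one]

/-- Step (ii), one isometry. -/
lemma stepII (h_VCO : T_VCO) (h_DGN : T_DGN) (ι : C(Z, ℂ) →⋆ₐ[ℂ] A) (p : A) (v : S → A)
    (hp : IsStarProjection p)
    (hv : ∀ s, star (v s) * v s = p) (ho : ∀ s s', s ≠ s' → star (v s) * v s' = 0) (zz : S → Z)
    (F : Finset C(Z, ℂ)) (N : ℕ) (y : Fin N → Z) (lam : Fin N → C(Z, ℝ)) (h : C(Z, Z))
    (δ θ C : ℝ) (s : Fin N → A) (T : Fin N → Finset S) (hδ : 0 ≤ δ) (hθ : 0 ≤ θ)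
    (hN : N * δ ≤ 1 / 4)
    (hs : ∀ j, star (s j) * s j = 1 - ∑ s, v s * star (v s))
    (hT : ∀ i j, i ≠ j → Disjoint (T i) (T j))
    (hTs : ∀ j, (∑ x ∈ T j, v x * star (v x)) * s j = s j)
    (hlam : ∀ z, ∑ j, lam j z ^ 2 = 1)
    (hy : ∀ g ∈ F, ∀ j z, lam j z ≠ 0 → ‖g z - g (y j)‖ ≤ θ)
    (hy' : ∀ g ∈ F, ∀ j, ∀ x ∈ T j, ‖g (zz x) - g (y j)‖ ≤ θ)
    (hC : ∀ g ∈ F, ‖g‖ ≤ C)
    (hc1 : ∀ j, ‖ι (toC ((lam j).comp h)) * (1 - ∑ s, v s * star (v s)) -
      (1 - ∑ s, v s * star (v s)) * ι (toC ((lam j).comp h))‖ ≤ δ)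
    (hc2 : ∀ g ∈ F, ‖ι (g.comp h) * (1 - ∑ s, v s * star (v s)) -
      (1 - ∑ s, v s * star (v s)) * ι (g.comp h)‖ ≤ δ) :
    ∃ (V : A) (c : Fin N → A), star V * V = 1 - ∑ s, v s * star (v s) ∧ V = ∑ j, s j * c j ∧
      V * (1 - ∑ s, v s * star (v s)) = V ∧
      ∀ g ∈ F, ‖DD (fun s => v s * star (v s)) (fun s => g (zz s)) * V -
        V * ((1 - ∑ s, v s * star (v s)) * ι (g.comp h) * (1 - ∑ s, v s * star (v s)))‖ ≤
        5 * θ + 5 * (N * C + 1) * δ := by
  have hq := mk_op hp hv ho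
  have he := proj_e hq
  have hso : ∀ i j, i ≠ j → star (s i) * s j = 0 := by
    intro i j hij
    have h1 : star (s i) = star (s i) * ∑ x ∈ T i, v x * star (v x) := by
      have := congrArg star (hTs i)
      rw [star_mul, sum_star hq] at this
      exact this.symm
    rw [h1, ← hTs j]
    calc star (s i) * (∑ x ∈ T i, v x * star (v x)) * ((∑ x ∈ T j, v x * star (v x)) * s j)
        = star (s i) * ((∑ x ∈ T i, v x * star (v x)) * (∑ x ∈ T j, v x * star (v x))) * s j := by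
          simp only [mul_assoc]
      _ = 0 := by
          rw [sum_disj hq _ _ (hT i j hij)]
          simp
  have g1 : ∀ j, star (ι (toC ((lam j).comp h))) = ι (toC ((lam j).comp h)) := by
    intro j
    rw [← map_star]
    congr 1
    ext z
    simp [toC]
  have g2 : ∑ j, ι (toC ((lam j).comp h)) * ι (toC ((lam j).comp h)) = 1 := by
    rw [← map_one ι]
    have : ∀ j, ι (toC ((lam j).comp h)) * ι (toC ((lam j).comp h)) =
        ι (toC ((lam j).comp h) * toC ((lam j).comp h)) := fun j => (map_mul _ _ _).symm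
    simp only [this]
    rw [← map_sum]
    congr 1
    ext z
    rw [ContinuousMap.sum_apply]
    have h1 := hlam (h z)
    have h2 : ∀ j, (toC ((lam j).comp h) * toC ((lam j).comp h)) z =
        ((lam j (h z) ^ 2 : ℝ) : ℂ) := by
      intro j
      simp [toC, sq]
    simp only [h2]
    rw [← Complex.ofReal_sum, h1]
    simp
  have g3 : ∀ (g : {g // g ∈ F}) (j : Fin N),
      ι (toC ((lam j).comp h)) * ι (g.1.comp h) = ι (g.1.comp h) * ι (toC ((lam j).comp h)) := by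
    intro g j
    rw [← map_mul, ← map_mul, mul_comm]
  have g4 : ∀ (g : {g // g ∈ F}), ‖∑ j, star ((ι (g.1.comp h) - g.1 (y j) • 1) *
      ι (toC ((lam j).comp h))) * ((ι (g.1.comp h) - g.1 (y j) • 1) *
      ι (toC ((lam j).comp h)))‖ ≤ θ ^ 2 := by
    intro g
    exact fun_est ι N (g.1.comp h) (fun j => (lam j).comp h) _ θ (fun z => hlam (h z))
      (fun j z hz => hy g.1 g.2 j (h z) hz)
  have g5 : ∀ (g : {g // g ∈ F}), ∃ M : A, ‖M‖ ≤ θ ∧ ∀ j,
      DD (fun s => v s * star (v s)) (fun s => g.1 (zz s)) * s j =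
        g.1 (y j) • s j + M * s j := by
    intro g
    refine ⟨DD (fun s => v s * star (v s)) (fun x => if hx : ∃ j, x ∈ T j then
      g.1 (zz x) - g.1 (y hx.choose) else 0), ?_, ?_⟩
    · refine h_DGN A S p v _ θ hp hθ hv ho ?_
      intro x
      split_ifs with hx
      · exact hy' g.1 g.2 _ x hx.choose_spec
      · simpa using hθ
    · intro j
      refine D_s hq _ _ _ (T j) (s j) (hTs j) ?_
      intro x hx
      have hx' : ∃ j, x ∈ T j := ⟨j, hx⟩
      rw [dif_pos hx']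
      have h1 : hx'.choose = j := by
        by_contra hne
        exact Finset.disjoint_left.mp (hT _ _ hne) hx'.choose_spec hx
      rw [h1]
      ring
  obtain ⟨V, c, hV1, hV2, hV3, hV4⟩ := h_VCO A {g // g ∈ F} _ N s
    (fun j => ι (toC ((lam j).comp h))) (fun g => ι (g.1.comp h))
    (fun g => DD (fun s => v s * star (v s)) (fun s => g.1 (zz s))) (fun g j => g.1 (y j)) δ θ
    he hδ hθ hN hs hso g1 g2 hc1 (fun g => hc2 g.1 g.2) g3 g4 g5
  refine ⟨V, c, hV1, hV2, hV3, fun g hg => (hV4 ⟨g, hg⟩).trans ?_⟩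
  have h1 : ‖ι (g.comp h)‖ ≤ C := by
    refine (NonUnitalStarAlgHom.norm_apply_le ι _).trans (le_trans ?_ (hC g hg))
    rw [ContinuousMap.norm_le _ (norm_nonneg _)]
    intro z
    exact ContinuousMap.norm_coe_le_norm g (h z)
  have h2 : (N : ℝ) * ‖ι (g.comp h)‖ ≤ N * C := mul_le_mul_of_nonneg_left h1 (Nat.cast_nonneg N)
  have h3 : ((N : ℝ) * ‖ι (g.comp h)‖ + 1) * δ ≤ (N * C + 1) * δ :=
    mul_le_mul_of_nonneg_right (by linarith) hδ
  change 5 * θ + 5 * (N * ‖ι (g.comp h)‖ + 1) * δ ≤ _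
  linarith

/-- Steps (ii) and (iii). -/
lemma stepIII (h_CHN : T_CHN) (h_VCO : T_VCO) (h_DGN : T_DGN) (ι : C(Z, ℂ) →⋆ₐ[ℂ] A) (p : A)
    (v : S → A) (hp : IsStarProjection p)
    (hv : ∀ s, star (v s) * v s = p) (ho : ∀ s s', s ≠ s' → star (v s) * v s' = 0) (zz : S → Z)
    (F : Finset C(Z, ℂ)) (hF : ∀ g ∈ F, star g ∈ F) (m N : ℕ) (y : Fin N → Z)
    (lam : Fin N → C(Z, ℝ)) (fi : ℕ → C(Z, Z))
    (δ θ C ε : ℝ) (s : Fin m → Fin N → A) (T : Fin m → Fin N → Finset S) (hδ : 0 ≤ δ)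
    (hθ : 0 ≤ θ) (hC0 : 0 ≤ C) (hε : 0 ≤ ε)
    (hN : N * δ ≤ 1 / 4)
    (hs : ∀ i j, star (s i j) * s i j = 1 - ∑ s, v s * star (v s))
    (hT : ∀ i j i' j', (i, j) ≠ (i', j') → Disjoint (T i j) (T i' j'))
    (hTs : ∀ i j, (∑ x ∈ T i j, v x * star (v x)) * s i j = s i j)
    (hlam : ∀ z, ∑ j, lam j z ^ 2 = 1)
    (hy : ∀ g ∈ F, ∀ j z, lam j z ≠ 0 → ‖g z - g (y j)‖ ≤ θ)
    (hy' : ∀ g ∈ F, ∀ i j, ∀ x ∈ T i j, ‖g (zz x) - g (y j)‖ ≤ θ)
    (hC : ∀ g ∈ F, ‖g‖ ≤ C)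
    (hc1 : ∀ i < m, ∀ j, ‖ι (toC ((lam j).comp (fi (i + 1)))) * (1 - ∑ s, v s * star (v s)) -
      (1 - ∑ s, v s * star (v s)) * ι (toC ((lam j).comp (fi (i + 1))))‖ ≤ δ)
    (hc2 : ∀ g ∈ F, ∀ i < m, ‖ι (g.comp (fi (i + 1))) * (1 - ∑ s, v s * star (v s)) -
      (1 - ∑ s, v s * star (v s)) * ι (g.comp (fi (i + 1)))‖ ≤ δ)
    (hh : ∀ g ∈ F, ∀ i < m, ∀ z, ‖g (fi i z) - g (fi (i + 1) z)‖ ≤ ε) :
    ∃ U : A, star U * U = 1 ∧ U * star U = 1 ∧
      ∀ g ∈ F, ‖U * ((1 - ∑ s, v s * star (v s)) * ι (g.comp (fi 0)) *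
        (1 - ∑ s, v s * star (v s)) +
        DD (fun s => v s * star (v s)) (fun s => g (zz s))) * star U -
        ((1 - ∑ s, v s * star (v s)) * ι (g.comp (fi m)) * (1 - ∑ s, v s * star (v s)) +
        DD (fun s => v s * star (v s)) (fun s => g (zz s)))‖ ≤
        ε + 10 * m * (5 * θ + 5 * (N * C + 1) * δ) := by
  have hq := mk_op hp hv ho
  have he := proj_e hq
  have key : ∀ i : Fin m, ∃ (V : A) (c : Fin N → A), star V * V = 1 - ∑ s, v s * star (v s) ∧
      V = ∑ j, s i j * c j ∧ V * (1 - ∑ s, v s * star (v s)) = V ∧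
      ∀ g ∈ F, ‖DD (fun s => v s * star (v s)) (fun s => g (zz s)) * V -
        V * ((1 - ∑ s, v s * star (v s)) * ι (g.comp (fi (i + 1))) *
          (1 - ∑ s, v s * star (v s)))‖ ≤ 5 * θ + 5 * (N * C + 1) * δ := fun i =>
    stepII h_VCO h_DGN ι p v hp hv ho zz F N y lam (fi (i + 1)) δ θ C (s i) (T i) hδ hθ hN
      (hs i) (fun j j' hj => hT i j i j' (fun h => hj (Prod.mk.inj h).2)) (hTs i) hlam hy
      (fun g hg j => hy' g hg i j) hC (hc1 i i.2) (fun g hg => hc2 g hg i i.2)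
  choose V c hV1 hV2 hV3 hV4 using key
  have he1 : ∀ i j, (1 - ∑ s, v s * star (v s)) * s i j = 0 := by
    intro i j
    rw [← hTs i j, ← mul_assoc]
    have h1 : (1 - ∑ s, v s * star (v s)) * ∑ x ∈ T i j, v x * star (v x) = 0 := by
      rw [Finset.mul_sum]
      exact Finset.sum_eq_zero fun x _ => e_q hq x
    rw [h1, zero_mul]
  have hso : ∀ i j i' j', (i, j) ≠ (i', j') → star (s i j) * s i' j' = 0 := by
    intro i j i' j' hij
    have h1 : star (s i j) = star (s i j) * ∑ x ∈ T i j, v x * star (v x) := by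
      have := congrArg star (hTs i j)
      rw [star_mul, sum_star hq] at this
      exact this.symm
    rw [h1, ← hTs i' j']
    calc star (s i j) * (∑ x ∈ T i j, v x * star (v x)) *
          ((∑ x ∈ T i' j', v x * star (v x)) * s i' j')
        = star (s i j) * ((∑ x ∈ T i j, v x * star (v x)) *
          (∑ x ∈ T i' j', v x * star (v x))) * s i' j' := by
          simp only [mul_assoc]
      _ = 0 := by
          rw [sum_disj hq _ _ (hT i j i' j' hij)]
          simp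
  have hes : star (1 - ∑ s, v s * star (v s)) = 1 - ∑ s, v s * star (v s) := he.isSelfAdjoint
  have hee : (1 - ∑ s, v s * star (v s)) * (1 - ∑ s, v s * star (v s)) =
    1 - ∑ s, v s * star (v s) := he.isIdempotentElem
  have hDe := fun g : C(Z, ℂ) => D_e hq (fun s => g (zz s))
  have heD := fun g : C(Z, ℂ) => e_D hq (fun s => g (zz s))
  have hDs : ∀ g : C(Z, ℂ), star (DD (fun s => v s * star (v s)) (fun s => (star g) (zz s))) =
      DD (fun s => v s * star (v s)) (fun s => g (zz s)) := by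
    intro g
    rw [star_D hq]
    congr 1
    funext s
    simp
  generalize heq : 1 - ∑ s, v s * star (v s) = e at *
  obtain ⟨W, hW⟩ : ∃ W : ℕ → A, ∀ i, ∀ hi : i < m, W i = V ⟨i, hi⟩ :=
    ⟨fun i => if h : i < m then V ⟨i, h⟩ else 0, fun i hi => dif_pos hi⟩
  obtain ⟨U, hU1, hU2, hU3⟩ := h_CHN A {g // g ∈ F} e m
    W
    (fun g => DD (fun s => v s * star (v s)) (fun s => g.1 (zz s)))
    (fun g i => e * ι (g.1.comp (fi i)) * e) ε (5 * θ + 5 * (N * C + 1) * δ) he hε (by positivity)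
    (fun i hi => by rw [hW i hi]; exact hV1 _)
    (fun i hi j hj hij => by
      rw [hW i hi, hW j hj, hV2, hV2, star_sum, Finset.sum_mul]
      refine Finset.sum_eq_zero fun k _ => ?_
      rw [Finset.mul_sum]
      refine Finset.sum_eq_zero fun k' _ => ?_
      rw [star_mul]
      calc star (c ⟨i, hi⟩ k) * star (s ⟨i, hi⟩ k) * (s ⟨j, hj⟩ k' * c ⟨j, hj⟩ k')
          = star (c ⟨i, hi⟩ k) * (star (s ⟨i, hi⟩ k) * s ⟨j, hj⟩ k') * c ⟨j, hj⟩ k' := by
            simp only [mul_assoc]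
        _ = 0 := by
            rw [hso _ _ _ _ (fun h => hij (congrArg Fin.val (Prod.mk.inj h).1))]
            simp)
    (fun i hi => by
      rw [hW i hi, hV2, Finset.mul_sum]
      refine Finset.sum_eq_zero fun k _ => ?_
      rw [← mul_assoc, he1, zero_mul])
    (fun g => ⟨hDe g.1, heD g.1⟩)
    (fun g i => ⟨by rw [← mul_assoc, ← mul_assoc, hee], by rw [mul_assoc, hee]⟩)
    (fun g i hi => by
      rw [hW i hi]
      refine ⟨hV4 ⟨i, hi⟩ g.1 g.2, ?_⟩
      have h1 := hV4 ⟨i, hi⟩ (star g.1) (hF g.1 g.2)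
      rw [← norm_star, star_sub, star_mul, star_mul, hDs, star_mul, star_mul, hes,
        ← map_star] at h1
      have h2 : star ((star g.1).comp (fi (i + 1))) = g.1.comp (fi (i + 1)) := by
        ext z
        simp
      have h3 : e * (ι (star ((star g.1).comp (fi (i + 1)))) * e) =
          e * ι (g.1.comp (fi (i + 1))) * e := by
        rw [h2, mul_assoc]
      rw [← h3]
      exact h1)
    (fun g i hi => by
      have h1 : e * ι (g.1.comp (fi i)) * e - e * ι (g.1.comp (fi (i + 1))) * e =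
          e * ι (g.1.comp (fi i) - g.1.comp (fi (i + 1))) * e := by
        rw [map_sub, mul_sub, sub_mul]
      rw [h1]
      refine (norm_cut he _).trans ((NonUnitalStarAlgHom.norm_apply_le ι _).trans ?_)
      rw [ContinuousMap.norm_le _ hε]
      intro z
      exact hh g.1 g.2 i hi z)
  exact ⟨U, hU1, hU2, fun g hg => hU3 ⟨g, hg⟩⟩

end top

/-- Conjugation by two unitaries. -/
lemma final_est {A : Type} [CStarAlgebra A] {U₁ U₂ : A} (h3 : star U₂ * U₂ = 1)
    (h4 : U₂ * star U₂ = 1) (a b B B₀ : A)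
    (α β γ : ℝ) (ha : ‖U₁ * a * star U₁ - B‖ ≤ α) (hb : ‖U₂ * B₀ * star U₂ - B‖ ≤ β)
    (hc : ‖b - B₀‖ ≤ γ) :
    ‖star U₂ * U₁ * a * star (star U₂ * U₁) - b‖ ≤ α + β + γ := by
  have e1 : star U₂ * U₁ * a * star (star U₂ * U₁) - b =
      star U₂ * (U₁ * a * star U₁ - B) * star (star U₂) -
      star U₂ * (U₂ * B₀ * star U₂ - B) * star (star U₂) - (b - B₀) := by
    have e2 : star U₂ * (U₂ * B₀ * star U₂) * U₂ = B₀ := by
      calc star U₂ * (U₂ * B₀ * star U₂) * U₂ = (star U₂ * U₂) * B₀ * (star U₂ * U₂) := by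
            simp only [mul_assoc]
        _ = B₀ := by rw [h3, one_mul, mul_one]
    rw [star_mul, star_star]
    have e3 : star U₂ * (U₁ * a * star U₁ - B) * U₂ - star U₂ * (U₂ * B₀ * star U₂ - B) * U₂ =
        star U₂ * (U₁ * a * star U₁) * U₂ - star U₂ * (U₂ * B₀ * star U₂) * U₂ := by
      noncomm_ring
    rw [e3, e2]
    have e4 : star U₂ * U₁ * a * (star U₁ * U₂) = star U₂ * (U₁ * a * star U₁) * U₂ := by
      simp only [mul_assoc]
    rw [e4]
    abel
  rw [e1]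
  have h5 : star (star U₂) * star U₂ = 1 := by rw [star_star]; exact h4
  have h6 : star U₂ * star (star U₂) = 1 := by rw [star_star]; exact h3
  refine (norm_sub_le _ _).trans (add_le_add ((norm_sub_le _ _).trans (add_le_add ?_ ?_)) hc)
  · rw [norm_conj h5 h6]
    exact ha
  · rw [norm_conj h5 h6]
    exact hb

/-- The numerical estimates. -/
lemma numer (ε C : ℝ) (m N : ℕ) (hε : 0 < ε) (hε1 : ε ≤ 1) (hC : 0 ≤ C) :
    ∃ θ ε₃ : ℝ, 0 < θ ∧ θ ≤ ε ∧ 0 < ε₃ ∧ θ = ε / (1000 * (m + 1)) ∧ N * (2 * ε₃) ≤ 1 / 4 ∧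
      (2 * ε₃ + θ) + (ε / 10 + 10 * m * (5 * θ + 5 * (N * C + 1) * (2 * ε₃))) + 2 * ε₃ ≤ ε := by
  obtain ⟨θ, hθd⟩ : ∃ θ : ℝ, θ = ε / (1000 * (m + 1)) := ⟨_, rfl⟩
  have hm : (0 : ℝ) ≤ m := Nat.cast_nonneg m
  have hNn : (0 : ℝ) ≤ N := Nat.cast_nonneg N
  have hθ : 0 < θ := by rw [hθd]; positivity
  have h1 : θ * (m + 1) * 1000 = ε := by
    rw [hθd]; field_simp
  have hNC : 0 < ((N : ℝ) + 1) * (C + 1) := by positivity
  obtain ⟨ε₃, hε₃d⟩ : ∃ ε₃ : ℝ, ε₃ = θ / (1000 * (((N : ℝ) + 1) * (C + 1))) := ⟨_, rfl⟩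
  have hε₃ : 0 < ε₃ := by rw [hε₃d]; positivity
  have h2 : ε₃ * (((N : ℝ) + 1) * (C + 1)) * 1000 = θ := by
    rw [hε₃d]; field_simp
  have hmθ : 0 ≤ m * θ := by positivity
  have hθε : θ * 1000 ≤ ε := by
    have : θ * (m + 1) * 1000 = θ * 1000 + m * θ * 1000 := by ring
    linarith
  have hmθ2 : m * θ * 1000 ≤ ε := by
    have : θ * (m + 1) * 1000 = θ * 1000 + m * θ * 1000 := by ring
    linarith
  have h3 : ε₃ * 1000 ≤ θ := by
    have h4 : 1 ≤ ((N : ℝ) + 1) * (C + 1) := by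
      have : 0 ≤ (N : ℝ) * C := by positivity
      have e : ((N : ℝ) + 1) * (C + 1) = N * C + N + C + 1 := by ring
      linarith
    have h5 : ε₃ * 1 ≤ ε₃ * (((N : ℝ) + 1) * (C + 1)) := mul_le_mul_of_nonneg_left h4 hε₃.le
    linarith
  have h6 : (N * C + 1) * ε₃ * 1000 ≤ θ := by
    have h4 : (N : ℝ) * C + 1 ≤ ((N : ℝ) + 1) * (C + 1) := by
      have e : ((N : ℝ) + 1) * (C + 1) = N * C + N + C + 1 := by ring
      linarith
    have h5 : (N * C + 1) * ε₃ ≤ (((N : ℝ) + 1) * (C + 1)) * ε₃ :=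
      mul_le_mul_of_nonneg_right h4 hε₃.le
    linarith
  have h7 : N * ε₃ * 1000 ≤ θ := by
    have h4 : (N : ℝ) ≤ ((N : ℝ) + 1) * (C + 1) := by
      have : 0 ≤ (N : ℝ) * C := by positivity
      have e : ((N : ℝ) + 1) * (C + 1) = N * C + N + C + 1 := by ring
      linarith
    have h5 : N * ε₃ ≤ (((N : ℝ) + 1) * (C + 1)) * ε₃ :=
      mul_le_mul_of_nonneg_right h4 hε₃.le
    linarith
  refine ⟨θ, ε₃, hθ, by linarith, hε₃, hθd, by linarith, ?_⟩
  have h8 : 5 * θ + 5 * (N * C + 1) * (2 * ε₃) ≤ 6 * θ := by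
    have : 5 * (N * C + 1) * (2 * ε₃) = 10 * ((N * C + 1) * ε₃) := by ring
    rw [this]
    linarith
  have h9 : 10 * m * (5 * θ + 5 * (N * C + 1) * (2 * ε₃)) ≤ 10 * m * (6 * θ) :=
    mul_le_mul_of_nonneg_left h8 (by positivity)
  have h10 : 10 * m * (6 * θ) = 60 * (m * θ) := by ring
  linarith

end UNI_

open UNI_ in
/-- Uniqueness up to approximate unitary equivalence. -/
theorem p_UNI (h_SYS : T_SYS) (h_HTP : T_HTP) (h_NET : T_NET) (h_GRS : T_GRS) (h_VCO : T_VCO)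
    (h_CHN : T_CHN) (h_PRM : T_PRM) (h_DGN : T_DGN) (h_QCO : T_QCO) : T_UNI := by
  intro Z A _ _ _ _ _ _ μ _ _ t φ ι κ hFS ht f hf hhom F₀ ε₀ hε₀
  obtain ⟨ε, hε, hε1, hεle⟩ : ∃ ε : ℝ, 0 < ε ∧ ε ≤ 1 ∧ ε ≤ ε₀ :=
    ⟨min ε₀ 1, lt_min hε₀ one_pos, min_le_right _ _, min_le_left _ _⟩
  obtain ⟨F, hF0, hF⟩ : ∃ F : Finset C(Z, ℂ), F₀ ⊆ F ∧ ∀ g ∈ F, star g ∈ F := by
    refine ⟨F₀ ∪ F₀.image star, Finset.subset_union_left, fun g hg => ?_⟩
    rcases Finset.mem_union.mp hg with h | h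
    · exact Finset.mem_union_right _ (Finset.mem_image_of_mem _ h)
    · obtain ⟨g', hg', rfl⟩ := Finset.mem_image.mp h
      rw [star_star]
      exact Finset.mem_union_left _ hg'
  obtain ⟨C, hC0, hC⟩ : ∃ C : ℝ, 0 ≤ C ∧ ∀ g ∈ F, ‖g‖ ≤ C :=
    ⟨∑ g ∈ F, ‖g‖, Finset.sum_nonneg fun _ _ => norm_nonneg _,
      fun g hg => Finset.single_le_sum (f := fun g => ‖g‖) (fun _ _ => norm_nonneg _) hg⟩
  obtain ⟨m, fi, hfi0, hfim, hfi⟩ := h_HTP Z f F (ε / 10) (by positivity) hhom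
  obtain ⟨r, hr, hrF, N, y, lam, hlam0, hlam1, hlamr⟩ := h_NET Z F (ε / (1000 * (m + 1)))
    (by positivity)
  obtain ⟨θ, ε₃, hθ, hθε, hε₃, hθd, hNε, hfin⟩ := numer ε C m N hε hε1 hC0
  rw [← hθd] at hrF
  obtain ⟨H, hH1, hH2, hHs⟩ : ∃ H : Finset C(Z, ℂ), (∀ g ∈ F, ∀ i ≤ m, g.comp (fi i) ∈ H) ∧
      (∀ j, ∀ i ≤ m, toC ((lam j).comp (fi i)) ∈ H) ∧ ∀ h ∈ H, star h ∈ H := by
    refine ⟨(F ×ˢ Finset.range (m + 1)).image (fun x => x.1.comp (fi x.2)) ∪
      (Finset.univ ×ˢ Finset.range (m + 1)).image (fun x => toC ((lam x.1).comp (fi x.2))),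
      ?_, ?_, ?_⟩
    · intro g hg i hi
      refine Finset.mem_union_left _ (Finset.mem_image.mpr ⟨(g, i), ?_, rfl⟩)
      exact Finset.mem_product.mpr ⟨hg, Finset.mem_range.mpr (by omega)⟩
    · intro j i hi
      refine Finset.mem_union_right _ (Finset.mem_image.mpr ⟨(j, i), ?_, rfl⟩)
      exact Finset.mem_product.mpr ⟨Finset.mem_univ _, Finset.mem_range.mpr (by omega)⟩
    · intro h hh
      rcases Finset.mem_union.mp hh with h1 | h1
      · obtain ⟨⟨g, i⟩, h2, rfl⟩ := Finset.mem_image.mp h1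
        obtain ⟨h3, h4⟩ := Finset.mem_product.mp h2
        refine Finset.mem_union_left _ (Finset.mem_image.mpr ⟨(star g, i), ?_, ?_⟩)
        · exact Finset.mem_product.mpr ⟨hF g h3, h4⟩
        · ext x
          simp
      · obtain ⟨⟨j, i⟩, h2, rfl⟩ := Finset.mem_image.mp h1
        refine Finset.mem_union_right _ (Finset.mem_image.mpr ⟨(j, i), h2, ?_⟩)
        ext x
        simp [toC]
  obtain ⟨K, z, n, p, v, π, hp, hv, ho, hH, hSub, hn, hπ, hz⟩ :=
    h_SYS Z A μ t φ ι κ hFS ht f H ε₃ (r / 4) r (m * N) hf hε₃ (by positivity) hr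
  have hq := mk_op hp hv ho
  have hnear := fun h hh => near h_QCO ι hq (fun s => z s.1) h ε₃ (hH h hh) (hH _ (hHs h hh))
  obtain ⟨U₁, hU₁, hU₁', hU₁c⟩ := stepI h_PRM h_DGN p v π hp hv ho
  have hk : ∀ j : Fin N, ∃ k, dist (z k) (y j) < r / 2 := fun j => by
    obtain ⟨k, hk⟩ := hz (y j)
    exact ⟨k, by linarith⟩
  choose k hk using hk
  obtain ⟨T, hTc, hTk, hTd⟩ := h_GRS K m N n k hn
  have hsub : ∀ i j, ∃ s : A, star s * s = 1 - ∑ s, v s * star (v s) ∧
      (∑ x ∈ T i j, v x * star (v x)) * s = s := fun i j => hSub (T i j) (hTc i j).ge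
  choose s hs hTs using hsub
  obtain ⟨U₂, hU₂, hU₂', hU₂c⟩ := stepIII h_CHN h_VCO h_DGN ι p v hp hv ho (fun s => z s.1) F hF
    m N y lam fi (2 * ε₃) θ C (ε / 10) s T (by positivity) hθ.le hC0 (by positivity) hNε hs hTd hTs
    hlam1 (fun g hg j x hx => hrF g hg _ _ (hlamr j x hx))
    (fun g hg i j x hx => by
      refine hrF g hg _ _ ?_
      rw [hTk i j x hx]
      have := hk j
      linarith) hC
    (fun i hi j => (hnear _ (hH2 j (i + 1) (by omega))).1)
    (fun g hg i hi => (hnear _ (hH1 g hg (i + 1) (by omega))).1)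
    hfi
  refine ⟨star U₂ * U₁, ?_, ?_, fun g hg => ?_⟩
  · rw [star_mul, star_star]
    calc star U₁ * U₂ * (star U₂ * U₁) = star U₁ * (U₂ * star U₂) * U₁ := by
          simp only [mul_assoc]
      _ = 1 := by rw [hU₂', mul_one, hU₁]
  · rw [star_mul, star_star]
    calc star U₂ * U₁ * (star U₁ * U₂) = star U₂ * (U₁ * star U₁) * U₂ := by
          simp only [mul_assoc]
      _ = 1 := by rw [hU₁', mul_one, hU₂]
  · have hg' := hF0 hg
    have e1 := (hnear _ (hH1 g hg' m le_rfl)).2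
    have e2 := (hnear _ (hH1 g hg' 0 (Nat.zero_le _))).2
    have e3 := hU₂c g hg'
    rw [hfim] at e1 e3
    rw [hfi0] at e2 e3
    have e4 := hU₁c (ι (g.comp f)) (fun s => (g.comp f) (z s.1)) (fun s => g (z s.1)) (2 * ε₃) θ
      hθ.le (fun s => hrF g hg' _ _ (hπ s)) e1
    have e5 := final_est hU₂ hU₂' _ (ι g) _ _ _ _ _ e4 e3 e2
    linarith

end Pool.Agent.FPZ
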