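import Pool.Agent.FPZ.Targets1

set_option autoImplicit false

/-! # FPZ: UNQ, free functionals with the same restrictions agree -/

open scoped Classical
open MeasureTheory

noncomputable section

namespace Pool.Agent.FPZ

/-- a free functional vanishes on the reduced words -/
theorem UNQ_.rw_zero {I R : Type} [Monoid R] (f : R → ℂ) (S : I → Set R) (h : Free f S) :
    ∀ w ∈ RW f S, f w = 0 := by
  rintro w ⟨l, h1, h2, h3, rfl⟩
  exact h l h1 h2 h3

/-- the reduced words depend only on the restrictions of the functional -/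
theorem UNQ_.rw_congr {I R : Type} [Monoid R] (f f' : R → ℂ) (S : I → Set R)
    (h : ∀ i, ∀ a ∈ S i, f a = f' a) : RW f S ⊆ RW f' S := by
  rintro w ⟨l, h1, h2, h3, rfl⟩
  refine ⟨l, h1, h2, fun x hx => ?_, rfl⟩
  obtain ⟨h4, h5⟩ := h3 x hx
  exact ⟨h4, by rw [← h x.1 x.2 h4]; exact h5⟩

theorem p_UNQ (h_SPN : T_SPN) : T_UNQ := by
  intro I R _ _ f f' S hf hf' hff hF hF' x hx
  have h1 := h_SPN I R f S hf x hx
  refine Submodule.span_induction (p := fun y _ => f y = f' y) ?_ ?_ ?_ ?_ h1
  · rintro y (rfl | hy)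
    · rw [hf, hf']
    · rw [UNQ_.rw_zero (fun z => f z) _ hF y hy,
        UNQ_.rw_zero (fun z => f' z) _ hF' y
          (UNQ_.rw_congr (fun z => f z) (fun z => f' z) (fun i => (S i : Set R)) hff hy)]
  · rw [map_zero, map_zero]
  · intro y z _ _ hy hz
    rw [map_add, map_add, hy, hz]
  · intro c y _ hy
    rw [map_smul, map_smul, hy]

end Pool.Agent.FPZ
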