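import Pool.Agent.FPZ.Targets5

set_option autoImplicit false

/-!
# FPZ: T_XSC (the standard model)
-/

open scoped Classical
open MeasureTheory

noncomputable section

namespace Pool.Agent.FPZ

namespace XSC_

lemma mem_seg {L : ℝ} (hL : 0 < L) (s : Set.Icc (0 : ℝ) L) :
    (1 : ℂ) + ((s : ℝ) : ℂ) ∈ segment ℝ (1 : ℂ) (1 + L) := by
  rw [segment_eq_image']
  refine ⟨(s : ℝ) / L, ⟨div_nonneg s.2.1 hL.le, (div_le_one hL).mpr s.2.2⟩, ?_⟩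
  have hL' : (L : ℂ) ≠ 0 := by exact_mod_cast hL.ne'
  show (1 : ℂ) + ((s : ℝ) / L) • ((1 : ℂ) + L - 1) = 1 + ((s : ℝ) : ℂ)
  rw [add_sub_cancel_left, Complex.real_smul]
  push_cast
  rw [div_mul_cancel₀ _ hL']

lemma of_seg {L : ℝ} (hL : 0 < L) {x : ℂ} (hx : x ∈ segment ℝ (1 : ℂ) (1 + L)) :
    ∃ s : Set.Icc (0 : ℝ) L, (1 : ℂ) + ((s : ℝ) : ℂ) = x := by
  rw [segment_eq_image'] at hx
  obtain ⟨θ, hθ, rfl⟩ := hx
  refine ⟨⟨θ * L, mul_nonneg hθ.1 hL.le, mul_le_of_le_one_left hL.le hθ.2⟩, ?_⟩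
  show (1 : ℂ) + ((θ * L : ℝ) : ℂ) = 1 + θ • ((1 : ℂ) + L - 1)
  rw [add_sub_cancel_left, Complex.real_smul]
  push_cast
  rfl

lemma norm_eq {s : ℝ} (hs : 0 ≤ s) (h : ‖(1 : ℂ) + (s : ℂ)‖ = 1) : s = 0 := by
  have h1 : ((1 : ℂ) + (s : ℂ)) = ((1 + s : ℝ) : ℂ) := by push_cast; rfl
  rw [h1, Complex.norm_real, Real.norm_of_nonneg (by linarith)] at h
  linarith

end XSC_

open XSC_ in
theorem p_XSC : T_XSC := by
  intro L hL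
  let c : S1 → XS L := fun z => ⟨z.1, Or.inl z.2⟩
  let l : Set.Icc (0 : ℝ) L → XS L := fun s => ⟨1 + ((s : ℝ) : ℂ), Or.inr (mem_seg hL s)⟩
  refine ⟨c, l, ⟨?_, ?_, ?_, ?_⟩⟩
  · exact Isometry.of_dist_eq fun x y => rfl
  · refine Isometry.of_dist_eq fun x y => ?_
    show dist ((1 : ℂ) + ((x : ℝ) : ℂ)) ((1 : ℂ) + ((y : ℝ) : ℂ)) = dist (x : ℝ) (y : ℝ)
    rw [dist_add_left, Complex.isometry_ofReal.dist_eq]
  · refine Set.eq_univ_of_forall fun x => ?_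
    rcases x.2 with h | h
    · exact Or.inl ⟨⟨x.1, h⟩, rfl⟩
    · obtain ⟨s, hs⟩ := of_seg hL h
      exact Or.inr ⟨s, Subtype.ext hs⟩
  · have h1 : (1 : ℂ) ∈ Metric.sphere (0 : ℂ) 1 := by simp
    refine ⟨c ⟨1, h1⟩, Set.eq_singleton_iff_unique_mem.mpr ⟨⟨⟨_, rfl⟩, ?_⟩, ?_⟩⟩
    · refine ⟨⟨0, le_rfl, hL.le⟩, Subtype.ext ?_⟩
      show (1 : ℂ) + ((0 : ℝ) : ℂ) = 1
      simp
    · rintro y ⟨⟨z, hz⟩, ⟨s, hs⟩⟩
      have h2 : (1 : ℂ) + ((s : ℝ) : ℂ) = z.1 := by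
        have := congrArg Subtype.val (hs.trans hz.symm)
        exact this
      have h3 : ‖z.1‖ = 1 := by simp
      rw [← h2] at h3
      have h4 := norm_eq s.2.1 h3
      rw [← hz]
      apply Subtype.ext
      show z.1 = 1
      rw [← h2, h4]
      simp

end Pool.Agent.FPZ
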