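import Pool.Agent.FPZ.Targets5

set_option autoImplicit false

/-!
# FPZ: proof of T_YCT
-/

open scoped Classical unitInterval
open MeasureTheory

noncomputable section

namespace Pool.Agent.FPZ

namespace YCT_

/-- Translation by `c`, from the annulus with centre `0` to the one with centre `c`. -/
def tr (c : ℂ) (r₁ r₂ : ℝ) : YS r₁ r₂ ≃ₜ YC c r₁ r₂ where
  toFun z := ⟨z.1 + c, by
    have h := z.2
    simp only [YS, YC, Set.mem_ofPred_eq, add_sub_cancel_right] at h ⊢
    exact h⟩
  invFun z := ⟨z.1 - c, z.2⟩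
  left_inv z := by ext1; simp
  right_inv z := by ext1; simp
  continuous_toFun := by fun_prop
  continuous_invFun := by fun_prop

theorem vol_eq (c : ℂ) (r₁ r₂ : ℝ) : (volume : Measure ℂ) (YC c r₁ r₂) = volume (YS r₁ r₂) := by
  have h : YS r₁ r₂ = (fun z : ℂ => z + c) ⁻¹' YC c r₁ r₂ := by
    ext z; simp [YS, YC]
  rw [h, measure_preimage_add_right]

theorem meas_YS (r₁ r₂ : ℝ) : MeasurableSet (YS r₁ r₂) :=
  ((isClosed_le continuous_const continuous_norm).inter
    (isClosed_le continuous_norm continuous_const)).measurableSet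

theorem meas_YC (c : ℂ) (r₁ r₂ : ℝ) : MeasurableSet (YC c r₁ r₂) :=
  ((isClosed_le continuous_const (continuous_id.sub continuous_const).norm).inter
    (isClosed_le (continuous_id.sub continuous_const).norm continuous_const)).measurableSet

theorem comap_eq (c : ℂ) (r₁ r₂ : ℝ) :
    Measure.map (tr c r₁ r₂) ((volume : Measure ℂ).comap (Subtype.val : YS r₁ r₂ → ℂ)) =
      (volume : Measure ℂ).comap (Subtype.val : YC c r₁ r₂ → ℂ) := by
  ext s hs
  rw [Measure.map_apply (tr c r₁ r₂).continuous.measurable hs,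
    (MeasurableEmbedding.subtype_coe (meas_YS r₁ r₂)).comap_apply,
    (MeasurableEmbedding.subtype_coe (meas_YC c r₁ r₂)).comap_apply]
  have h : (Subtype.val : YS r₁ r₂ → ℂ) '' ((tr c r₁ r₂) ⁻¹' s) =
      (fun z : ℂ => z + c) ⁻¹' ((Subtype.val : YC c r₁ r₂ → ℂ) '' s) := by
    ext z
    constructor
    · rintro ⟨w, hw, rfl⟩
      exact ⟨_, hw, rfl⟩
    · rintro ⟨w, hw, hz⟩
      have hz' : w.1 = z + c := hz
      refine ⟨(tr c r₁ r₂).symm w, ?_, ?_⟩
      · simpa using hw
      · show w.1 - c = z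
        rw [hz']; ring
  rw [h, measure_preimage_add_right]

end YCT_

theorem p_YCT : T_YCT := by
  intro c r₁ r₂ _ _
  refine ⟨YCT_.tr c r₁ r₂, ?_⟩
  unfold nL
  rw [Measure.map_smul, YCT_.comap_eq, YCT_.vol_eq]

end Pool.Agent.FPZ
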