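import Pool.Agent.FPZ.Targets1

set_option autoImplicit false

/-!
# FPZ: from the literal definition to the working structure
-/

open scoped Classical
open MeasureTheory

noncomputable section

namespace Pool.Agent.FPZ

namespace ZFS_

/-- `cal` is monotone and idempotent: the criterion. -/
theorem cal_le {A : Type} [CStarAlgebra A] (T : Set A) (D : StarSubalgebra ℂ A)
    (hD : IsClosed (D : Set A)) (hT : T ⊆ D) : cal T ≤ D := by
  unfold cal
  exact StarSubalgebra.topologicalClosure_minimal (StarAlgebra.adjoin_le hT) hD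

theorem sub_cal {A : Type} [CStarAlgebra A] (T : Set A) : T ⊆ (cal T : Set A) := by
  intro x hx
  exact StarSubalgebra.le_topologicalClosure _ (StarAlgebra.subset_adjoin ℂ T hx)

theorem lift_list {A B : Type} [CStarAlgebra A] [CStarAlgebra B]
    (κ : ℕ → ℂ × ℂ →⋆ₐ[ℂ] B) (j : B →⋆ₐ[ℂ] A) (l : List (ℕ × A))
    (h : ∀ x ∈ l, x.2 ∈ Set.range (j.comp (κ x.1))) :
    ∃ l' : List (ℕ × B), l = l'.map (fun y => (y.1, j y.2)) ∧
      ∀ y ∈ l', y.2 ∈ ((κ y.1).range : Set B) := by
  induction l with
  | nil => exact ⟨[], rfl, by simp⟩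
  | cons x l ih =>
    obtain ⟨l', h1, h2⟩ := ih (fun y hy => h y (List.mem_cons_of_mem _ hy))
    obtain ⟨c, hc⟩ := h x List.mem_cons_self
    refine ⟨(x.1, κ x.1 c) :: l', ?_, ?_⟩
    · rw [List.map_cons, ← h1]
      congr 1
      exact Prod.ext rfl hc.symm
    · intro y hy
      rcases List.mem_cons.mp hy with rfl | hy
      · exact ⟨c, rfl⟩
      · exact h2 y hy

end ZFS_

theorem p_ZFS (hRTS : T_RTS) (hASC : T_ASC) : T_ZFS := by
  intro Z A B _ _ _ _ _ μ t ψ κ φ ι j hB hA
  have hTB : TS ψ := by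
    refine hRTS ℕ B ψ _ hB.rfp ?_
    rintro i _ ⟨x, rfl⟩ _ ⟨y, rfl⟩
    change ψ (κ i x * κ i y) = ψ (κ i y * κ i x)
    rw [← map_mul, ← map_mul, mul_comm]
  have hTA : TS φ := by
    refine hRTS Bool A φ _ hA.rfp ?_
    intro i
    cases i with
    | true =>
      rintro _ ⟨x, rfl⟩ _ ⟨y, rfl⟩
      change φ (ι x * ι y) = φ (ι y * ι x)
      rw [← map_mul, ← map_mul, mul_comm]
    | false =>
      rintro _ ⟨x, rfl⟩ _ ⟨y, rfl⟩
      change φ (j x * j y) = φ (j y * j x)
      rw [← map_mul, ← map_mul, hA.valB, hA.valB, hTB.tr]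
  refine ⟨hTA, hA.valZ, ?_, ?_, ?_⟩
  · intro i x
    change φ (j (κ i x)) = _
    rw [hA.valB, hB.val]
  · have hU : Free (φ : A →ₗ[ℂ] ℂ)
        (fun i => (((j.comp (κ i)).range.toSubalgebra : Subalgebra ℂ A) : Set A)) := by
      intro l hl hch hx
      obtain ⟨l', h1, h2⟩ := ZFS_.lift_list κ j l (fun x hxl => (hx x hxl).1)
      have hprod : (l.map Prod.snd).prod = j ((l'.map Prod.snd).prod) := by
        rw [h1, map_list_prod, List.map_map, List.map_map]
        rfl
      change φ ((l.map Prod.snd).prod) = 0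
      rw [hprod, hA.valB]
      refine hB.rfp.free l' ?_ ?_ ?_
      · rintro rfl
        exact hl (by simpa using h1)
      · rw [h1, List.isChain_map] at hch
        exact hch
      · intro y hy
        refine ⟨h2 y hy, ?_⟩
        have h3 : (y.1, j y.2) ∈ l := by
          rw [h1]
          exact List.mem_map_of_mem hy
        have h4 : φ (j y.2) = 0 := (hx _ h3).2
        rwa [hA.valB] at h4
    have h12 : Free (φ : A →ₗ[ℂ] ℂ) (fun b : Bool =>
        bif b then ((ι.range.toSubalgebra : Subalgebra ℂ A) : Set A)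
        else ((j.range.toSubalgebra : Subalgebra ℂ A) : Set A)) := by
      have h0 := hA.rfp.free
      have he : (fun b : Bool => (((bif b then ι.range else j.range) : StarSubalgebra ℂ A) :
          Set A)) = (fun b : Bool =>
          bif b then ((ι.range.toSubalgebra : Subalgebra ℂ A) : Set A)
          else ((j.range.toSubalgebra : Subalgebra ℂ A) : Set A)) := by
        funext b
        cases b <;> rfl
      rw [he] at h0
      exact h0
    have hle : ∀ i, (j.comp (κ i)).range.toSubalgebra ≤ j.range.toSubalgebra := by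
      rintro i _ ⟨x, rfl⟩
      exact ⟨κ i x, rfl⟩
    have h5 := hASC ℕ A (φ : A →ₗ[ℂ] ℂ) ι.range.toSubalgebra j.range.toSubalgebra
      (fun i => (j.comp (κ i)).range.toSubalgebra) hTA.one h12 hle hU
    have he : (fun o : Option ℕ => o.elim (Set.range ι) (fun i => Set.range (j.comp (κ i)))) =
        (fun o : Option ℕ => o.elim ((ι.range.toSubalgebra : Subalgebra ℂ A) : Set A)
          (fun i => (((j.comp (κ i)).range.toSubalgebra : Subalgebra ℂ A) : Set A))) := by
      funext o
      cases o <;> rfl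
    rw [he]
    exact h5
  · set T : Set A := Set.range ι ∪ ⋃ i, Set.range (j.comp (κ i)) with hT
    have hTc : IsClosed ((cal T : StarSubalgebra ℂ A) : Set A) := cal_closed T
    rw [eq_top_iff, ← hA.rfp.gen]
    refine ZFS_.cal_le _ _ hTc ?_
    intro x hx
    obtain ⟨b, hb⟩ := Set.mem_iUnion.mp hx
    cases b with
    | true =>
      obtain ⟨g, rfl⟩ := hb
      exact ZFS_.sub_cal T (Or.inl ⟨g, rfl⟩)
    | false =>
      obtain ⟨y, rfl⟩ := hb
      have hcl : IsClosed (((cal T).comap j : StarSubalgebra ℂ B) : Set B) :=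
        hTc.preimage (AddMonoidHomClass.continuous_of_bound j 1
          (fun b => by simpa using NonUnitalStarAlgHom.norm_apply_le j b))
      have h6 : cal (⋃ i, ((κ i).range : Set B)) ≤ (cal T).comap j := by
        refine ZFS_.cal_le _ _ hcl ?_
        intro z hz
        obtain ⟨i, c, rfl⟩ := Set.mem_iUnion.mp hz
        exact ZFS_.sub_cal T (Or.inr (Set.mem_iUnion.mpr ⟨i, c, rfl⟩))
      rw [hB.rfp.gen] at h6
      exact h6 (StarSubalgebra.mem_top (x := y))

end Pool.Agent.FPZ
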