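import Pool.Agent.FPZ.P_APG
import Pool.Agent.FPZ.P_APX
import Pool.Agent.FPZ.P_ASC
import Pool.Agent.FPZ.P_AUT
import Pool.Agent.FPZ.P_CEL
import Pool.Agent.FPZ.P_CHN
import Pool.Agent.FPZ.P_CIR
import Pool.Agent.FPZ.P_CLO
import Pool.Agent.FPZ.P_CLS
import Pool.Agent.FPZ.P_CMG
import Pool.Agent.FPZ.P_CMP
import Pool.Agent.FPZ.P_COM
import Pool.Agent.FPZ.P_CPJ
import Pool.Agent.FPZ.P_CUT
import Pool.Agent.FPZ.P_DEN
import Pool.Agent.FPZ.P_DGN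
import Pool.Agent.FPZ.P_DIR
import Pool.Agent.FPZ.P_DIV
import Pool.Agent.FPZ.P_EQX
import Pool.Agent.FPZ.P_EQY
import Pool.Agent.FPZ.P_EXT
import Pool.Agent.FPZ.P_FI2
import Pool.Agent.FPZ.P_FIN
import Pool.Agent.FPZ.P_FOL
import Pool.Agent.FPZ.P_FRE
import Pool.Agent.FPZ.P_FRG
import Pool.Agent.FPZ.P_GEQ
import Pool.Agent.FPZ.P_GFN
import Pool.Agent.FPZ.P_GLU
import Pool.Agent.FPZ.P_GRP
import Pool.Agent.FPZ.P_GRS
import Pool.Agent.FPZ.P_GSP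
import Pool.Agent.FPZ.P_HAL
import Pool.Agent.FPZ.P_HIL
import Pool.Agent.FPZ.P_HSC
import Pool.Agent.FPZ.P_HTC
import Pool.Agent.FPZ.P_HTP
import Pool.Agent.FPZ.P_INT
import Pool.Agent.FPZ.P_ISO
import Pool.Agent.FPZ.P_LFC
import Pool.Agent.FPZ.P_MNT
import Pool.Agent.FPZ.P_MSX
import Pool.Agent.FPZ.P_NET
import Pool.Agent.FPZ.P_NHI
import Pool.Agent.FPZ.P_NRM
import Pool.Agent.FPZ.P_NRT
import Pool.Agent.FPZ.P_ORT
import Pool.Agent.FPZ.P_OSM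
import Pool.Agent.FPZ.P_PHX
import Pool.Agent.FPZ.P_PHY
import Pool.Agent.FPZ.P_PLE
import Pool.Agent.FPZ.P_POL
import Pool.Agent.FPZ.P_PRM
import Pool.Agent.FPZ.P_PRT
import Pool.Agent.FPZ.P_PWL
import Pool.Agent.FPZ.P_QCO
import Pool.Agent.FPZ.P_RST
import Pool.Agent.FPZ.P_RTS
import Pool.Agent.FPZ.P_SEP
import Pool.Agent.FPZ.P_SPC
import Pool.Agent.FPZ.P_SPN
import Pool.Agent.FPZ.P_SQP
import Pool.Agent.FPZ.P_SRD
import Pool.Agent.FPZ.P_SRI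
import Pool.Agent.FPZ.P_STB
import Pool.Agent.FPZ.P_SUT
import Pool.Agent.FPZ.P_SYS
import Pool.Agent.FPZ.P_TRC
import Pool.Agent.FPZ.P_TSB
import Pool.Agent.FPZ.P_UNI
import Pool.Agent.FPZ.P_UNQ
import Pool.Agent.FPZ.P_VCO
import Pool.Agent.FPZ.P_XSC
import Pool.Agent.FPZ.P_YCT
import Pool.Agent.FPZ.P_ZFS

set_option autoImplicit false

namespace Pool.Agent.FPZ

theorem q_APG : T_APG := p_APG
theorem q_HAL : T_HAL := p_HAL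
theorem q_CEL : T_CEL := p_CEL
theorem q_SPN : T_SPN := p_SPN
theorem q_GRP : T_GRP := p_GRP q_SPN
theorem q_CLO : T_CLO := p_CLO
theorem q_FRG : T_FRG := p_FRG q_GRP q_CLO
theorem q_FRE : T_FRE := p_FRE q_FRG
theorem q_STB : T_STB := p_STB
theorem q_ORT : T_ORT := p_ORT q_STB
theorem q_TSB : T_TSB := p_TSB
theorem q_NRT : T_NRT := p_NRT q_STB
theorem q_SRD : T_SRD := p_SRD q_ORT q_STB q_TSB q_SPN q_NRT
theorem q_SRI : T_SRI := p_SRI q_SRD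
theorem q_COM : T_COM := p_COM q_SRI q_STB
theorem q_POL : T_POL := p_POL
theorem q_SQP : T_SQP := p_SQP q_COM q_POL
theorem q_DIR : T_DIR := p_DIR
theorem q_PRT : T_PRT := p_PRT
theorem q_CLS : T_CLS := p_CLS
theorem q_DEN : T_DEN := p_DEN q_FRE q_SQP q_DIR q_PRT q_CLS q_TSB
theorem q_SUT : T_SUT := p_SUT
theorem q_CMP : T_CMP := p_CMP q_FRG q_SQP q_DEN q_DIR q_PRT q_CLS q_SUT q_TSB
theorem q_DIV : T_DIV := p_DIV q_CMP
theorem q_CMG : T_CMG := p_CMG q_FRG q_COM q_POL q_DEN q_CMP q_TSB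
theorem q_GFN : T_GFN := p_GFN
theorem q_CPJ : T_CPJ := p_CPJ q_DIV q_CMG q_GFN
theorem q_CUT : T_CUT := p_CUT
theorem q_SYS : T_SYS := p_SYS q_HAL q_CEL q_DEN q_CPJ q_CUT q_CMP q_TSB
theorem q_HTP : T_HTP := p_HTP
theorem q_NET : T_NET := p_NET
theorem q_GRS : T_GRS := p_GRS
theorem q_PLE : T_PLE := p_PLE
theorem q_VCO : T_VCO := p_VCO q_PLE
theorem q_OSM : T_OSM := p_OSM
theorem q_CHN : T_CHN := p_CHN q_OSM
theorem q_PRM : T_PRM := p_PRM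
theorem q_DGN : T_DGN := p_DGN
theorem q_QCO : T_QCO := p_QCO
theorem q_UNI : T_UNI := p_UNI q_SYS q_HTP q_NET q_GRS q_VCO q_CHN q_PRM q_DGN q_QCO
theorem q_RST : T_RST := p_RST
theorem q_UNQ : T_UNQ := p_UNQ q_SPN
theorem q_NRM : T_NRM := p_NRM q_STB
theorem q_ISO : T_ISO := p_ISO q_UNQ q_NRM
theorem q_AUT : T_AUT := p_AUT q_ISO q_FRG
theorem q_APX : T_APX := p_APX q_APG q_UNI q_RST q_AUT
theorem q_ASC : T_ASC := p_ASC
theorem q_HSC : T_HSC := p_HSC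
theorem q_CIR : T_CIR := p_CIR q_HSC
theorem q_LFC : T_LFC := p_LFC
theorem q_HTC : T_HTC := p_HTC q_LFC
theorem q_PHX : T_PHX := p_PHX q_HSC
theorem q_PWL : T_PWL := p_PWL
theorem q_EQX : T_EQX := p_EQX q_CIR q_LFC q_HTC q_PHX q_PWL
theorem q_PHY : T_PHY := p_PHY
theorem q_HIL : T_HIL := p_HIL
theorem q_EQY : T_EQY := p_EQY q_CIR q_LFC q_HTC q_PHY q_HIL
theorem q_EXT : T_EXT := p_EXT q_ISO
theorem q_TRC : T_TRC := p_TRC q_SPN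
theorem q_RTS : T_RTS := p_RTS q_TRC q_STB
theorem q_ZFS : T_ZFS := p_ZFS q_RTS q_ASC
theorem q_SEP : T_SEP := p_SEP
theorem q_INT : T_INT := p_INT
theorem q_MNT : T_MNT := p_MNT q_EXT q_APX q_SEP q_INT
theorem q_GLU : T_GLU := p_GLU
theorem q_MSX : T_MSX := p_MSX
theorem q_FOL : T_FOL := p_FOL
theorem q_GEQ : T_GEQ := p_GEQ q_GLU q_MSX q_FOL
theorem q_XSC : T_XSC := p_XSC
theorem q_NHI : T_NHI := p_NHI q_HSC
theorem q_SPC : T_SPC := p_SPC q_CIR q_PHX q_PHY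
theorem q_GSP : T_GSP := p_GSP q_MSX q_NHI q_SPC
theorem q_YCT : T_YCT := p_YCT
theorem q_FI2 : T_FI2 := p_FI2 q_ZFS q_MNT q_EQX q_EQY q_GEQ q_XSC q_GSP q_SPC q_NHI q_YCT
theorem q_FIN : T_FIN := p_FIN q_ZFS q_MNT q_EQX q_EQY q_SPC

end Pool.Agent.FPZ
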