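import Mathlib

set_option autoImplicit false

/-!
# FPZ (MP_32d866_an): reduced free products `C(Z) *_r B_σ`: definitions

All C*-algebras are unital. `φ : A →L[ℂ] ℂ` is a state, `τ` in the comments.
-/

open scoped Classical
open MeasureTheory

noncomputable section

namespace Pool.Agent.FPZ

/-! ## Freeness -/

/-- The sets `S i` (unital subalgebras in all applications) are free with respect to `f`: every
product of centered elements, neighbours from sets with different indices, is centered. -/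
def Free {I R : Type} [Monoid R] (f : R → ℂ) (S : I → Set R) : Prop :=
  ∀ l : List (I × R), l ≠ [] → l.IsChain (fun x y => x.1 ≠ y.1) →
    (∀ x ∈ l, x.2 ∈ S x.1 ∧ f x.2 = 0) → f (l.map Prod.snd).prod = 0

/-- The reduced words: nonempty products of centered elements, neighbours from sets with different
indices. -/
def RW {I R : Type} [Monoid R] (f : R → ℂ) (S : I → Set R) : Set R :=
  {w | ∃ l : List (I × R), l ≠ [] ∧ l.IsChain (fun x y => x.1 ≠ y.1) ∧
    (∀ x ∈ l, x.2 ∈ S x.1 ∧ f x.2 = 0) ∧ w = (l.map Prod.snd).prod}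

/-- The reduced words whose first letter has index `i`. -/
def RWi {I R : Type} [Monoid R] (f : R → ℂ) (S : I → Set R) (i : I) : Set R :=
  {w | ∃ (a : R) (l : List (I × R)), ((i, a) :: l).IsChain (fun x y => x.1 ≠ y.1) ∧
    (∀ x ∈ (i, a) :: l, x.2 ∈ S x.1 ∧ f x.2 = 0) ∧ w = a * (l.map Prod.snd).prod}

/-! ## States -/

/-- `φ` is a state. -/
structure St {A : Type} [CStarAlgebra A] (φ : A →L[ℂ] ℂ) : Prop where
  one : φ 1 = 1
  pos : ∀ a, 0 ≤ (φ (star a * a)).re ∧ (φ (star a * a)).im = 0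

/-- `φ` is a faithful tracial state. -/
structure TS {A : Type} [CStarAlgebra A] (φ : A →L[ℂ] ℂ) : Prop extends St φ where
  tr : ∀ a b, φ (a * b) = φ (b * a)
  fth : ∀ a, φ (star a * a) = 0 → a = 0

/-- The `2`-norm. -/
def n2 {A : Type} [CStarAlgebra A] (φ : A →L[ℂ] ℂ) (a : A) : ℝ := Real.sqrt (φ (star a * a)).re

/-- The C*-subalgebra generated by a set. -/
def cal {A : Type} [CStarAlgebra A] (T : Set A) : StarSubalgebra ℂ A :=
  (StarAlgebra.adjoin ℂ T).topologicalClosure

instance cal_closed {A : Type} [CStarAlgebra A] (T : Set A) : IsClosed ((cal T : StarSubalgebra ℂ A) : Set A) :=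
  StarSubalgebra.isClosed_topologicalClosure _

/-! ## Reduced free products -/

/-- `(A, φ)` is the reduced free product of its unital C*-subalgebras `S i` (with the restrictions
of `φ`): the `S i` are free, generate `A`, and the GNS representation of `φ` is faithful. This
characterises the reduced free product of the `(S i, φ|)`. -/
structure RFP {I A : Type} [CStarAlgebra A] (φ : A →L[ℂ] ℂ) (S : I → StarSubalgebra ℂ A) : Prop where
  st : St φ
  gns : ∀ a, (∀ b, φ (star b * (star a * a) * b) = 0) → a = 0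
  free : Free φ (fun i => (S i : Set A))
  gen : cal (⋃ i, (S i : Set A)) = ⊤

/-- `(B, ψ)` with the embeddings `κ i` is the reduced free product of countably infinitely many
copies of `(ℂ ⊕ ℂ, σ)`, `σ (a, b) = t a + (1 - t) b`. -/
structure IsB {B : Type} [CStarAlgebra B] (t : ℝ) (ψ : B →L[ℂ] ℂ) (κ : ℕ → ℂ × ℂ →⋆ₐ[ℂ] B) : Prop where
  rfp : RFP ψ (fun i => (κ i).range)
  val : ∀ i x, ψ (κ i x) = t * x.1 + (1 - t) * x.2

/-- `(A, φ)` with the embeddings `ι`, `j` is the reduced free product of `C(Z)` (with the state of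
integration against `μ`) and `(B, ψ)`. -/
structure IsZB {Z A B : Type} [TopologicalSpace Z] [CompactSpace Z] [MeasurableSpace Z]
    [CStarAlgebra A] [CStarAlgebra B] (μ : Measure Z) (ψ : B →L[ℂ] ℂ) (φ : A →L[ℂ] ℂ)
    (ι : C(Z, ℂ) →⋆ₐ[ℂ] A) (j : B →⋆ₐ[ℂ] A) : Prop where
  rfp : RFP φ (fun b : Bool => bif b then ι.range else j.range)
  valZ : ∀ g, φ (ι g) = ∫ z, g z ∂μ
  valB : ∀ b, φ (j b) = ψ b

/-- Working structure: `A` is generated by the free family `C(Z)`, `ℂ ⊕ ℂ`, `ℂ ⊕ ℂ`, ..., and `φ` is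
a faithful tracial state with the given restrictions. -/
structure FS {Z A : Type} [TopologicalSpace Z] [CompactSpace Z] [MeasurableSpace Z]
    [CStarAlgebra A] (μ : Measure Z) (t : ℝ) (φ : A →L[ℂ] ℂ)
    (ι : C(Z, ℂ) →⋆ₐ[ℂ] A) (κ : ℕ → ℂ × ℂ →⋆ₐ[ℂ] A) : Prop where
  ts : TS φ
  valZ : ∀ g, φ (ι g) = ∫ z, g z ∂μ
  valP : ∀ i x, φ (κ i x) = t * x.1 + (1 - t) * x.2
  free : Free φ (fun o : Option ℕ => o.elim (Set.range ι) (fun i => Set.range (κ i)))
  gen : cal (Set.range ι ∪ ⋃ i, Set.range (κ i)) = ⊤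

/-- The C*-subalgebra generated by `C(Z)` and the copies of `ℂ ⊕ ℂ` with indices in `J`. -/
def GA {Z A : Type} [TopologicalSpace Z] [CompactSpace Z] [CStarAlgebra A]
    (ι : C(Z, ℂ) →⋆ₐ[ℂ] A) (κ : ℕ → ℂ × ℂ →⋆ₐ[ℂ] A) (J : Set ℕ) : StarSubalgebra ℂ A :=
  cal (Set.range ι ∪ ⋃ i ∈ J, Set.range (κ i))

/-- The C*-subalgebra generated by the copies of `ℂ ⊕ ℂ` with indices in `J`. -/
def EA {A : Type} [CStarAlgebra A] (κ : ℕ → ℂ × ℂ →⋆ₐ[ℂ] A) (J : Set ℕ) : StarSubalgebra ℂ A :=
  cal (⋃ i ∈ J, Set.range (κ i))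

instance GA_closed {Z A : Type} [TopologicalSpace Z] [CompactSpace Z] [CStarAlgebra A]
    (ι : C(Z, ℂ) →⋆ₐ[ℂ] A) (κ : ℕ → ℂ × ℂ →⋆ₐ[ℂ] A) (J : Set ℕ) : IsClosed ((GA ι κ J : StarSubalgebra ℂ A) : Set A) :=
  cal_closed _

instance EA_closed {A : Type} [CStarAlgebra A] (κ : ℕ → ℂ × ℂ →⋆ₐ[ℂ] A) (J : Set ℕ) :
    IsClosed ((EA κ J : StarSubalgebra ℂ A) : Set A) :=
  cal_closed _

/-- A real function as a complex one. -/
def toC {Z : Type} [TopologicalSpace Z] (g : C(Z, ℝ)) : C(Z, ℂ) :=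
  ⟨fun z => (g z : ℂ), Complex.continuous_ofReal.comp g.continuous⟩

/-- The restriction of a functional to a C*-subalgebra. -/
def res {A : Type} [CStarAlgebra A] (φ : A →L[ℂ] ℂ) (D : StarSubalgebra ℂ A) : D →L[ℂ] ℂ where
  toFun x := φ x
  map_add' x y := by simp
  map_smul' c x := by simp
  cont := φ.continuous.comp continuous_subtype_val

/-! ## The spaces -/

/-- The unit circle. -/
abbrev S1 : Type := Metric.sphere (0 : ℂ) 1

/-- The union of the unit circle and the segment from `1` to `1 + L`. -/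
def XS (L : ℝ) : Set ℂ := Metric.sphere (0 : ℂ) 1 ∪ segment ℝ (1 : ℂ) (1 + L)

/-- The closed annulus. -/
def YS (r₁ r₂ : ℝ) : Set ℂ := {z | r₁ ≤ ‖z‖ ∧ ‖z‖ ≤ r₂}

/-- The normalised one-dimensional Hausdorff measure on a subset of the plane. -/
def nH (K : Set ℂ) : Measure K := ((Measure.hausdorffMeasure 1 : Measure ℂ) K)⁻¹ • (Measure.hausdorffMeasure 1 : Measure ℂ).comap Subtype.val

/-- The normalised Lebesgue measure on a subset of the plane. -/
def nL (K : Set ℂ) : Measure K := ((volume : Measure ℂ) K)⁻¹ • (volume : Measure ℂ).comap Subtype.val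

instance XS_compact (L : ℝ) : CompactSpace (XS L) := by
  refine isCompact_iff_compactSpace.mp ((isCompact_sphere _ _).union ?_)
  rw [segment_eq_image_lineMap]
  exact isCompact_Icc.image (by fun_prop)

instance YS_compact (r₁ r₂ : ℝ) : CompactSpace (YS r₁ r₂) := by
  refine isCompact_iff_compactSpace.mp (Metric.isCompact_of_isClosed_isBounded ?_ ?_)
  · exact (isClosed_le continuous_const continuous_norm).inter (isClosed_le continuous_norm continuous_const)
  · exact (Metric.isBounded_closedBall (x := (0 : ℂ)) (r := r₂)).subset fun z hz => by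
      simpa using hz.2

/-- `v` is an isometry from the projection `p` into the projection `q`: `p` is subequivalent to
`q`. -/
def Sub {A : Type} [CStarAlgebra A] (p q : A) : Prop := ∃ v : A, star v * v = p ∧ q * v = v

end Pool.Agent.FPZ
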