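import Pool.Agent.FPZ.Targets3

set_option autoImplicit false

/-!
# FPZ: target APG (approximation on generators suffices)
-/

open scoped Classical

noncomputable section

namespace Pool.Agent.FPZ

namespace APG_

variable {A : Type} [CStarAlgebra A]

/-- `a` is controlled by the elements of `T` -/
def Gd (T : Set A) (a : A) : Prop := ∀ ε : ℝ, 0 < ε → ∃ (T₀ : Finset A) (δ : ℝ),
  (T₀ : Set A) ⊆ T ∧ 0 < δ ∧ ∀ θ : A →⋆ₐ[ℂ] A, (∀ b ∈ T₀, ‖θ b - b‖ ≤ δ) → ‖θ a - a‖ ≤ ε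

theorem norm_le (θ : A →⋆ₐ[ℂ] A) (a : A) : ‖θ a‖ ≤ ‖a‖ :=
  NonUnitalStarAlgHom.norm_apply_le θ a

theorem two {T : Set A} {a b : A} (ha : Gd T a) (hb : Gd T b) {ε₁ ε₂ : ℝ} (h1 : 0 < ε₁)
    (h2 : 0 < ε₂) : ∃ (T₀ : Finset A) (δ : ℝ), (T₀ : Set A) ⊆ T ∧ 0 < δ ∧
    ∀ θ : A →⋆ₐ[ℂ] A, (∀ b ∈ T₀, ‖θ b - b‖ ≤ δ) → ‖θ a - a‖ ≤ ε₁ ∧ ‖θ b - b‖ ≤ ε₂ := by
  obtain ⟨S₁, δ₁, hS₁, hδ₁, h₁⟩ := ha ε₁ h1
  obtain ⟨S₂, δ₂, hS₂, hδ₂, h₂⟩ := hb ε₂ h2
  refine ⟨S₁ ∪ S₂, min δ₁ δ₂, ?_, lt_min hδ₁ hδ₂, fun θ hθ => ⟨h₁ θ fun b hb => ?_,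
    h₂ θ fun b hb => ?_⟩⟩
  · intro x hx
    rcases Finset.mem_union.1 (Finset.mem_coe.1 hx) with h | h
    · exact hS₁ h
    · exact hS₂ h
  · exact (hθ b (Finset.mem_union_left _ hb)).trans (min_le_left _ _)
  · exact (hθ b (Finset.mem_union_right _ hb)).trans (min_le_right _ _)

theorem gd_adjoin {T : Set A} {a : A} (ha : a ∈ StarAlgebra.adjoin ℂ T) : Gd T a := by
  induction ha using StarAlgebra.adjoin_induction with
  | mem x hx =>
    intro ε hε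
    refine ⟨{x}, ε, ?_, hε, fun θ hθ => hθ x (Finset.mem_singleton_self x)⟩
    intro y hy
    rw [Finset.mem_coe, Finset.mem_singleton] at hy
    rw [hy]
    exact hx
  | algebraMap r =>
    intro ε hε
    refine ⟨∅, 1, by simp, one_pos, fun θ _ => ?_⟩
    have h1 : θ (algebraMap ℂ A r) = algebraMap ℂ A r := AlgHomClass.commutes θ r
    rw [h1, sub_self, norm_zero]
    exact hε.le
  | add x y _ _ hx hy =>
    intro ε hε
    obtain ⟨S, δ, hS, hδ, h⟩ := two hx hy (half_pos hε) (half_pos hε)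
    refine ⟨S, δ, hS, hδ, fun θ hθ => ?_⟩
    obtain ⟨h1, h2⟩ := h θ hθ
    have h3 : θ (x + y) - (x + y) = (θ x - x) + (θ y - y) := by
      rw [map_add]
      abel
    rw [h3]
    exact (norm_add_le _ _).trans (by linarith)
  | mul x y _ _ hx hy =>
    intro ε hε
    have hx0 : 0 < 2 * (‖x‖ + 1) := by positivity
    have hy0 : 0 < 2 * (‖y‖ + 1) := by positivity
    obtain ⟨S, δ, hS, hδ, h⟩ := two hx hy (div_pos hε hy0) (div_pos hε hx0)
    refine ⟨S, δ, hS, hδ, fun θ hθ => ?_⟩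
    obtain ⟨h1, h2⟩ := h θ hθ
    have h3 : θ (x * y) - x * y = θ x * (θ y - y) + (θ x - x) * y := by
      rw [map_mul]
      noncomm_ring
    rw [h3]
    have h4 : ‖θ x * (θ y - y)‖ ≤ (‖x‖ + 1) * (ε / (2 * (‖x‖ + 1))) := by
      refine (norm_mul_le _ _).trans ?_
      exact mul_le_mul ((norm_le θ x).trans (by linarith)) h2 (norm_nonneg _) (by positivity)
    have h5 : ‖(θ x - x) * y‖ ≤ (ε / (2 * (‖y‖ + 1))) * (‖y‖ + 1) := by
      refine (norm_mul_le _ _).trans ?_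
      exact mul_le_mul h1 (by linarith) (norm_nonneg _) (by positivity)
    have h6 : (‖x‖ + 1) * (ε / (2 * (‖x‖ + 1))) = ε / 2 := by
      have : ‖x‖ + 1 ≠ 0 := by positivity
      field_simp
    have h7 : (ε / (2 * (‖y‖ + 1))) * (‖y‖ + 1) = ε / 2 := by
      have : ‖y‖ + 1 ≠ 0 := by positivity
      field_simp
    rw [h6] at h4
    rw [h7] at h5
    exact (norm_add_le _ _).trans (by linarith)
  | star x _ hx =>
    intro ε hε
    obtain ⟨S, δ, hS, hδ, h⟩ := hx ε hε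
    refine ⟨S, δ, hS, hδ, fun θ hθ => ?_⟩
    have h3 : θ (star x) - star x = star (θ x - x) := by
      rw [map_star, star_sub]
    rw [h3, norm_star]
    exact h θ hθ

theorem gd_all {T : Set A} (hT : cal T = ⊤) (a : A) : Gd T a := by
  intro ε hε
  have ha : a ∈ closure ((StarAlgebra.adjoin ℂ T : StarSubalgebra ℂ A) : Set A) := by
    have h1 : a ∈ cal T := by
      rw [hT]
      exact StarSubalgebra.mem_top
    exact h1
  obtain ⟨a', ha', hd⟩ := Metric.mem_closure_iff.1 ha (ε / 3) (by positivity)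
  rw [dist_eq_norm] at hd
  obtain ⟨S, δ, hS, hδ, h⟩ := gd_adjoin ha' (ε / 3) (by positivity)
  refine ⟨S, δ, hS, hδ, fun θ hθ => ?_⟩
  have h1 := h θ hθ
  have h2 := norm_le θ (a - a')
  have h3 : θ a - a = θ (a - a') + (θ a' - a') + (a' - a) := by
    rw [map_sub]
    abel
  have h4 : ‖a' - a‖ = ‖a - a'‖ := norm_sub_rev _ _
  rw [h3]
  calc ‖θ (a - a') + (θ a' - a') + (a' - a)‖ ≤ ‖θ (a - a') + (θ a' - a')‖ + ‖a' - a‖ :=
        norm_add_le _ _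
    _ ≤ ‖θ (a - a')‖ + ‖θ a' - a'‖ + ‖a' - a‖ := by gcongr; exact norm_add_le _ _
    _ ≤ ε := by linarith

end APG_

theorem p_APG : T_APG := by
  intro A _ T hT E ε hε
  induction E using Finset.induction_on with
  | empty => exact ⟨∅, 1, by simp, one_pos, by simp⟩
  | insert a E _ ih =>
    obtain ⟨S₁, δ₁, hS₁, hδ₁, h₁⟩ := ih
    obtain ⟨S₂, δ₂, hS₂, hδ₂, h₂⟩ := APG_.gd_all hT a ε hε
    refine ⟨S₁ ∪ S₂, min δ₁ δ₂, ?_, lt_min hδ₁ hδ₂, fun θ hθ b hb => ?_⟩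
    · intro x hx
      rcases Finset.mem_union.1 (Finset.mem_coe.1 hx) with h | h
      · exact hS₁ h
      · exact hS₂ h
    · rcases Finset.mem_insert.1 hb with rfl | hb
      · exact h₂ θ fun c hc => (hθ c (Finset.mem_union_right _ hc)).trans (min_le_right _ _)
      · exact h₁ θ (fun c hc => (hθ c (Finset.mem_union_left _ hc)).trans (min_le_left _ _)) b hb

end Pool.Agent.FPZ
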