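import Pool.Agent.FPZ.Targets5

set_option autoImplicit false

/-!
# FPZ: the circle with a segment is connected, its normalised length is a probability measure of
full support (GSP)
-/

open scoped Classical unitInterval
open MeasureTheory

noncomputable section

namespace Pool.Agent.FPZ

namespace GSP_

theorem vL_apply (L : ℝ) (V : Set (Set.Icc (0 : ℝ) L)) :
    vL L V = (volume : Measure ℝ) (Subtype.val '' V) := by
  unfold vL
  exact (MeasurableEmbedding.subtype_coe measurableSet_Icc).comap_apply _ _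

theorem vL_univ (L : ℝ) : vL L Set.univ = ENNReal.ofReal L := by
  rw [vL_apply, Set.image_univ, Subtype.range_coe_subtype]
  have h1 : {x : ℝ | x ∈ Set.Icc (0 : ℝ) L} = Set.Icc 0 L := rfl
  rw [h1, Real.volume_Icc, sub_zero]

theorem vL_pos (L : ℝ) (hL : 0 < L) (V : Set (Set.Icc (0 : ℝ) L)) (hV : IsOpen V)
    (hne : V.Nonempty) : vL L V ≠ 0 := by
  obtain ⟨W, hW, rfl⟩ := isOpen_induced_iff.mp hV
  obtain ⟨x, hx⟩ := hne
  have hcl : (x : ℝ) ∈ closure (Set.Ioo (0 : ℝ) L) := by
    rw [closure_Ioo hL.ne]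
    exact x.2
  have hWn : (W ∩ Set.Ioo (0 : ℝ) L).Nonempty := mem_closure_iff.mp hcl W hW hx
  have h0 : (volume : Measure ℝ) (W ∩ Set.Ioo (0 : ℝ) L) ≠ 0 :=
    (hW.inter isOpen_Ioo).measure_ne_zero volume hWn
  rw [vL_apply]
  intro h
  refine h0 (measure_mono_null ?_ h)
  rintro y ⟨hy, hy0, hyL⟩
  exact ⟨⟨y, hy0.le, hyL.le⟩, hy, rfl⟩

end GSP_

theorem p_GSP (h_MSX : T_MSX) (h_NHI : T_NHI) (h_SPC : T_SPC) : T_GSP := by
  intro X _ _ _ L c l hL h
  have hS1 : ConnectedSpace S1 := h_SPC.1.1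
  have hI : ConnectedSpace (Set.Icc (0 : ℝ) L) := Subtype.connectedSpace (isConnected_Icc hL.le)
  have hc : Continuous c := h.isoc.continuous
  have hl : Continuous l := h.isol.continuous
  have hmass : (Measure.hausdorffMeasure 1 : Measure X) Set.univ =
      ENNReal.ofReal (2 * Real.pi) + ENNReal.ofReal L := by
    rw [h_MSX X L c l h, Measure.add_apply, Measure.map_apply hc.measurable MeasurableSet.univ,
      Measure.map_apply hl.measurable MeasurableSet.univ, Set.preimage_univ, Set.preimage_univ,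
      h_NHI.2, GSP_.vL_univ]
  have hm0 : (Measure.hausdorffMeasure 1 : Measure X) Set.univ ≠ 0 := by
    rw [hmass]
    have : 0 < ENNReal.ofReal L := ENNReal.ofReal_pos.mpr hL
    exact (lt_of_lt_of_le this le_add_self).ne'
  have hmt : (Measure.hausdorffMeasure 1 : Measure X) Set.univ ≠ ⊤ := by
    rw [hmass]
    exact ENNReal.add_ne_top.mpr ⟨ENNReal.ofReal_ne_top, ENNReal.ofReal_ne_top⟩
  refine ⟨?_, ⟨?_⟩, ⟨?_⟩⟩
  · rw [connectedSpace_iff_univ, ← h.cover]
    obtain ⟨x, hx⟩ := h.inter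
    refine IsConnected.union ⟨x, ?_⟩ (isConnected_range hc) (isConnected_range hl)
    rw [hx]
    exact rfl
  · unfold nHX
    rw [Measure.smul_apply, smul_eq_mul, ENNReal.inv_mul_cancel hm0 hmt]
  · intro U hU hne
    unfold nHX
    rw [Measure.smul_apply, smul_eq_mul]
    refine mul_ne_zero (ENNReal.inv_ne_zero.mpr hmt) ?_
    rw [h_MSX X L c l h, Measure.add_apply, Measure.map_apply hc.measurable hU.measurableSet,
      Measure.map_apply hl.measurable hU.measurableSet]
    obtain ⟨x, hx⟩ := hne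
    have hxu : x ∈ Set.range c ∪ Set.range l := by rw [h.cover]; exact Set.mem_univ x
    rcases hxu with ⟨z, rfl⟩ | ⟨s, rfl⟩
    · have hV : IsOpen (c ⁻¹' U) := hU.preimage hc
      have hVn : (c ⁻¹' U).Nonempty := ⟨z, hx⟩
      have hop : (nH (Metric.sphere (0 : ℂ) 1)).IsOpenPosMeasure := h_SPC.1.2.2
      have hpos : nH (Metric.sphere (0 : ℂ) 1) (c ⁻¹' U) ≠ 0 := hop.open_pos _ hV hVn
      have hnull : (Measure.hausdorffMeasure 1 : Measure S1) (c ⁻¹' U) ≠ 0 := by
        intro h0
        apply hpos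
        rw [h_NHI.1 _ Metric.isClosed_sphere.measurableSet]
        unfold nHX
        rw [Measure.smul_apply, smul_eq_mul]
        have h0' : (Measure.hausdorffMeasure 1 : Measure (Metric.sphere (0 : ℂ) 1)) (c ⁻¹' U) = 0 := h0
        rw [h0', mul_zero]
      intro h0
      exact hnull (le_antisymm (le_trans le_self_add h0.le) bot_le)
    · have hV : IsOpen (l ⁻¹' U) := hU.preimage hl
      have hVn : (l ⁻¹' U).Nonempty := ⟨s, hx⟩
      intro h0
      exact GSP_.vL_pos L hL _ hV hVn (le_antisymm (le_trans le_add_self h0.le) bot_le)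

end Pool.Agent.FPZ
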