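import Pool.Agent.FPZ.Targets3

set_option autoImplicit false

/-!
# FPZ-OSM: norm of a sum with orthogonal supports
-/

open scoped Classical

noncomputable section

namespace Pool.Agent.FPZ

/-- absorption of the initial projection -/
theorem OSM_.abs {A : Type} [CStarAlgebra A] {e V : A} (he : IsStarProjection e) (h : star V * V = e) : V * e = V := by
  have h1 : star (V * (1 - e)) * (V * (1 - e)) = 0 := by
    have hs : star (1 - e) = 1 - e := by
      rw [star_sub, star_one, he.isSelfAdjoint.star_eq]
    rw [star_mul, hs]
    calc (1 - e) * star V * (V * (1 - e)) = (1 - e) * (star V * V) * (1 - e) := by simp only [mul_assoc]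
      _ = 0 := by
        rw [h]
        have : (1 - e) * e = 0 := by rw [sub_mul, one_mul, he.isIdempotentElem.eq, sub_self]
        rw [this, zero_mul]
  have h2 : V * (1 - e) = 0 := by
    have := CStarRing.star_mul_self_eq_zero_iff (V * (1 - e))
    exact this.1 h1
  rw [mul_sub, mul_one, sub_eq_zero] at h2
  exact h2.symm

theorem p_OSM : T_OSM := by
  intro A _ e m V c ε he hε h1 h2 hc
  let _ := CStarAlgebra.spectralOrder A
  let _ := CStarAlgebra.spectralOrderedRing A
  set X := ∑ i ∈ Finset.range m, V i * c i * star (V i) with hX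
  set P := ∑ i ∈ Finset.range m, V i * star (V i) with hP
  have hV : ∀ i < m, V i * e = V i := fun i hi => OSM_.abs he (h1 i hi)
  have hPs : star P = P := by
    rw [hP, star_sum]
    apply Finset.sum_congr rfl
    intro i _
    rw [star_mul, star_star]
  have hPP : P * P = P := by
    rw [hP, Finset.sum_mul]
    apply Finset.sum_congr rfl
    intro i hi
    rw [Finset.mul_sum, Finset.sum_eq_single i]
    · calc V i * star (V i) * (V i * star (V i)) = V i * (star (V i) * V i) * star (V i) := by simp only [mul_assoc]
        _ = V i * star (V i) := by rw [h1 i (Finset.mem_range.1 hi), hV i (Finset.mem_range.1 hi)]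
    · intro j hj hji
      calc V i * star (V i) * (V j * star (V j)) = V i * (star (V i) * V j) * star (V j) := by simp only [mul_assoc]
        _ = 0 := by rw [h2 i (Finset.mem_range.1 hi) j (Finset.mem_range.1 hj) (Ne.symm hji), mul_zero, zero_mul]
    · intro h
      exact absurd hi h
  have hPp : IsStarProjection P := ⟨hPP, hPs⟩
  have hXX : star X * X = ∑ i ∈ Finset.range m, V i * (star (c i) * e * c i) * star (V i) := by
    rw [hX, star_sum, Finset.sum_mul]
    apply Finset.sum_congr rfl
    intro i hi
    rw [Finset.mul_sum, Finset.sum_eq_single i]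
    · rw [star_mul, star_mul, star_star]
      calc V i * (star (c i) * star (V i)) * (V i * c i * star (V i)) =
          V i * (star (c i) * (star (V i) * V i) * c i) * star (V i) := by simp only [mul_assoc]
        _ = _ := by rw [h1 i (Finset.mem_range.1 hi)]
    · intro j hj hji
      rw [star_mul, star_mul, star_star]
      calc V i * (star (c i) * star (V i)) * (V j * c j * star (V j)) =
          V i * (star (c i) * (star (V i) * V j) * c j) * star (V j) := by simp only [mul_assoc]
        _ = 0 := by rw [h2 i (Finset.mem_range.1 hi) j (Finset.mem_range.1 hj) (Ne.symm hji)]; simp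
    · intro h
      exact absurd hi h
  have hle : star X * X ≤ algebraMap ℝ A (ε ^ 2) := by
    have hstep : ∀ i ∈ Finset.range m, V i * (star (c i) * e * c i) * star (V i) ≤ (ε ^ 2) • (V i * star (V i)) := by
      intro i hi
      have hnn : 0 ≤ star (c i) * e * c i := star_left_conjugate_nonneg he.nonneg (c i)
      have hnorm : ‖star (c i) * e * c i‖ ≤ ε ^ 2 := by
        have hci := hc i (Finset.mem_range.1 hi)
        have hen : ‖e‖ ≤ 1 := he.norm_le
        calc ‖star (c i) * e * c i‖ ≤ ‖star (c i) * e‖ * ‖c i‖ := norm_mul_le _ _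
          _ ≤ ‖star (c i)‖ * ‖e‖ * ‖c i‖ := mul_le_mul_of_nonneg_right (norm_mul_le _ _) (norm_nonneg _)
          _ = ‖c i‖ * ‖e‖ * ‖c i‖ := by rw [norm_star]
          _ ≤ ε * 1 * ε := by gcongr
          _ = ε ^ 2 := by ring
      have hle1 := (CStarAlgebra.norm_le_iff_le_algebraMap _ (by positivity) hnn).1 hnorm
      have hle2 := star_right_conjugate_le_conjugate hle1 (V i)
      rw [Algebra.algebraMap_eq_smul_one, mul_smul_comm, smul_mul_assoc, mul_one] at hle2
      exact hle2
    calc star X * X = _ := hXX
      _ ≤ ∑ i ∈ Finset.range m, (ε ^ 2) • (V i * star (V i)) := Finset.sum_le_sum hstep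
      _ = (ε ^ 2) • P := by rw [hP, Finset.smul_sum]
      _ ≤ (ε ^ 2) • (1 : A) := smul_le_smul_of_nonneg_left hPp.le_one (by positivity)
      _ = algebraMap ℝ A (ε ^ 2) := by rw [Algebra.algebraMap_eq_smul_one]
  have hnorm := (CStarAlgebra.norm_le_iff_le_algebraMap _ (by positivity) (star_mul_self_nonneg X)).2 hle
  rw [CStarRing.norm_star_mul_self] at hnorm
  nlinarith [norm_nonneg X]

end Pool.Agent.FPZ
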