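import Pool.Agent.FPZ.Targets1

set_option autoImplicit false

/-!
# FPZ, target SRI: `1 - x * y` is invertible
-/

open scoped Classical
open MeasureTheory

noncomputable section

namespace Pool.Agent.FPZ

namespace SRI_

theorem eq_zero_of_n2 {A : Type} [CStarAlgebra A] {φ : A →L[ℂ] ℂ} (h : TS φ) {x : A}
    (hx : n2 φ x = 0) : x = 0 := by
  apply h.fth
  have h1 := h.pos x
  unfold n2 at hx
  rw [Real.sqrt_eq_zero h1.1] at hx
  exact Complex.ext hx h1.2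

theorem n2_nonneg {A : Type} [CStarAlgebra A] (φ : A →L[ℂ] ℂ) (x : A) : 0 ≤ n2 φ x :=
  Real.sqrt_nonneg _

theorem n2_smul {A : Type} [CStarAlgebra A] (φ : A →L[ℂ] ℂ) (c : ℝ) (hc : 0 ≤ c) (x : A) :
    n2 φ ((c : ℂ) • x) = c * n2 φ x := by
  unfold n2
  rw [star_smul, smul_mul_smul_comm, map_smul]
  have h1 : star (c : ℂ) * (c : ℂ) = ((c ^ 2 : ℝ) : ℂ) := by
    rw [Complex.star_def, Complex.conj_ofReal]
    push_cast
    ring
  rw [h1, smul_eq_mul, Complex.re_ofReal_mul, Real.sqrt_mul (sq_nonneg c), Real.sqrt_sq hc]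

theorem tends {s M : ℝ} (h0 : 0 < s) (h1 : s < 1) :
    Filter.Tendsto (fun n : ℕ => s ^ (2 * n) + 2 * n * M * s ^ (2 * n - 1)) Filter.atTop
      (nhds 0) := by
  have hs2 : s ^ 2 < 1 := by nlinarith
  have h2 : Filter.Tendsto (fun n : ℕ => (s ^ 2) ^ n) Filter.atTop (nhds 0) :=
    tendsto_pow_atTop_nhds_zero_of_lt_one (sq_nonneg s) hs2
  have h3 : Filter.Tendsto (fun n : ℕ => (n : ℝ) * (s ^ 2) ^ n) Filter.atTop (nhds 0) :=
    tendsto_self_mul_const_pow_of_lt_one (sq_nonneg s) hs2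
  have h4 := h2.add (h3.const_mul (2 * M / s))
  rw [mul_zero, add_zero] at h4
  refine h4.congr (fun n => ?_)
  rcases n with _ | m
  · simp
  · have h5 : 2 * (m + 1) - 1 = 2 * m + 1 := by omega
    rw [h5]
    have h6 : s ≠ 0 := h0.ne'
    have h7 : (s ^ 2) ^ (m + 1) = s ^ (2 * (m + 1)) := by rw [← pow_mul]
    rw [h7]
    have h8 : s ^ (2 * (m + 1)) = s ^ (2 * m + 1) * s := by
      rw [← pow_succ]
      congr 1
    have h9 : 2 * M / s * (((m + 1 : ℕ) : ℝ) * s ^ (2 * (m + 1))) =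
        2 * ((m + 1 : ℕ) : ℝ) * M * s ^ (2 * m + 1) := by
      rw [h8]
      field_simp
    rw [h9]

theorem isUnit_of_pow {A : Type} [CStarAlgebra A] (z : A) (n : ℕ) (h : ‖z ^ n‖ < 1) :
    IsUnit (1 - z) := by
  have h1 : IsUnit (1 - z ^ n) := isUnit_one_sub_of_norm_lt_one h
  rw [← mul_neg_geom_sum] at h1
  have hc : Commute (1 - z) (∑ i ∈ Finset.range n, z ^ i) := by
    unfold Commute SemiconjBy
    rw [mul_neg_geom_sum, geom_sum_mul_neg]
  exact ((Commute.isUnit_mul_iff hc).1 h1).1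

end SRI_

theorem p_SRI (h_SRD : T_SRD) : T_SRI := by
  intro A _ φ S x y hφ hfree hx hy hφx hφy hlt
  rcases eq_or_ne (n2 φ x) 0 with ha | ha
  · rw [SRI_.eq_zero_of_n2 hφ ha, zero_mul, sub_zero]
    exact isUnit_one
  rcases eq_or_ne (n2 φ y) 0 with hb | hb
  · rw [SRI_.eq_zero_of_n2 hφ hb, mul_zero, sub_zero]
    exact isUnit_one
  have ha' : 0 < n2 φ x := lt_of_le_of_ne (SRI_.n2_nonneg φ x) (Ne.symm ha)
  have hb' : 0 < n2 φ y := lt_of_le_of_ne (SRI_.n2_nonneg φ y) (Ne.symm hb)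
  set a := n2 φ x with ha_def
  set b := n2 φ y with hb_def
  set s := Real.sqrt (a * b) with hs
  have hab : 0 < a * b := mul_pos ha' hb'
  have hs0 : 0 < s := Real.sqrt_pos.2 hab
  have hss : s * s = a * b := Real.mul_self_sqrt hab.le
  have hs1 : s < 1 := by
    by_contra hcon
    push Not at hcon
    nlinarith
  set c : ℝ := s / a with hc
  have hc0 : 0 < c := div_pos hs0 ha'
  have hx1 : n2 φ ((c : ℂ) • x) = s := by
    rw [SRI_.n2_smul φ c hc0.le, ← ha_def, hc]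
    field_simp
  have hy1 : n2 φ (((c⁻¹ : ℝ) : ℂ) • y) = s := by
    rw [SRI_.n2_smul φ c⁻¹ (inv_pos.2 hc0).le, ← hb_def, hc, inv_div, div_mul_eq_mul_div,
      ← hss]
    field_simp
  have hmem : ∀ (i : Bool) (k : ℂ) (z : A), z ∈ S i → k • z ∈ S i := by
    intro i k z hz
    exact (S i).smul_mem hz k
  have hφk : ∀ (k : ℂ) (z : A), φ z = 0 → φ (k • z) = 0 := by
    intro k z hz
    rw [map_smul, hz, smul_zero]
  have hxy : ((c : ℂ) • x) * (((c⁻¹ : ℝ) : ℂ) • y) = x * y := by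
    rw [smul_mul_smul_comm]
    have h1 : (c : ℂ) * ((c⁻¹ : ℝ) : ℂ) = 1 := by
      rw [← Complex.ofReal_mul, mul_inv_cancel₀ hc0.ne', Complex.ofReal_one]
    rw [h1, one_smul]
  have key := h_SRD A φ S ((c : ℂ) • x) (((c⁻¹ : ℝ) : ℂ) • y) s
    (max ‖(c : ℂ) • x‖ ‖((c⁻¹ : ℝ) : ℂ) • y‖) hφ hfree (hmem _ _ _ hx) (hmem _ _ _ hy)
    (hφk _ _ hφx) (hφk _ _ hφy) hx1.le hy1.le hs0.le hs1.le (le_max_left _ _) (le_max_right _ _)
  rw [hxy] at key
  have hev := (SRI_.tends (M := max ‖(c : ℂ) • x‖ ‖((c⁻¹ : ℝ) : ℂ) • y‖) hs0 hs1).eventually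
    (gt_mem_nhds (zero_lt_one : (0 : ℝ) < 1))
  obtain ⟨n, hn⟩ := hev.exists
  exact SRI_.isUnit_of_pow (x * y) n ((key n).trans_lt hn)

end Pool.Agent.FPZ
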